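import Pool.Agent.Helper65.PS.Base

set_option autoImplicit false

open MeasureTheory ProbabilityTheory

namespace Pool.H65.PS

section avc

variable {ι : Type} [Fintype ι] [Nonempty ι] (μ : Measure (ι → ℝ)) [IsProbabilityMeasure μ]

omit [Nonempty ι] in
theorem avc_integrable (f : (ι → ℝ) → ℝ) (hf : Continuous f) (B : ℝ) (hB : ∀ x, |f x| ≤ B) :
    Integrable f μ := by
  refine Integrable.of_bound hf.aestronglyMeasurable B ?_
  exact Filter.Eventually.of_forall (fun x => by simpa [Real.norm_eq_abs] using hB x)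

theorem avc_cont_k2 (u w : ι → ℝ) {X : Type} [TopologicalSpace X] (f : X → ι → ℝ)
    (hf : Continuous f) : Continuous (fun x => k2 (f x) u w) :=
  continuous_k2.comp (hf.prodMk (continuous_const.prodMk continuous_const))

theorem avc_cont_k3 (u v w : ι → ℝ) {X : Type} [TopologicalSpace X] (f : X → ι → ℝ)
    (hf : Continuous f) : Continuous (fun x => k3 (f x) u v w) :=
  continuous_k3.comp (hf.prodMk (continuous_const.prodMk (continuous_const.prodMk continuous_const)))

theorem avc_cont_k4 (a b u v : ι → ℝ) {X : Type} [TopologicalSpace X] (f : X → ι → ℝ)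
    (hf : Continuous f) : Continuous (fun x => k4 (f x) a b u v) :=
  continuous_k4.comp (hf.prodMk (continuous_const.prodMk (continuous_const.prodMk
    (continuous_const.prodMk continuous_const))))

theorem integrable_k2 (c u w : ι → ℝ) : Integrable (fun x => k2 (c + x) u w) μ :=
  avc_integrable μ _ (avc_cont_k2 u w _ (by fun_prop)) _ (fun x => abs_k2_le (c + x) u w)
theorem integrable_k3 (c u v w : ι → ℝ) : Integrable (fun x => k3 (c + x) u v w) μ :=
  avc_integrable μ _ (avc_cont_k3 u v w _ (by fun_prop)) _ (fun x => abs_k3_le (c + x) u v w)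
theorem integrable_k4 (c a b u v : ι → ℝ) : Integrable (fun x => k4 (c + x) a b u v) μ :=
  avc_integrable μ _ (avc_cont_k4 a b u v _ (by fun_prop)) _ (fun x => abs_k4_le (c + x) a b u v)

theorem hasDerivAt_int_k2 (c v u w : ι → ℝ) (t : ℝ) :
    HasDerivAt (fun s : ℝ => ∫ x, k2 (c + s • v + x) u w ∂μ)
      (∫ x, k3 (c + t • v + x) u w v ∂μ) t := by
  have hd : ∀ (x : ι → ℝ) (s : ℝ), HasDerivAt (fun s : ℝ => k2 (c + s • v + x) u w)
      (k3 (c + s • v + x) u w v) s := by
    intro x s
    have h := hasDerivAt_k2 (c + x) v u w s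
    have e : ∀ s : ℝ, c + x + s • v = c + s • v + x := fun s => by abel
    simpa only [e] using h
  exact (hasDerivAt_integral_of_dominated_loc_of_deriv_le (s := Set.univ)
    (bound := fun _ => 8 * ‖u‖ * ‖w‖ * ‖v‖) (F := fun s x => k2 (c + s • v + x) u w)
    (F' := fun s x => k3 (c + s • v + x) u w v) (μ := μ) (x₀ := t) Filter.univ_mem
    (Filter.Eventually.of_forall fun s => (integrable_k2 μ (c + s • v) u w).aestronglyMeasurable)
    (integrable_k2 μ (c + t • v) u w)
    (integrable_k3 μ (c + t • v) u w v).aestronglyMeasurable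
    (Filter.Eventually.of_forall fun x s _ => by
      simpa [Real.norm_eq_abs] using abs_k3_le (c + s • v + x) u w v)
    (integrable_const _)
    (Filter.Eventually.of_forall fun x s _ => hd x s)).2

theorem hasDerivAt_int_k3 (c v a b w : ι → ℝ) (t : ℝ) :
    HasDerivAt (fun s : ℝ => ∫ x, k3 (c + s • v + x) a b w ∂μ)
      (∫ x, k4 (c + t • v + x) a b w v ∂μ) t := by
  have hd : ∀ (x : ι → ℝ) (s : ℝ), HasDerivAt (fun s : ℝ => k3 (c + s • v + x) a b w)
      (k4 (c + s • v + x) a b w v) s := by
    intro x s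
    have h := hasDerivAt_k3 (c + x) v a b w s
    have e : ∀ s : ℝ, c + x + s • v = c + s • v + x := fun s => by abel
    simpa only [e] using h
  exact (hasDerivAt_integral_of_dominated_loc_of_deriv_le (s := Set.univ)
    (bound := fun _ => 64 * ‖a‖ * ‖b‖ * ‖w‖ * ‖v‖) (F := fun s x => k3 (c + s • v + x) a b w)
    (F' := fun s x => k4 (c + s • v + x) a b w v) (μ := μ) (x₀ := t) Filter.univ_mem
    (Filter.Eventually.of_forall fun s => (integrable_k3 μ (c + s • v) a b w).aestronglyMeasurable)
    (integrable_k3 μ (c + t • v) a b w)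
    (integrable_k4 μ (c + t • v) a b w v).aestronglyMeasurable
    (Filter.Eventually.of_forall fun x s _ => by
      simpa [Real.norm_eq_abs] using abs_k4_le (c + s • v + x) a b w v)
    (integrable_const _)
    (Filter.Eventually.of_forall fun x s _ => hd x s)).2

theorem continuous_int_k4 (c v a b u w : ι → ℝ) :
    Continuous (fun s : ℝ => ∫ x, k4 (c + s • v + x) a b u w ∂μ) := by
  refine continuous_of_dominated (bound := fun _ => 64 * ‖a‖ * ‖b‖ * ‖u‖ * ‖w‖)
    (fun s => (integrable_k4 μ (c + s • v) a b u w).aestronglyMeasurable)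
    (fun s => Filter.Eventually.of_forall fun x => by
      simpa [Real.norm_eq_abs] using abs_k4_le (c + s • v + x) a b u w)
    (integrable_const _) (Filter.Eventually.of_forall fun x => ?_)
  exact avc_cont_k4 a b u w _ (by fun_prop)

omit [Nonempty ι] in
theorem avc_meas (v : ι → ℝ) :
    Measurable (fun p : ℝ × (ι → ℝ) => p.1 • v + p.2) := by
  have : Continuous (fun p : ℝ × (ι → ℝ) => p.1 • v + p.2) := by fun_prop
  exact this.measurable

instance isProb_addG (v : ι → ℝ) : IsProbabilityMeasure (addG v μ) := by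
  unfold addG
  exact Measure.isProbabilityMeasure_map (avc_meas v).aemeasurable

/-- Fubini for `addG`. -/
theorem integral_addG (v : ι → ℝ) (F : (ι → ℝ) → ℝ) (hF : Continuous F) (B : ℝ)
    (hB : ∀ x, |F x| ≤ B) :
    ∫ x, F x ∂(addG v μ) = ∫ t, ∫ x, F (t • v + x) ∂μ ∂(gaussianReal 0 1) := by
  unfold addG
  rw [integral_map (avc_meas v).aemeasurable hF.aestronglyMeasurable]
  have hc : Continuous (fun p : ℝ × (ι → ℝ) => F (p.1 • v + p.2)) := hF.comp (by fun_prop)
  exact integral_prod (fun p : ℝ × (ι → ℝ) => F (p.1 • v + p.2))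
    (Integrable.of_bound hc.aestronglyMeasurable B
      (Filter.Eventually.of_forall fun p => by simpa [Real.norm_eq_abs] using hB _))

end avc

end Pool.H65.PS
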