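import Pool.Agent.Helper65.PS.Defs

set_option autoImplicit false

open MeasureTheory ProbabilityTheory

set_option linter.unusedSectionVars false

namespace Pool.H65.PS

section base

variable {ι : Type} [Fintype ι] [Nonempty ι]

theorem sexp_pos (x : ι → ℝ) : 0 < ∑ k, Real.exp (x k) :=
  Finset.sum_pos (fun _ _ => Real.exp_pos _) Finset.univ_nonempty

theorem sm_pos (x : ι → ℝ) (j : ι) : 0 < sm x j :=
  div_pos (Real.exp_pos _) (sexp_pos x)

theorem sm_sum (x : ι → ℝ) : ∑ j, sm x j = 1 := by
  unfold sm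
  rw [← Finset.sum_div, div_self (sexp_pos x).ne']

theorem mn_add (x v w : ι → ℝ) : mn x (v + w) = mn x v + mn x w := by
  simp only [mn, Pi.add_apply, mul_add, Finset.sum_add_distrib]

theorem mn_smul (r : ℝ) (x v : ι → ℝ) : mn x (r • v) = r * mn x v := by
  simp only [mn, Pi.smul_apply, smul_eq_mul, Finset.mul_sum]
  exact Finset.sum_congr rfl (fun j _ => by ring)

theorem k2_comm (x v w : ι → ℝ) : k2 x v w = k2 x w v :=
  Finset.sum_congr rfl (fun j _ => by ring)

theorem k2_add_left (x u v w : ι → ℝ) : k2 x (u + v) w = k2 x u w + k2 x v w := by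
  simp only [k2, mn_add, Pi.add_apply, ← Finset.sum_add_distrib]
  exact Finset.sum_congr rfl (fun j _ => by ring)

theorem k2_smul_left (r : ℝ) (x v w : ι → ℝ) : k2 x (r • v) w = r * k2 x v w := by
  simp only [k2, mn_smul, Pi.smul_apply, smul_eq_mul, Finset.mul_sum]
  exact Finset.sum_congr rfl (fun j _ => by ring)

theorem k3_comm12 (x u v w : ι → ℝ) : k3 x u v w = k3 x v u w :=
  Finset.sum_congr rfl (fun j _ => by ring)

theorem k3_comm23 (x u v w : ι → ℝ) : k3 x u v w = k3 x u w v :=
  Finset.sum_congr rfl (fun j _ => by ring)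

theorem k3_add_left (x u u' v w : ι → ℝ) : k3 x (u + u') v w = k3 x u v w + k3 x u' v w := by
  simp only [k3, mn_add, Pi.add_apply, ← Finset.sum_add_distrib]
  exact Finset.sum_congr rfl (fun j _ => by ring)

theorem k3_smul_left (r : ℝ) (x u v w : ι → ℝ) : k3 x (r • u) v w = r * k3 x u v w := by
  simp only [k3, mn_smul, Pi.smul_apply, smul_eq_mul, Finset.mul_sum]
  exact Finset.sum_congr rfl (fun j _ => by ring)

theorem k4_comm12 (x a b u v : ι → ℝ) : k4 x a b u v = k4 x b a u v := by
  unfold k4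
  rw [k2_comm x a b]
  have : ∀ j, sm x j * ((a j - mn x a) * (b j - mn x b) * (u j - mn x u) * (v j - mn x v))
    = sm x j * ((b j - mn x b) * (a j - mn x a) * (u j - mn x u) * (v j - mn x v)) := by
    intro j; ring
  rw [Finset.sum_congr rfl (fun j _ => this j)]
  ring

theorem k4_comm23 (x a b u v : ι → ℝ) : k4 x a b u v = k4 x a u b v := by
  unfold k4
  rw [k2_comm x u b]
  have : ∀ j, sm x j * ((a j - mn x a) * (b j - mn x b) * (u j - mn x u) * (v j - mn x v))
    = sm x j * ((a j - mn x a) * (u j - mn x u) * (b j - mn x b) * (v j - mn x v)) := by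
    intro j; ring
  rw [Finset.sum_congr rfl (fun j _ => this j)]
  ring

theorem k4_comm34 (x a b u v : ι → ℝ) : k4 x a b u v = k4 x a b v u := by
  unfold k4
  rw [k2_comm x u v]
  have : ∀ j, sm x j * ((a j - mn x a) * (b j - mn x b) * (u j - mn x u) * (v j - mn x v))
    = sm x j * ((a j - mn x a) * (b j - mn x b) * (v j - mn x v) * (u j - mn x u)) := by
    intro j; ring
  rw [Finset.sum_congr rfl (fun j _ => this j)]
  ring

theorem k4_add_left (x a a' b u v : ι → ℝ) :
    k4 x (a + a') b u v = k4 x a b u v + k4 x a' b u v := by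
  unfold k4
  simp only [k2_add_left, mn_add, Pi.add_apply]
  have : ∀ j, sm x j * ((a j + a' j - (mn x a + mn x a')) * (b j - mn x b) * (u j - mn x u)
      * (v j - mn x v))
    = sm x j * ((a j - mn x a) * (b j - mn x b) * (u j - mn x u) * (v j - mn x v))
      + sm x j * ((a' j - mn x a') * (b j - mn x b) * (u j - mn x u) * (v j - mn x v)) := by
    intro j; ring
  rw [Finset.sum_congr rfl (fun j _ => this j), Finset.sum_add_distrib]
  ring

theorem k4_smul_left (r : ℝ) (x a b u v : ι → ℝ) : k4 x (r • a) b u v = r * k4 x a b u v := by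
  unfold k4
  simp only [k2_smul_left, mn_smul, Pi.smul_apply, smul_eq_mul]
  have : ∀ j, sm x j * ((r * a j - r * mn x a) * (b j - mn x b) * (u j - mn x u)
      * (v j - mn x v))
    = r * (sm x j * ((a j - mn x a) * (b j - mn x b) * (u j - mn x u) * (v j - mn x v))) := by
    intro j; ring
  rw [Finset.sum_congr rfl (fun j _ => this j), ← Finset.mul_sum]
  ring

/-! centred sums vanish -/

theorem sum_sm_centered (x v : ι → ℝ) : ∑ j, sm x j * (v j - mn x v) = 0 := by
  simp only [mul_sub, Finset.sum_sub_distrib, ← Finset.sum_mul, sm_sum]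
  simp [mn]

theorem k2_eq (x v w : ι → ℝ) : k2 x v w = ∑ j, sm x j * (v j * w j) - mn x v * mn x w := by
  have h : ∀ j, sm x j * ((v j - mn x v) * (w j - mn x w))
      = sm x j * (v j * w j) - mn x v * (sm x j * (w j - mn x w)) - (sm x j * v j) * mn x w := by
    intro j; ring
  unfold k2
  rw [Finset.sum_congr rfl (fun j _ => h j), Finset.sum_sub_distrib, Finset.sum_sub_distrib,
    ← Finset.mul_sum, sum_sm_centered, ← Finset.sum_mul]
  simp [mn]

theorem hasDerivAt_coord (x h : ι → ℝ) (t : ℝ) (j : ι) :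
    HasDerivAt (fun s : ℝ => (x + s • h) j) (h j) t := by
  simpa using ((hasDerivAt_id t).mul_const (h j)).const_add (x j)

theorem hasDerivAt_sexp (x h : ι → ℝ) (t : ℝ) :
    HasDerivAt (fun s : ℝ => ∑ k, Real.exp ((x + s • h) k))
      (∑ k, Real.exp ((x + t • h) k) * h k) t := by
  apply HasDerivAt.fun_sum
  intro k _
  exact (hasDerivAt_coord x h t k).exp

theorem sexp_mul_mn (x v : ι → ℝ) :
    ∑ k, Real.exp (x k) * v k = (∑ k, Real.exp (x k)) * mn x v := by
  unfold mn sm
  rw [Finset.mul_sum]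
  refine Finset.sum_congr rfl (fun j _ => ?_)
  have := (sexp_pos x).ne'
  field_simp

theorem hasDerivAt_lse (x h : ι → ℝ) (t : ℝ) :
    HasDerivAt (fun s : ℝ => lse (x + s • h)) (mn (x + t • h) h) t := by
  have h1 := (hasDerivAt_sexp x h t).log (sexp_pos _).ne'
  refine h1.congr_deriv ?_
  rw [sexp_mul_mn]
  have := (sexp_pos (x + t • h)).ne'
  field_simp

theorem hasDerivAt_sm (x h : ι → ℝ) (t : ℝ) (j : ι) :
    HasDerivAt (fun s : ℝ => sm (x + s • h) j)
      (sm (x + t • h) j * (h j - mn (x + t • h) h)) t := by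
  have h1 := ((hasDerivAt_coord x h t j).exp).div (hasDerivAt_sexp x h t) (sexp_pos _).ne'
  refine h1.congr_deriv ?_
  rw [sexp_mul_mn]
  unfold sm
  have := (sexp_pos (x + t • h)).ne'
  field_simp

theorem hasDerivAt_mn (x h v : ι → ℝ) (t : ℝ) :
    HasDerivAt (fun s : ℝ => mn (x + s • h) v) (k2 (x + t • h) v h) t := by
  have h1 : HasDerivAt (fun s : ℝ => ∑ j, sm (x + s • h) j * v j)
      (∑ j, sm (x + t • h) j * (h j - mn (x + t • h) h) * v j) t := by
    apply HasDerivAt.fun_sum
    intro j _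
    exact (hasDerivAt_sm x h t j).mul_const (v j)
  refine h1.congr_deriv ?_
  rw [k2_comm]
  unfold k2
  have e : ∀ j, sm (x + t • h) j * (h j - mn (x + t • h) h) * v j
      = sm (x + t • h) j * ((h j - mn (x + t • h) h) * (v j - mn (x + t • h) v))
        + sm (x + t • h) j * (h j - mn (x + t • h) h) * mn (x + t • h) v := by
    intro j; ring
  rw [Finset.sum_congr rfl (fun j _ => e j), Finset.sum_add_distrib, ← Finset.sum_mul,
    sum_sm_centered]
  ring

theorem hasDerivAt_k2 (x h v w : ι → ℝ) (t : ℝ) :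
    HasDerivAt (fun s : ℝ => k2 (x + s • h) v w) (k3 (x + t • h) v w h) t := by
  have h1 : HasDerivAt (fun s : ℝ => ∑ j, sm (x + s • h) j *
        ((v j - mn (x + s • h) v) * (w j - mn (x + s • h) w)))
      (∑ j, (sm (x + t • h) j * (h j - mn (x + t • h) h) *
          ((v j - mn (x + t • h) v) * (w j - mn (x + t • h) w))
        + sm (x + t • h) j * ((- k2 (x + t • h) v h) * (w j - mn (x + t • h) w)
          + (v j - mn (x + t • h) v) * (- k2 (x + t • h) w h)))) t := by
    apply HasDerivAt.fun_sum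
    intro j _
    have a := hasDerivAt_sm x h t j
    have b := (hasDerivAt_mn x h v t).const_sub (v j)
    have c := (hasDerivAt_mn x h w t).const_sub (w j)
    exact a.mul (b.mul c)
  refine h1.congr_deriv ?_
  unfold k3
  have e : ∀ j, (sm (x + t • h) j * (h j - mn (x + t • h) h) *
          ((v j - mn (x + t • h) v) * (w j - mn (x + t • h) w))
        + sm (x + t • h) j * ((- k2 (x + t • h) v h) * (w j - mn (x + t • h) w)
          + (v j - mn (x + t • h) v) * (- k2 (x + t • h) w h)))
      = sm (x + t • h) j * ((v j - mn (x + t • h) v) * (w j - mn (x + t • h) w)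
          * (h j - mn (x + t • h) h))
        + (- k2 (x + t • h) v h) * (sm (x + t • h) j * (w j - mn (x + t • h) w))
        + (- k2 (x + t • h) w h) * (sm (x + t • h) j * (v j - mn (x + t • h) v)) := by
    intro j; ring
  rw [Finset.sum_congr rfl (fun j _ => e j), Finset.sum_add_distrib, Finset.sum_add_distrib,
    ← Finset.mul_sum, ← Finset.mul_sum, sum_sm_centered, sum_sm_centered]
  ring

theorem hasDerivAt_k3 (x h u v w : ι → ℝ) (t : ℝ) :
    HasDerivAt (fun s : ℝ => k3 (x + s • h) u v w) (k4 (x + t • h) u v w h) t := by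
  have h1 : HasDerivAt (fun s : ℝ => ∑ j, sm (x + s • h) j *
        ((u j - mn (x + s • h) u) * (v j - mn (x + s • h) v) * (w j - mn (x + s • h) w)))
      (∑ j, (sm (x + t • h) j * (h j - mn (x + t • h) h) *
          ((u j - mn (x + t • h) u) * (v j - mn (x + t • h) v) * (w j - mn (x + t • h) w))
        + sm (x + t • h) j * (((- k2 (x + t • h) u h) * (v j - mn (x + t • h) v)
          + (u j - mn (x + t • h) u) * (- k2 (x + t • h) v h)) * (w j - mn (x + t • h) w)
          + (u j - mn (x + t • h) u) * (v j - mn (x + t • h) v) * (- k2 (x + t • h) w h)))) t := by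
    apply HasDerivAt.fun_sum
    intro j _
    have a := hasDerivAt_sm x h t j
    have b := (hasDerivAt_mn x h u t).const_sub (u j)
    have c := (hasDerivAt_mn x h v t).const_sub (v j)
    have d := (hasDerivAt_mn x h w t).const_sub (w j)
    exact a.mul ((b.mul c).mul d)
  refine h1.congr_deriv ?_
  unfold k4
  have e : ∀ j, (sm (x + t • h) j * (h j - mn (x + t • h) h) *
          ((u j - mn (x + t • h) u) * (v j - mn (x + t • h) v) * (w j - mn (x + t • h) w))
        + sm (x + t • h) j * (((- k2 (x + t • h) u h) * (v j - mn (x + t • h) v)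
          + (u j - mn (x + t • h) u) * (- k2 (x + t • h) v h)) * (w j - mn (x + t • h) w)
          + (u j - mn (x + t • h) u) * (v j - mn (x + t • h) v) * (- k2 (x + t • h) w h)))
      = sm (x + t • h) j * ((u j - mn (x + t • h) u) * (v j - mn (x + t • h) v)
          * (w j - mn (x + t • h) w) * (h j - mn (x + t • h) h))
        - k2 (x + t • h) u h * (sm (x + t • h) j * ((v j - mn (x + t • h) v)
          * (w j - mn (x + t • h) w)))
        - k2 (x + t • h) v h * (sm (x + t • h) j * ((u j - mn (x + t • h) u)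
          * (w j - mn (x + t • h) w)))
        - k2 (x + t • h) w h * (sm (x + t • h) j * ((u j - mn (x + t • h) u)
          * (v j - mn (x + t • h) v))) := by
    intro j; ring
  rw [Finset.sum_congr rfl (fun j _ => e j), Finset.sum_sub_distrib, Finset.sum_sub_distrib,
    Finset.sum_sub_distrib, ← Finset.mul_sum, ← Finset.mul_sum, ← Finset.mul_sum]
  have e1 : ∀ y z : ι → ℝ, ∑ j, sm (x + t • h) j * ((y j - mn (x + t • h) y)
          * (z j - mn (x + t • h) z)) = k2 (x + t • h) y z := fun _ _ => rfl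
  rw [e1, e1, e1]
  ring

theorem continuous_sexp : Continuous (fun x : ι → ℝ => ∑ j, Real.exp (x j)) := by
  fun_prop

theorem continuous_lse : Continuous (fun x : ι → ℝ => lse x) := by
  unfold lse
  exact Continuous.log continuous_sexp (fun x => (sexp_pos x).ne')

theorem continuous_sm (j : ι) : Continuous (fun x : ι → ℝ => sm x j) := by
  unfold sm
  exact Continuous.div (by fun_prop) continuous_sexp (fun x => (sexp_pos x).ne')

theorem continuous_mn : Continuous (fun p : (ι → ℝ) × (ι → ℝ) => mn p.1 p.2) := by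
  unfold mn
  refine continuous_finsetSum _ (fun j _ => ?_)
  exact ((continuous_sm j).comp continuous_fst).mul (by fun_prop)

theorem cont_mn_comp {X : Type} [TopologicalSpace X] {f g : X → ι → ℝ} (hf : Continuous f)
    (hg : Continuous g) : Continuous (fun x => mn (f x) (g x)) :=
  continuous_mn.comp (hf.prodMk hg)

theorem cont_sm_comp {X : Type} [TopologicalSpace X] {f : X → ι → ℝ} (hf : Continuous f) (j : ι) :
    Continuous (fun x => sm (f x) j) :=
  (continuous_sm j).comp hf

theorem cont_k2_comp {X : Type} [TopologicalSpace X] {f g h : X → ι → ℝ} (hf : Continuous f)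
    (hg : Continuous g) (hh : Continuous h) : Continuous (fun x => k2 (f x) (g x) (h x)) := by
  unfold k2
  refine continuous_finsetSum _ (fun j _ => ?_)
  have a := cont_sm_comp hf j
  have b := cont_mn_comp hf hg
  have c := cont_mn_comp hf hh
  have b' := (continuous_apply j).comp hg
  have c' := (continuous_apply j).comp hh
  exact a.mul ((b'.sub b).mul (c'.sub c))

theorem cont_k3_comp {X : Type} [TopologicalSpace X] {f g h k : X → ι → ℝ} (hf : Continuous f)
    (hg : Continuous g) (hh : Continuous h) (hk : Continuous k) :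
    Continuous (fun x => k3 (f x) (g x) (h x) (k x)) := by
  unfold k3
  refine continuous_finsetSum _ (fun j _ => ?_)
  have a := cont_sm_comp hf j
  have b := cont_mn_comp hf hg
  have c := cont_mn_comp hf hh
  have d := cont_mn_comp hf hk
  have b' := (continuous_apply j).comp hg
  have c' := (continuous_apply j).comp hh
  have d' := (continuous_apply j).comp hk
  exact a.mul (((b'.sub b).mul (c'.sub c)).mul (d'.sub d))

theorem cont_k4_comp {X : Type} [TopologicalSpace X] {f g h k l : X → ι → ℝ} (hf : Continuous f)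
    (hg : Continuous g) (hh : Continuous h) (hk : Continuous k) (hl : Continuous l) :
    Continuous (fun x => k4 (f x) (g x) (h x) (k x) (l x)) := by
  unfold k4
  have e : Continuous (fun x => ∑ j, sm (f x) j * ((g x j - mn (f x) (g x))
      * (h x j - mn (f x) (h x)) * (k x j - mn (f x) (k x)) * (l x j - mn (f x) (l x)))) := by
    refine continuous_finsetSum _ (fun j _ => ?_)
    have a := cont_sm_comp hf j
    have b := cont_mn_comp hf hg
    have c := cont_mn_comp hf hh
    have d := cont_mn_comp hf hk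
    have e := cont_mn_comp hf hl
    have b' := (continuous_apply j).comp hg
    have c' := (continuous_apply j).comp hh
    have d' := (continuous_apply j).comp hk
    have e' := (continuous_apply j).comp hl
    exact a.mul ((((b'.sub b).mul (c'.sub c)).mul (d'.sub d)).mul (e'.sub e))
  exact ((e.sub ((cont_k2_comp hf hg hh).mul (cont_k2_comp hf hk hl))).sub
    ((cont_k2_comp hf hg hk).mul (cont_k2_comp hf hh hl))).sub
    ((cont_k2_comp hf hg hl).mul (cont_k2_comp hf hh hk))

theorem continuous_k2 :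
    Continuous (fun p : (ι → ℝ) × (ι → ℝ) × (ι → ℝ) => k2 p.1 p.2.1 p.2.2) :=
  cont_k2_comp (by fun_prop) (by fun_prop) (by fun_prop)

theorem continuous_k3 :
    Continuous (fun p : (ι → ℝ) × (ι → ℝ) × (ι → ℝ) × (ι → ℝ) =>
      k3 p.1 p.2.1 p.2.2.1 p.2.2.2) :=
  cont_k3_comp (by fun_prop) (by fun_prop) (by fun_prop) (by fun_prop)

theorem continuous_k4 :
    Continuous (fun p : (ι → ℝ) × (ι → ℝ) × (ι → ℝ) × (ι → ℝ) × (ι → ℝ) =>
      k4 p.1 p.2.1 p.2.2.1 p.2.2.2.1 p.2.2.2.2) :=
  cont_k4_comp (by fun_prop) (by fun_prop) (by fun_prop) (by fun_prop) (by fun_prop)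

/-- a softmax average of a function bounded by `B` is bounded by `B`. -/
theorem abs_sm_avg_le (x : ι → ℝ) (f : ι → ℝ) (B : ℝ) (hB : ∀ j, |f j| ≤ B) :
    |∑ j, sm x j * f j| ≤ B := by
  calc |∑ j, sm x j * f j| ≤ ∑ j, |sm x j * f j| := Finset.abs_sum_le_sum_abs _ _
    _ ≤ ∑ j, sm x j * B := by
        refine Finset.sum_le_sum (fun j _ => ?_)
        rw [abs_mul, abs_of_pos (sm_pos x j)]
        exact mul_le_mul_of_nonneg_left (hB j) (sm_pos x j).le
    _ = B := by rw [← Finset.sum_mul, sm_sum, one_mul]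

/-- `‖·‖` is the sup norm on `ι → ℝ`. -/
theorem abs_mn_le (x v : ι → ℝ) : |mn x v| ≤ ‖v‖ :=
  abs_sm_avg_le x v ‖v‖ (fun j => by simpa using norm_le_pi_norm v j)

theorem abs_cent_le (x v : ι → ℝ) (j : ι) : |v j - mn x v| ≤ 2 * ‖v‖ := by
  have h1 := abs_mn_le x v
  have h2 : |v j| ≤ ‖v‖ := by simpa using norm_le_pi_norm v j
  have := abs_sub (v j) (mn x v)
  linarith

theorem k2_nonneg (x v : ι → ℝ) : 0 ≤ k2 x v v :=
  Finset.sum_nonneg (fun j _ => mul_nonneg (sm_pos x j).le (mul_self_nonneg _))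

theorem abs_k2_le (x v w : ι → ℝ) : |k2 x v w| ≤ 4 * ‖v‖ * ‖w‖ := by
  refine abs_sm_avg_le x _ _ (fun j => ?_)
  rw [abs_mul]
  calc |v j - mn x v| * |w j - mn x w| ≤ (2 * ‖v‖) * (2 * ‖w‖) :=
        mul_le_mul (abs_cent_le x v j) (abs_cent_le x w j) (abs_nonneg _) (by positivity)
    _ = 4 * ‖v‖ * ‖w‖ := by ring

theorem abs_k3_le (x u v w : ι → ℝ) : |k3 x u v w| ≤ 8 * ‖u‖ * ‖v‖ * ‖w‖ := by
  refine abs_sm_avg_le x _ _ (fun j => ?_)
  rw [abs_mul, abs_mul]
  calc |u j - mn x u| * |v j - mn x v| * |w j - mn x w|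
      ≤ (2 * ‖u‖) * (2 * ‖v‖) * (2 * ‖w‖) := by
        refine mul_le_mul (mul_le_mul (abs_cent_le x u j) (abs_cent_le x v j) (abs_nonneg _)
          (by positivity)) (abs_cent_le x w j) (abs_nonneg _) (by positivity)
    _ = 8 * ‖u‖ * ‖v‖ * ‖w‖ := by ring

theorem abs_k4_le (x a b u v : ι → ℝ) : |k4 x a b u v| ≤ 64 * ‖a‖ * ‖b‖ * ‖u‖ * ‖v‖ := by
  have h4 : |∑ j, sm x j * ((a j - mn x a) * (b j - mn x b) * (u j - mn x u) * (v j - mn x v))|
      ≤ 16 * ‖a‖ * ‖b‖ * ‖u‖ * ‖v‖ := by
    refine abs_sm_avg_le x _ _ (fun j => ?_)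
    rw [abs_mul, abs_mul, abs_mul]
    calc |a j - mn x a| * |b j - mn x b| * |u j - mn x u| * |v j - mn x v|
        ≤ (2 * ‖a‖) * (2 * ‖b‖) * (2 * ‖u‖) * (2 * ‖v‖) := by
          refine mul_le_mul (mul_le_mul (mul_le_mul (abs_cent_le x a j) (abs_cent_le x b j)
            (abs_nonneg _) (by positivity)) (abs_cent_le x u j) (abs_nonneg _) (by positivity))
            (abs_cent_le x v j) (abs_nonneg _) (by positivity)
      _ = 16 * ‖a‖ * ‖b‖ * ‖u‖ * ‖v‖ := by ring
  have hp : ∀ y z y' z' : ι → ℝ, |k2 x y z * k2 x y' z'| ≤ (4 * ‖y‖ * ‖z‖) * (4 * ‖y'‖ * ‖z'‖) := by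
    intro y z y' z'
    rw [abs_mul]
    exact mul_le_mul (abs_k2_le x y z) (abs_k2_le x y' z') (abs_nonneg _) (by positivity)
  have h1 := hp a b u v
  have h2 := hp a u b v
  have h3 := hp a v b u
  unfold k4
  rw [abs_le] at h4 h1 h2 h3 ⊢
  constructor <;> nlinarith [h4.1, h4.2, h1.1, h1.2, h2.1, h2.2, h3.1, h3.2]

theorem abs_k3_self_le (x w v : ι → ℝ) : |k3 x w w v| ≤ 2 * ‖v‖ * k2 x w w := by
  unfold k3 k2
  calc |∑ j, sm x j * ((w j - mn x w) * (w j - mn x w) * (v j - mn x v))|
      ≤ ∑ j, |sm x j * ((w j - mn x w) * (w j - mn x w) * (v j - mn x v))| :=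
        Finset.abs_sum_le_sum_abs _ _
    _ ≤ ∑ j, 2 * ‖v‖ * (sm x j * ((w j - mn x w) * (w j - mn x w))) := by
        refine Finset.sum_le_sum (fun j _ => ?_)
        rw [abs_mul, abs_mul, abs_of_pos (sm_pos x j), abs_of_nonneg (mul_self_nonneg _)]
        have h1 := abs_cent_le x v j
        have h2 : 0 ≤ sm x j * ((w j - mn x w) * (w j - mn x w)) :=
          mul_nonneg (sm_pos x j).le (mul_self_nonneg _)
        calc sm x j * ((w j - mn x w) * (w j - mn x w) * |v j - mn x v|)
            = sm x j * ((w j - mn x w) * (w j - mn x w)) * |v j - mn x v| := by ring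
          _ ≤ sm x j * ((w j - mn x w) * (w j - mn x w)) * (2 * ‖v‖) :=
            mul_le_mul_of_nonneg_left h1 h2
          _ = _ := by ring
    _ = _ := by rw [← Finset.mul_sum]

theorem k3_sq_le (x a b w : ι → ℝ) : k3 x a b w ^ 2 ≤ 16 * ‖a‖ ^ 2 * ‖b‖ ^ 2 * k2 x w w := by
  have h1 : k3 x a b w ^ 2 ≤ (∑ j, sm x j * ((a j - mn x a) * (b j - mn x b)) ^ 2)
      * (∑ j, sm x j * (w j - mn x w) ^ 2) := by
    unfold k3
    apply Finset.sum_sq_le_sum_mul_sum_of_sq_le_mul
    · intro j _; exact mul_nonneg (sm_pos x j).le (sq_nonneg _)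
    · intro j _; exact mul_nonneg (sm_pos x j).le (sq_nonneg _)
    · intro j _; exact le_of_eq (by ring)
  have h2 : ∑ j, sm x j * ((a j - mn x a) * (b j - mn x b)) ^ 2 ≤ 16 * ‖a‖ ^ 2 * ‖b‖ ^ 2 := by
    refine (le_abs_self _).trans (abs_sm_avg_le x _ _ (fun j => ?_))
    have h := mul_le_mul (abs_cent_le x a j) (abs_cent_le x b j) (abs_nonneg _) (by positivity)
    rw [← abs_mul] at h
    rw [abs_of_nonneg (sq_nonneg _), ← sq_abs]
    calc |(a j - mn x a) * (b j - mn x b)| ^ 2 ≤ (2 * ‖a‖ * (2 * ‖b‖)) ^ 2 :=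
          pow_le_pow_left₀ (abs_nonneg _) h 2
      _ = _ := by ring
  have h3 : ∑ j, sm x j * (w j - mn x w) ^ 2 = k2 x w w := by
    unfold k2; exact Finset.sum_congr rfl (fun j _ => by ring)
  rw [h3] at h1
  exact h1.trans (mul_le_mul_of_nonneg_right h2 (k2_nonneg x w))

theorem le_lse (x : ι → ℝ) (j : ι) : x j ≤ lse x := by
  unfold lse
  rw [Real.le_log_iff_exp_le (sexp_pos x)]
  exact Finset.single_le_sum (f := fun k => Real.exp (x k)) (fun k _ => (Real.exp_pos _).le)
    (Finset.mem_univ j)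

theorem lse_mono {x y : ι → ℝ} (h : ∀ j, x j ≤ y j) : lse x ≤ lse y := by
  unfold lse
  exact Real.log_le_log (sexp_pos x) (Finset.sum_le_sum (fun j _ => Real.exp_le_exp.2 (h j)))

theorem lse_add_const (x : ι → ℝ) (r : ℝ) : lse (fun j => x j + r) = lse x + r := by
  unfold lse
  simp only [Real.exp_add, ← Finset.sum_mul]
  rw [Real.log_mul (sexp_pos x).ne' (Real.exp_pos r).ne', Real.log_exp]

theorem lse_zero_const (r : ℝ) : lse (fun _ : ι => r) = Real.log (Fintype.card ι) + r := by
  have : (fun _ : ι => r) = (fun j : ι => (fun _ : ι => (0 : ℝ)) j + r) := by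
    funext j; simp
  rw [this, lse_add_const]
  congr 1
  unfold lse
  simp

theorem lse_le_log_add_iSup (x : ι → ℝ) :
    lse x ≤ Real.log (Fintype.card ι) + ⨆ j, x j := by
  rw [← lse_zero_const]
  exact lse_mono (fun j => le_ciSup (Set.finite_range x).bddAbove j)

theorem abs_lse_sub_le (x y : ι → ℝ) : |lse x - lse y| ≤ ‖x - y‖ := by
  have key : ∀ x y : ι → ℝ, lse x - lse y ≤ ‖x - y‖ := by
    intro x y
    have h1 : lse x ≤ lse (fun j => y j + ‖x - y‖) := by
      refine lse_mono (fun j => ?_)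
      have h2 : |(x - y) j| ≤ ‖x - y‖ := by simpa using norm_le_pi_norm (x - y) j
      have h3 := le_abs_self ((x - y) j)
      simp only [Pi.sub_apply] at h2 h3
      linarith
    rw [lse_add_const] at h1
    linarith
  rw [abs_le]
  constructor
  · have := key y x
    rw [norm_sub_rev] at this
    linarith
  · exact key x y

/-- if `f 0 ≤ 0` and `f' ≤ 0` on `[0,∞)` then `f ≤ 0` there. -/
theorem nonpos_of_deriv (f f' : ℝ → ℝ) (hf : ∀ t, HasDerivAt f (f' t) t) (h0 : f 0 ≤ 0)
    (h : ∀ t, 0 ≤ t → f' t ≤ 0) : ∀ t, 0 ≤ t → f t ≤ 0 := by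
  intro t ht
  have h1 : AntitoneOn f (Set.Ici 0) := by
    apply antitoneOn_of_deriv_nonpos (convex_Ici 0)
    · exact fun s _ => (hf s).continuousAt.continuousWithinAt
    · exact fun s _ => (hf s).differentiableAt.differentiableWithinAt
    · intro s hs
      rw [interior_Ici] at hs
      rw [(hf s).deriv]
      exact h s (le_of_lt hs)
  exact (h1 (Set.mem_Ici.2 le_rfl) (Set.mem_Ici.2 ht) ht).trans h0

theorem lse_taylor (x h : ι → ℝ) :
    |lse (x + h) - lse x - mn x h - k2 x h h / 2| ≤ 2 * ‖h‖ ^ 3 := by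
  have key : ∀ σ : ℝ, (σ = 1 ∨ σ = -1) →
      σ * (lse (x + h) - lse x - mn x h - k2 x h h / 2) ≤ 2 * ‖h‖ ^ 3 := by
    intro σ hσ
    have hσ2 : |σ| = 1 := by rcases hσ with h | h <;> simp [h]
    set M : ℝ := 8 * ‖h‖ ^ 3 with hM
    have hM0 : 0 ≤ M := by positivity
    have s3 : ∀ t : ℝ, 0 ≤ t → σ * k3 (x + t • h) h h h - M ≤ 0 := by
      intro t _
      have h1 := abs_k3_le (x + t • h) h h h
      have h2 : σ * k3 (x + t • h) h h h ≤ |σ * k3 (x + t • h) h h h| := le_abs_self _
      rw [abs_mul, hσ2, one_mul] at h2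
      have h3 : 8 * ‖h‖ * ‖h‖ * ‖h‖ = M := by rw [hM]; ring
      linarith
    have s2 : ∀ t : ℝ, 0 ≤ t → σ * (k2 (x + t • h) h h - k2 x h h) - M * t ≤ 0 := by
      apply nonpos_of_deriv (fun t => σ * (k2 (x + t • h) h h - k2 x h h) - M * t)
        (fun t => σ * k3 (x + t • h) h h h - M)
      · intro t
        have a := (((hasDerivAt_k2 x h h h t).sub_const (k2 x h h)).const_mul σ).sub
          ((hasDerivAt_id t).const_mul M)
        refine a.congr_deriv ?_
        simp
      · simp
      · exact s3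
    have s1 : ∀ t : ℝ, 0 ≤ t → σ * (mn (x + t • h) h - mn x h - t * k2 x h h) - M * t ^ 2 / 2 ≤ 0 := by
      apply nonpos_of_deriv
        (fun t => σ * (mn (x + t • h) h - mn x h - t * k2 x h h) - M * t ^ 2 / 2)
        (fun t => σ * (k2 (x + t • h) h h - k2 x h h) - M * t)
      · intro t
        have a := ((((hasDerivAt_mn x h h t).sub_const (mn x h)).sub
          ((hasDerivAt_id t).mul_const (k2 x h h))).const_mul σ).sub
          ((((hasDerivAt_id t).pow 2).const_mul M).div_const 2)
        refine a.congr_deriv ?_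
        simp
        ring
      · simp
      · exact s2
    have s0 : ∀ t : ℝ, 0 ≤ t → σ * (lse (x + t • h) - lse x - t * mn x h - t ^ 2 / 2 * k2 x h h)
        - M * t ^ 3 / 6 ≤ 0 := by
      apply nonpos_of_deriv
        (fun t => σ * (lse (x + t • h) - lse x - t * mn x h - t ^ 2 / 2 * k2 x h h)
          - M * t ^ 3 / 6)
        (fun t => σ * (mn (x + t • h) h - mn x h - t * k2 x h h) - M * t ^ 2 / 2)
      · intro t
        have a := (((((hasDerivAt_lse x h t).sub_const (lse x)).sub
          ((hasDerivAt_id t).mul_const (mn x h))).sub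
          ((((hasDerivAt_id t).pow 2).div_const 2).mul_const (k2 x h h))).const_mul σ).sub
          ((((hasDerivAt_id t).pow 3).const_mul M).div_const 6)
        refine a.congr_deriv ?_
        simp
        ring
      · simp
      · exact s1
    have := s0 1 zero_le_one
    simp only [one_smul, one_mul, one_pow, mul_one] at this
    have e : σ * (lse (x + h) - lse x - mn x h - 1 / 2 * k2 x h h)
      = σ * (lse (x + h) - lse x - mn x h - k2 x h h / 2) := by ring
    rw [e] at this
    have h3 : 0 ≤ ‖h‖ ^ 3 := by positivity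
    rw [hM] at this
    linarith
  rw [abs_le]
  constructor
  · have := key (-1) (Or.inr rfl)
    linarith
  · have := key 1 (Or.inl rfl)
    linarith

end base

end Pool.H65.PS
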