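import Pool.Agent.Helper65.PS.Defs

set_option autoImplicit false

open MeasureTheory ProbabilityTheory

namespace Pool.H65.PS

theorem concaveOn_of_local (F : ℝ → ℝ) (hF : ContinuousOn F (Set.Icc 0 1))
    (h : ∀ t ∈ Set.Ioo (0 : ℝ) 1, ∃ C h0 : ℝ, 0 < h0 ∧ ∀ h, 0 < h → h < h0 →
      F (t + h) + F (t - h) - 2 * F t ≤ C * h ^ 3) :
    ConcaveOn ℝ (Set.Icc 0 1) F := by
  -- the key claim
  have key : ∀ x ∈ Set.Icc (0 : ℝ) 1, ∀ y ∈ Set.Icc (0 : ℝ) 1, x < y → ∀ z, x < z → z < y →
      F x + (F y - F x) / (y - x) * (z - x) ≤ F z := by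
    intro x hx y hy hxy z hxz hzy
    by_contra hcon
    push Not at hcon
    set L : ℝ → ℝ := fun t => F x + (F y - F x) / (y - x) * (t - x) with hL
    have hzz : 0 < (z - x) * (y - z) := mul_pos (by linarith) (by linarith)
    set δ : ℝ := (L z - F z) / (2 * ((z - x) * (y - z))) with hδ
    have hLz : 0 < L z - F z := by simp only [hL]; linarith
    have hδ0 : 0 < δ := by positivity
    set g : ℝ → ℝ := fun t => F t - L t + δ * ((t - x) * (y - t)) with hg
    have hgz : g z < 0 := by
      have e : δ * ((z - x) * (y - z)) = (L z - F z) / 2 := by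
        rw [hδ, div_mul_eq_mul_div, mul_comm (2 : ℝ), ← div_div, mul_div_assoc, div_self hzz.ne', mul_one]
      simp only [hg]
      rw [e]
      linarith
    have hgx : g x = 0 := by simp [hg, hL]
    have hyx : y - x ≠ 0 := by linarith
    have hgy : g y = 0 := by
      simp only [hg, hL, sub_self, mul_zero, add_zero]
      field_simp
      ring
    have hsub : Set.Icc x y ⊆ Set.Icc 0 1 := Set.Icc_subset_Icc hx.1 hy.2
    have hgc : ContinuousOn g (Set.Icc x y) := by
      have := hF.mono hsub
      simp only [hg, hL]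
      fun_prop
    obtain ⟨t, ht, htm⟩ := isCompact_Icc.exists_isMinOn (Set.nonempty_Icc.2 hxy.le) hgc
    have hmin : ∀ s ∈ Set.Icc x y, g t ≤ g s := fun s hs => htm hs
    have hgt : g t < 0 := lt_of_le_of_lt (hmin z ⟨hxz.le, hzy.le⟩) hgz
    have htx : x < t := by
      rcases eq_or_lt_of_le ht.1 with h1 | h1
      · rw [← h1, hgx] at hgt; exact absurd hgt (lt_irrefl _)
      · exact h1
    have hty : t < y := by
      rcases eq_or_lt_of_le ht.2 with h1 | h1
      · rw [h1, hgy] at hgt; exact absurd hgt (lt_irrefl _)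
      · exact h1
    obtain ⟨C, h0, hh0, hC⟩ := h t ⟨lt_of_le_of_lt hx.1 htx, lt_of_lt_of_le hty hy.2⟩
    -- choose the step
    have hm : 0 < min (min h0 (t - x)) (min (y - t) (2 * δ / (|C| + 1))) := by
      refine lt_min (lt_min hh0 (by linarith)) (lt_min (by linarith) (by positivity))
    obtain ⟨s, hs0, hs⟩ := exists_between hm
    have hs1 : s < h0 := lt_of_lt_of_le hs ((min_le_left _ _).trans (min_le_left _ _))
    have hs2 : s < t - x := lt_of_lt_of_le hs ((min_le_left _ _).trans (min_le_right _ _))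
    have hs3 : s < y - t := lt_of_lt_of_le hs ((min_le_right _ _).trans (min_le_left _ _))
    have hs4 : s < 2 * δ / (|C| + 1) :=
      lt_of_lt_of_le hs ((min_le_right _ _).trans (min_le_right _ _))
    have a1 := hmin (t + s) ⟨by linarith, by linarith⟩
    have a2 := hmin (t - s) ⟨by linarith, by linarith⟩
    have a3 := hC s hs0 hs1
    have a4 : s * (|C| + 1) < 2 * δ := by
      rwa [lt_div_iff₀ (by positivity)] at hs4
    have a5 : g (t + s) + g (t - s) - 2 * g t =
        (F (t + s) + F (t - s) - 2 * F t) - 2 * δ * s ^ 2 := by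
      simp only [hg, hL]; ring
    have a6 : C * s ^ 3 - 2 * δ * s ^ 2 < 0 := by
      have b1 : C * s < 2 * δ := by
        have : C * s ≤ |C| * s := mul_le_mul_of_nonneg_right (le_abs_self C) hs0.le
        nlinarith
      have b2 : 0 < s ^ 2 := by positivity
      nlinarith
    linarith
  refine ⟨convex_Icc 0 1, ?_⟩
  -- reduce to x < y
  have main : ∀ x ∈ Set.Icc (0 : ℝ) 1, ∀ y ∈ Set.Icc (0 : ℝ) 1, x < y → ∀ a b : ℝ, 0 ≤ a → 0 ≤ b →
      a + b = 1 → a * F x + b * F y ≤ F (a * x + b * y) := by
    intro x hx y hy hxy a b ha hb hab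
    rcases eq_or_lt_of_le ha with ha0 | ha0
    · have hb1 : b = 1 := by linarith
      subst ha0
      rw [hb1]; simp
    rcases eq_or_lt_of_le hb with hb0 | hb0
    · have ha1 : a = 1 := by linarith
      subst hb0
      rw [ha1]; simp
    have ha1 : a = 1 - b := by linarith
    have hyx : y - x ≠ 0 := by linarith
    have k := key x hx y hy hxy (a * x + b * y)
      (by rw [ha1]; nlinarith) (by rw [ha1]; nlinarith)
    refine le_trans (le_of_eq ?_) k
    rw [show a * x + b * y - x = b * (y - x) by rw [ha1]; ring]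
    rw [show (F y - F x) / (y - x) * (b * (y - x)) = b * (F y - F x) by field_simp]
    rw [ha1]; ring
  intro x hx y hy a b ha hb hab
  simp only [smul_eq_mul]
  rcases lt_trichotomy x y with hlt | heq | hgt
  · exact main x hx y hy hlt a b ha hb hab
  · subst heq
    rw [← add_mul, ← add_mul, hab, one_mul, one_mul]
  · have := main y hy x hx hgt b a hb ha (by linarith)
    rw [add_comm (b * F y), add_comm (b * y)] at this
    exact this

end Pool.H65.PS
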