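import Mathlib

/-! Definitions for the first-order plurality-is-stablest theorem (MP_c6cf29_pr). -/

set_option autoImplicit false

open MeasureTheory ProbabilityTheory

namespace Pool.H65.PS

noncomputable section

variable {ι κ : Type} [Fintype ι] [Fintype κ]

/-- log-sum-exp. -/
def lse (x : ι → ℝ) : ℝ := Real.log (∑ j, Real.exp (x j))

/-- softmax weights. -/
def sm (x : ι → ℝ) (j : ι) : ℝ := Real.exp (x j) / ∑ k, Real.exp (x k)

/-- mean of `v` under the softmax weights at `x`. -/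
def mn (x v : ι → ℝ) : ℝ := ∑ j, sm x j * v j

/-- covariance of `v`, `w` under the softmax weights at `x`. -/
def k2 (x v w : ι → ℝ) : ℝ := ∑ j, sm x j * ((v j - mn x v) * (w j - mn x w))

/-- third joint cumulant under the softmax weights at `x`. -/
def k3 (x u v w : ι → ℝ) : ℝ :=
  ∑ j, sm x j * ((u j - mn x u) * (v j - mn x v) * (w j - mn x w))

/-- fourth joint cumulant under the softmax weights at `x`. -/
def k4 (x a b u v : ι → ℝ) : ℝ :=
  ∑ j, sm x j * ((a j - mn x a) * (b j - mn x b) * (u j - mn x u) * (v j - mn x v))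
    - k2 x a b * k2 x u v - k2 x a u * k2 x b v - k2 x a v * k2 x b u

/-- The key inequality `PP μ` for a measure `μ` on `ι → ℝ`. -/
def PP (μ : Measure (ι → ℝ)) : Prop :=
  ∀ (c : ι → ℝ) (n : ℕ) (a b : Fin n → ι → ℝ), ∃ ζ : ι → ℝ,
    ∑ r, ∑ s, ∫ x, k4 (c + x) (a r) (b r) (a s) (b s) ∂μ
      - 2 * ∑ r, ∫ x, k3 (c + x) (a r) (b r) ζ ∂μ
      + ∫ x, k2 (c + x) ζ ζ ∂μ + (∑ j, ζ j) ^ 2 ≤ 0

/-- standard Gaussian measure on `κ → ℝ`. -/
def gam (κ : Type) [Fintype κ] : Measure (κ → ℝ) := Measure.pi (fun _ => gaussianReal 0 1)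

instance isProb_gam : IsProbabilityMeasure (gam κ) := by unfold gam; infer_instance

/-- `g ↦ ∑ g_i W_i`. -/
def lin (W : κ → ι → ℝ) (g : κ → ℝ) : ι → ℝ := ∑ i, g i • W i

/-- law of `X + g v`, where `X ~ μ` and `g` is an independent standard Gaussian. -/
def addG (v : ι → ℝ) (μ : Measure (ι → ℝ)) : Measure (ι → ℝ) :=
  ((gaussianReal 0 1).prod μ).map (fun p => p.1 • v + p.2)

/-- `G W s c = E lse (c + ∑ √s_i g_i W_i) - mean c + (sum c)^2 / 2`. -/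
def GG (W : κ → ι → ℝ) (s : κ → ℝ) (c : ι → ℝ) : ℝ :=
  ∫ g, lse (c + ∑ i, (Real.sqrt (s i) * g i) • W i) ∂(gam κ)
    - (∑ j, c j) / (Fintype.card ι : ℝ) + (∑ j, c j) ^ 2 / 2

/-- `F W s = inf_c G W s c`. -/
def FF (W : κ → ι → ℝ) (s : κ → ℝ) : ℝ := ⨅ c : ι → ℝ, GG W s c

/-- `M = E max_j g_j`, `g` standard Gaussian on `ι → ℝ`. -/
def MM (ι : Type) [Fintype ι] : ℝ := ∫ g : ι → ℝ, (⨆ j, g j) ∂(gam ι)

/-! ### the discrete side -/

variable {m n : ℕ}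

/-- average over `[m]^n`. -/
def av (g : (Fin n → Fin m) → ℝ) : ℝ := ((m : ℝ) ^ n)⁻¹ * ∑ ω : Fin n → Fin m, g ω

/-- degree-one coefficient `E[g | ω_i = a] - E g`. -/
def lev (g : (Fin n → Fin m) → ℝ) (i : Fin n) (a : Fin m) : ℝ :=
  av (fun ω => g (Function.update ω i a)) - av g

/-- degree-one weight of `g`. -/
def W1 (g : (Fin n → Fin m) → ℝ) : ℝ := ∑ i, (m : ℝ)⁻¹ * ∑ a, lev g i a ^ 2

/-- noise stability. -/
def stab (ρ : ℝ) (g : (Fin n → Fin m) → ℝ) : ℝ :=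
  ((m : ℝ) ^ n)⁻¹ * ∑ ω : Fin n → Fin m, ∑ δ : Fin n → Fin m,
    g ω * (∏ i : Fin n, if δ i = ω i then (1 + ((m : ℝ) - 1) * ρ) / m else (1 - ρ) / m) * g δ

/-- influence. -/
def infl (g : (Fin n → Fin m) → ℝ) (i : Fin n) : ℝ :=
  ((m : ℝ) ^ n)⁻¹ * ∑ ω : Fin n → Fin m,
    (g ω - (m : ℝ)⁻¹ * ∑ a : Fin m, g (Function.update ω i a)) ^ 2

/-- the number of coordinates of `ω` equal to `k`. -/
def cnt (ω : Fin n → Fin m) (k : Fin m) : ℕ := (Finset.univ.filter (fun i => ω i = k)).card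

open Classical in
/-- plurality (ties are broken by `1/m`). -/
def plur (ω : Fin n → Fin m) (j : Fin m) : ℝ :=
  if (∃ k : Fin m, ∀ l : Fin m, l ≠ k → cnt ω l < cnt ω k)
    then (if (∀ l : Fin m, l ≠ j → cnt ω l < cnt ω j) then (1 : ℝ) else 0)
    else (m : ℝ)⁻¹

/-- the symmetrized family. -/
def symW {ι κ : Type} (w : κ → ι → ℝ) : (Equiv.Perm ι × κ) → ι → ℝ :=
  fun p j => w p.2 (p.1 j)

end

end Pool.H65.PS
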