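import Pool.Agent.Helper65.PS.Base

set_option autoImplicit false

open MeasureTheory ProbabilityTheory

namespace Pool.H65.PS

theorem dirac_alg_aux {ι : Type} [Fintype ι] {n : ℕ} (p : ι → ℝ) (hp : ∀ j, 0 ≤ p j)
    (hs : ∑ j, p j = 1) (A B : Fin n → ι → ℝ) (τ : ι → ℝ) (hτ : ∀ j, τ j = ∑ r, A r j * B r j)
    (T : ℝ) (hT : T = ∑ j, p j * τ j) :
    ∑ r, ∑ s, (∑ j, p j * (A r j * B r j * A s j * B s j)
        - (∑ j, p j * (A r j * B r j)) * (∑ j, p j * (A s j * B s j))
        - (∑ j, p j * (A r j * A s j)) * (∑ j, p j * (B r j * B s j))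
        - (∑ j, p j * (A r j * B s j)) * (∑ j, p j * (B r j * A s j)))
      - 2 * ∑ r, ∑ j, p j * (A r j * B r j * (τ j - T))
      + ∑ j, p j * ((τ j - T) * (τ j - T)) ≤ 0 := by
  have e1 : ∑ r, ∑ s, ∑ j, p j * (A r j * B r j * A s j * B s j) = ∑ j, p j * (τ j * τ j) := by
    have : ∀ j, p j * (τ j * τ j) = ∑ r, ∑ s, p j * (A r j * B r j * A s j * B s j) := by
      intro j
      rw [hτ j, Finset.sum_mul_sum, Finset.mul_sum]
      refine Finset.sum_congr rfl fun r _ => ?_
      rw [Finset.mul_sum]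
      refine Finset.sum_congr rfl fun s _ => ?_
      ring
    simp_rw [this]
    rw [Finset.sum_comm]
    conv_rhs => rw [Finset.sum_comm]
    rw [Finset.sum_comm]
    refine Finset.sum_congr rfl fun r _ => ?_
    rw [Finset.sum_comm]
  have e0 : ∑ r, ∑ j, p j * (A r j * B r j) = T := by
    rw [hT, Finset.sum_comm]
    refine Finset.sum_congr rfl fun j _ => ?_
    rw [hτ j, Finset.mul_sum]
  have e2 : ∑ r, ∑ s, (∑ j, p j * (A r j * B r j)) * (∑ j, p j * (A s j * B s j)) = T * T := by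
    rw [← Finset.sum_mul_sum, e0]
  have e3 : ∑ r, ∑ s, (∑ j, p j * (A r j * A s j)) * (∑ j, p j * (B r j * B s j))
      = ∑ j, ∑ k, p j * p k * ((∑ r, A r j * B r k) * (∑ r, A r j * B r k)) := by
    have h1 : ∀ j k, p j * p k * ((∑ r, A r j * B r k) * (∑ r, A r j * B r k))
        = ∑ r, ∑ s, p j * (A r j * A s j) * (p k * (B r k * B s k)) := by
      intro j k
      rw [Finset.sum_mul_sum, Finset.mul_sum]
      refine Finset.sum_congr rfl fun r _ => ?_
      rw [Finset.mul_sum]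
      refine Finset.sum_congr rfl fun s _ => ?_
      ring
    simp_rw [h1, Finset.sum_mul_sum]
    have h2 : ∀ F : Fin n → Fin n → ι → ι → ℝ, ∑ r, ∑ s, ∑ j, ∑ k, F r s j k
        = ∑ j, ∑ k, ∑ r, ∑ s, F r s j k := by
      intro F
      calc ∑ r, ∑ s, ∑ j, ∑ k, F r s j k = ∑ r, ∑ j, ∑ s, ∑ k, F r s j k :=
            Finset.sum_congr rfl fun r _ => Finset.sum_comm
        _ = ∑ j, ∑ r, ∑ s, ∑ k, F r s j k := Finset.sum_comm
        _ = ∑ j, ∑ r, ∑ k, ∑ s, F r s j k :=
            Finset.sum_congr rfl fun j _ => Finset.sum_congr rfl fun r _ => Finset.sum_comm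
        _ = ∑ j, ∑ k, ∑ r, ∑ s, F r s j k :=
            Finset.sum_congr rfl fun j _ => Finset.sum_comm
    exact h2 _
  have e4 : ∑ r, ∑ s, (∑ j, p j * (A r j * B s j)) * (∑ j, p j * (B r j * A s j))
      = ∑ j, ∑ k, p j * p k * ((∑ r, A r j * B r k) * (∑ r, A r k * B r j)) := by
    have h1 : ∀ j k, p j * p k * ((∑ r, A r j * B r k) * (∑ r, A r k * B r j))
        = ∑ r, ∑ s, p j * (A r j * B s j) * (p k * (B r k * A s k)) := by
      intro j k
      rw [Finset.sum_mul_sum, Finset.mul_sum]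
      refine Finset.sum_congr rfl fun r _ => ?_
      rw [Finset.mul_sum]
      refine Finset.sum_congr rfl fun s _ => ?_
      ring
    simp_rw [h1, Finset.sum_mul_sum]
    have h2 : ∀ F : Fin n → Fin n → ι → ι → ℝ, ∑ r, ∑ s, ∑ j, ∑ k, F r s j k
        = ∑ j, ∑ k, ∑ r, ∑ s, F r s j k := by
      intro F
      calc ∑ r, ∑ s, ∑ j, ∑ k, F r s j k = ∑ r, ∑ j, ∑ s, ∑ k, F r s j k :=
            Finset.sum_congr rfl fun r _ => Finset.sum_comm
        _ = ∑ j, ∑ r, ∑ s, ∑ k, F r s j k := Finset.sum_comm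
        _ = ∑ j, ∑ r, ∑ k, ∑ s, F r s j k :=
            Finset.sum_congr rfl fun j _ => Finset.sum_congr rfl fun r _ => Finset.sum_comm
        _ = ∑ j, ∑ k, ∑ r, ∑ s, F r s j k :=
            Finset.sum_congr rfl fun j _ => Finset.sum_comm
    exact h2 _
  have e5 : ∑ r, ∑ j, p j * (A r j * B r j * (τ j - T)) = ∑ j, p j * (τ j * τ j) - T * T := by
    rw [Finset.sum_comm]
    have : ∀ j, ∑ r, p j * (A r j * B r j * (τ j - T)) = p j * (τ j * τ j) - (p j * τ j) * T := by
      intro j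
      rw [← Finset.mul_sum, ← Finset.sum_mul, ← hτ j]
      ring
    simp_rw [this]
    rw [Finset.sum_sub_distrib, ← Finset.sum_mul, ← hT]
  have e6 : ∑ j, p j * ((τ j - T) * (τ j - T)) = ∑ j, p j * (τ j * τ j) - T * T := by
    have : ∀ j, p j * ((τ j - T) * (τ j - T))
        = p j * (τ j * τ j) - 2 * T * (p j * τ j) + p j * (T * T) := by
      intro j; ring
    simp_rw [this]
    rw [Finset.sum_add_distrib, Finset.sum_sub_distrib, ← Finset.mul_sum, ← hT,
      ← Finset.sum_mul, hs]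
    ring
  have e7 : 0 ≤ ∑ j, ∑ k, p j * p k * ((∑ r, A r j * B r k) * (∑ r, A r j * B r k))
      + ∑ j, ∑ k, p j * p k * ((∑ r, A r j * B r k) * (∑ r, A r k * B r j)) := by
    have hsym : ∑ j, ∑ k, p j * p k * ((∑ r, A r j * B r k) * (∑ r, A r j * B r k))
        = ∑ j, ∑ k, p j * p k * ((∑ r, A r k * B r j) * (∑ r, A r k * B r j)) := by
      rw [Finset.sum_comm]
      refine Finset.sum_congr rfl fun j _ => Finset.sum_congr rfl fun k _ => ?_
      ring
    have hsq : 0 ≤ ∑ j, ∑ k, p j * p k *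
        ((∑ r, A r j * B r k) + (∑ r, A r k * B r j)) ^ 2 :=
      Finset.sum_nonneg fun j _ => Finset.sum_nonneg fun k _ =>
        mul_nonneg (mul_nonneg (hp j) (hp k)) (sq_nonneg _)
    have hex : ∑ j, ∑ k, p j * p k * ((∑ r, A r j * B r k) + (∑ r, A r k * B r j)) ^ 2
        = ∑ j, ∑ k, p j * p k * ((∑ r, A r j * B r k) * (∑ r, A r j * B r k))
          + ∑ j, ∑ k, p j * p k * ((∑ r, A r k * B r j) * (∑ r, A r k * B r j))
          + 2 * ∑ j, ∑ k, p j * p k * ((∑ r, A r j * B r k) * (∑ r, A r k * B r j)) := by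
      rw [Finset.mul_sum, ← Finset.sum_add_distrib, ← Finset.sum_add_distrib]
      refine Finset.sum_congr rfl fun j _ => ?_
      rw [Finset.mul_sum, ← Finset.sum_add_distrib, ← Finset.sum_add_distrib]
      refine Finset.sum_congr rfl fun k _ => ?_
      ring
    rw [hex, ← hsym] at hsq
    linarith
  have e8 : ∑ r, ∑ s, (∑ j, p j * (A r j * B r j * A s j * B s j)
        - (∑ j, p j * (A r j * B r j)) * (∑ j, p j * (A s j * B s j))
        - (∑ j, p j * (A r j * A s j)) * (∑ j, p j * (B r j * B s j))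
        - (∑ j, p j * (A r j * B s j)) * (∑ j, p j * (B r j * A s j)))
      = ∑ j, p j * (τ j * τ j) - T * T
        - ∑ j, ∑ k, p j * p k * ((∑ r, A r j * B r k) * (∑ r, A r j * B r k))
        - ∑ j, ∑ k, p j * p k * ((∑ r, A r j * B r k) * (∑ r, A r k * B r j)) := by
    simp only [Finset.sum_sub_distrib]
    rw [e1, e2, e3, e4]
  rw [e8, e5, e6]
  linarith

theorem PP_dirac {ι : Type} [Fintype ι] [Nonempty ι] : PP (Measure.dirac (0 : ι → ℝ)) := by
  intro c n a b
  set τ : ι → ℝ := fun j => ∑ r, (a r j - mn c (a r)) * (b r j - mn c (b r)) with hτ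
  set m : ℝ := (∑ k, τ k) / (Fintype.card ι : ℝ) with hm
  set T : ℝ := ∑ j, sm c j * τ j with hT
  refine ⟨fun j => τ j - m, ?_⟩
  have hcard : (Fintype.card ι : ℝ) ≠ 0 := by
    exact_mod_cast Fintype.card_ne_zero
  have hz : ∑ j, (τ j - m) = 0 := by
    rw [Finset.sum_sub_distrib, Finset.sum_const, Finset.card_univ, nsmul_eq_mul, hm,
      mul_div_cancel₀ _ hcard, sub_self]
  have hmn : mn c (fun j => τ j - m) = T - m := by
    unfold mn
    have : ∀ j, sm c j * (τ j - m) = sm c j * τ j - sm c j * m := fun j => by ring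
    simp_rw [this]
    rw [Finset.sum_sub_distrib, ← Finset.sum_mul, sm_sum, one_mul]
  simp only [integral_dirac, add_zero]
  rw [hz]
  have key := dirac_alg_aux (sm c) (fun j => (sm_pos c j).le) (sm_sum c)
    (fun r j => a r j - mn c (a r)) (fun r j => b r j - mn c (b r)) τ (fun j => rfl) T hT
  have h3 : ∀ r, k3 c (a r) (b r) (fun j => τ j - m)
      = ∑ j, sm c j * ((a r j - mn c (a r)) * (b r j - mn c (b r)) * (τ j - T)) := by
    intro r
    unfold k3
    rw [hmn]
    refine Finset.sum_congr rfl fun j _ => ?_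
    ring
  have h2 : k2 c (fun j => τ j - m) (fun j => τ j - m)
      = ∑ j, sm c j * ((τ j - T) * (τ j - T)) := by
    unfold k2
    rw [hmn]
    refine Finset.sum_congr rfl fun j _ => ?_
    ring
  simp_rw [h3, h2]
  unfold k4 k2
  have hz2 : (0 : ℝ) ^ 2 = 0 := by norm_num
  rw [hz2, add_zero]
  exact key

end Pool.H65.PS
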