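import Pool.Agent.Helper65.PS.Defs

set_option autoImplicit false

open MeasureTheory ProbabilityTheory

namespace Pool.H65.PS

section dsc

variable {m n : ℕ}

/-! ### elementary facts on `av` -/

theorem dsc_av_add (f g : (Fin n → Fin m) → ℝ) : av (fun ω => f ω + g ω) = av f + av g := by
  unfold av
  rw [Finset.sum_add_distrib, mul_add]

theorem dsc_av_sub (f g : (Fin n → Fin m) → ℝ) : av (fun ω => f ω - g ω) = av f - av g := by
  unfold av
  rw [Finset.sum_sub_distrib, mul_sub]

theorem dsc_av_mul_const (f : (Fin n → Fin m) → ℝ) (c : ℝ) :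
    av (fun ω => f ω * c) = av f * c := by
  unfold av
  rw [← Finset.sum_mul, mul_assoc]

theorem dsc_av_const_mul (f : (Fin n → Fin m) → ℝ) (c : ℝ) :
    av (fun ω => c * f ω) = c * av f := by
  unfold av
  rw [← Finset.mul_sum]
  ring

theorem dsc_av_sum {κ : Type*} (s : Finset κ) (f : κ → (Fin n → Fin m) → ℝ) :
    av (fun ω => ∑ k ∈ s, f k ω) = ∑ k ∈ s, av (f k) := by
  unfold av
  rw [Finset.sum_comm, Finset.mul_sum]

theorem dsc_av_const (hm : 0 < m) (c : ℝ) : av (fun _ : Fin n → Fin m => c) = c := by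
  unfold av
  rw [Finset.sum_const, Finset.card_univ, Fintype.card_fun, Fintype.card_fin, Fintype.card_fin,
    nsmul_eq_mul]
  push_cast
  have : ((m : ℝ) ^ n) ≠ 0 := by positivity
  field_simp

theorem dsc_av_nonneg {f : (Fin n → Fin m) → ℝ} (h : ∀ ω, 0 ≤ f ω) : 0 ≤ av f := by
  unfold av
  have := Finset.sum_nonneg fun ω (_ : ω ∈ Finset.univ) => h ω
  positivity

theorem dsc_sq_av_le (hm : 0 < m) (f : (Fin n → Fin m) → ℝ) :
    av f ^ 2 ≤ av (fun ω => f ω ^ 2) := by
  have h := dsc_av_nonneg (f := fun ω => (f ω - av f) ^ 2) fun ω => sq_nonneg _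
  have h1 : (fun ω => (f ω - av f) ^ 2) =
      fun ω => (f ω ^ 2 - f ω * (2 * av f)) + av f ^ 2 := by
    funext ω; ring
  rw [h1, dsc_av_add, dsc_av_sub, dsc_av_mul_const, dsc_av_const hm] at h
  nlinarith

/-- resampling one coordinate -/
theorem dsc_sum_update (G : (Fin n → Fin m) → ℝ) (i : Fin n) :
    ∑ a : Fin m, ∑ ω : Fin n → Fin m, G (Function.update ω i a) = m * ∑ ω, G ω := by
  let T : (Fin m × (Fin n → Fin m)) → (Fin m × (Fin n → Fin m)) :=
    fun p => (p.2 i, Function.update p.2 i p.1)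
  have hT : Function.Involutive T := by
    rintro ⟨a, ω⟩
    simp [T]
  have h1 : ∑ a : Fin m, ∑ ω : Fin n → Fin m, G (Function.update ω i a) =
      ∑ p : Fin m × (Fin n → Fin m), G (T p).2 := by
    rw [Fintype.sum_prod_type]
  have h2 : ∑ p : Fin m × (Fin n → Fin m), G (T p).2 =
      ∑ p : Fin m × (Fin n → Fin m), G p.2 :=
    Equiv.sum_comp (Function.Involutive.toPerm T hT) (fun p => G p.2)
  rw [h1, h2, Fintype.sum_prod_type]
  simp

theorem dsc_sum_av_update (G : (Fin n → Fin m) → ℝ) (i : Fin n) :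
    ∑ a : Fin m, av (fun ω => G (Function.update ω i a)) = m * av G := by
  unfold av
  rw [← Finset.mul_sum, dsc_sum_update]
  ring

theorem dsc_av_eq (hm : 0 < m) (G : (Fin n → Fin m) → ℝ) (i : Fin n) :
    av G = (m : ℝ)⁻¹ * ∑ a : Fin m, av (fun ω => G (Function.update ω i a)) := by
  rw [dsc_sum_av_update]
  have : (m : ℝ) ≠ 0 := by positivity
  field_simp

theorem sum_lev (hm : 0 < m) (g : (Fin n → Fin m) → ℝ) (i : Fin n) : ∑ a, lev g i a = 0 := by
  have _ := hm
  unfold lev
  rw [Finset.sum_sub_distrib, dsc_sum_av_update]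
  simp

theorem lev_sq_le (hm : 0 < m) (g : (Fin n → Fin m) → ℝ) (i : Fin n) (a : Fin m) :
    lev g i a ^ 2 ≤ m * infl g i := by
  set E : (Fin n → Fin m) → ℝ := fun ω => (m : ℝ)⁻¹ * ∑ b : Fin m, g (Function.update ω i b)
    with hE
  set D : (Fin n → Fin m) → ℝ := fun ω => g ω - E ω with hD
  have hEu : ∀ ω b, E (Function.update ω i b) = E ω := by
    intro ω b
    simp only [hE, Function.update_idem]
  have hEav : av E = av g := by
    rw [hE, dsc_av_const_mul, dsc_av_sum, ← dsc_av_eq hm g i]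
  have hlev : lev g i a = av (fun ω => D (Function.update ω i a)) := by
    simp only [hD, hEu]
    rw [dsc_av_sub, hEav]
    rfl
  have hinfl : infl g i = av (fun ω => D ω ^ 2) := rfl
  rw [hlev, hinfl, ← dsc_sum_av_update (fun ω => D ω ^ 2) i]
  refine (dsc_sq_av_le hm _).trans ?_
  exact Finset.single_le_sum (f := fun b => av (fun ω => D (Function.update ω i b) ^ 2))
    (fun b _ => dsc_av_nonneg fun ω => sq_nonneg _) (Finset.mem_univ a)

theorem dsc_av_mul_coord (hm : 0 < m) (g : (Fin n → Fin m) → ℝ) (i : Fin n) (H : Fin m → ℝ)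
    (hH : ∑ a, H a = 0) :
    av (fun ω => g ω * H (ω i)) = (m : ℝ)⁻¹ * ∑ a, lev g i a * H a := by
  rw [dsc_av_eq hm _ i]
  congr 1
  have h1 : ∀ a : Fin m, av (fun ω : Fin n → Fin m =>
      g (Function.update ω i a) * H (Function.update ω i a i)) =
      lev g i a * H a + av g * H a := by
    intro a
    simp only [Function.update_self]
    rw [dsc_av_mul_const]
    unfold lev
    ring
  rw [Finset.sum_congr rfl fun a _ => h1 a, Finset.sum_add_distrib, ← Finset.mul_sum, hH]
  ring

theorem av_mul_sum (hm : 0 < m) (g : (Fin n → Fin m) → ℝ) (H : Fin n → Fin m → ℝ)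
    (hH : ∀ i, ∑ a, H i a = 0) :
    av (fun ω => g ω * ∑ i, H i (ω i)) = ∑ i, (m : ℝ)⁻¹ * ∑ a, lev g i a * H i a := by
  simp only [Finset.mul_sum]
  rw [dsc_av_sum]
  refine Finset.sum_congr rfl fun i _ => ?_
  rw [dsc_av_mul_coord hm g i (H i) (hH i), Finset.mul_sum]

theorem av_mul_lev (hm : 0 < m) (g : (Fin n → Fin m) → ℝ) :
    av (fun ω => g ω * ∑ i, lev g i (ω i)) = W1 g := by
  rw [av_mul_sum hm g (fun i a => lev g i a) fun i => sum_lev hm g i]
  unfold W1
  simp only [sq]

theorem W1_le (hm : 0 < m) (g : (Fin n → Fin m) → ℝ) :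
    W1 g ≤ av (fun ω => g ω ^ 2) - av g ^ 2 := by
  set L : (Fin n → Fin m) → ℝ := fun ω => ∑ i, lev g i (ω i) with hL
  have hone : ∀ i a, lev (fun _ : Fin n → Fin m => (1 : ℝ)) i a = 0 := by
    intro i a
    simp [lev]
  have hcoord : ∀ i, av (fun ω : Fin n → Fin m => lev g i (ω i)) = 0 := by
    intro i
    have h := dsc_av_mul_coord hm (fun _ => (1 : ℝ)) i (lev g i) (sum_lev hm g i)
    simpa [hone] using h
  have hLav : av L = 0 := by
    rw [hL, dsc_av_sum]
    exact Finset.sum_eq_zero fun i _ => hcoord i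
  have hlevL : ∀ i a, lev L i a = lev g i a := by
    intro i a
    have h1 : (fun ω : Fin n → Fin m => L (Function.update ω i a)) =
        fun ω => (L ω - lev g i (ω i)) + lev g i a := by
      funext ω
      simp only [hL]
      rw [← Finset.add_sum_erase _ _ (Finset.mem_univ i),
        ← Finset.add_sum_erase (Finset.univ) (fun i => lev g i (ω i)) (Finset.mem_univ i)]
      have h2 : ∑ x ∈ Finset.univ.erase i, lev g x (Function.update ω i a x) =
          ∑ x ∈ Finset.univ.erase i, lev g x (ω x) := by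
        refine Finset.sum_congr rfl fun x hx => ?_
        rw [Function.update_of_ne (Finset.ne_of_mem_erase hx)]
      rw [h2, Function.update_self]
      ring
    unfold lev at h1 ⊢
    rw [h1]
    rw [dsc_av_add, dsc_av_sub, dsc_av_const hm, hLav]
    have h3 := hcoord i
    unfold lev at h3
    rw [h3]
    ring
  have hLL : av (fun ω => L ω * L ω) = W1 g := by
    have h := av_mul_sum hm L (fun i a => lev g i a) fun i => sum_lev hm g i
    simp only [hlevL] at h
    rw [W1]
    simp only [sq]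
    exact h
  have hgL : av (fun ω => g ω * L ω) = W1 g := av_mul_lev hm g
  have h := dsc_av_nonneg (f := fun ω => (g ω - av g - L ω) ^ 2) fun ω => sq_nonneg _
  have h1 : (fun ω => (g ω - av g - L ω) ^ 2) =
      fun ω => ((((g ω ^ 2 - g ω * (2 * av g)) - (g ω * L ω) * 2) + L ω * (2 * av g)) +
        L ω * L ω) + av g ^ 2 := by
    funext ω; ring
  rw [h1, dsc_av_add, dsc_av_add, dsc_av_add, dsc_av_sub, dsc_av_sub, dsc_av_mul_const,
    dsc_av_mul_const, dsc_av_mul_const, dsc_av_const hm, hLL, hgL, hLav] at h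
  nlinarith

end dsc

end Pool.H65.PS
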