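import Pool.Agent.Helper65.PS.Defs

set_option autoImplicit false

open MeasureTheory ProbabilityTheory

namespace Pool.H65.PS

section ibp

variable {κ : Type} [Fintype κ]

theorem Ibp_integrable_one (F : ℝ → ℝ) (C : ℝ) (p : ℕ) (hF : Continuous F)
    (hb : ∀ g, |F g| ≤ C * (1 + ‖g‖) ^ p) : Integrable F (gaussianReal 0 1) := by
  have hm : MemLp (fun g : ℝ => 1 + ‖g‖) p (gaussianReal 0 1) := by
    have h1 : MemLp (fun _ : ℝ => (1 : ℝ)) p (gaussianReal 0 1) := memLp_const 1
    have h2 : MemLp (fun g : ℝ => ‖g‖) p (gaussianReal 0 1) :=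
      (memLp_id_gaussianReal' (μ := 0) (v := 1) (p : ENNReal) (ENNReal.natCast_ne_top p)).norm
    exact h1.add h2
  have hi := (hm.integrable_norm_pow').const_mul C
  refine hi.mono hF.aestronglyMeasurable (Filter.Eventually.of_forall fun g => ?_)
  have h0 : (0 : ℝ) ≤ 1 + ‖g‖ := by positivity
  have h3 := hb g
  simp only [Real.norm_eq_abs] at h3 ⊢
  have h0' : (0 : ℝ) ≤ 1 + |g| := by positivity
  rw [abs_of_nonneg h0']
  exact h3.trans (le_abs_self _)

/-- polynomial growth is integrable for `gam`. -/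
theorem integrable_gam (F : (κ → ℝ) → ℝ) (C : ℝ) (p : ℕ) (hF : Continuous F)
    (hb : ∀ g, |F g| ≤ C * (1 + ‖g‖) ^ p) : Integrable F (gam κ) := by
  have hid : MemLp (fun g : κ → ℝ => g) p (gam κ) := by
    refine MemLp.of_eval (fun i => ?_)
    have h1 : MeasurePreserving (Function.eval i) (gam κ) (gaussianReal 0 1) :=
      measurePreserving_eval (fun _ : κ => gaussianReal 0 1) i
    exact (memLp_id_gaussianReal' (μ := 0) (v := 1) (p : ENNReal)
      (ENNReal.natCast_ne_top p)).comp_measurePreserving h1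
  have hm : MemLp (fun g : κ → ℝ => 1 + ‖g‖) p (gam κ) := by
    have h1 : MemLp (fun _ : κ → ℝ => (1 : ℝ)) p (gam κ) := memLp_const 1
    exact h1.add hid.norm
  have hi := (hm.integrable_norm_pow').const_mul C
  refine hi.mono hF.aestronglyMeasurable (Filter.Eventually.of_forall fun g => ?_)
  have h0 : (0 : ℝ) ≤ 1 + ‖g‖ := by positivity
  have h3 := hb g
  rw [Real.norm_eq_abs, Real.norm_eq_abs, Real.norm_eq_abs, abs_of_nonneg h0]
  exact h3.trans (le_abs_self _)

theorem Ibp_one (f f' : ℝ → ℝ) (C : ℝ) (p : ℕ) (hf : Continuous f) (hf' : Continuous f')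
    (hd : ∀ t, HasDerivAt f (f' t) t) (hb : ∀ t, |f t| ≤ C * (1 + ‖t‖) ^ p)
    (hb' : ∀ t, |f' t| ≤ C * (1 + ‖t‖) ^ p) :
    ∫ t, t * f t ∂(gaussianReal 0 1) = ∫ t, f' t ∂(gaussianReal 0 1) := by
  have hC : ∀ t : ℝ, |t * f t| ≤ C * (1 + ‖t‖) ^ (p + 1) := by
    intro t
    rw [abs_mul, pow_succ]
    have h1 : |t| ≤ 1 + ‖t‖ := by rw [Real.norm_eq_abs]; linarith
    calc |t| * |f t| ≤ (1 + ‖t‖) * (C * (1 + ‖t‖) ^ p) :=
          mul_le_mul h1 (hb t) (abs_nonneg _) (by positivity)
      _ = C * ((1 + ‖t‖) ^ p * (1 + ‖t‖)) := by ring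
  have i1 : Integrable f (gaussianReal 0 1) := Ibp_integrable_one f C p hf hb
  have i2 : Integrable f' (gaussianReal 0 1) := Ibp_integrable_one f' C p hf' hb'
  have i3 : Integrable (fun t => t * f t) (gaussianReal 0 1) :=
    Ibp_integrable_one _ C (p + 1) (continuous_id.mul hf) hC
  have conv : ∀ u : ℝ → ℝ, Integrable u (gaussianReal 0 1) →
      Integrable (fun t => gaussianPDFReal 0 1 t * u t) := by
    intro u hu
    rw [gaussianReal_of_var_ne_zero 0 (one_ne_zero)] at hu
    rw [integrable_withDensity_iff_integrable_smul' (measurable_gaussianPDF 0 1)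
      (Filter.Eventually.of_forall fun _ => gaussianPDF_lt_top)] at hu
    refine hu.congr (Filter.Eventually.of_forall fun t => ?_)
    simp [toReal_gaussianPDF]
  have hφ : ∀ t : ℝ, HasDerivAt (gaussianPDFReal 0 1) (-t * gaussianPDFReal 0 1 t) t := by
    intro t
    have h1 : HasDerivAt (fun x : ℝ => -(x - 0) ^ 2 / (2 * (1 : NNReal))) (-t) t := by
      have := ((((hasDerivAt_id t).sub_const 0).pow 2).neg.div_const (2 * ((1 : NNReal) : ℝ)))
      refine this.congr_deriv ?_
      simp only [NNReal.coe_one, id]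
      ring
    have h2 := (h1.exp).const_mul ((√(2 * Real.pi * (1 : NNReal)))⁻¹)
    have h3 : gaussianPDFReal 0 1 = fun x : ℝ => (√(2 * Real.pi * (1 : NNReal)))⁻¹
        * Real.exp (-(x - 0) ^ 2 / (2 * (1 : NNReal))) := gaussianPDFReal_def 0 1
    rw [h3]
    refine h2.congr_deriv ?_
    ring
  have hder : ∀ t, HasDerivAt (fun t => gaussianPDFReal 0 1 t * f t)
      (gaussianPDFReal 0 1 t * f' t - gaussianPDFReal 0 1 t * (t * f t)) t := by
    intro t
    have := (hφ t).mul (hd t)
    refine this.congr_deriv ?_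
    ring
  have key := integral_eq_zero_of_hasDerivAt_of_integrable hder ((conv _ i2).sub (conv _ i3))
    (conv _ i1)
  rw [integral_sub (conv _ i2) (conv _ i3)] at key
  rw [integral_gaussianReal_eq_integral_smul one_ne_zero,
    integral_gaussianReal_eq_integral_smul one_ne_zero]
  simp only [smul_eq_mul]
  linarith

theorem Ibp_map_update [DecidableEq κ] (i : κ) :
    MeasurePreserving (fun q : ℝ × (κ → ℝ) => Function.update q.2 i q.1)
      ((gaussianReal 0 1).prod (gam κ)) (gam κ) := by
  have hmeas : Measurable (fun q : ℝ × (κ → ℝ) => Function.update q.2 i q.1) := by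
    refine measurable_pi_lambda _ fun j => ?_
    by_cases hj : j = i
    · subst hj; simpa using measurable_fst
    · simp only [Function.update_of_ne hj]
      exact (measurable_pi_apply j).comp measurable_snd
  refine ⟨hmeas, ?_⟩
  unfold gam
  symm
  refine Measure.pi_eq fun s hs => ?_
  rw [Measure.map_apply hmeas (MeasurableSet.univ_pi hs)]
  have hpre : (fun q : ℝ × (κ → ℝ) => Function.update q.2 i q.1) ⁻¹' (Set.univ.pi s)
      = (s i) ×ˢ (Set.univ.pi (Function.update s i Set.univ)) := by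
    ext q
    simp only [Set.mem_preimage, Set.mem_pi, Set.mem_univ, true_implies, Set.mem_prod]
    constructor
    · intro h
      refine ⟨by simpa using h i, fun j => ?_⟩
      by_cases hj : j = i
      · subst hj; simp
      · simpa [Function.update_of_ne hj] using h j
    · rintro ⟨h1, h2⟩ j
      by_cases hj : j = i
      · subst hj; simpa using h1
      · simpa [Function.update_of_ne hj] using h2 j
  rw [hpre, Measure.prod_prod, Measure.pi_pi]
  rw [← Finset.mul_prod_erase Finset.univ (fun j => (gaussianReal 0 1) (s j)) (Finset.mem_univ i),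
    ← Finset.mul_prod_erase Finset.univ
      (fun j => (gaussianReal 0 1) (Function.update s i Set.univ j)) (Finset.mem_univ i)]
  simp only [Function.update_self, measure_univ, one_mul]
  congr 1
  refine Finset.prod_congr rfl fun j hj => ?_
  rw [Function.update_of_ne (Finset.ne_of_mem_erase hj)]

/-- Gaussian integration by parts in the coordinate `i`. -/
theorem gam_ibp [DecidableEq κ] (i : κ) (F F' : (κ → ℝ) → ℝ) (C : ℝ) (p : ℕ)
    (hF : Continuous F) (hF' : Continuous F')
    (hd : ∀ g t, HasDerivAt (fun s => F (Function.update g i s)) (F' (Function.update g i t)) t)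
    (hb : ∀ g, |F g| ≤ C * (1 + ‖g‖) ^ p) (hb' : ∀ g, |F' g| ≤ C * (1 + ‖g‖) ^ p) :
    ∫ g, g i * F g ∂(gam κ) = ∫ g, F' g ∂(gam κ) := by
  have hC : ∀ g : κ → ℝ, |g i * F g| ≤ C * (1 + ‖g‖) ^ (p + 1) := by
    intro g
    rw [abs_mul, pow_succ]
    have h1 : |g i| ≤ 1 + ‖g‖ := by
      have := norm_le_pi_norm g i
      rw [Real.norm_eq_abs] at this
      linarith
    calc |g i| * |F g| ≤ (1 + ‖g‖) * (C * (1 + ‖g‖) ^ p) :=
          mul_le_mul h1 (hb g) (abs_nonneg _) (by positivity)
      _ = C * ((1 + ‖g‖) ^ p * (1 + ‖g‖)) := by ring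
  have hmp := Ibp_map_update i
  have i1 : Integrable (fun g : κ → ℝ => g i * F g) (gam κ) :=
    integrable_gam _ C (p + 1) ((continuous_apply i).mul hF) hC
  have i2 : Integrable F' (gam κ) := integrable_gam F' C p hF' hb'
  have hC0 : 0 ≤ C := by
    have := (abs_nonneg _).trans (hb 0)
    simpa using this
  -- the update map is continuous
  have hupd : ∀ g : κ → ℝ, Continuous (fun t : ℝ => Function.update g i t) := fun g =>
    continuous_const.update i continuous_id
  -- norm of the update
  have hnorm : ∀ (g : κ → ℝ) (t : ℝ), 1 + ‖Function.update g i t‖ ≤ (1 + ‖g‖) * (1 + ‖t‖) := by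
    intro g t
    have h1 : ‖Function.update g i t‖ ≤ ‖g‖ + ‖t‖ := by
      rw [pi_norm_le_iff_of_nonneg (by positivity)]
      intro j
      by_cases hj : j = i
      · subst hj; simp
      · rw [Function.update_of_ne hj]
        have := norm_le_pi_norm g j
        have := norm_nonneg t
        linarith
    nlinarith [norm_nonneg g, norm_nonneg t]
  have e : ∀ G : (κ → ℝ) → ℝ, Integrable G (gam κ) →
      ∫ g, G g ∂(gam κ)
        = ∫ g, (∫ t, G (Function.update g i t) ∂(gaussianReal 0 1)) ∂(gam κ) := by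
    intro G hG
    have h1 : ∫ g, G g ∂(gam κ)
        = ∫ q : ℝ × (κ → ℝ), G (Function.update q.2 i q.1) ∂((gaussianReal 0 1).prod (gam κ)) := by
      conv_lhs => rw [← hmp.map_eq]
      rw [integral_map hmp.measurable.aemeasurable]
      rw [hmp.map_eq]
      exact hG.aestronglyMeasurable
    rw [h1, integral_prod_symm]
    exact hmp.integrable_comp_of_integrable hG
  rw [e _ i1, e _ i2]
  refine integral_congr_ae (Filter.Eventually.of_forall fun g => ?_)
  simp only [Function.update_self]
  have hK : ∀ (H : (κ → ℝ) → ℝ), (∀ g, |H g| ≤ C * (1 + ‖g‖) ^ p) → ∀ t : ℝ,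
      |H (Function.update g i t)| ≤ (C * (1 + ‖g‖) ^ p) * (1 + ‖t‖) ^ p := by
    intro H hH t
    refine (hH _).trans ?_
    rw [mul_assoc, ← mul_pow]
    exact mul_le_mul_of_nonneg_left (pow_le_pow_left₀ (by positivity) (hnorm g t) p) hC0
  exact Ibp_one (fun t => F (Function.update g i t)) (fun t => F' (Function.update g i t))
    (C * (1 + ‖g‖) ^ p) p (hF.comp (hupd g)) (hF'.comp (hupd g)) (fun t => hd g t)
    (hK F hb) (hK F' hb')

end ibp

end Pool.H65.PS
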