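import Pool.Agent.Helper65.PS.Exl
import Pool.Agent.Helper65.PS.Ibp

set_option autoImplicit false

open MeasureTheory ProbabilityTheory

namespace Pool.H65.PS

namespace Smx

section comb

variable {ι κ : Type} [Fintype ι] [DecidableEq ι] [Fintype κ]

/-- the sum of the products over all permutations. -/
noncomputable def T (w : κ → ι → ℝ) (j k : ι) : ℝ :=
  ∑ σ : Equiv.Perm ι, ∑ i, w i (σ j) * w i (σ k)

theorem T_perm (w : κ → ι → ℝ) (τ : Equiv.Perm ι) (j k : ι) :
    T w (τ j) (τ k) = T w j k := by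
  unfold T
  exact Equiv.sum_comp (Equiv.mulRight τ)
    (fun σ : Equiv.Perm ι => ∑ i, w i (σ j) * w i (σ k))

theorem T_diag_const (w : κ → ι → ℝ) (j k : ι) : T w j j = T w k k := by
  have h := T_perm w (Equiv.swap j k) k k
  rwa [Equiv.swap_apply_right] at h

theorem T_diag (w : κ → ι → ℝ) (j : ι) :
    (Fintype.card ι : ℝ) * T w j j
      = (Fintype.card (Equiv.Perm ι) : ℝ) * ∑ i, ∑ l, w i l ^ 2 := by
  have h1 : ∑ k, T w k k = (Fintype.card ι : ℝ) * T w j j := by
    rw [Finset.sum_congr rfl (fun k _ => T_diag_const w k j), Finset.sum_const, Finset.card_univ,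
      nsmul_eq_mul]
  rw [← h1]
  unfold T
  rw [Finset.sum_comm]
  have h2 : ∀ σ : Equiv.Perm ι, ∑ k, ∑ i, w i (σ k) * w i (σ k) = ∑ i, ∑ l, w i l ^ 2 := by
    intro σ
    rw [Finset.sum_comm]
    refine Finset.sum_congr rfl fun i _ => ?_
    rw [Equiv.sum_comp σ (fun l => w i l * w i l)]
    refine Finset.sum_congr rfl fun l _ => ?_
    ring
  rw [Finset.sum_congr rfl (fun σ _ => h2 σ), Finset.sum_const, Finset.card_univ, nsmul_eq_mul]

theorem T_row (w : κ → ι → ℝ) (hw : ∀ i, ∑ j, w i j = 0) (j : ι) : ∑ k, T w j k = 0 := by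
  unfold T
  rw [Finset.sum_comm]
  refine Finset.sum_eq_zero fun σ _ => ?_
  rw [Finset.sum_comm]
  refine Finset.sum_eq_zero fun i _ => ?_
  rw [← Finset.mul_sum, Equiv.sum_comp σ (fun l => w i l), hw i, mul_zero]

theorem T_off (w : κ → ι → ℝ) (hw : ∀ i, ∑ j, w i j = 0) (j k : ι) (hjk : j ≠ k) :
    ((Fintype.card ι : ℝ) - 1) * T w j k = - T w j j := by
  have h1 := T_row w hw j
  rw [← Finset.add_sum_erase _ _ (Finset.mem_univ j)] at h1
  have h2 : ∑ x ∈ Finset.univ.erase j, T w j x = ((Fintype.card ι : ℝ) - 1) * T w j k := by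
    have h3 : ∀ x ∈ Finset.univ.erase j, T w j x = T w j k := by
      intro x hx
      have hxj : x ≠ j := Finset.ne_of_mem_erase hx
      have h := T_perm w (Equiv.swap x k) j k
      rw [Equiv.swap_apply_right, Equiv.swap_apply_of_ne_of_ne hxj.symm hjk] at h
      exact h
    rw [Finset.sum_congr rfl h3, Finset.sum_const, Finset.card_erase_of_mem (Finset.mem_univ j),
      Finset.card_univ, nsmul_eq_mul]
    have hpos : 1 ≤ Fintype.card ι := Fintype.card_pos_iff.2 ⟨j⟩
    rw [Nat.cast_sub hpos, Nat.cast_one]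
  linarith

theorem symW_cov (w : κ → ι → ℝ) (j k : ι) :
    ∑ p : Equiv.Perm ι × κ, symW w p j * symW w p k = T w j k := by
  rw [Fintype.sum_prod_type]
  rfl

end comb

section meas

variable {ι : Type} [Fintype ι] [Nonempty ι]

theorem continuous_iSup_apply : Continuous (fun x : ι → ℝ => ⨆ j, x j) := by
  have h : (fun x : ι → ℝ => ⨆ j, x j)
      = fun x : ι → ℝ => Finset.univ.sup' Finset.univ_nonempty (fun j => x j) := by
    funext x
    rw [Finset.sup'_univ_eq_ciSup]
  rw [h]
  exact Continuous.finset_sup'_apply Finset.univ_nonempty (fun i _ => continuous_apply i)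

theorem abs_iSup_le_norm (x : ι → ℝ) : |⨆ j, x j| ≤ ‖x‖ := by
  have hb : BddAbove (Set.range x) := Set.finite_range x |>.bddAbove
  rw [abs_le]
  constructor
  · obtain ⟨j⟩ := (inferInstance : Nonempty ι)
    have h1 : x j ≤ ⨆ j, x j := le_ciSup hb j
    have h2 : |x j| ≤ ‖x‖ := norm_le_pi_norm x j
    linarith [neg_abs_le (x j)]
  · exact ciSup_le fun j => le_trans (le_abs_self _) (norm_le_pi_norm x j)

theorem continuous_lin {κ ι : Type} [Fintype κ] (W : κ → ι → ℝ) : Continuous (lin W) := by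
  unfold lin
  refine continuous_finsetSum _ fun i _ => ?_
  exact (continuous_apply i).smul continuous_const

theorem norm_lin_le {κ ι : Type} [Fintype κ] [Fintype ι] (W : κ → ι → ℝ) (g : κ → ℝ) :
    ‖lin W g‖ ≤ (∑ i, ‖W i‖) * ‖g‖ := by
  unfold lin
  refine le_trans (norm_sum_le _ _) ?_
  rw [Finset.sum_mul]
  refine Finset.sum_le_sum fun i _ => ?_
  rw [norm_smul, mul_comm]
  exact mul_le_mul_of_nonneg_left (norm_le_pi_norm g i) (norm_nonneg _)

theorem integrable_iSup_lin {κ : Type} [Fintype κ] (W : κ → ι → ℝ) :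
    Integrable (fun g => ⨆ j, lin W g j) (gam κ) := by
  refine integrable_gam _ (∑ i, ‖W i‖) 1 (continuous_iSup_apply.comp (continuous_lin W)) ?_
  intro g
  refine le_trans (abs_iSup_le_norm (lin W g)) (le_trans (norm_lin_le W g) ?_)
  refine mul_le_mul_of_nonneg_left ?_ (Finset.sum_nonneg fun i _ => norm_nonneg _)
  rw [pow_one]
  linarith

theorem integral_unit : ∫ g : Unit → ℝ, g () ∂(gam Unit) = 0 := by
  have h := (measurePreserving_eval (fun _ : Unit => gaussianReal 0 1) ()).map_eq
  have h2 : ∫ x, x ∂(gaussianReal 0 1) = 0 := integral_id_gaussianReal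
  rw [← h] at h2
  have h3 := integral_map (μ := Measure.pi (fun _ : Unit => gaussianReal 0 1))
    (measurable_pi_apply (X := fun _ : Unit => ℝ) ()).aemeasurable
    (f := fun x : ℝ => x) continuous_id.aestronglyMeasurable
  exact h3.symm.trans h2

theorem integrable_unit : Integrable (fun g : Unit → ℝ => g ()) (gam Unit) := by
  refine integrable_gam _ 1 1 (continuous_apply ()) ?_
  intro g
  have : |g ()| ≤ ‖g‖ := norm_le_pi_norm g ()
  rw [pow_one]
  linarith

end meas

end Smx

open Smx

theorem integral_iSup_lin_symW {ι κ : Type} [Fintype ι] [DecidableEq ι] [Nontrivial ι] [Fintype κ]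
    (w : κ → ι → ℝ) (hw : ∀ i, ∑ j, w i j = 0) :
    ∫ g, (⨆ j, ((Real.sqrt ((Fintype.card (Equiv.Perm ι) : ℝ)⁻¹)) • lin (symW w) g) j)
        ∂(gam (Equiv.Perm ι × κ))
      = Real.sqrt ((∑ i, ∑ j, w i j ^ 2) / ((Fintype.card ι : ℝ) - 1)) * MM ι := by
  classical
  have hm1 : (1 : ℝ) < (Fintype.card ι : ℝ) := by exact_mod_cast Fintype.one_lt_card
  have hN0 : (0 : ℝ) < (Fintype.card (Equiv.Perm ι) : ℝ) := by
    exact_mod_cast Fintype.card_pos
  have hS : 0 ≤ ∑ i, ∑ j, w i j ^ 2 :=
    Finset.sum_nonneg fun i _ => Finset.sum_nonneg fun j _ => sq_nonneg _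
  set m : ℝ := (Fintype.card ι : ℝ) with hm
  set N : ℝ := (Fintype.card (Equiv.Perm ι) : ℝ) with hN
  set S : ℝ := ∑ i, ∑ j, w i j ^ 2 with hSdef
  set α : ℝ := S / (m - 1) with hα
  have hα0 : 0 ≤ α := div_nonneg hS (by linarith)
  set r : ℝ := Real.sqrt N⁻¹ with hr
  have hr2 : r * r = N⁻¹ := Real.mul_self_sqrt (inv_nonneg.2 hN0.le)
  set β : ℝ := Real.sqrt (α / m) with hβ
  have hβ2 : β * β = α / m := Real.mul_self_sqrt (div_nonneg hα0 (by linarith))
  have hγ2 : Real.sqrt α * Real.sqrt α = α := Real.mul_self_sqrt hα0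
  -- the two families
  let WA : (Equiv.Perm ι × κ) ⊕ Unit → ι → ℝ :=
    Sum.elim (fun p => r • symW w p) (fun _ => fun _ => β)
  let WB : ι → ι → ℝ := fun i => Pi.single i (Real.sqrt α)
  have hTd : ∀ j, T w j j = N * S / m := by
    intro j
    have h := T_diag w j
    rw [eq_div_iff (by linarith : m ≠ 0)]
    rw [mul_comm]; exact h
  have hcov : ∀ j k, ∑ i, WA i j * WA i k = ∑ i, WB i j * WB i k := by
    intro j k
    have hA : ∑ i, WA i j * WA i k = N⁻¹ * T w j k + α / m := by
      rw [Fintype.sum_sum_type]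
      have e1 : ∑ p : Equiv.Perm ι × κ, WA (Sum.inl p) j * WA (Sum.inl p) k
          = N⁻¹ * T w j k := by
        rw [← symW_cov, Finset.mul_sum]
        refine Finset.sum_congr rfl fun p _ => ?_
        show (r * symW w p j) * (r * symW w p k) = _
        rw [← hr2]; ring
      have e2 : ∑ u : Unit, WA (Sum.inr u) j * WA (Sum.inr u) k = α / m := by
        rw [Fintype.sum_unique]
        exact hβ2
      rw [e1, e2]
    rw [hA]
    by_cases hjk : j = k
    · subst hjk
      have hB : ∑ i, WB i j * WB i j = α := by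
        rw [Finset.sum_eq_single j]
        · show (Pi.single j (Real.sqrt α) : ι → ℝ) j * (Pi.single j (Real.sqrt α) : ι → ℝ) j = α
          rw [Pi.single_eq_same, hγ2]
        · intro b _ hb
          show (Pi.single b (Real.sqrt α) : ι → ℝ) j * (Pi.single b (Real.sqrt α) : ι → ℝ) j = 0
          rw [Pi.single_eq_of_ne hb.symm, mul_zero]
        · intro h; exact absurd (Finset.mem_univ _) h
      rw [hB, hTd j, hα]
      have h1 : m - 1 ≠ 0 := by linarith
      have h2 : m ≠ 0 := by linarith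
      field_simp
      ring
    · have hB : ∑ i, WB i j * WB i k = 0 := by
        refine Finset.sum_eq_zero fun i _ => ?_
        show (Pi.single i (Real.sqrt α) : ι → ℝ) j * (Pi.single i (Real.sqrt α) : ι → ℝ) k = 0
        by_cases hij : i = j
        · subst hij
          rw [Pi.single_eq_of_ne (Ne.symm hjk), mul_zero]
        · rw [Pi.single_eq_of_ne (Ne.symm hij), zero_mul]
      have hoff := T_off w hw j k hjk
      rw [hTd j] at hoff
      have h1 : m - 1 ≠ 0 := by linarith
      have h2 : m ≠ 0 := by linarith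
      have hT : T w j k = - (N * S / m) / (m - 1) := by
        rw [eq_div_iff h1, mul_comm]; exact hoff
      rw [hB, hT, hα]
      field_simp
      ring
  have hmap := map_lin_eq WA WB hcov
  have hint : ∫ x, (⨆ j, x j) ∂((gam ((Equiv.Perm ι × κ) ⊕ Unit)).map (lin WA))
      = ∫ x, (⨆ j, x j) ∂((gam ι).map (lin WB)) := by rw [hmap]
  rw [integral_map (continuous_lin WA).measurable.aemeasurable
    continuous_iSup_apply.aestronglyMeasurable,
    integral_map (continuous_lin WB).measurable.aemeasurable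
    continuous_iSup_apply.aestronglyMeasurable] at hint
  -- right side
  have hR : ∫ g, (⨆ j, lin WB g j) ∂(gam ι) = Real.sqrt α * MM ι := by
    unfold MM
    rw [← integral_const_mul]
    refine integral_congr_ae (Filter.Eventually.of_forall fun g => ?_)
    have e : ∀ j, lin WB g j = Real.sqrt α * g j := by
      intro j
      unfold lin
      rw [Finset.sum_apply, Finset.sum_eq_single j]
      · show g j * (Pi.single j (Real.sqrt α) : ι → ℝ) j = _
        rw [Pi.single_eq_same, mul_comm]
      · intro b _ hb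
        show g b * (Pi.single b (Real.sqrt α) : ι → ℝ) j = 0
        rw [Pi.single_eq_of_ne hb.symm, mul_zero]
      · intro h; exact absurd (Finset.mem_univ _) h
    show (⨆ j, lin WB g j) = Real.sqrt α * ⨆ j, g j
    rw [Real.mul_iSup_of_nonneg (Real.sqrt_nonneg α)]
    exact iSup_congr e
  -- left side
  have hL : ∫ g, (⨆ j, lin WA g j) ∂(gam ((Equiv.Perm ι × κ) ⊕ Unit))
      = ∫ g, (⨆ j, (r • lin (symW w) g) j) ∂(gam (Equiv.Perm ι × κ)) := by
    have e : ∀ g : (Equiv.Perm ι × κ) ⊕ Unit → ℝ, (⨆ j, lin WA g j)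
        = (⨆ j, (r • lin (symW w) (fun p => g (Sum.inl p))) j) + β * g (Sum.inr ()) := by
      intro g
      have hb : BddAbove (Set.range
          (fun j => (r • lin (symW w) (fun p => g (Sum.inl p))) j)) :=
        (Set.finite_range _).bddAbove
      rw [ciSup_add hb]
      refine iSup_congr fun j => ?_
      unfold lin
      rw [Finset.sum_apply, Fintype.sum_sum_type]
      have e1 : ∑ p : Equiv.Perm ι × κ, (g (Sum.inl p) • WA (Sum.inl p)) j
          = (r • ∑ p : Equiv.Perm ι × κ, g (Sum.inl p) • symW w p) j := by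
        rw [Pi.smul_apply, Finset.sum_apply, smul_eq_mul, Finset.mul_sum]
        refine Finset.sum_congr rfl fun p _ => ?_
        show g (Sum.inl p) * (r * symW w p j) = r * (g (Sum.inl p) * symW w p j)
        ring
      have e2 : ∑ u : Unit, (g (Sum.inr u) • WA (Sum.inr u)) j = β * g (Sum.inr ()) := by
        rw [Fintype.sum_unique]
        show g (Sum.inr ()) * β = _
        ring
      rw [e1, e2]
    simp only [e]
    have hmp := measurePreserving_sumPiEquivProdPi
      (fun _ : (Equiv.Perm ι × κ) ⊕ Unit => gaussianReal 0 1)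
    have hfun : ∀ g : (Equiv.Perm ι × κ) ⊕ Unit → ℝ,
        (⨆ j, (r • lin (symW w) (fun p => g (Sum.inl p))) j) + β * g (Sum.inr ())
        = (fun z : ((Equiv.Perm ι × κ) → ℝ) × (Unit → ℝ) =>
            (⨆ j, (r • lin (symW w) z.1) j) + β * z.2 ())
          (MeasurableEquiv.sumPiEquivProdPi (fun _ => ℝ) g) := fun g => rfl
    simp only [hfun]
    have h3 := hmp.integral_comp' (g := (fun z : ((Equiv.Perm ι × κ) → ℝ) × (Unit → ℝ) =>
            (⨆ j, (r • lin (symW w) z.1) j) + β * z.2 ()))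
    refine h3.trans ?_
    show ∫ z, ((⨆ j, (r • lin (symW w) z.1) j) + β * z.2 ())
      ∂((gam (Equiv.Perm ι × κ)).prod (gam Unit)) = _
    have hi1 : Integrable (fun g => ⨆ j, (r • lin (symW w) g) j) (gam (Equiv.Perm ι × κ)) := by
      have h := integrable_iSup_lin (fun p => r • symW w p)
      refine h.congr (Filter.Eventually.of_forall fun g => ?_)
      have e5 : lin (fun p => r • symW w p) g = r • lin (symW w) g := by
        unfold lin
        rw [Finset.smul_sum]
        refine Finset.sum_congr rfl fun p _ => ?_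
        rw [smul_comm]
      show (⨆ j, lin (fun p => r • symW w p) g j) = ⨆ j, (r • lin (symW w) g) j
      rw [e5]
    have hi1' : Integrable (fun z : ((Equiv.Perm ι × κ) → ℝ) × (Unit → ℝ) =>
        ⨆ j, (r • lin (symW w) z.1) j) ((gam (Equiv.Perm ι × κ)).prod (gam Unit)) :=
      hi1.comp_fst (gam Unit)
    have hi2' : Integrable (fun z : ((Equiv.Perm ι × κ) → ℝ) × (Unit → ℝ) =>
        β * z.2 ()) ((gam (Equiv.Perm ι × κ)).prod (gam Unit)) :=
      (integrable_unit.const_mul β).comp_snd (gam (Equiv.Perm ι × κ))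
    rw [integral_add hi1' hi2']
    have e6 : ∫ z : ((Equiv.Perm ι × κ) → ℝ) × (Unit → ℝ), β * z.2 ()
        ∂((gam (Equiv.Perm ι × κ)).prod (gam Unit)) = 0 := by
      have := integral_fun_snd (μ := gam (Equiv.Perm ι × κ)) (ν := gam Unit)
        (fun g : Unit → ℝ => β * g ())
      rw [this, integral_const_mul, integral_unit]
      simp
    have e7 : ∫ z : ((Equiv.Perm ι × κ) → ℝ) × (Unit → ℝ), (⨆ j, (r • lin (symW w) z.1) j)
        ∂((gam (Equiv.Perm ι × κ)).prod (gam Unit))
        = ∫ g, (⨆ j, (r • lin (symW w) g) j) ∂(gam (Equiv.Perm ι × κ)) := by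
      have := integral_fun_fst (μ := gam (Equiv.Perm ι × κ)) (ν := gam Unit)
        (fun g : (Equiv.Perm ι × κ) → ℝ => ⨆ j, (r • lin (symW w) g) j)
      rw [this]
      simp
    rw [e6, e7, add_zero]
  rw [← hL, hint, hR]

end Pool.H65.PS
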