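import Pool.Agent.Helper65.PS.Lid
import Pool.Agent.Helper65.PS.Smx

set_option autoImplicit false

open MeasureTheory ProbabilityTheory

namespace Pool.H65.PS

section emx

variable {ι κ : Type} [Fintype ι] [Fintype κ]

theorem emx_iSup_le [Nonempty ι] (x y : ι → ℝ) : (⨆ j, x j) ≤ (⨆ j, y j) + ‖x - y‖ := by
  refine ciSup_le fun j => ?_
  have h1 : y j ≤ ⨆ j, y j := le_ciSup (Set.finite_range y).bddAbove j
  have h2 : |x j - y j| ≤ ‖x - y‖ := norm_le_pi_norm (x - y) j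
  have := (abs_le.mp h2).2
  linarith

theorem emx_cont_iSup [Nonempty ι] : Continuous (fun x : ι → ℝ => ⨆ j, x j) := by
  refine (LipschitzWith.of_dist_le_mul (K := 1) fun x y => ?_).continuous
  rw [Real.dist_eq, dist_eq_norm, NNReal.coe_one, one_mul, abs_sub_le_iff]
  constructor
  · linarith [emx_iSup_le x y]
  · have := emx_iSup_le y x
    rw [norm_sub_rev] at this
    linarith

theorem emx_abs_iSup [Nonempty ι] (x : ι → ℝ) : |⨆ j, x j| ≤ ‖x‖ := by
  have h1 := emx_iSup_le x 0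
  have h2 := emx_iSup_le 0 x
  simp only [Pi.zero_apply, ciSup_const, sub_zero, zero_add, zero_sub, norm_neg] at h1 h2
  rw [abs_le]
  constructor <;> linarith

theorem emx_le_lse [Nonempty ι] (β : ℝ) (hβ : 0 < β) (x : ι → ℝ) :
    (⨆ j, x j) ≤ β⁻¹ * lse (β • x) := by
  refine ciSup_le fun j => ?_
  have h := le_lse (β • x) j
  rw [Pi.smul_apply, smul_eq_mul] at h
  rw [inv_mul_eq_div, le_div_iff₀ hβ]
  linarith

theorem emx_lse_le [Nonempty ι] (β : ℝ) (hβ : 0 < β) (x : ι → ℝ) :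
    β⁻¹ * lse (β • x) ≤ (⨆ j, x j) + β⁻¹ * Real.log (Fintype.card ι) := by
  have h := lse_le_log_add_iSup (β • x)
  have h2 : (⨆ j, (β • x) j) = β * ⨆ j, x j := by
    rw [Real.mul_iSup_of_nonneg hβ.le]
    rfl
  rw [h2] at h
  have h3 := mul_le_mul_of_nonneg_left h (inv_pos.mpr hβ).le
  rw [mul_add, inv_mul_cancel_left₀ hβ.ne'] at h3
  linarith

theorem emx_lin_cont (W : κ → ι → ℝ) : Continuous (lin W) := by
  unfold lin
  fun_prop

theorem emx_lin_norm (W : κ → ι → ℝ) (g : κ → ℝ) : ‖lin W g‖ ≤ (∑ i, ‖W i‖) * ‖g‖ := by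
  unfold lin
  rw [Finset.sum_mul]
  refine (norm_sum_le _ _).trans (Finset.sum_le_sum fun i _ => ?_)
  rw [norm_smul, mul_comm]
  exact mul_le_mul_of_nonneg_left (norm_le_pi_norm g i) (norm_nonneg _)

theorem emx_int_sup [Nonempty ι] (W : κ → ι → ℝ) :
    Integrable (fun g : κ → ℝ => ⨆ j, lin W g j) (gam κ) := by
  refine integrable_gam _ (∑ i, ‖W i‖) 1 (emx_cont_iSup.comp (emx_lin_cont W)) fun g => ?_
  refine (emx_abs_iSup _).trans ((emx_lin_norm W g).trans ?_)
  have h1 : 0 ≤ ∑ i, ‖W i‖ := Finset.sum_nonneg fun i _ => norm_nonneg _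
  rw [pow_one]
  nlinarith [norm_nonneg g]

theorem emx_int_lse [Nonempty ι] (β : ℝ) (W : κ → ι → ℝ) :
    Integrable (fun g : κ → ℝ => lse (β • lin W g)) (gam κ) := by
  refine integrable_gam _ (|lse (0 : ι → ℝ)| + |β| * ∑ i, ‖W i‖) 1
    (continuous_lse.comp ((emx_lin_cont W).const_smul β)) fun g => ?_
  have h1 := abs_lse_sub_le (β • lin W g) 0
  rw [sub_zero, norm_smul, Real.norm_eq_abs] at h1
  have h2 := emx_lin_norm W g
  have h3 : |lse (β • lin W g)| ≤ |lse (β • lin W g) - lse (0 : ι → ℝ)| + |lse (0 : ι → ℝ)| := by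
    have := abs_add_le (lse (β • lin W g) - lse (0 : ι → ℝ)) (lse (0 : ι → ℝ))
    simpa using this
  have h4 : 0 ≤ ∑ i, ‖W i‖ := Finset.sum_nonneg fun i _ => norm_nonneg _
  have h5 : |β| * ‖lin W g‖ ≤ |β| * ((∑ i, ‖W i‖) * ‖g‖) :=
    mul_le_mul_of_nonneg_left h2 (abs_nonneg _)
  have h6 : 0 ≤ |lse (0 : ι → ℝ)| * ‖g‖ := by positivity
  have h7 : 0 ≤ |β| * ∑ i, ‖W i‖ := by positivity
  rw [pow_one]
  nlinarith

theorem emx_int_coord (i : κ) : Integrable (fun g : κ → ℝ => g i) (gam κ) := by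
  refine integrable_gam _ 1 1 (continuous_apply i) ?_
  intro g
  have := norm_le_pi_norm g i
  rw [Real.norm_eq_abs] at this
  rw [pow_one]
  linarith

theorem emx_mean_coord (i : κ) : ∫ g : κ → ℝ, g i ∂(gam κ) = 0 := by
  classical
  have h := gam_ibp i (fun _ : κ → ℝ => (1 : ℝ)) (fun _ => 0) 1 0 continuous_const
    continuous_const (fun g t => by simpa using hasDerivAt_const t (1 : ℝ)) (by simp) (by simp)
  simpa using h

/-- the centred unit vectors -/
noncomputable def emxF (m : ℕ) (a j : Fin m) : ℝ := (if a = j then 1 else 0) - (m : ℝ)⁻¹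

theorem emxF_cov (m : ℕ) (hm : 0 < m) (j k : Fin m) :
    ∑ a, emxF m a j * emxF m a k = (if j = k then 1 else 0) - (m : ℝ)⁻¹ := by
  have hm' : (m : ℝ) ≠ 0 := by positivity
  have h1 : ∀ a, emxF m a j * emxF m a k = (if a = j then (if j = k then 1 else 0) else 0)
      - (m : ℝ)⁻¹ * (if a = j then 1 else 0) - (m : ℝ)⁻¹ * (if a = k then 1 else 0)
      + (m : ℝ)⁻¹ * (m : ℝ)⁻¹ := by
    intro a
    unfold emxF
    by_cases h1 : a = j
    · subst h1
      by_cases h2 : a = k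
      · subst h2
        simp
        ring
      · simp [h2]
        ring
    · by_cases h2 : a = k
      · subst h2
        simp [h1]
        ring
      · simp [h1, h2]
  simp_rw [h1]
  rw [Finset.sum_add_distrib, Finset.sum_sub_distrib, Finset.sum_sub_distrib,
    ← Finset.mul_sum, ← Finset.mul_sum]
  simp only [Finset.sum_ite_eq', Finset.mem_univ, if_true, Finset.sum_const, Finset.card_univ,
    Fintype.card_fin, nsmul_eq_mul]
  field_simp
  ring

theorem emxF_sum (m : ℕ) (hm : 0 < m) : ∑ a, emxF m a = 0 := by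
  have hm' : (m : ℝ) ≠ 0 := by positivity
  funext j
  rw [Finset.sum_apply, Pi.zero_apply]
  unfold emxF
  rw [Finset.sum_sub_distrib]
  simp [hm']

theorem emxF_norm (m : ℕ) (hm : 0 < m) (a : Fin m) : ‖emxF m a‖ ≤ 1 := by
  rw [pi_norm_le_iff_of_nonneg zero_le_one]
  intro j
  have h1 : (0 : ℝ) < (m : ℝ)⁻¹ := by positivity
  have h2 : (m : ℝ)⁻¹ ≤ 1 := by
    apply inv_le_one_of_one_le₀
    exact_mod_cast hm
  rw [Real.norm_eq_abs, abs_le]
  unfold emxF
  split_ifs <;> constructor <;> linarith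

theorem emx_gauss (m n : ℕ) (hm : 0 < m) (hn : 0 < n) :
    ∫ g, (⨆ j, lin (fun p : Fin n × Fin m =>
        (Real.sqrt m)⁻¹ • ((Real.sqrt n)⁻¹ • emxF m p.2)) g j) ∂(gam (Fin n × Fin m))
      = MM (Fin m) / Real.sqrt m := by
  haveI : Nonempty (Fin m) := ⟨⟨0, hm⟩⟩
  have hm' : (0 : ℝ) < (m : ℝ) := by positivity
  have hn' : (0 : ℝ) < (n : ℝ) := by positivity
  have hsm : Real.sqrt m * Real.sqrt m = m := Real.mul_self_sqrt hm'.le
  have hsn : Real.sqrt n * Real.sqrt n = n := Real.mul_self_sqrt hn'.le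
  have hsm0 : 0 < Real.sqrt m := Real.sqrt_pos.mpr hm'
  have hsn0 : 0 < Real.sqrt n := Real.sqrt_pos.mpr hn'
  set W : Fin n × Fin m → Fin m → ℝ :=
    fun p => (Real.sqrt m)⁻¹ • ((Real.sqrt n)⁻¹ • emxF m p.2) with hW
  set W' : Fin m → Fin m → ℝ := fun a => (Real.sqrt m)⁻¹ • emxF m a with hW'
  have hlaw : (gam (Fin n × Fin m)).map (lin W) = (gam (Fin m)).map (lin W') := by
    refine map_lin_eq W W' fun j k => ?_
    rw [Fintype.sum_prod_type]
    simp only [hW, hW', Pi.smul_apply, smul_eq_mul]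
    rw [Finset.sum_const, Finset.card_univ, Fintype.card_fin, nsmul_eq_mul, Finset.mul_sum]
    refine Finset.sum_congr rfl fun a _ => ?_
    have h1 : (n : ℝ) * ((Real.sqrt m)⁻¹ * ((Real.sqrt n)⁻¹ * emxF m a j)
        * ((Real.sqrt m)⁻¹ * ((Real.sqrt n)⁻¹ * emxF m a k)))
        = ((n : ℝ) * (Real.sqrt n * Real.sqrt n)⁻¹) * ((Real.sqrt m)⁻¹ * emxF m a j
        * ((Real.sqrt m)⁻¹ * emxF m a k)) := by
      rw [mul_inv]
      ring
    rw [h1, hsn, mul_inv_cancel₀ hn'.ne', one_mul]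
  have h1 : ∫ g, (⨆ j, lin W g j) ∂(gam (Fin n × Fin m))
      = ∫ x : Fin m → ℝ, (⨆ j, x j) ∂((gam (Fin n × Fin m)).map (lin W)) := by
    rw [integral_map (emx_lin_cont W).aemeasurable emx_cont_iSup.aestronglyMeasurable]
  have h2 : ∫ g, (⨆ j, lin W' g j) ∂(gam (Fin m))
      = ∫ x : Fin m → ℝ, (⨆ j, x j) ∂((gam (Fin m)).map (lin W')) := by
    rw [integral_map (emx_lin_cont W').aemeasurable emx_cont_iSup.aestronglyMeasurable]
  rw [h1, hlaw, ← h2]
  have h3 : ∀ g : Fin m → ℝ, (⨆ j, lin W' g j)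
      = (Real.sqrt m)⁻¹ * ((⨆ j, g j) - ∑ i, (m : ℝ)⁻¹ * g i) := by
    intro g
    have h4 : ∀ j, lin W' g j = (Real.sqrt m)⁻¹ * (g j - ∑ i, (m : ℝ)⁻¹ * g i) := by
      intro j
      unfold lin
      simp only [hW', Finset.sum_apply, Pi.smul_apply, smul_eq_mul]
      unfold emxF
      rw [mul_sub, Finset.mul_sum]
      have h5 : ∀ a, g a * ((Real.sqrt m)⁻¹ * ((if a = j then 1 else 0) - (m : ℝ)⁻¹))
          = (if a = j then (Real.sqrt m)⁻¹ * g j else 0)
            - (Real.sqrt m)⁻¹ * ((m : ℝ)⁻¹ * g a) := by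
        intro a
        by_cases h : a = j
        · subst h
          simp
          ring
        · simp [h]
          ring
      simp_rw [h5]
      rw [Finset.sum_sub_distrib]
      simp
    simp_rw [h4]
    rw [← Real.mul_iSup_of_nonneg (by positivity)]
    congr 1
    have hb : BddAbove (Set.range g) := (Set.finite_range g).bddAbove
    rw [← ciSup_sub hb]
  simp_rw [h3]
  rw [integral_const_mul, integral_sub, integral_finset_sum]
  · simp_rw [integral_const_mul, emx_mean_coord]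
    simp only [mul_zero, Finset.sum_const_zero, sub_zero]
    unfold MM
    rw [div_eq_inv_mul]
  · intro i _
    exact (emx_int_coord i).const_mul _
  · refine integrable_gam _ 1 1 emx_cont_iSup fun g => ?_
    have := emx_abs_iSup g
    rw [pow_one]
    linarith
  · exact integrable_finset_sum _ fun i _ => (emx_int_coord i).const_mul _

theorem emx_av_mono {m n : ℕ} (f g : (Fin n → Fin m) → ℝ) (h : ∀ ω, f ω ≤ g ω) :
    av f ≤ av g := by
  unfold av
  exact mul_le_mul_of_nonneg_left (Finset.sum_le_sum fun ω _ => h ω) (by positivity)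

theorem emx_av_add_const {m n : ℕ} (hm : 0 < m) (f : (Fin n → Fin m) → ℝ) (c : ℝ) :
    av (fun ω => f ω + c) = av f + c := by
  unfold av
  have hm' : ((m : ℝ) ^ n) ≠ 0 := by positivity
  rw [Finset.sum_add_distrib, Finset.sum_const, Finset.card_univ, nsmul_eq_mul, mul_add]
  congr 1
  rw [Fintype.card_fun, Fintype.card_fin, Fintype.card_fin]
  push_cast
  rw [inv_mul_cancel_left₀ hm']

theorem emx_av_mul {m n : ℕ} (f : (Fin n → Fin m) → ℝ) (c : ℝ) :
    av (fun ω => c * f ω) = c * av f := by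
  unfold av
  rw [← Finset.mul_sum]
  ring

theorem emx_cnt {m n : ℕ} (ω : Fin n → Fin m) (j : Fin m) :
    (cnt ω j : ℝ) - n / m = ∑ i, emxF m (ω i) j := by
  unfold cnt emxF
  rw [Finset.sum_sub_distrib, Finset.sum_boole, Finset.sum_const, Finset.card_univ,
    Fintype.card_fin, nsmul_eq_mul]
  rfl

theorem emx_main (m : ℕ) (hm : 0 < m) : ∃ K : ℝ, 0 ≤ K ∧ ∀ (n : ℕ) (_ : 0 < n) (β : ℝ)
    (_ : 0 < β),
    |av (fun ω : Fin n → Fin m => ⨆ j, ((cnt ω j : ℝ) - n / m) / Real.sqrt n)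
      - MM (Fin m) / Real.sqrt m|
      ≤ β⁻¹ * Real.log m + β⁻¹ * (K * m * β ^ 3 / Real.sqrt n) := by
  haveI : Nonempty (Fin m) := ⟨⟨0, hm⟩⟩
  obtain ⟨K, hK, hlin⟩ := lindeberg_disc (ι := Fin m) m hm
  refine ⟨K, hK, fun n hn β hβ => ?_⟩
  have hm' : (0 : ℝ) < (m : ℝ) := by positivity
  have hn' : (0 : ℝ) < (n : ℝ) := by positivity
  have hsn0 : 0 < Real.sqrt n := Real.sqrt_pos.mpr hn'
  have hsn : Real.sqrt n * Real.sqrt n = n := Real.mul_self_sqrt hn'.le
  set W : Fin n × Fin m → Fin m → ℝ :=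
    fun p => (Real.sqrt m)⁻¹ • ((Real.sqrt n)⁻¹ • emxF m p.2) with hW
  set X : (Fin n → Fin m) → Fin m → ℝ := fun ω j => ((cnt ω j : ℝ) - n / m) / Real.sqrt n with hX
  have h := hlin n (fun _ a => (β * (Real.sqrt n)⁻¹) • emxF m a) (fun i => by
    rw [← Finset.smul_sum, emxF_sum m hm, smul_zero]) 0
  have hA : ∀ ω : Fin n → Fin m,
      (0 : Fin m → ℝ) + ∑ i, (β * (Real.sqrt n)⁻¹) • emxF m (ω i) = β • X ω := by
    intro ω
    funext j
    rw [zero_add, Finset.sum_apply, Pi.smul_apply, smul_eq_mul]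
    simp only [Pi.smul_apply, smul_eq_mul, hX]
    rw [← Finset.mul_sum, emx_cnt]
    ring
  have hB : ∀ g : Fin n × Fin m → ℝ,
      (0 : Fin m → ℝ) + lin (fun p : Fin n × Fin m =>
        (Real.sqrt m)⁻¹ • ((β * (Real.sqrt n)⁻¹) • emxF m p.2)) g = β • lin W g := by
    intro g
    rw [zero_add]
    unfold lin
    rw [Finset.smul_sum]
    refine Finset.sum_congr rfl fun p _ => ?_
    simp only [hW, smul_smul]
    congr 1
    ring
  simp_rw [hA, hB] at h
  have hR : K * ∑ _i : Fin n, ∑ a : Fin m, ‖(β * (Real.sqrt n)⁻¹) • emxF m a‖ ^ 3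
      ≤ K * m * β ^ 3 / Real.sqrt n := by
    have h1 : ∀ a : Fin m, ‖(β * (Real.sqrt n)⁻¹) • emxF m a‖ ^ 3
        ≤ (β * (Real.sqrt n)⁻¹) ^ 3 := by
      intro a
      refine pow_le_pow_left₀ (norm_nonneg _) ?_ 3
      rw [norm_smul, Real.norm_of_nonneg (by positivity)]
      have := emxF_norm m hm a
      have h2 : 0 ≤ β * (Real.sqrt n)⁻¹ := by positivity
      nlinarith
    have h2 : ∑ _i : Fin n, ∑ a : Fin m, ‖(β * (Real.sqrt n)⁻¹) • emxF m a‖ ^ 3
        ≤ ∑ _i : Fin n, ∑ _a : Fin m, (β * (Real.sqrt n)⁻¹) ^ 3 :=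
      Finset.sum_le_sum fun i _ => Finset.sum_le_sum fun a _ => h1 a
    refine (mul_le_mul_of_nonneg_left h2 hK).trans (le_of_eq ?_)
    simp only [Finset.sum_const, Finset.card_univ, Fintype.card_fin, nsmul_eq_mul]
    have h3 : (n : ℝ) * ((Real.sqrt n)⁻¹ * (Real.sqrt n)⁻¹) = 1 := by
      rw [← mul_inv, hsn, mul_inv_cancel₀ hn'.ne']
    calc K * ((n : ℝ) * (m * (β * (Real.sqrt n)⁻¹) ^ 3))
        = K * m * β ^ 3 * (Real.sqrt n)⁻¹ * ((n : ℝ) * ((Real.sqrt n)⁻¹ * (Real.sqrt n)⁻¹)) := by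
          ring
      _ = K * m * β ^ 3 / Real.sqrt n := by
          rw [h3, mul_one, div_eq_mul_inv]
  have h' := h.trans hR
  have hG := emx_gauss m n hm hn
  rw [← hW] at hG
  -- Gaussian side bounds
  have hg1 : MM (Fin m) / Real.sqrt m ≤ β⁻¹ * ∫ g, lse (β • lin W g) ∂(gam (Fin n × Fin m)) := by
    rw [← hG, ← integral_const_mul]
    exact integral_mono (emx_int_sup W) ((emx_int_lse β W).const_mul _)
      fun g => emx_le_lse β hβ _
  have hg2 : β⁻¹ * ∫ g, lse (β • lin W g) ∂(gam (Fin n × Fin m))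
      ≤ MM (Fin m) / Real.sqrt m + β⁻¹ * Real.log m := by
    have h1 : β⁻¹ * ∫ g, lse (β • lin W g) ∂(gam (Fin n × Fin m))
        ≤ ∫ g, ((⨆ j, lin W g j) + β⁻¹ * Real.log m) ∂(gam (Fin n × Fin m)) := by
      rw [← integral_const_mul]
      refine integral_mono ((emx_int_lse β W).const_mul _)
        ((emx_int_sup W).add (integrable_const _)) fun g => ?_
      have := emx_lse_le β hβ (lin W g)
      rw [Fintype.card_fin] at this
      exact this
    rw [integral_add (emx_int_sup W) (integrable_const _), hG] at h1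
    simpa using h1
  -- discrete side bounds
  have hd1 : av (fun ω : Fin n → Fin m => ⨆ j, X ω j)
      ≤ β⁻¹ * av (fun ω : Fin n → Fin m => lse (β • X ω)) := by
    rw [← emx_av_mul]
    exact emx_av_mono _ _ fun ω => emx_le_lse β hβ _
  have hd2 : β⁻¹ * av (fun ω : Fin n → Fin m => lse (β • X ω))
      ≤ av (fun ω : Fin n → Fin m => ⨆ j, X ω j) + β⁻¹ * Real.log m := by
    rw [← emx_av_mul, ← emx_av_add_const hm]
    refine emx_av_mono _ _ fun ω => ?_
    have := emx_lse_le β hβ (X ω)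
    rw [Fintype.card_fin] at this
    exact this
  have hi : 0 < β⁻¹ := inv_pos.mpr hβ
  obtain ⟨h1, h2⟩ := abs_le.mp h'
  have h3 := mul_le_mul_of_nonneg_left h1 hi.le
  have h4 := mul_le_mul_of_nonneg_left h2 hi.le
  rw [mul_sub] at h3 h4
  rw [abs_le]
  constructor <;> linarith

end emx

theorem iSup_cnt_tendsto (m : ℕ) (hm : 2 ≤ m) :
    Filter.Tendsto (fun n : ℕ => av (fun ω : Fin n → Fin m =>
        ⨆ j, ((cnt ω j : ℝ) - n / m) / Real.sqrt n))
      Filter.atTop (nhds (MM (Fin m) / Real.sqrt m)) := by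
  obtain ⟨K, hK, h⟩ := emx_main m (by omega)
  rw [Metric.tendsto_atTop]
  intro ε hε
  -- choose β
  have hlog : 0 ≤ Real.log m := Real.log_natCast_nonneg m
  set β : ℝ := (Real.log m + 1) * (2 / ε) with hβdef
  have hβ : 0 < β := by positivity
  have h1 : β⁻¹ * Real.log m < ε / 2 := by
    rw [inv_mul_lt_iff₀ hβ, hβdef]
    have : (Real.log m + 1) * (2 / ε) * (ε / 2) = Real.log m + 1 := by
      field_simp
    rw [this]
    linarith
  have h2 : Filter.Tendsto (fun n : ℕ => β⁻¹ * (K * m * β ^ 3 / Real.sqrt n)) Filter.atTop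
      (nhds 0) := by
    have h3 : Filter.Tendsto (fun n : ℕ => Real.sqrt (n : ℝ)) Filter.atTop Filter.atTop :=
      Real.tendsto_sqrt_atTop.comp tendsto_natCast_atTop_atTop
    have h4 := (h3.const_div_atTop (K * m * β ^ 3)).const_mul β⁻¹
    simpa using h4
  have h3 : ∀ᶠ n : ℕ in Filter.atTop, β⁻¹ * (K * m * β ^ 3 / Real.sqrt n) < ε / 2 :=
    h2.eventually_lt_const (by positivity)
  obtain ⟨N, hN⟩ := Filter.eventually_atTop.mp h3
  refine ⟨max N 1, fun n hn => ?_⟩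
  have h4 := h n (lt_of_lt_of_le one_pos ((le_max_right _ _).trans hn)) β hβ
  have h5 := hN n ((le_max_left _ _).trans hn)
  rw [Real.dist_eq]
  linarith

end Pool.H65.PS
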