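import Pool.Agent.Helper65.PS.Defs

set_option autoImplicit false

open MeasureTheory ProbabilityTheory

namespace Pool.H65.PS

theorem Exl_continuous_lin {ι κ : Type} [Fintype κ] (W : κ → ι → ℝ) : Continuous (lin W) := by
  unfold lin
  fun_prop

theorem Exl_charFunDual {ι κ : Type} [Fintype ι] [Fintype κ] (W : κ → ι → ℝ)
    (L : StrongDual ℝ (ι → ℝ)) :
    charFunDual ((gam κ).map (lin W)) L =
      Complex.exp (-(((∑ i, (L (W i)) ^ 2 : ℝ) : ℂ)) / 2) := by
  rw [charFunDual_apply, integral_map (Exl_continuous_lin W).measurable.aemeasurable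
    (Continuous.aestronglyMeasurable (by fun_prop))]
  have h1 : ∀ g : κ → ℝ, Complex.exp ((L (lin W g) : ℂ) * Complex.I) =
      ∏ i, Complex.exp (((L (W i) : ℝ) : ℂ) * (g i : ℂ) * Complex.I) := by
    intro g
    rw [← Complex.exp_sum]
    congr 1
    unfold lin
    rw [map_sum]
    push_cast
    rw [Finset.sum_mul]
    refine Finset.sum_congr rfl fun i _ => ?_
    rw [map_smul, smul_eq_mul]
    push_cast
    ring
  simp_rw [h1]
  unfold gam
  rw [integral_fintype_prod_eq_prod (f := fun (i : κ) (x : ℝ) =>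
    Complex.exp (((L (W i) : ℝ) : ℂ) * (x : ℂ) * Complex.I))]
  have h2 : ∀ i : κ, ∫ x : ℝ, Complex.exp (((L (W i) : ℝ) : ℂ) * (x : ℂ) * Complex.I)
      ∂(gaussianReal 0 1) = Complex.exp (-(((L (W i)) ^ 2 : ℝ) : ℂ) / 2) := by
    intro i
    rw [← charFun_apply_real, charFun_gaussianReal]
    congr 1
    push_cast
    ring
  simp_rw [h2]
  rw [← Complex.exp_sum]
  congr 1
  push_cast
  rw [← Finset.sum_neg_distrib, Finset.sum_div]

open Classical in
theorem Exl_sum_sq {ι κ : Type} [Fintype ι] [Fintype κ] (W : κ → ι → ℝ)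
    (L : StrongDual ℝ (ι → ℝ)) :
    ∑ i, (L (W i)) ^ 2 = ∑ j, ∑ k, L (Pi.single j 1) * L (Pi.single k 1) *
      ∑ i, W i j * W i k := by
  have h1 : ∀ i, L (W i) = ∑ j, W i j * L (Pi.single j 1) := by
    intro i
    conv_lhs => rw [pi_eq_sum_univ' (W i)]
    rw [map_sum]
    refine Finset.sum_congr rfl fun j _ => ?_
    rw [map_smul, smul_eq_mul]
  simp_rw [h1, sq, Finset.sum_mul_sum, Finset.mul_sum]
  rw [Finset.sum_comm]
  refine Finset.sum_congr rfl fun j _ => ?_
  rw [Finset.sum_comm]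
  refine Finset.sum_congr rfl fun k _ => Finset.sum_congr rfl fun i _ => ?_
  ring

/-- two centred Gaussian vectors with the same covariance have the same law -/
theorem map_lin_eq {ι κ κ' : Type} [Fintype ι] [Fintype κ] [Fintype κ'] (W : κ → ι → ℝ)
    (W' : κ' → ι → ℝ) (h : ∀ j k, ∑ i, W i j * W i k = ∑ i, W' i j * W' i k) :
    (gam κ).map (lin W) = (gam κ').map (lin W') := by
  refine Measure.ext_of_charFunDual (funext fun L => ?_)
  rw [Exl_charFunDual, Exl_charFunDual, Exl_sum_sq, Exl_sum_sq]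
  simp_rw [h]

end Pool.H65.PS
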