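import Pool.Agent.Helper65.PS.Base
import Pool.Agent.Helper65.PS.Ibp

set_option autoImplicit false

open MeasureTheory ProbabilityTheory

namespace Pool.H65.PS

section minz

variable {ι κ : Type} [Fintype ι] [Nonempty ι] [Fintype κ]

theorem minz_cont (W : κ → ι → ℝ) (s : κ → ℝ) (c : ι → ℝ) :
    Continuous (fun g : κ → ℝ => lse (c + ∑ i, (Real.sqrt (s i) * g i) • W i)) := by
  refine continuous_lse.comp ?_
  fun_prop

theorem minz_norm_le (W : κ → ι → ℝ) (s : κ → ℝ) (g : κ → ℝ) :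
    ‖∑ i, (Real.sqrt (s i) * g i) • W i‖ ≤ (∑ i, Real.sqrt (s i) * ‖W i‖) * ‖g‖ := by
  rw [Finset.sum_mul]
  refine (norm_sum_le _ _).trans (Finset.sum_le_sum fun i _ => ?_)
  rw [norm_smul, norm_mul, Real.norm_of_nonneg (Real.sqrt_nonneg _)]
  have h1 : ‖g i‖ ≤ ‖g‖ := norm_le_pi_norm g i
  have h2 : 0 ≤ Real.sqrt (s i) * ‖W i‖ := by positivity
  nlinarith [mul_le_mul_of_nonneg_left h1 h2]

theorem minz_int (W : κ → ι → ℝ) (s : κ → ℝ) (c : ι → ℝ) :
    Integrable (fun g : κ → ℝ => lse (c + ∑ i, (Real.sqrt (s i) * g i) • W i)) (gam κ) := by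
  refine integrable_gam _ (|lse c| + ∑ i, Real.sqrt (s i) * ‖W i‖) 1 (minz_cont W s c) ?_
  intro g
  have h1 := abs_lse_sub_le (c + ∑ i, (Real.sqrt (s i) * g i) • W i) c
  rw [add_sub_cancel_left] at h1
  have h2 := minz_norm_le W s g
  have h3 : |lse (c + ∑ i, (Real.sqrt (s i) * g i) • W i)|
      ≤ |lse (c + ∑ i, (Real.sqrt (s i) * g i) • W i) - lse c| + |lse c| := by
    have := abs_add_le (lse (c + ∑ i, (Real.sqrt (s i) * g i) • W i) - lse c) (lse c)
    simpa using this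
  have h4 : 0 ≤ ∑ i, Real.sqrt (s i) * ‖W i‖ := Finset.sum_nonneg fun i _ => by positivity
  have h5 : 0 ≤ ‖g‖ := norm_nonneg g
  have h6 : 0 ≤ |lse c| := abs_nonneg _
  rw [pow_one]
  nlinarith [mul_nonneg h6 h5]

theorem minz_int_coord (i : κ) : Integrable (fun g : κ → ℝ => g i) (gam κ) := by
  refine integrable_gam _ 1 1 (continuous_apply i) ?_
  intro g
  have := norm_le_pi_norm g i
  rw [Real.norm_eq_abs] at this
  rw [pow_one]
  linarith

theorem minz_int_abs (i : κ) : Integrable (fun g : κ → ℝ => |g i|) (gam κ) :=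
  (minz_int_coord i).abs

theorem minz_mean_coord (i : κ) : ∫ g : κ → ℝ, g i ∂(gam κ) = 0 := by
  classical
  have h := gam_ibp i (fun _ : κ → ℝ => (1 : ℝ)) (fun _ => 0) 1 0 continuous_const
    continuous_const (fun g t => by simpa using hasDerivAt_const t (1 : ℝ)) (by simp) (by simp)
  simpa using h

theorem minz_le_int (W : κ → ι → ℝ) (s : κ → ℝ) (c : ι → ℝ) (j : ι) :
    c j ≤ ∫ g, lse (c + ∑ i, (Real.sqrt (s i) * g i) • W i) ∂(gam κ) := by
  have hint : ∀ i, Integrable (fun g : κ → ℝ => (Real.sqrt (s i) * g i) * W i j) (gam κ) :=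
    fun i => ((minz_int_coord i).const_mul _).mul_const _
  have h1 : ∫ g, (c + ∑ i, (Real.sqrt (s i) * g i) • W i) j ∂(gam κ) = c j := by
    have h2 : ∀ g : κ → ℝ, (c + ∑ i, (Real.sqrt (s i) * g i) • W i) j
        = c j + ∑ i, (Real.sqrt (s i) * g i) * W i j := by
      intro g
      simp [Finset.sum_apply]
    simp_rw [h2]
    rw [integral_add (integrable_const _) (integrable_finset_sum _ fun i _ => hint i),
      integral_finset_sum _ fun i _ => hint i]
    have h3 : ∀ i, ∫ g : κ → ℝ, (Real.sqrt (s i) * g i) * W i j ∂(gam κ) = 0 := by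
      intro i
      rw [integral_mul_const, integral_const_mul, minz_mean_coord]
      simp
    simp [h3]
  rw [← h1]
  refine integral_mono ?_ (minz_int W s c) (fun g => le_lse _ j)
  have h2 : (fun g : κ → ℝ => (c + ∑ i, (Real.sqrt (s i) * g i) • W i) j)
      = fun g : κ → ℝ => c j + ∑ i, (Real.sqrt (s i) * g i) * W i j := by
    funext g
    simp [Finset.sum_apply]
  rw [h2]
  exact (integrable_const _).add (integrable_finset_sum _ fun i _ => hint i)

theorem minz_lower (W : κ → ι → ℝ) (s : κ → ℝ) (c : ι → ℝ) (j : ι) :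
    c j - (∑ k, c k) / (Fintype.card ι : ℝ) + (∑ k, c k) ^ 2 / 2 ≤ GG W s c := by
  unfold GG
  have := minz_le_int W s c j
  linarith

theorem minz_card_pos : (0 : ℝ) < (Fintype.card ι : ℝ) := by
  exact_mod_cast Fintype.card_pos

theorem minz_lower2 (W : κ → ι → ℝ) (s : κ → ℝ) (c : ι → ℝ) :
    (∑ k, c k) ^ 2 / 2 ≤ GG W s c := by
  have hN : (0 : ℝ) < (Fintype.card ι : ℝ) := minz_card_pos
  have h : ∑ j : ι, (c j - (∑ k, c k) / (Fintype.card ι : ℝ) + (∑ k, c k) ^ 2 / 2)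
      ≤ ∑ _j : ι, GG W s c := Finset.sum_le_sum fun j _ => minz_lower W s c j
  rw [Finset.sum_add_distrib, Finset.sum_sub_distrib, Finset.sum_const, Finset.sum_const,
    Finset.sum_const, Finset.card_univ, nsmul_eq_mul, nsmul_eq_mul, nsmul_eq_mul,
    mul_div_cancel₀ _ hN.ne', sub_self, zero_add] at h
  exact le_of_mul_le_mul_left h hN

theorem minz_lipschitz (W : κ → ι → ℝ) (s : κ → ℝ) (c c' : ι → ℝ) :
    |∫ g, lse (c + ∑ i, (Real.sqrt (s i) * g i) • W i) ∂(gam κ)
      - ∫ g, lse (c' + ∑ i, (Real.sqrt (s i) * g i) • W i) ∂(gam κ)| ≤ ‖c - c'‖ := by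
  rw [← integral_sub (minz_int W s c) (minz_int W s c')]
  have h := norm_integral_le_of_norm_le_const (μ := gam κ)
    (f := fun g : κ → ℝ => lse (c + ∑ i, (Real.sqrt (s i) * g i) • W i)
      - lse (c' + ∑ i, (Real.sqrt (s i) * g i) • W i)) (C := ‖c - c'‖)
    (Filter.Eventually.of_forall fun g => by
      rw [Real.norm_eq_abs]
      refine (abs_lse_sub_le _ _).trans (le_of_eq ?_)
      congr 1
      abel)
  simpa using h

theorem minz_continuous_GG (W : κ → ι → ℝ) (s : κ → ℝ) : Continuous (GG W s) := by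
  unfold GG
  have h1 : Continuous (fun c : ι → ℝ =>
      ∫ g, lse (c + ∑ i, (Real.sqrt (s i) * g i) • W i) ∂(gam κ)) := by
    refine (LipschitzWith.of_dist_le_mul (K := 1) fun c c' => ?_).continuous
    rw [Real.dist_eq, dist_eq_norm]
    simpa using minz_lipschitz W s c c'
  fun_prop

theorem GG_nonneg_aux (W : κ → ι → ℝ)
    (s : κ → ℝ) (c : ι → ℝ) : 0 ≤ GG W s c :=
  le_trans (by positivity) (minz_lower2 W s c)

theorem minz_bound (W : κ → ι → ℝ) (s : κ → ℝ) (c : ι → ℝ) (B : ℝ)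
    (h : GG W s c ≤ B) :
    ‖c‖ ≤ (1 + 2 * B) + (Fintype.card ι : ℝ) * (1 + 3 * B) := by
  classical
  have hN : (0 : ℝ) < (Fintype.card ι : ℝ) := minz_card_pos
  have hN1 : (1 : ℝ) ≤ (Fintype.card ι : ℝ) := by exact_mod_cast Fintype.card_pos
  have hB : 0 ≤ B := (GG_nonneg_aux W s c).trans h
  have h2 := (minz_lower2 W s c).trans h
  set S := ∑ k, c k with hS
  have hS1 : |S| ≤ 1 + 2 * B := by
    rw [abs_le]
    constructor <;> nlinarith [sq_nonneg (S - 1), sq_nonneg (S + 1)]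
  have hSN : S / (Fintype.card ι : ℝ) ≤ 1 + 2 * B := by
    rw [div_le_iff₀ hN]
    have : S ≤ 1 + 2 * B := (le_abs_self S).trans hS1
    nlinarith
  have hup : ∀ j, c j ≤ 1 + 3 * B := by
    intro j
    have h3 := (minz_lower W s c j).trans h
    have h4 : 0 ≤ S ^ 2 / 2 := by positivity
    linarith
  rw [pi_norm_le_iff_of_nonneg (by positivity)]
  intro j
  rw [Real.norm_eq_abs, abs_le]
  constructor
  · have h5 : S = c j + ∑ k ∈ Finset.univ.erase j, c k := by
      rw [hS, Finset.add_sum_erase _ _ (Finset.mem_univ j)]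
    have h6 : ∑ k ∈ Finset.univ.erase j, c k
        ≤ ∑ _k ∈ Finset.univ.erase j, (1 + 3 * B) := Finset.sum_le_sum fun k _ => hup k
    rw [Finset.sum_const, nsmul_eq_mul] at h6
    have h7 : ((Finset.univ.erase j).card : ℝ) ≤ (Fintype.card ι : ℝ) := by
      exact_mod_cast Finset.card_le_univ _
    have h8 : 0 ≤ 1 + 3 * B := by positivity
    have h9 := mul_le_mul_of_nonneg_right h7 h8
    have h10 := (abs_le.mp hS1).1
    linarith
  · have := hup j
    nlinarith

theorem minz_sdiff (W : κ → ι → ℝ) (s s' : κ → ℝ) (c : ι → ℝ) :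
    GG W s c ≤ GG W s' c
      + ∑ i, |Real.sqrt (s i) - Real.sqrt (s' i)| * ‖W i‖ * ∫ g : κ → ℝ, |g i| ∂(gam κ) := by
  have hint : ∀ i, Integrable (fun g : κ → ℝ =>
      |Real.sqrt (s i) - Real.sqrt (s' i)| * ‖W i‖ * |g i|) (gam κ) :=
    fun i => (minz_int_abs i).const_mul _
  have h1 : ∫ g, lse (c + ∑ i, (Real.sqrt (s i) * g i) • W i) ∂(gam κ)
      ≤ ∫ g, (lse (c + ∑ i, (Real.sqrt (s' i) * g i) • W i)
        + ∑ i, |Real.sqrt (s i) - Real.sqrt (s' i)| * ‖W i‖ * |g i|) ∂(gam κ) := by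
    refine integral_mono (minz_int W s c)
      ((minz_int W s' c).add (integrable_finset_sum _ fun i _ => hint i)) (fun g => ?_)
    have h2 := abs_lse_sub_le (c + ∑ i, (Real.sqrt (s i) * g i) • W i)
      (c + ∑ i, (Real.sqrt (s' i) * g i) • W i)
    have h3 : (c + ∑ i, (Real.sqrt (s i) * g i) • W i)
        - (c + ∑ i, (Real.sqrt (s' i) * g i) • W i)
        = ∑ i, ((Real.sqrt (s i) - Real.sqrt (s' i)) * g i) • W i := by
      rw [add_sub_add_left_eq_sub, ← Finset.sum_sub_distrib]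
      refine Finset.sum_congr rfl fun i _ => ?_
      rw [← sub_smul, sub_mul]
    rw [h3] at h2
    have h4 : ‖∑ i, ((Real.sqrt (s i) - Real.sqrt (s' i)) * g i) • W i‖
        ≤ ∑ i, |Real.sqrt (s i) - Real.sqrt (s' i)| * ‖W i‖ * |g i| := by
      refine (norm_sum_le _ _).trans (le_of_eq (Finset.sum_congr rfl fun i _ => ?_))
      rw [norm_smul, norm_mul, Real.norm_eq_abs, Real.norm_eq_abs]
      ring
    have h5 := (abs_le.mp (h2.trans h4)).2
    simp only
    linarith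
  rw [integral_add (minz_int W s' c) (integrable_finset_sum _ fun i _ => hint i),
    integral_finset_sum _ fun i _ => hint i] at h1
  simp_rw [integral_const_mul] at h1
  unfold GG
  linarith

end minz

theorem GG_nonneg {ι κ : Type} [Fintype ι] [Nonempty ι] [Fintype κ] (W : κ → ι → ℝ)
    (s : κ → ℝ) (c : ι → ℝ) : 0 ≤ GG W s c := GG_nonneg_aux W s c

theorem exists_minimizer {ι κ : Type} [Fintype ι] [Nonempty ι] [Fintype κ] (W : κ → ι → ℝ)
    (s : κ → ℝ) : ∃ c : ι → ℝ, GG W s c = FF W s ∧ ∀ c', GG W s c ≤ GG W s c' := by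
  obtain ⟨c, hc⟩ := (minz_continuous_GG W s).exists_forall_le' (0 : ι → ℝ) (by
    have hK := (isCompact_closedBall (0 : ι → ℝ)
      ((1 + 2 * GG W s 0) + (Fintype.card ι : ℝ) * (1 + 3 * GG W s 0))).compl_mem_cocompact
    filter_upwards [hK] with x hx
    by_contra hlt
    push Not at hlt
    apply hx
    rw [mem_closedBall_zero_iff]
    exact minz_bound W s x _ hlt.le)
  refine ⟨c, ?_, hc⟩
  unfold FF
  refine le_antisymm (le_ciInf hc) (ciInf_le ⟨0, ?_⟩ c)
  rintro _ ⟨c', rfl⟩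
  exact GG_nonneg W s c'

theorem continuous_FF {ι κ : Type} [Fintype ι] [Nonempty ι] [Fintype κ] (W : κ → ι → ℝ) :
    Continuous (FF W) := by
  have key : ∀ s s' : κ → ℝ, FF W s ≤ FF W s'
      + ∑ i, |Real.sqrt (s i) - Real.sqrt (s' i)| * ‖W i‖ * ∫ g : κ → ℝ, |g i| ∂(gam κ) := by
    intro s s'
    obtain ⟨c', h1, -⟩ := exists_minimizer W s'
    rw [← h1]
    refine le_trans (ciInf_le ⟨0, ?_⟩ c') (minz_sdiff W s s' c')
    rintro _ ⟨c, rfl⟩
    exact GG_nonneg W s c
  rw [continuous_iff_continuousAt]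
  intro s
  have hD : Filter.Tendsto (fun s' : κ → ℝ =>
      ∑ i, |Real.sqrt (s i) - Real.sqrt (s' i)| * ‖W i‖ * ∫ g : κ → ℝ, |g i| ∂(gam κ))
      (nhds s) (nhds 0) := by
    have hc : Continuous (fun s' : κ → ℝ =>
      ∑ i, |Real.sqrt (s i) - Real.sqrt (s' i)| * ‖W i‖ * ∫ g : κ → ℝ, |g i| ∂(gam κ)) := by
      fun_prop
    have := hc.tendsto s
    simpa using this
  rw [ContinuousAt, tendsto_iff_norm_sub_tendsto_zero]
  refine squeeze_zero (fun _ => norm_nonneg _) (fun s' => ?_) hD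
  rw [Real.norm_eq_abs, abs_sub_le_iff]
  constructor
  · have := key s' s
    have h2 : ∀ i, |Real.sqrt (s' i) - Real.sqrt (s i)| = |Real.sqrt (s i) - Real.sqrt (s' i)| :=
      fun i => abs_sub_comm _ _
    simp_rw [h2] at this
    linarith
  · have := key s s'
    linarith

end Pool.H65.PS
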