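import Pool.Agent.Helper65.PS.Loc
import Pool.Agent.Helper65.PS.Minz
import Pool.Agent.Helper65.PS.Ccv

set_option autoImplicit false

open MeasureTheory ProbabilityTheory

namespace Pool.H65.PS

theorem FF_concave {ι κ : Type} [Fintype ι] [Nonempty ι] [Fintype κ] (W : κ → ι → ℝ) :
    ConcaveOn ℝ {s : κ → ℝ | ∀ i, 0 ≤ s i} (FF W) := by
  have hle : ∀ (s : κ → ℝ) (c : ι → ℝ), FF W s ≤ GG W s c := by
    intro s c
    apply ciInf_le
    exact ⟨0, by rintro _ ⟨c', rfl⟩; exact GG_nonneg W s c'⟩
  refine ⟨?_, ?_⟩
  · intro x hx y hy a b ha hb _ i
    have h1 := mul_nonneg ha (hx i)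
    have h2 := mul_nonneg hb (hy i)
    simp only [Pi.add_apply, Pi.smul_apply, smul_eq_mul]
    linarith
  · intro s0 hs0 s1 hs1 a b ha hb hab
    have hc : ConcaveOn ℝ (Set.Icc 0 1) (fun t : ℝ => FF W ((1 - t) • s0 + t • s1)) := by
      apply concaveOn_of_local
      · apply Continuous.continuousOn
        apply (continuous_FF W).comp
        fun_prop
      · intro t ht
        set s : κ → ℝ := (1 - t) • s0 + t • s1 with hsdef
        set lam : κ → ℝ := s1 - s0 with hlam
        have hs : ∀ i, 0 < s i ∨ (s i = 0 ∧ lam i = 0) := by
          intro i
          have e : s i = (1 - t) * s0 i + t * s1 i := by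
            simp [hsdef]
          have h0 := hs0 i
          have h1 := hs1 i
          have ht0 := ht.1
          have ht1 := ht.2
          rcases h0.lt_or_eq with h0' | h0'
          · left
            rw [e]
            have := mul_pos (sub_pos.2 ht1) h0'
            have := mul_nonneg ht0.le h1
            linarith
          · rcases h1.lt_or_eq with h1' | h1'
            · left
              rw [e]
              have := mul_pos ht0 h1'
              have := mul_nonneg (sub_pos.2 ht1).le h0
              linarith
            · right
              constructor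
              · rw [e, ← h0', ← h1']; ring
              · simp [hlam, ← h0', ← h1']
        obtain ⟨c, hc1, -⟩ := exists_minimizer W s
        obtain ⟨ζ, C, h0, hh0, hh⟩ := GG_local W s lam hs c
        refine ⟨C, h0, hh0, ?_⟩
        intro h hp hlt
        have h1 := hh h hp hlt
        have e1 : (1 - (t + h)) • s0 + (t + h) • s1 = s + h • lam := by
          funext i
          simp [hsdef, hlam]
          ring
        have e2 : (1 - (t - h)) • s0 + (t - h) • s1 = s - h • lam := by
          funext i
          simp [hsdef, hlam]
          ring
        simp only [e1, e2]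
        have h2 := hle (s + h • lam) (c - h • ζ)
        have h3 := hle (s - h • lam) (c + h • ζ)
        rw [hc1] at h1
        linarith
    have h := hc.2 (Set.left_mem_Icc.2 zero_le_one) (Set.right_mem_Icc.2 zero_le_one) ha hb hab
    simp only [smul_eq_mul, mul_zero, mul_one, zero_add, sub_zero, one_smul, zero_smul, add_zero,
      sub_self] at h
    have ea : 1 - b = a := by linarith
    rw [ea] at h
    simpa [smul_eq_mul] using h

end Pool.H65.PS
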