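import Pool.Agent.Helper65.PS.Defs

set_option autoImplicit false

open MeasureTheory ProbabilityTheory

namespace Pool.H65.PS

/-- the complex character of one coordinate -/
noncomputable def tie_z {m : ℕ} (k l : Fin m) (t : ℝ) (a : Fin m) : ℂ :=
  Complex.exp (((t * ((if a = k then (1 : ℝ) else 0) - (if a = l then (1 : ℝ) else 0)) : ℝ) : ℂ)
    * Complex.I)

theorem tie_sum_z {m : ℕ} (k l : Fin m) (hkl : k ≠ l) (t : ℝ) :
    ∑ a, tie_z k l t a = (((m : ℝ) - 2 + 2 * Real.cos t : ℝ) : ℂ) := by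
  have h1 : ∀ a : Fin m, tie_z k l t a
      = 1 + (if a = k then (Complex.exp ((t : ℂ) * Complex.I) - 1) else 0)
        + (if a = l then (Complex.exp (-(t : ℂ) * Complex.I) - 1) else 0) := by
    intro a
    unfold tie_z
    by_cases hk : a = k
    · have hl : a ≠ l := fun h => hkl (hk.symm.trans h)
      simp [hk, hkl]
    · by_cases hl : a = l
      · have : l ≠ k := fun h => hkl h.symm
        simp [hl, this]
      · simp [hk, hl]
  rw [Finset.sum_congr rfl (fun a _ => h1 a), Finset.sum_add_distrib, Finset.sum_add_distrib,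
    Finset.sum_ite_eq' Finset.univ k, Finset.sum_ite_eq' Finset.univ l]
  simp only [Finset.mem_univ, if_true, Finset.sum_const, Finset.card_univ, Fintype.card_fin,
    nsmul_eq_mul, mul_one]
  have h2 : (2 : ℂ) * Complex.cos (t : ℂ)
      = Complex.exp ((t : ℂ) * Complex.I) + Complex.exp (-(t : ℂ) * Complex.I) := by
    rw [Complex.cos]; ring
  push_cast
  rw [h2]; ring

theorem tie_prod_z {m n : ℕ} (k l : Fin m) (t : ℝ) (ω : Fin n → Fin m) :
    ∏ i, tie_z k l t (ω i)
      = Complex.exp (((t * ((cnt ω k : ℝ) - (cnt ω l : ℝ)) : ℝ) : ℂ) * Complex.I) := by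
  unfold tie_z
  rw [← Complex.exp_sum]
  congr 1
  rw [← Finset.sum_mul, ← Complex.ofReal_sum, ← Finset.mul_sum, Finset.sum_sub_distrib]
  unfold cnt
  simp

theorem tie_av_cos {m n : ℕ} (k l : Fin m) (hkl : k ≠ l) (t : ℝ) :
    av (fun ω : Fin n → Fin m => Real.cos (t * ((cnt ω k : ℝ) - (cnt ω l : ℝ))))
      = (((m : ℝ) - 2 + 2 * Real.cos t) / m) ^ n := by
  have h := Fintype.sum_pow (tie_z k l t) n
  rw [tie_sum_z k l hkl t] at h
  have h2 : (((m : ℝ) - 2 + 2 * Real.cos t) ^ n : ℝ)
      = ∑ ω : Fin n → Fin m, Real.cos (t * ((cnt ω k : ℝ) - (cnt ω l : ℝ))) := by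
    have h3 := congrArg Complex.re h
    rw [← Complex.ofReal_pow, Complex.ofReal_re, Complex.re_sum] at h3
    rw [h3]
    refine Finset.sum_congr rfl (fun ω _ => ?_)
    rw [tie_prod_z, Complex.exp_ofReal_mul_I_re]
  unfold av
  rw [← h2, div_pow, div_eq_inv_mul]

theorem tie_integral_cos (d : ℤ) :
    ∫ t in (0 : ℝ)..(2 * Real.pi), Real.cos (t * (d : ℝ)) = if d = 0 then 2 * Real.pi else 0 := by
  by_cases hd : d = 0
  · simp [hd]
  · have hd' : (d : ℝ) ≠ 0 := by exact_mod_cast hd
    rw [intervalIntegral.integral_comp_mul_right _ hd', integral_cos, if_neg hd]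
    have h1 : Real.sin (2 * Real.pi * (d : ℝ)) = 0 := by
      have := Real.sin_int_mul_pi (2 * d)
      push_cast at this
      rw [← this]; congr 1; ring
    simp [h1]

open Classical in
theorem tie_av_eq {m n : ℕ} (k l : Fin m) (hkl : k ≠ l) :
    av (fun ω : Fin n → Fin m => if cnt ω k = cnt ω l then (1 : ℝ) else 0)
      = (2 * Real.pi)⁻¹ * ∫ t in (0 : ℝ)..(2 * Real.pi), (((m : ℝ) - 2 + 2 * Real.cos t) / m) ^ n := by
  have h1 : ∀ ω : Fin n → Fin m, (if cnt ω k = cnt ω l then (1 : ℝ) else 0)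
      = (2 * Real.pi)⁻¹ * ∫ t in (0 : ℝ)..(2 * Real.pi),
        Real.cos (t * ((cnt ω k : ℝ) - (cnt ω l : ℝ))) := by
    intro ω
    have h := tie_integral_cos ((cnt ω k : ℤ) - (cnt ω l : ℤ))
    push_cast at h
    rw [h]
    have hpi : (2 * Real.pi) ≠ 0 := by positivity
    by_cases hc : cnt ω k = cnt ω l
    · have : (cnt ω k : ℤ) - (cnt ω l : ℤ) = 0 := by rw [hc]; simp
      rw [if_pos hc, if_pos this, inv_mul_cancel₀ hpi]
    · have : ¬ ((cnt ω k : ℤ) - (cnt ω l : ℤ) = 0) := by
        intro h0; exact hc (by exact_mod_cast sub_eq_zero.mp h0)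
      rw [if_neg hc, if_neg this, mul_zero]
  have h2 : ∀ t : ℝ, (((m : ℝ) - 2 + 2 * Real.cos t) / m) ^ n
      = ((m : ℝ) ^ n)⁻¹ * ∑ ω : Fin n → Fin m,
        Real.cos (t * ((cnt ω k : ℝ) - (cnt ω l : ℝ))) := by
    intro t; rw [← tie_av_cos k l hkl t]; rfl
  unfold av
  simp only [h1, h2]
  rw [intervalIntegral.integral_const_mul, intervalIntegral.integral_finsetSum]
  · rw [← Finset.mul_sum]; ring
  · intro ω _
    exact Continuous.intervalIntegrable (by fun_prop) _ _

open Classical in
theorem tie_tendsto (m : ℕ) (hm : 2 ≤ m) (k l : Fin m) (hkl : k ≠ l) :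
    Filter.Tendsto (fun n : ℕ => av (fun ω : Fin n → Fin m => if cnt ω k = cnt ω l then (1 : ℝ) else 0))
      Filter.atTop (nhds 0) := by
  have hm' : (2 : ℝ) ≤ m := by exact_mod_cast hm
  have hm0 : (0 : ℝ) < m := by linarith
  have key : Filter.Tendsto (fun n : ℕ => ∫ t in (0 : ℝ)..(2 * Real.pi),
      (((m : ℝ) - 2 + 2 * Real.cos t) / m) ^ n) Filter.atTop
      (nhds (∫ _t in (0 : ℝ)..(2 * Real.pi), (0 : ℝ))) := by
    refine intervalIntegral.tendsto_integral_filter_of_dominated_convergence (fun _ => (1 : ℝ))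
      (Filter.Eventually.of_forall fun n => ?_) (Filter.Eventually.of_forall fun n => ?_) ?_ ?_
    · exact Continuous.aestronglyMeasurable (by fun_prop)
    · refine Filter.Eventually.of_forall fun t _ => ?_
      rw [norm_pow, Real.norm_eq_abs]
      refine pow_le_one₀ (abs_nonneg _) ?_
      rw [abs_le, le_div_iff₀ hm0, div_le_iff₀ hm0]
      have h1 := Real.cos_le_one t
      have h2 := Real.neg_one_le_cos t
      constructor <;> nlinarith
    · exact intervalIntegrable_const
    · have hcount : (Set.range (fun j : ℤ => (j : ℝ) * Real.pi)).Countable :=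
        Set.countable_range _
      filter_upwards [hcount.ae_notMem volume] with t ht _
      refine tendsto_pow_atTop_nhds_zero_of_abs_lt_one ?_
      have hs : Real.sin t ≠ 0 := by
        intro h0
        obtain ⟨j, hj⟩ := Real.sin_eq_zero_iff.mp h0
        exact ht ⟨j, hj⟩
      have hsq : 0 < Real.sin t ^ 2 := by positivity
      have hid := Real.sin_sq_add_cos_sq t
      have h1 : Real.cos t < 1 := by
        have h1 := Real.cos_le_one t
        rcases h1.lt_or_eq with h | h
        · exact h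
        · rw [h] at hid; nlinarith
      have h2 : -1 < Real.cos t := by
        have h1 := Real.neg_one_le_cos t
        rcases h1.lt_or_eq with h | h
        · exact h
        · rw [← h] at hid; nlinarith
      rw [abs_lt, lt_div_iff₀ hm0, div_lt_iff₀ hm0]
      constructor <;> nlinarith
  have h2 := key.const_mul (2 * Real.pi)⁻¹
  simp only [intervalIntegral.integral_zero, mul_zero] at h2
  refine h2.congr (fun n => ?_)
  rw [tie_av_eq k l hkl]

end Pool.H65.PS
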