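import Pool.Agent.Helper65.PS.Dsc
import Pool.Agent.Helper65.PS.Tie
import Pool.Agent.Helper65.PS.Emx

set_option autoImplicit false

open MeasureTheory ProbabilityTheory

namespace Pool.H65.PS

open Finset Filter Topology

section plw

variable {m n : ℕ}

theorem plw_av_add (f g : (Fin n → Fin m) → ℝ) : av (fun ω => f ω + g ω) = av f + av g := by
  unfold av; rw [Finset.sum_add_distrib, mul_add]

theorem plw_av_sub (f g : (Fin n → Fin m) → ℝ) : av (fun ω => f ω - g ω) = av f - av g := by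
  unfold av; rw [Finset.sum_sub_distrib, mul_sub]

theorem plw_av_smul (c : ℝ) (f : (Fin n → Fin m) → ℝ) : av (fun ω => c * f ω) = c * av f := by
  unfold av; rw [← Finset.mul_sum]; ring

theorem plw_av_sum {α : Type} (s : Finset α) (f : α → (Fin n → Fin m) → ℝ) :
    av (fun ω => ∑ a ∈ s, f a ω) = ∑ a ∈ s, av (f a) := by
  unfold av; rw [Finset.sum_comm, Finset.mul_sum]

theorem plw_av_const (hm : 0 < m) (c : ℝ) : av (fun _ : Fin n → Fin m => c) = c := by
  unfold av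
  rw [Finset.sum_const, Finset.card_univ, nsmul_eq_mul, Fintype.card_fun, Fintype.card_fin,
    Fintype.card_fin]
  have : (m : ℝ) ^ n ≠ 0 := by positivity
  push_cast
  field_simp

theorem plw_av_mono (f g : (Fin n → Fin m) → ℝ) (h : ∀ ω, f ω ≤ g ω) : av f ≤ av g := by
  unfold av
  exact mul_le_mul_of_nonneg_left (Finset.sum_le_sum fun ω _ => h ω) (by positivity)

theorem plw_av_nonneg (f : (Fin n → Fin m) → ℝ) (h : ∀ ω, 0 ≤ f ω) : 0 ≤ av f := by
  unfold av
  exact mul_nonneg (by positivity) (Finset.sum_nonneg fun ω _ => h ω)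

/-- Cauchy-Schwarz -/
theorem plw_av_cs (f g : (Fin n → Fin m) → ℝ) :
    av (fun ω => f ω * g ω) ≤ Real.sqrt (av (fun ω => f ω ^ 2)) *
      Real.sqrt (av (fun ω => g ω ^ 2)) := by
  have h1 := Finset.sum_mul_sq_le_sq_mul_sq Finset.univ f g
  rw [← Real.sqrt_mul (plw_av_nonneg _ fun ω => sq_nonneg _)]
  refine Real.le_sqrt_of_sq_le ?_
  unfold av
  have h2 : (0 : ℝ) ≤ (((m : ℝ) ^ n)⁻¹) ^ 2 := by positivity
  calc (((m : ℝ) ^ n)⁻¹ * ∑ ω, f ω * g ω) ^ 2
      = (((m : ℝ) ^ n)⁻¹) ^ 2 * (∑ ω, f ω * g ω) ^ 2 := by ring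
    _ ≤ (((m : ℝ) ^ n)⁻¹) ^ 2 * ((∑ ω, f ω ^ 2) * ∑ ω, g ω ^ 2) :=
        mul_le_mul_of_nonneg_left h1 h2
    _ = _ := by ring

/-- the average of a function of the coordinates with mean zero -/
theorem plw_av_zero (hm : 0 < m) (H : Fin n → Fin m → ℝ) (hH : ∀ i, ∑ a, H i a = 0) :
    av (fun ω => ∑ i, H i (ω i)) = 0 := by
  have h1 := av_mul_sum hm (fun _ : Fin n → Fin m => (1 : ℝ)) H hH
  simp only [one_mul] at h1
  rw [h1]
  refine Finset.sum_eq_zero fun i _ => ?_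
  have h2 : ∀ a, lev (fun _ : Fin n → Fin m => (1 : ℝ)) i a = 0 := by
    intro a
    unfold lev
    rw [sub_self]
  simp [h2]

theorem plw_lev (hm : 0 < m) (H : Fin n → Fin m → ℝ) (hH : ∀ i, ∑ a, H i a = 0) (i : Fin n)
    (a : Fin m) : lev (fun ω => ∑ i, H i (ω i)) i a = H i a := by
  unfold lev
  rw [plw_av_zero hm H hH, sub_zero]
  have h1 : ∀ ω : Fin n → Fin m, ∑ i', H i' (Function.update ω i a i') =
      ∑ i', (if i' = i then (fun _ => (0 : ℝ)) else H i') (ω i') + H i a := by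
    intro ω
    rw [← Finset.add_sum_erase _ _ (Finset.mem_univ i), ← Finset.add_sum_erase _
      (fun i' => (if i' = i then (fun _ => (0 : ℝ)) else H i') (ω i')) (Finset.mem_univ i)]
    rw [Function.update_self, if_pos rfl, zero_add, add_comm]
    congr 1
    refine Finset.sum_congr rfl fun i' hi' => ?_
    have hne : i' ≠ i := Finset.ne_of_mem_erase hi'
    rw [Function.update_of_ne hne, if_neg hne]
  simp_rw [h1]
  rw [plw_av_add, plw_av_const hm, plw_av_zero hm, zero_add]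
  intro i'
  by_cases h : i' = i
  · simp [h]
  · simp [h, hH i']

/-- the centred indicator -/
noncomputable def plwH (j a : Fin m) : ℝ := (if a = j then 1 else 0) - (m : ℝ)⁻¹

theorem plwH_sum (hm : 0 < m) (j : Fin m) : ∑ a, plwH j a = 0 := by
  unfold plwH
  rw [Finset.sum_sub_distrib, Finset.sum_ite_eq' Finset.univ j, if_pos (Finset.mem_univ _),
    Finset.sum_const, Finset.card_univ, Fintype.card_fin, nsmul_eq_mul]
  have : (m : ℝ) ≠ 0 := by positivity
  field_simp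
  ring

theorem plwH_sq (hm : 0 < m) (j : Fin m) : ∑ a, plwH j a ^ 2 = 1 - (m : ℝ)⁻¹ := by
  have h1 : ∀ a, plwH j a ^ 2 = (if a = j then (1 - 2 * (m : ℝ)⁻¹) else 0) + ((m : ℝ)⁻¹) ^ 2 := by
    intro a
    unfold plwH
    split_ifs <;> ring
  simp_rw [h1]
  rw [Finset.sum_add_distrib, Finset.sum_ite_eq' Finset.univ j, if_pos (Finset.mem_univ _),
    Finset.sum_const, Finset.card_univ, Fintype.card_fin, nsmul_eq_mul]
  have : (m : ℝ) ≠ 0 := by positivity
  field_simp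
  ring

theorem plw_cnt (ω : Fin n → Fin m) (j : Fin m) :
    (cnt ω j : ℝ) - n / m = ∑ i, plwH j (ω i) := by
  unfold plwH cnt
  rw [Finset.sum_sub_distrib, Finset.sum_const, Finset.card_univ, Fintype.card_fin, nsmul_eq_mul,
    Finset.card_filter]
  push_cast
  rw [div_eq_mul_inv]

theorem plw_sum_cnt (hm : 0 < m) (ω : Fin n → Fin m) :
    ∑ j, ((cnt ω j : ℝ) - n / m) = 0 := by
  simp_rw [plw_cnt]
  rw [Finset.sum_comm]
  refine Finset.sum_eq_zero fun i _ => ?_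
  unfold plwH
  rw [Finset.sum_sub_distrib, Finset.sum_ite_eq Finset.univ (ω i), if_pos (Finset.mem_univ _),
    Finset.sum_const, Finset.card_univ, Fintype.card_fin, nsmul_eq_mul]
  have : (m : ℝ) ≠ 0 := by positivity
  field_simp
  ring

/-- second moment -/
theorem plw_second (hm : 0 < m) (j : Fin m) :
    av (fun ω : Fin n → Fin m => ((cnt ω j : ℝ) - n / m) ^ 2) =
      n * ((m : ℝ)⁻¹ * (1 - (m : ℝ)⁻¹)) := by
  have h1 := av_mul_sum hm (fun ω : Fin n → Fin m => ∑ i, plwH j (ω i)) (fun _ => plwH j)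
    (fun _ => plwH_sum hm j)
  have h2 : ∀ ω : Fin n → Fin m, ((cnt ω j : ℝ) - n / m) ^ 2 =
      (∑ i, plwH j (ω i)) * ∑ i, plwH j (ω i) := by
    intro ω
    rw [plw_cnt, sq]
  simp_rw [h2]
  rw [h1]
  have h3 : ∀ i : Fin n, (m : ℝ)⁻¹ * ∑ a, lev (fun ω : Fin n → Fin m => ∑ i, plwH j (ω i)) i a *
      plwH j a = (m : ℝ)⁻¹ * (1 - (m : ℝ)⁻¹) := by
    intro i
    rw [← plwH_sq hm j]
    congr 1
    refine Finset.sum_congr rfl fun a _ => ?_
    rw [plw_lev hm (fun _ => plwH j) (fun _ => plwH_sum hm j), sq]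
  rw [Finset.sum_congr rfl fun i _ => h3 i, Finset.sum_const, Finset.card_univ, Fintype.card_fin,
    nsmul_eq_mul]

/-- indicator of a tie -/
noncomputable def plwT (ω : Fin n → Fin m) : ℝ :=
  open Classical in
  if (∃ k : Fin m, ∀ l : Fin m, l ≠ k → cnt ω l < cnt ω k) then 0 else 1

/-- the scaled counts -/
noncomputable def plwL (ω : Fin n → Fin m) (j : Fin m) : ℝ := ((cnt ω j : ℝ) - n / m) / Real.sqrt n

theorem plwL_mono (ω : Fin n → Fin m) (j k : Fin m) (h : cnt ω j ≤ cnt ω k) :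
    plwL ω j ≤ plwL ω k := by
  unfold plwL
  have : (cnt ω j : ℝ) ≤ cnt ω k := by exact_mod_cast h
  gcongr

theorem plw_point (hm : 0 < m) (ω : Fin n → Fin m) :
    ∑ j, plur ω j * plwL ω j = (⨆ j, plwL ω j) - (⨆ j, plwL ω j) * plwT ω := by
  classical
  have : Nonempty (Fin m) := ⟨⟨0, hm⟩⟩
  by_cases h : ∃ k : Fin m, ∀ l : Fin m, l ≠ k → cnt ω l < cnt ω k
  · obtain ⟨k, hk⟩ := h
    have hT : plwT ω = 0 := by
      unfold plwT
      rw [if_pos ⟨k, hk⟩]
    have hp : ∀ j, plur ω j = if j = k then 1 else 0 := by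
      intro j
      unfold plur
      rw [if_pos ⟨k, hk⟩]
      by_cases hj : j = k
      · subst hj
        rw [if_pos hk, if_pos rfl]
      · rw [if_neg hj, if_neg]
        intro h2
        have h3 := h2 k (Ne.symm hj)
        have h4 := hk j hj
        omega
    have hs : (⨆ j, plwL ω j) = plwL ω k := by
      refine le_antisymm (ciSup_le fun j => ?_) (le_ciSup (Set.finite_range _).bddAbove k)
      by_cases hj : j = k
      · rw [hj]
      · exact plwL_mono ω j k (hk j hj).le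
    rw [hT, hs, mul_zero, sub_zero]
    simp_rw [hp, ite_mul, one_mul, zero_mul]
    rw [Finset.sum_ite_eq' Finset.univ k, if_pos (Finset.mem_univ _)]
  · have hT : plwT ω = 1 := by
      unfold plwT
      rw [if_neg h]
    have hp : ∀ j, plur ω j = (m : ℝ)⁻¹ := by
      intro j
      unfold plur
      rw [if_neg h]
    rw [hT, mul_one, sub_self]
    simp_rw [hp]
    rw [← Finset.mul_sum]
    unfold plwL
    rw [← Finset.sum_div, plw_sum_cnt hm, zero_div, mul_zero]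

theorem plw_sup_sq (hm : 0 < m) (ω : Fin n → Fin m) :
    (⨆ j, plwL ω j) ^ 2 ≤ ∑ j, plwL ω j ^ 2 := by
  have : Nonempty (Fin m) := ⟨⟨0, hm⟩⟩
  obtain ⟨k, hk⟩ := exists_eq_ciSup_of_finite (f := fun j => plwL ω j)
  rw [← hk]
  exact Finset.single_le_sum (f := fun j => plwL ω j ^ 2) (fun j _ => sq_nonneg _)
    (Finset.mem_univ k)

theorem plw_sup_nonneg (hm : 0 < m) (ω : Fin n → Fin m) : 0 ≤ ⨆ j, plwL ω j := by
  have : Nonempty (Fin m) := ⟨⟨0, hm⟩⟩
  by_contra h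
  rw [not_le] at h
  have h1 : ∀ j, plwL ω j < 0 := fun j =>
    lt_of_le_of_lt (le_ciSup (f := fun j => plwL ω j) (Set.finite_range _).bddAbove j) h
  have h2 : ∑ j, plwL ω j < 0 := Finset.sum_neg (fun j _ => h1 j) Finset.univ_nonempty
  have h3 : ∑ j, plwL ω j = 0 := by
    unfold plwL
    rw [← Finset.sum_div, plw_sum_cnt hm, zero_div]
  linarith

theorem plw_av_sup_sq (hm : 0 < m) (hn : 0 < n) :
    av (fun ω : Fin n → Fin m => (⨆ j, plwL ω j) ^ 2) ≤ 1 := by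
  have h1 : av (fun ω : Fin n → Fin m => (⨆ j, plwL ω j) ^ 2) ≤
      av (fun ω : Fin n → Fin m => ∑ j, plwL ω j ^ 2) :=
    plw_av_mono _ _ fun ω => plw_sup_sq hm ω
  refine h1.trans ?_
  rw [plw_av_sum]
  have h2 : ∀ j : Fin m, av (fun ω : Fin n → Fin m => plwL ω j ^ 2) =
      (m : ℝ)⁻¹ * (1 - (m : ℝ)⁻¹) := by
    intro j
    have h3 : ∀ ω : Fin n → Fin m, plwL ω j ^ 2 = (n : ℝ)⁻¹ * ((cnt ω j : ℝ) - n / m) ^ 2 := by
      intro ω
      unfold plwL
      rw [div_pow, Real.sq_sqrt (Nat.cast_nonneg _)]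
      ring
    simp_rw [h3]
    rw [plw_av_smul, plw_second hm]
    have : (n : ℝ) ≠ 0 := by positivity
    field_simp
  rw [Finset.sum_congr rfl fun j _ => h2 j, Finset.sum_const, Finset.card_univ, Fintype.card_fin,
    nsmul_eq_mul]
  have h4 : (0 : ℝ) < m := by positivity
  have h5 : (0 : ℝ) < (m : ℝ)⁻¹ := by positivity
  rw [← mul_assoc, mul_inv_cancel₀ h4.ne']
  linarith

open Classical in
theorem plw_tie_le (hm : 0 < m) : av (fun ω : Fin n → Fin m => plwT ω ^ 2) ≤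
    ∑ p ∈ (Finset.univ : Finset (Fin m × Fin m)).filter (fun p => p.1 ≠ p.2),
      av (fun ω : Fin n → Fin m => if cnt ω p.1 = cnt ω p.2 then (1 : ℝ) else 0) := by
  have : Nonempty (Fin m) := ⟨⟨0, hm⟩⟩
  rw [← plw_av_sum]
  refine plw_av_mono _ _ fun ω => ?_
  have hnn : ∀ p ∈ (Finset.univ : Finset (Fin m × Fin m)).filter (fun p => p.1 ≠ p.2),
      (0 : ℝ) ≤ if cnt ω p.1 = cnt ω p.2 then (1 : ℝ) else 0 := by
    intro p _
    split_ifs <;> norm_num
  by_cases h : ∃ k : Fin m, ∀ l : Fin m, l ≠ k → cnt ω l < cnt ω k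
  · have hT : plwT ω = 0 := by
      unfold plwT
      rw [if_pos h]
    rw [hT]
    rw [zero_pow two_ne_zero]
    exact Finset.sum_nonneg hnn
  · have hT : plwT ω = 1 := by
      unfold plwT
      rw [if_neg h]
    rw [hT, one_pow]
    obtain ⟨k, hk⟩ := Finite.exists_max (fun j => cnt ω j)
    push Not at h
    obtain ⟨l, hlk, hl⟩ := h k
    have heq : cnt ω l = cnt ω k := le_antisymm (hk l) hl
    have h1 := Finset.single_le_sum hnn (show (l, k) ∈ (Finset.univ :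
      Finset (Fin m × Fin m)).filter (fun p => p.1 ≠ p.2) from by simp [hlk])
    simp only [heq, if_true] at h1
    exact h1

/-- the correlation of plurality with the counts -/
theorem plw_corr (hm : 0 < m) (hn : 0 < n) :
    av (fun ω : Fin n → Fin m => ∑ j, plur ω j * plwL ω j) ≤
      Real.sqrt (∑ j, W1 (fun ω : Fin n → Fin m => plur ω j)) *
        Real.sqrt (1 - (m : ℝ)⁻¹) := by
  rw [plw_av_sum]
  have h1 : ∀ j : Fin m, av (fun ω : Fin n → Fin m => plur ω j * plwL ω j) =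
      (Real.sqrt n)⁻¹ * ((m : ℝ)⁻¹ * ∑ i : Fin n, ∑ a, lev (fun ω : Fin n → Fin m => plur ω j) i a *
        plwH j a) := by
    intro j
    have h2 : ∀ ω : Fin n → Fin m, plur ω j * plwL ω j =
        (Real.sqrt n)⁻¹ * (plur ω j * ∑ i, plwH j (ω i)) := by
      intro ω
      unfold plwL
      rw [plw_cnt]
      ring
    simp_rw [h2]
    rw [plw_av_smul, av_mul_sum hm (fun ω : Fin n → Fin m => plur ω j) (fun _ => plwH j)
      (fun _ => plwH_sum hm j), Finset.mul_sum]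
    simp_rw [Finset.mul_sum]
  rw [Finset.sum_congr rfl fun j _ => h1 j, ← Finset.mul_sum, ← Finset.mul_sum]
  -- Cauchy-Schwarz over triples
  set x : Fin m × Fin n × Fin m → ℝ := fun p =>
    lev (fun ω : Fin n → Fin m => plur ω p.1) p.2.1 p.2.2 with hx
  set y : Fin m × Fin n × Fin m → ℝ := fun p => plwH p.1 p.2.2 with hy
  have h3 : ∑ j, ∑ i : Fin n, ∑ a, lev (fun ω : Fin n → Fin m => plur ω j) i a * plwH j a =
      ∑ p, x p * y p := by
    rw [Fintype.sum_prod_type]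
    refine Finset.sum_congr rfl fun j _ => ?_
    rw [Fintype.sum_prod_type]
  have h4 : ∑ j, W1 (fun ω : Fin n → Fin m => plur ω j) = (m : ℝ)⁻¹ * ∑ p, x p ^ 2 := by
    rw [Fintype.sum_prod_type, Finset.mul_sum]
    refine Finset.sum_congr rfl fun j _ => ?_
    rw [Fintype.sum_prod_type, Finset.mul_sum]
    rfl
  have h5 : (m : ℝ)⁻¹ * ∑ p, y p ^ 2 = n * (1 - (m : ℝ)⁻¹) := by
    rw [Fintype.sum_prod_type]
    have h6 : ∀ j : Fin m, ∑ q : Fin n × Fin m, y (j, q) ^ 2 = n * (1 - (m : ℝ)⁻¹) := by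
      intro j
      rw [Fintype.sum_prod_type]
      have h7 : ∀ i : Fin n, ∑ a, y (j, i, a) ^ 2 = 1 - (m : ℝ)⁻¹ := fun i => plwH_sq hm j
      rw [Finset.sum_congr rfl fun i _ => h7 i, Finset.sum_const, Finset.card_univ,
        Fintype.card_fin, nsmul_eq_mul]
    rw [Finset.sum_congr rfl fun j _ => h6 j, Finset.sum_const, Finset.card_univ,
      Fintype.card_fin, nsmul_eq_mul]
    have : (m : ℝ) ≠ 0 := by positivity
    field_simp
  rw [h3, h4]
  have h8 := Finset.sum_mul_sq_le_sq_mul_sq Finset.univ x y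
  have hm0 : (0 : ℝ) < (m : ℝ)⁻¹ := by positivity
  have hn0 : (0 : ℝ) < n := by positivity
  have h9 : 0 ≤ (m : ℝ)⁻¹ * ∑ p, x p ^ 2 :=
    mul_nonneg hm0.le (Finset.sum_nonneg fun p _ => sq_nonneg _)
  rw [← Real.sqrt_mul h9]
  refine Real.le_sqrt_of_sq_le ?_
  have h10 : ((Real.sqrt n)⁻¹ * ((m : ℝ)⁻¹ * ∑ p, x p * y p)) ^ 2 =
      (n : ℝ)⁻¹ * ((m : ℝ)⁻¹) ^ 2 * (∑ p, x p * y p) ^ 2 := by
    rw [mul_pow, inv_pow, Real.sq_sqrt hn0.le]
    ring
  rw [h10]
  calc (n : ℝ)⁻¹ * ((m : ℝ)⁻¹) ^ 2 * (∑ p, x p * y p) ^ 2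
      ≤ (n : ℝ)⁻¹ * ((m : ℝ)⁻¹) ^ 2 * ((∑ p, x p ^ 2) * ∑ p, y p ^ 2) :=
        mul_le_mul_of_nonneg_left h8 (by positivity)
    _ = (m : ℝ)⁻¹ * (∑ p, x p ^ 2) * ((n : ℝ)⁻¹ * ((m : ℝ)⁻¹ * ∑ p, y p ^ 2)) := by ring
    _ = (m : ℝ)⁻¹ * (∑ p, x p ^ 2) * (1 - (m : ℝ)⁻¹) := by
        rw [h5, ← mul_assoc (n : ℝ)⁻¹, inv_mul_cancel₀ hn0.ne', one_mul]

/-- the key inequality -/
theorem plw_key (hm : 0 < m) (hn : 0 < n) :
    av (fun ω : Fin n → Fin m => ⨆ j, plwL ω j) -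
      Real.sqrt (av (fun ω : Fin n → Fin m => plwT ω ^ 2)) ≤
      Real.sqrt (∑ j, W1 (fun ω : Fin n → Fin m => plur ω j)) *
        Real.sqrt (1 - (m : ℝ)⁻¹) := by
  refine le_trans ?_ (plw_corr hm hn)
  simp_rw [plw_point hm]
  rw [plw_av_sub]
  have h1 := plw_av_cs (fun ω : Fin n → Fin m => ⨆ j, plwL ω j) plwT
  have h2 : Real.sqrt (av (fun ω : Fin n → Fin m => (⨆ j, plwL ω j) ^ 2)) ≤ 1 := by
    refine Real.sqrt_le_iff.2 ⟨zero_le_one, ?_⟩
    rw [one_pow]
    exact plw_av_sup_sq hm hn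
  have h3 := Real.sqrt_nonneg (av (fun ω : Fin n → Fin m => plwT ω ^ 2))
  nlinarith [mul_le_mul_of_nonneg_right h2 h3]

end plw

theorem lower_plur (m : ℕ) (hm : 2 ≤ m) (ε : ℝ) (hε : 0 < ε) : ∃ N0 : ℕ, ∀ N ≥ N0,
    MM (Fin m) ^ 2 / ((m : ℝ) - 1) - ε ≤ ∑ j, W1 (fun ω : Fin N → Fin m => plur ω j) := by
  classical
  have hm0 : 0 < m := by omega
  -- the tie probabilities
  have h1 : Tendsto (fun n : ℕ => ∑ p ∈ (Finset.univ : Finset (Fin m × Fin m)).filter
      (fun p => p.1 ≠ p.2), av (fun ω : Fin n → Fin m =>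
        if cnt ω p.1 = cnt ω p.2 then (1 : ℝ) else 0)) atTop (𝓝 0) := by
    have h2 : Tendsto (fun n : ℕ => ∑ p ∈ (Finset.univ : Finset (Fin m × Fin m)).filter
      (fun p => p.1 ≠ p.2), av (fun ω : Fin n → Fin m =>
        if cnt ω p.1 = cnt ω p.2 then (1 : ℝ) else 0)) atTop
        (𝓝 (∑ _p ∈ (Finset.univ : Finset (Fin m × Fin m)).filter (fun p => p.1 ≠ p.2), 0)) := by
      refine tendsto_finsetSum _ fun p hp => ?_
      have h3 := tie_tendsto m hm p.1 p.2 (Finset.mem_filter.1 hp).2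
      exact h3
    simpa using h2
  have h2 : Tendsto (fun n : ℕ => av (fun ω : Fin n → Fin m => plwT ω ^ 2)) atTop (𝓝 0) :=
    tendsto_of_tendsto_of_tendsto_of_le_of_le tendsto_const_nhds h1
      (fun n => plw_av_nonneg _ fun ω => sq_nonneg _) (fun n => plw_tie_le hm0)
  have h3 : Tendsto (fun n : ℕ => Real.sqrt (av (fun ω : Fin n → Fin m => plwT ω ^ 2))) atTop
      (𝓝 0) := by
    have := (Real.continuous_sqrt.tendsto 0).comp h2
    rwa [Real.sqrt_zero] at this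
  have h4 := iSup_cnt_tendsto m hm
  have h5 : 0 ≤ MM (Fin m) / Real.sqrt m :=
    ge_of_tendsto' h4 fun n => plw_av_nonneg _ fun ω => plw_sup_nonneg hm0 ω
  have h6 : Tendsto (fun n : ℕ => av (fun ω : Fin n → Fin m => ⨆ j, plwL ω j) -
      Real.sqrt (av (fun ω : Fin n → Fin m => plwT ω ^ 2))) atTop
      (𝓝 (MM (Fin m) / Real.sqrt m)) := by
    have := h4.sub h3
    rw [sub_zero] at this
    exact this
  have h7 : Tendsto (fun n : ℕ => (max (av (fun ω : Fin n → Fin m => ⨆ j, plwL ω j) -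
      Real.sqrt (av (fun ω : Fin n → Fin m => plwT ω ^ 2))) 0) ^ 2) atTop
      (𝓝 ((max (MM (Fin m) / Real.sqrt m) 0) ^ 2)) := (h6.max tendsto_const_nhds).pow 2
  rw [max_eq_left h5, div_pow, Real.sq_sqrt (Nat.cast_nonneg _)] at h7
  have hmR : (2 : ℝ) ≤ m := by exact_mod_cast hm
  have hc : (0 : ℝ) < 1 - (m : ℝ)⁻¹ := by
    have : (m : ℝ)⁻¹ ≤ 2⁻¹ := inv_anti₀ (by norm_num) hmR
    linarith
  have h8 := (h7.eventually (lt_mem_nhds (show MM (Fin m) ^ 2 / m - ε * (1 - (m : ℝ)⁻¹) <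
    MM (Fin m) ^ 2 / m from sub_lt_self _ (by positivity)))).and (eventually_ge_atTop 1)
  obtain ⟨N0, hN0⟩ := Filter.eventually_atTop.1 h8
  refine ⟨N0, fun N hN => ?_⟩
  obtain ⟨h9, h10⟩ := hN0 N hN
  have h11 := plw_key (m := m) (n := N) hm0 (by omega)
  have hS : 0 ≤ ∑ j, W1 (fun ω : Fin N → Fin m => plur ω j) := by
    refine Finset.sum_nonneg fun j _ => ?_
    unfold W1
    exact Finset.sum_nonneg fun i _ => mul_nonneg (by positivity)
      (Finset.sum_nonneg fun a _ => sq_nonneg _)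
  have h12 : (max (av (fun ω : Fin N → Fin m => ⨆ j, plwL ω j) -
      Real.sqrt (av (fun ω : Fin N → Fin m => plwT ω ^ 2))) 0) ^ 2 ≤
      (∑ j, W1 (fun ω : Fin N → Fin m => plur ω j)) * (1 - (m : ℝ)⁻¹) := by
    have h13 : max (av (fun ω : Fin N → Fin m => ⨆ j, plwL ω j) -
      Real.sqrt (av (fun ω : Fin N → Fin m => plwT ω ^ 2))) 0 ≤
      Real.sqrt (∑ j, W1 (fun ω : Fin N → Fin m => plur ω j)) * Real.sqrt (1 - (m : ℝ)⁻¹) :=
      max_le h11 (by positivity)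
    calc _ ≤ (Real.sqrt (∑ j, W1 (fun ω : Fin N → Fin m => plur ω j)) *
          Real.sqrt (1 - (m : ℝ)⁻¹)) ^ 2 := pow_le_pow_left₀ (le_max_right _ _) h13 2
      _ = _ := by rw [mul_pow, Real.sq_sqrt hS, Real.sq_sqrt hc.le]
  have h14 : MM (Fin m) ^ 2 / m - ε * (1 - (m : ℝ)⁻¹) ≤
      (∑ j, W1 (fun ω : Fin N → Fin m => plur ω j)) * (1 - (m : ℝ)⁻¹) := h9.le.trans h12
  have h15 : MM (Fin m) ^ 2 / ((m : ℝ) - 1) * (1 - (m : ℝ)⁻¹) = MM (Fin m) ^ 2 / m := by
    have e1 : (m : ℝ) ≠ 0 := by positivity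
    have e2 : (m : ℝ) - 1 ≠ 0 := by linarith
    field_simp
  have h16 : (MM (Fin m) ^ 2 / ((m : ℝ) - 1) - ε) * (1 - (m : ℝ)⁻¹) ≤
      (∑ j, W1 (fun ω : Fin N → Fin m => plur ω j)) * (1 - (m : ℝ)⁻¹) := by
    rw [sub_mul, h15]
    exact h14
  exact le_of_mul_le_mul_right h16 hc

theorem av_plur (m n : ℕ) (hm : 0 < m) (j : Fin m) :
    av (fun ω : Fin n → Fin m => plur ω j) = 1 / (m : ℝ) := by
  classical
  have : Nonempty (Fin m) := ⟨⟨0, hm⟩⟩
  -- invariance under permutations of the values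
  have h1 : ∀ (σ : Equiv.Perm (Fin m)) (ω : Fin n → Fin m) (k : Fin m),
      cnt (fun i => σ (ω i)) (σ k) = cnt ω k := by
    intro σ ω k
    unfold cnt
    congr 1
    ext i
    simp
  have h2 : ∀ (σ : Equiv.Perm (Fin m)) (ω : Fin n → Fin m) (k : Fin m),
      plur (fun i => σ (ω i)) (σ k) = plur ω k := by
    intro σ ω k
    have h3 : ∀ k : Fin m, (∀ l : Fin m, l ≠ σ k → cnt (fun i => σ (ω i)) l <
        cnt (fun i => σ (ω i)) (σ k)) ↔ ∀ l : Fin m, l ≠ k → cnt ω l < cnt ω k := by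
      intro k
      constructor
      · intro h l hl
        have := h (σ l) (fun h' => hl (σ.injective h'))
        rwa [h1, h1] at this
      · intro h l hl
        have h4 := h (σ.symm l) (fun h' => hl (by rw [← h', Equiv.apply_symm_apply]))
        rw [← h1 σ ω (σ.symm l), ← h1 σ ω k, Equiv.apply_symm_apply] at h4
        exact h4
    have h4 : (∃ k : Fin m, ∀ l : Fin m, l ≠ k → cnt (fun i => σ (ω i)) l <
        cnt (fun i => σ (ω i)) k) ↔ ∃ k : Fin m, ∀ l : Fin m, l ≠ k → cnt ω l < cnt ω k := by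
      constructor
      · rintro ⟨k, hk⟩
        refine ⟨σ.symm k, (h3 _).1 ?_⟩
        rwa [Equiv.apply_symm_apply]
      · rintro ⟨k, hk⟩
        exact ⟨σ k, (h3 _).2 hk⟩
    unfold plur
    simp only [h4, h3]
  have h3 : ∀ k : Fin m, av (fun ω : Fin n → Fin m => plur ω k) =
      av (fun ω : Fin n → Fin m => plur ω j) := by
    intro k
    unfold av
    congr 1
    refine Fintype.sum_equiv (Equiv.arrowCongr (Equiv.refl (Fin n)) (Equiv.swap k j)) _ _ ?_
    intro ω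
    rw [← h2 (Equiv.swap k j) ω k, Equiv.swap_apply_left]
    rfl
  have h4 : ∀ ω : Fin n → Fin m, ∑ k, plur ω k = 1 := by
    intro ω
    by_cases h : ∃ k : Fin m, ∀ l : Fin m, l ≠ k → cnt ω l < cnt ω k
    · obtain ⟨k, hk⟩ := h
      have hp : ∀ j, plur ω j = if j = k then 1 else 0 := by
        intro j
        unfold plur
        rw [if_pos ⟨k, hk⟩]
        by_cases hj : j = k
        · subst hj
          rw [if_pos hk, if_pos rfl]
        · rw [if_neg hj, if_neg]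
          intro h2
          have h3 := h2 k (Ne.symm hj)
          have h4 := hk j hj
          omega
      simp [hp]
    · have hp : ∀ j, plur ω j = (m : ℝ)⁻¹ := by
        intro j
        unfold plur
        rw [if_neg h]
      simp_rw [hp]
      rw [Finset.sum_const, Finset.card_univ, Fintype.card_fin, nsmul_eq_mul]
      have : (m : ℝ) ≠ 0 := by positivity
      field_simp
  have h5 : ∑ k : Fin m, av (fun ω : Fin n → Fin m => plur ω k) = 1 := by
    rw [← plw_av_sum]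
    simp_rw [h4]
    exact plw_av_const hm 1
  rw [Finset.sum_congr rfl fun k _ => h3 k, Finset.sum_const, Finset.card_univ, Fintype.card_fin,
    nsmul_eq_mul] at h5
  have : (m : ℝ) ≠ 0 := by positivity
  field_simp
  linarith

end Pool.H65.PS
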