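import Pool.Agent.Helper65.PS.Dsc

set_option autoImplicit false

open MeasureTheory ProbabilityTheory

namespace Pool.H65.PS

namespace Stb

variable {m n : ℕ}

/-- the centred delta kernel on one coordinate. -/
noncomputable def v (a b : Fin m) : ℝ := (if a = b then (1 : ℝ) else 0) - (m : ℝ)⁻¹

/-- one coordinate kernel: centred delta if `P` holds, the uniform kernel otherwise. -/
noncomputable def ker1 (P : Prop) [Decidable P] (a b : Fin m) : ℝ := if P then v a b else (m : ℝ)⁻¹

/-- kernel attached to a set of coordinates. -/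
noncomputable def ker (S : Finset (Fin n)) (ω δ : Fin n → Fin m) : ℝ :=
  ∏ i, ker1 (i ∈ S) (ω i) (δ i)

/-- weight attached to a set of coordinates. -/
noncomputable def wt (g : (Fin n → Fin m) → ℝ) (S : Finset (Fin n)) : ℝ :=
  ((m : ℝ) ^ n)⁻¹ * ∑ ω : Fin n → Fin m, ∑ δ : Fin n → Fin m, g ω * ker S ω δ * g δ

theorem v_symm (a b : Fin m) : v a b = v b a := by
  unfold v; simp only [eq_comm]

theorem v_conv (hm : 0 < m) (b c : Fin m) : ∑ a, v b a * v a c = v b c := by
  have hm' : (m : ℝ) ≠ 0 := by positivity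
  unfold v
  simp only [sub_mul, mul_sub, Finset.sum_sub_distrib, ite_mul, one_mul, zero_mul, mul_ite,
    mul_one, mul_zero, Finset.sum_ite_eq, Finset.sum_ite_eq', Finset.mem_univ, if_true,
    Finset.sum_const, Finset.card_univ, Fintype.card_fin, nsmul_eq_mul]
  field_simp
  ring

theorem ker1_conv (hm : 0 < m) (P : Prop) [Decidable P] (b c : Fin m) :
    ∑ a, ker1 P b a * ker1 P a c = ker1 P b c := by
  unfold ker1
  by_cases hP : P
  · simp only [hP, if_true]; exact v_conv hm b c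
  · have hm' : (m : ℝ) ≠ 0 := by positivity
    simp only [hP, if_false, Finset.sum_const, Finset.card_univ, Fintype.card_fin, nsmul_eq_mul]
    field_simp

theorem ker1_symm (P : Prop) [Decidable P] (a b : Fin m) : ker1 P a b = ker1 P b a := by
  unfold ker1; rw [v_symm]

theorem ker_symm (S : Finset (Fin n)) (ω δ : Fin n → Fin m) : ker S ω δ = ker S δ ω := by
  unfold ker
  exact Finset.prod_congr rfl (fun i _ => ker1_symm _ _ _)

theorem ker_conv (hm : 0 < m) (S : Finset (Fin n)) (ω δ : Fin n → Fin m) :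
    ∑ η : Fin n → Fin m, ker S ω η * ker S η δ = ker S ω δ := by
  unfold ker
  simp only [← Finset.prod_mul_distrib]
  have h := Finset.prod_univ_sum (fun _ : Fin n => (Finset.univ : Finset (Fin m)))
    (fun i a => ker1 (i ∈ S) (ω i) a * ker1 (i ∈ S) a (δ i))
  rw [Fintype.piFinset_univ] at h
  rw [← h]
  exact Finset.prod_congr rfl (fun i _ => ker1_conv hm _ _ _)

theorem wt_nonneg (hm : 0 < m) (g : (Fin n → Fin m) → ℝ) (S : Finset (Fin n)) : 0 ≤ wt g S := by
  unfold wt
  refine mul_nonneg (by positivity) ?_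
  have h : ∑ ω : Fin n → Fin m, ∑ δ : Fin n → Fin m, g ω * ker S ω δ * g δ
      = ∑ η : Fin n → Fin m, (∑ ω : Fin n → Fin m, ker S η ω * g ω) ^ 2 := by
    have h1 : ∀ η : Fin n → Fin m, (∑ ω : Fin n → Fin m, ker S η ω * g ω) ^ 2
        = ∑ ω : Fin n → Fin m, ∑ δ : Fin n → Fin m, g ω * (ker S ω η * ker S η δ) * g δ := by
      intro η
      rw [sq, Finset.sum_mul_sum]
      refine Finset.sum_congr rfl (fun ω _ => Finset.sum_congr rfl (fun δ _ => ?_))
      rw [ker_symm S η ω]
      ring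
    rw [Finset.sum_congr rfl (fun η _ => h1 η)]
    symm
    rw [Finset.sum_comm]
    refine Finset.sum_congr rfl (fun ω _ => ?_)
    rw [Finset.sum_comm]
    refine Finset.sum_congr rfl (fun δ _ => ?_)
    rw [← ker_conv hm S ω δ, Finset.mul_sum, Finset.sum_mul]
  rw [h]
  exact Finset.sum_nonneg (fun η _ => sq_nonneg _)

theorem kernel_eq (hm : 0 < m) (ρ : ℝ) (ω δ : Fin n → Fin m) :
    (∏ i : Fin n, if δ i = ω i then (1 + ((m : ℝ) - 1) * ρ) / m else (1 - ρ) / m)
      = ∑ S : Finset (Fin n), ρ ^ S.card * ker S ω δ := by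
  have hm' : (m : ℝ) ≠ 0 := by positivity
  have h1 : (∏ i : Fin n, if δ i = ω i then (1 + ((m : ℝ) - 1) * ρ) / m else (1 - ρ) / m)
      = ∏ i : Fin n, (ρ * v (ω i) (δ i) + (m : ℝ)⁻¹) := by
    refine Finset.prod_congr rfl (fun i _ => ?_)
    unfold v
    by_cases h : δ i = ω i
    · rw [if_pos h, if_pos h.symm]; field_simp; ring
    · rw [if_neg h, if_neg (fun h' => h h'.symm)]; field_simp; ring
  rw [h1, Finset.prod_add, Finset.powerset_univ]
  refine Finset.sum_congr rfl (fun S _ => ?_)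
  rw [Finset.prod_mul_distrib, Finset.prod_const, mul_assoc]
  congr 1
  unfold ker ker1
  rw [← Finset.prod_filter_mul_prod_filter_not Finset.univ (fun i => i ∈ S)
    (fun i => if i ∈ S then v (ω i) (δ i) else (m : ℝ)⁻¹)]
  congr 1
  · have : Finset.univ.filter (fun i => i ∈ S) = S := by ext i; simp
    rw [this]
    exact Finset.prod_congr rfl (fun i hi => by rw [if_pos hi])
  · have : Finset.univ.filter (fun i => i ∉ S) = Finset.univ \ S := by ext i; simp
    rw [this]
    refine Finset.prod_congr rfl (fun i hi => ?_)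
    rw [if_neg (by simpa using hi)]

theorem stab_eq (hm : 0 < m) (ρ : ℝ) (g : (Fin n → Fin m) → ℝ) :
    stab ρ g = ∑ S : Finset (Fin n), ρ ^ S.card * wt g S := by
  unfold stab wt
  have h : ∑ ω : Fin n → Fin m, ∑ δ : Fin n → Fin m,
      g ω * (∏ i : Fin n, if δ i = ω i then (1 + ((m : ℝ) - 1) * ρ) / m else (1 - ρ) / m) * g δ
      = ∑ S : Finset (Fin n), ρ ^ S.card *
        ∑ ω : Fin n → Fin m, ∑ δ : Fin n → Fin m, g ω * ker S ω δ * g δ := by
    have e1 : ∀ ω δ : Fin n → Fin m,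
        g ω * (∏ i : Fin n, if δ i = ω i then (1 + ((m : ℝ) - 1) * ρ) / m else (1 - ρ) / m) * g δ
        = ∑ S : Finset (Fin n), ρ ^ S.card * (g ω * ker S ω δ * g δ) := by
      intro ω δ
      rw [kernel_eq hm, Finset.mul_sum, Finset.sum_mul]
      exact Finset.sum_congr rfl (fun S _ => by ring)
    rw [Finset.sum_congr rfl (fun ω _ => Finset.sum_congr rfl (fun δ _ => e1 ω δ))]
    rw [Finset.sum_congr rfl (fun ω _ => Finset.sum_comm)]
    rw [Finset.sum_comm]
    refine Finset.sum_congr rfl (fun S _ => ?_)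
    rw [Finset.mul_sum]
    refine Finset.sum_congr rfl (fun ω _ => ?_)
    rw [Finset.mul_sum]
  rw [h, Finset.mul_sum]
  refine Finset.sum_congr rfl (fun S _ => ?_)
  ring

theorem stab_one (hm : 0 < m) (g : (Fin n → Fin m) → ℝ) : stab 1 g = av (fun ω => g ω ^ 2) := by
  have hm' : (m : ℝ) ≠ 0 := by positivity
  unfold stab av
  congr 1
  refine Finset.sum_congr rfl (fun ω _ => ?_)
  rw [Finset.sum_eq_single ω]
  · have : (∏ i : Fin n, if ω i = ω i then (1 + ((m : ℝ) - 1) * 1) / m else (1 - 1) / m) = 1 := by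
      refine Finset.prod_eq_one (fun i _ => ?_)
      rw [if_pos rfl]; field_simp; ring
    rw [this]; ring
  · intro δ _ hδ
    obtain ⟨i, hi⟩ := Function.ne_iff.mp hδ
    have : (∏ i : Fin n, if δ i = ω i then (1 + ((m : ℝ) - 1) * 1) / m else (1 - 1) / m) = 0 := by
      refine Finset.prod_eq_zero (Finset.mem_univ i) ?_
      rw [if_neg hi]; ring
    rw [this]; ring
  · intro h; exact absurd (Finset.mem_univ _) h

theorem wt_empty (g : (Fin n → Fin m) → ℝ) : wt g ∅ = av g ^ 2 := by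
  unfold wt av ker ker1
  simp only [Finset.notMem_empty, if_false, Finset.prod_const, Finset.card_univ, Fintype.card_fin]
  have : ∑ ω : Fin n → Fin m, ∑ δ : Fin n → Fin m, g ω * (m : ℝ)⁻¹ ^ n * g δ
      = (m : ℝ)⁻¹ ^ n * ((∑ ω, g ω) * ∑ δ, g δ) := by
    rw [Finset.sum_mul_sum, Finset.mul_sum]
    refine Finset.sum_congr rfl (fun ω _ => ?_)
    rw [Finset.mul_sum]
    exact Finset.sum_congr rfl (fun δ _ => by ring)
  rw [this, inv_pow]
  ring

theorem sum_update (i : Fin n) (a : Fin m) (g : (Fin n → Fin m) → ℝ) :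
    ∑ ω : Fin n → Fin m, g (Function.update ω i a)
      = m * ∑ ω : Fin n → Fin m, (if ω i = a then g ω else 0) := by
  have hinv : Function.Involutive
      (fun p : (Fin n → Fin m) × Fin m => (Function.update p.1 i p.2, p.1 i)) := by
    intro p
    ext j <;> simp [Function.update_idem]
  let e : Equiv.Perm ((Fin n → Fin m) × Fin m) := hinv.toPerm _
  have h := Equiv.sum_comp e (fun p : (Fin n → Fin m) × Fin m => if p.1 i = a then g p.1 else 0)
  have h1 : ∑ p : (Fin n → Fin m) × Fin m, (fun p : (Fin n → Fin m) × Fin m =>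
      if p.1 i = a then g p.1 else 0) (e p) = ∑ ω : Fin n → Fin m, g (Function.update ω i a) := by
    rw [Fintype.sum_prod_type]
    refine Finset.sum_congr rfl (fun ω _ => ?_)
    have e2 : ∀ b : Fin m, e (ω, b) = (Function.update ω i b, ω i) := fun b => rfl
    simp only [e2, Function.update_self]
    simp
  have h2 : ∑ p : (Fin n → Fin m) × Fin m, (fun p : (Fin n → Fin m) × Fin m =>
      if p.1 i = a then g p.1 else 0) p = m * ∑ ω : Fin n → Fin m, (if ω i = a then g ω else 0) := by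
    rw [Fintype.sum_prod_type, Finset.mul_sum]
    refine Finset.sum_congr rfl (fun ω _ => ?_)
    simp
  rw [← h1, ← h2]
  exact h

theorem lev_eq (hm : 0 < m) (g : (Fin n → Fin m) → ℝ) (i : Fin n) (a : Fin m) :
    lev g i a = ((m : ℝ) ^ n)⁻¹ * m * ∑ ω : Fin n → Fin m, v a (ω i) * g ω := by
  have hm' : (m : ℝ) ≠ 0 := by positivity
  unfold lev av
  rw [sum_update]
  have : ∑ ω : Fin n → Fin m, v a (ω i) * g ω
      = (∑ ω : Fin n → Fin m, (if ω i = a then g ω else 0)) - (m : ℝ)⁻¹ * ∑ ω : Fin n → Fin m, g ω := by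
    rw [Finset.mul_sum, ← Finset.sum_sub_distrib]
    refine Finset.sum_congr rfl (fun ω _ => ?_)
    unfold v
    by_cases h : ω i = a
    · rw [if_pos h, if_pos h.symm]; ring
    · rw [if_neg h, if_neg (fun h' => h h'.symm)]; ring
  rw [this]
  field_simp

theorem wt_singleton (hm : 0 < m) (g : (Fin n → Fin m) → ℝ) (i : Fin n) :
    wt g {i} = (m : ℝ)⁻¹ * ∑ a, lev g i a ^ 2 := by
  have hm' : (m : ℝ) ≠ 0 := by positivity
  have hk : ∀ ω δ : Fin n → Fin m, ker {i} ω δ = v (ω i) (δ i) * ((m : ℝ) * ((m : ℝ) ^ n)⁻¹) := by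
    intro ω δ
    unfold ker ker1
    rw [← Finset.mul_prod_erase Finset.univ _ (Finset.mem_univ i)]
    simp only [Finset.mem_singleton, if_true]
    congr 1
    rw [Finset.prod_congr rfl (g := fun _ => (m : ℝ)⁻¹) (fun j hj => by
      rw [if_neg (Finset.ne_of_mem_erase hj)])]
    rw [Finset.prod_const, Finset.card_erase_of_mem (Finset.mem_univ i), Finset.card_univ,
      Fintype.card_fin]
    have hn : 0 < n := i.pos
    obtain ⟨k, rfl⟩ : ∃ k, n = k + 1 := ⟨n - 1, by omega⟩
    simp only [Nat.add_sub_cancel, pow_succ, inv_pow]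
    field_simp
  have h2 : ∑ a, lev g i a ^ 2 = (((m : ℝ) ^ n)⁻¹ * m) ^ 2 *
      ∑ ω : Fin n → Fin m, ∑ δ : Fin n → Fin m, g ω * v (ω i) (δ i) * g δ := by
    have h3 : ∀ a : Fin m, lev g i a ^ 2 = (((m : ℝ) ^ n)⁻¹ * m) ^ 2 *
        ∑ ω : Fin n → Fin m, ∑ δ : Fin n → Fin m, g ω * (v (ω i) a * v a (δ i)) * g δ := by
      intro a
      rw [lev_eq hm, mul_pow]
      congr 1
      rw [sq, Finset.sum_mul_sum]
      refine Finset.sum_congr rfl (fun ω _ => Finset.sum_congr rfl (fun δ _ => ?_))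
      rw [v_symm a (ω i)]
      ring
    rw [Finset.sum_congr rfl (fun a _ => h3 a), ← Finset.mul_sum]
    congr 1
    rw [Finset.sum_comm]
    refine Finset.sum_congr rfl (fun ω _ => ?_)
    rw [Finset.sum_comm]
    refine Finset.sum_congr rfl (fun δ _ => ?_)
    rw [← v_conv hm (ω i) (δ i), Finset.mul_sum, Finset.sum_mul]
  rw [h2]
  unfold wt
  have h4 : ∑ ω : Fin n → Fin m, ∑ δ : Fin n → Fin m, g ω * ker {i} ω δ * g δ
      = ((m : ℝ) * ((m : ℝ) ^ n)⁻¹) *
        ∑ ω : Fin n → Fin m, ∑ δ : Fin n → Fin m, g ω * v (ω i) (δ i) * g δ := by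
    rw [Finset.mul_sum]
    refine Finset.sum_congr rfl (fun ω _ => ?_)
    rw [Finset.mul_sum]
    refine Finset.sum_congr rfl (fun δ _ => ?_)
    rw [hk]; ring
  rw [h4]
  field_simp

end Stb

theorem stab_bounds {m n : ℕ} (hm : 0 < m) (ρ : ℝ) (h0 : 0 ≤ ρ) (h1 : ρ ≤ 1)
    (g : (Fin n → Fin m) → ℝ) :
    av g ^ 2 + ρ * W1 g ≤ stab ρ g ∧
      stab ρ g ≤ av g ^ 2 + ρ * W1 g
        + ρ ^ 2 * (av (fun ω => g ω ^ 2) - av g ^ 2 - W1 g) := by
  have hE : ∑ S : Finset (Fin n), (if S.card = 0 then Stb.wt g S else 0) = av g ^ 2 := by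
    rw [Finset.sum_eq_single ∅, if_pos (by simp), Stb.wt_empty]
    · intro S _ hS
      rw [if_neg (by simpa using hS)]
    · intro h; exact absurd (Finset.mem_univ _) h
  have hS1 : ∑ S : Finset (Fin n), (if S.card = 1 then Stb.wt g S else 0) = W1 g := by
    rw [← Finset.sum_filter]
    have : Finset.univ.filter (fun S : Finset (Fin n) => S.card = 1)
        = Finset.univ.map ⟨fun i : Fin n => ({i} : Finset (Fin n)), Finset.singleton_injective⟩ := by
      ext S
      simp only [Finset.mem_filter, Finset.mem_univ, true_and, Finset.mem_map,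
        Function.Embedding.coeFn_mk, Finset.card_eq_one]
      constructor
      · rintro ⟨a, rfl⟩; exact ⟨a, rfl⟩
      · rintro ⟨a, rfl⟩; exact ⟨a, rfl⟩
    rw [this, Finset.sum_map]
    unfold W1
    exact Finset.sum_congr rfl (fun i _ => Stb.wt_singleton hm g i)
  have hAll : ∑ S : Finset (Fin n), Stb.wt g S = av (fun ω => g ω ^ 2) := by
    rw [← Stb.stab_one hm, Stb.stab_eq hm]
    simp
  rw [Stb.stab_eq hm, ← hAll, ← hE, ← hS1]
  constructor
  · rw [Finset.mul_sum, ← Finset.sum_add_distrib]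
    refine Finset.sum_le_sum (fun S _ => ?_)
    have hw := Stb.wt_nonneg hm g S
    rcases Nat.lt_or_ge S.card 2 with h | h
    · interval_cases hc : S.card
      · simp
      · simp
    · rw [if_neg (by omega), if_neg (by omega)]
      have : 0 ≤ ρ ^ S.card * Stb.wt g S := by positivity
      linarith
  · rw [← Finset.sum_sub_distrib, ← Finset.sum_sub_distrib, Finset.mul_sum, Finset.mul_sum,
      ← Finset.sum_add_distrib, ← Finset.sum_add_distrib]
    refine Finset.sum_le_sum (fun S _ => ?_)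
    have hw := Stb.wt_nonneg hm g S
    rcases Nat.lt_or_ge S.card 2 with h | h
    · interval_cases hc : S.card
      · simp
      · simp
    · rw [if_neg (by omega), if_neg (by omega)]
      have h3 : ρ ^ S.card ≤ ρ ^ 2 := pow_le_pow_of_le_one h0 h1 h
      have := mul_le_mul_of_nonneg_right h3 hw
      linarith

end Pool.H65.PS
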