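import Pool.Agent.Helper65.PS.Upp
import Pool.Agent.Helper65.PS.Stb
import Pool.Agent.Helper65.PS.Plw

set_option autoImplicit false

open MeasureTheory ProbabilityTheory

namespace Pool.H65.PS

/-- the main inequality, in terms of the definitions of `Defs`. -/
theorem main_ineq (m : ℕ) (hm : 2 ≤ m) (ε : ℝ) (hε : 0 < ε) : ∃ τ : ℝ, 0 < τ ∧ ∃ N₀ : ℕ,
    ∀ N : ℕ, N₀ ≤ N → ∀ ρ : ℝ, 0 ≤ ρ → ρ ≤ 1 →
    ∀ (n : ℕ) (f : (Fin n → Fin m) → Fin m → ℝ), (∀ ω, f ω ∈ stdSimplex ℝ (Fin m)) →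
      (∀ j, av (fun ω => f ω j) = 1 / (m : ℝ)) →
      (∀ i j, infl (fun ω => f ω j) i ≤ τ) →
      ∑ j, stab ρ (fun ω => f ω j) ≤ ∑ j, stab ρ (fun ω : Fin N → Fin m => plur ω j)
        + ρ ^ 2 * (1 - 1 / (m : ℝ) - MM (Fin m) ^ 2 / ((m : ℝ) - 1)) + ρ * ε := by
  have hm0 : 0 < m := by omega
  have hmR : (0 : ℝ) < m := by exact_mod_cast hm0
  obtain ⟨τ, hτ, hU⟩ := upper_W1 m hm (ε / 2) (half_pos hε)
  obtain ⟨N₀, hL⟩ := lower_plur m hm (ε / 2) (half_pos hε)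
  refine ⟨τ, hτ, N₀, fun N hN ρ h0 h1 n f hf hb hi => ?_⟩
  have hU' := hU n f hf hb hi
  have hL' := hL N hN
  set κ := MM (Fin m) ^ 2 / ((m : ℝ) - 1) with hκ
  set W := ∑ j, W1 (fun ω => f ω j) with hW
  set V := ∑ j, W1 (fun ω : Fin N → Fin m => plur ω j) with hV
  -- upper bound for f
  have hS : ∑ j, stab ρ (fun ω => f ω j) ≤ 1 / m + ρ * W + ρ ^ 2 * (1 - 1 / m - W) := by
    have h2 : ∀ j, stab ρ (fun ω => f ω j) ≤ av (fun ω => f ω j) ^ 2 + ρ * W1 (fun ω => f ω j)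
        + ρ ^ 2 * (av (fun ω => (f ω j) ^ 2) - av (fun ω => f ω j) ^ 2 - W1 (fun ω => f ω j)) :=
      fun j => (stab_bounds hm0 ρ h0 h1 (fun ω => f ω j)).2
    have h3 : ∑ j : Fin m, av (fun ω => (f ω j) ^ 2) ≤ 1 := by
      have e : ∑ j : Fin m, av (fun ω => (f ω j) ^ 2)
          = ((m : ℝ) ^ n)⁻¹ * ∑ ω : Fin n → Fin m, ∑ j, (f ω j) ^ 2 := by
        unfold av
        rw [← Finset.mul_sum, Finset.sum_comm]
      rw [e]
      have h4 : ∀ ω : Fin n → Fin m, ∑ j, (f ω j) ^ 2 ≤ 1 := by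
        intro ω
        have h5 := hf ω
        calc ∑ j, (f ω j) ^ 2 ≤ ∑ j, f ω j := by
              refine Finset.sum_le_sum (fun j _ => ?_)
              have h6 := h5.1 j
              have h7 : f ω j ≤ 1 := by
                rw [← h5.2]
                exact Finset.single_le_sum (f := fun k => f ω k) (fun k _ => h5.1 k)
                  (Finset.mem_univ j)
              nlinarith
          _ = 1 := h5.2
      have h8 : ∑ ω : Fin n → Fin m, ∑ j, (f ω j) ^ 2 ≤ (m : ℝ) ^ n := by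
        calc ∑ ω : Fin n → Fin m, ∑ j, (f ω j) ^ 2 ≤ ∑ _ω : Fin n → Fin m, (1 : ℝ) :=
              Finset.sum_le_sum (fun ω _ => h4 ω)
          _ = (m : ℝ) ^ n := by simp
      have h9 : (0 : ℝ) < (m : ℝ) ^ n := by positivity
      rw [inv_mul_le_iff₀ h9, mul_one]
      exact h8
    have h4 : ∑ j : Fin m, av (fun ω => f ω j) ^ 2 = 1 / m := by
      simp only [hb]
      rw [Finset.sum_const, Finset.card_univ, Fintype.card_fin, nsmul_eq_mul]
      field_simp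
    calc ∑ j, stab ρ (fun ω => f ω j) ≤ ∑ j, (av (fun ω => f ω j) ^ 2 + ρ * W1 (fun ω => f ω j)
        + ρ ^ 2 * (av (fun ω => (f ω j) ^ 2) - av (fun ω => f ω j) ^ 2
          - W1 (fun ω => f ω j))) := Finset.sum_le_sum (fun j _ => h2 j)
      _ = 1 / m + ρ * W + ρ ^ 2 * (∑ j : Fin m, av (fun ω => (f ω j) ^ 2) - 1 / m - W) := by
          rw [Finset.sum_add_distrib, Finset.sum_add_distrib, ← Finset.mul_sum, ← Finset.mul_sum,
            Finset.sum_sub_distrib, Finset.sum_sub_distrib, h4]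
      _ ≤ _ := by
          have := mul_le_mul_of_nonneg_left h3 (sq_nonneg ρ)
          nlinarith
  -- lower bound for plurality
  have hP : 1 / m + ρ * V ≤ ∑ j, stab ρ (fun ω : Fin N → Fin m => plur ω j) := by
    have h2 : ∀ j, av (fun ω : Fin N → Fin m => plur ω j) ^ 2
        + ρ * W1 (fun ω : Fin N → Fin m => plur ω j) ≤ stab ρ (fun ω : Fin N → Fin m => plur ω j) :=
      fun j => (stab_bounds hm0 ρ h0 h1 (fun ω : Fin N → Fin m => plur ω j)).1
    have h4 : ∑ j : Fin m, av (fun ω : Fin N → Fin m => plur ω j) ^ 2 = 1 / m := by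
      simp only [av_plur m N hm0]
      rw [Finset.sum_const, Finset.card_univ, Fintype.card_fin, nsmul_eq_mul]
      field_simp
    calc 1 / m + ρ * V = ∑ j, (av (fun ω : Fin N → Fin m => plur ω j) ^ 2
        + ρ * W1 (fun ω : Fin N → Fin m => plur ω j)) := by
          rw [Finset.sum_add_distrib, ← Finset.mul_sum, h4]
      _ ≤ _ := Finset.sum_le_sum (fun j _ => h2 j)
  have h10 : ρ ^ 2 ≤ ρ := by nlinarith
  -- W ≤ κ + ε/2 , κ - ε/2 ≤ V
  have h11 : ρ * (1 - ρ) * W ≤ ρ * (1 - ρ) * (κ + ε / 2) :=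
    mul_le_mul_of_nonneg_left hU' (mul_nonneg h0 (by linarith))
  have h12 : ρ * (κ - ε / 2) ≤ ρ * V := mul_le_mul_of_nonneg_left hL' h0
  have h13 : 0 ≤ ρ ^ 2 * (ε / 2) := by positivity
  nlinarith

end Pool.H65.PS
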