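import Pool.Agent.Helper65.PS.Sym
import Pool.Agent.Helper65.PS.Smx

set_option autoImplicit false

open MeasureTheory ProbabilityTheory

namespace Pool.H65.PS

theorem gth_abs_iSup_sub_le {ι : Type} [Fintype ι] [Nonempty ι] (x y : ι → ℝ) :
    |(⨆ j, x j) - ⨆ j, y j| ≤ ‖x - y‖ := by
  have key : ∀ a b : ι → ℝ, (⨆ j, a j) ≤ (⨆ j, b j) + ‖a - b‖ := by
    intro a b
    apply ciSup_le
    intro j
    have h1 : b j ≤ ⨆ j, b j := le_ciSup (Set.finite_range b).bddAbove j
    have h2 : a j - b j ≤ ‖a - b‖ := by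
      have := norm_le_pi_norm (a - b) j
      rw [Real.norm_eq_abs] at this
      exact (le_abs_self _).trans this
    linarith
  rw [abs_le]
  constructor
  · have := key y x
    rw [norm_sub_rev] at this
    linarith
  · have := key x y
    linarith

theorem gth_continuous_iSup {ι : Type} [Fintype ι] [Nonempty ι] :
    Continuous (fun x : ι → ℝ => ⨆ j, x j) := by
  have : LipschitzWith 1 (fun x : ι → ℝ => ⨆ j, x j) := by
    apply LipschitzWith.of_dist_le_mul
    intro x y
    rw [Real.dist_eq, dist_eq_norm]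
    simpa using gth_abs_iSup_sub_le x y
  exact this.continuous

theorem gth_continuous_lin {ι κ : Type} [Fintype ι] [Fintype κ] (W : κ → ι → ℝ) :
    Continuous (lin W) := by
  unfold lin
  fun_prop

theorem gth_norm_lin_le {ι κ : Type} [Fintype ι] [Fintype κ] (W : κ → ι → ℝ) (g : κ → ℝ) :
    ‖lin W g‖ ≤ (∑ i, ‖W i‖) * ‖g‖ := by
  unfold lin
  refine (norm_sum_le _ _).trans ?_
  rw [Finset.sum_mul]
  apply Finset.sum_le_sum
  intro i _
  rw [norm_smul, mul_comm]
  exact mul_le_mul_of_nonneg_left (norm_le_pi_norm g i) (norm_nonneg _)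

theorem gaussian_bound {ι κ : Type} [Fintype ι] [DecidableEq ι] [Nontrivial ι] [Fintype κ]
    (w : κ → ι → ℝ) (hw : ∀ i, ∑ j, w i j = 0) : ∃ c : ι → ℝ,
    ∫ g, lse (c + lin w g) ∂(gam κ) - (∑ j, c j) / (Fintype.card ι : ℝ)
      ≤ Real.log (Fintype.card ι)
        + Real.sqrt ((∑ i, ∑ j, w i j ^ 2) / ((Fintype.card ι : ℝ) - 1)) * MM ι := by
  obtain ⟨c, hc⟩ := symmetrize w
  refine ⟨c, hc.trans ?_⟩
  rw [← integral_iSup_lin_symW w hw]
  set r : ℝ := Real.sqrt ((Fintype.card (Equiv.Perm ι) : ℝ)⁻¹) with hr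
  have hr0 : 0 ≤ r := Real.sqrt_nonneg _
  set B : ℝ := r * ∑ i, ‖symW w i‖ with hB
  have hB0 : 0 ≤ B := mul_nonneg hr0 (Finset.sum_nonneg fun i _ => norm_nonneg _)
  have hn : ∀ g : Equiv.Perm ι × κ → ℝ, ‖r • lin (symW w) g‖ ≤ B * ‖g‖ := by
    intro g
    rw [norm_smul, Real.norm_eq_abs, abs_of_nonneg hr0, hB, mul_assoc]
    exact mul_le_mul_of_nonneg_left (gth_norm_lin_le _ _) hr0
  have hlog : 0 ≤ Real.log (Fintype.card ι) := Real.log_natCast_nonneg _
  have i1 : Integrable (fun g : Equiv.Perm ι × κ → ℝ => lse (r • lin (symW w) g))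
      (gam (Equiv.Perm ι × κ)) := by
    apply integrable_gam _ (Real.log (Fintype.card ι) + B) 1
    · exact continuous_lse.comp ((gth_continuous_lin (symW w)).const_smul r)
    · intro g
      have h1 := abs_lse_sub_le (r • lin (symW w) g) 0
      have h0 : lse (0 : ι → ℝ) = Real.log (Fintype.card ι) := by simp [lse]
      rw [h0, sub_zero] at h1
      have h2 := abs_le.1 h1
      have h3 := hn g
      have h4 : 0 ≤ ‖g‖ := norm_nonneg g
      rw [pow_one]
      have h5 : 0 ≤ Real.log (Fintype.card ι) * ‖g‖ := mul_nonneg hlog h4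
      have h6 : 0 ≤ B * ‖g‖ := mul_nonneg hB0 h4
      rw [abs_le]
      constructor <;> nlinarith
  have i2 : Integrable (fun g : Equiv.Perm ι × κ → ℝ => ⨆ j, (r • lin (symW w) g) j)
      (gam (Equiv.Perm ι × κ)) := by
    apply integrable_gam _ B 1
    · exact gth_continuous_iSup.comp ((gth_continuous_lin (symW w)).const_smul r)
    · intro g
      have h1 := gth_abs_iSup_sub_le (r • lin (symW w) g) 0
      have h0 : (⨆ j : ι, (0 : ι → ℝ) j) = 0 := by simp
      rw [h0, sub_zero, sub_zero] at h1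
      have h3 := hn g
      have h4 : 0 ≤ ‖g‖ := norm_nonneg g
      rw [pow_one]
      nlinarith
  have h1 : ∫ g, lse (r • lin (symW w) g) ∂(gam (Equiv.Perm ι × κ))
      ≤ ∫ g, (Real.log (Fintype.card ι) + ⨆ j, (r • lin (symW w) g) j)
          ∂(gam (Equiv.Perm ι × κ)) := by
    apply integral_mono i1
    · exact (integrable_const _).add i2
    · intro g
      exact lse_le_log_add_iSup _
  refine h1.trans (le_of_eq ?_)
  rw [integral_add (integrable_const _) i2]
  simp

end Pool.H65.PS
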