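import Pool.Agent.Helper65.PS.Step
import Pool.Agent.Helper65.PS.Dirac

set_option autoImplicit false

open MeasureTheory ProbabilityTheory

namespace Pool.H65.PS

theorem ind_measurable_lin {ι κ : Type} [Fintype ι] [Fintype κ] (W : κ → ι → ℝ) :
    Measurable (lin W) := by
  unfold lin
  fun_prop

theorem ind_zero {ι : Type} [Fintype ι] (W : Fin 0 → ι → ℝ) :
    (gam (Fin 0)).map (lin W) = Measure.dirac (0 : ι → ℝ) := by
  have h : lin W = fun _ => 0 := by
    funext g
    simp [lin]
  rw [h, Measure.map_const, measure_univ, one_smul]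

theorem ind_succ {ι : Type} [Fintype ι] {D : ℕ} (W : Fin (D + 1) → ι → ℝ) :
    (gam (Fin (D + 1))).map (lin W) =
      addG (W 0) ((gam (Fin D)).map (lin (fun i => W i.succ))) := by
  have hm := ind_measurable_lin (fun i : Fin D => W i.succ)
  unfold addG
  have h1 : (gaussianReal 0 1).prod ((gam (Fin D)).map (lin (fun i => W i.succ))) =
      ((gaussianReal 0 1).prod (gam (Fin D))).map
        (Prod.map id (lin (fun i => W i.succ))) := by
    rw [← Measure.map_prod_map _ _ measurable_id hm, Measure.map_id]
  rw [h1, Measure.map_map (by fun_prop) (measurable_id.prodMap hm)]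
  have h2 := (measurePreserving_piFinSuccAbove (fun _ : Fin (D + 1) => gaussianReal 0 1) 0).map_eq
  have h3 : (gaussianReal 0 1).prod (gam (Fin D)) =
      (gam (Fin (D + 1))).map (MeasurableEquiv.piFinSuccAbove (fun _ => ℝ) 0) := h2.symm
  rw [h3, Measure.map_map ?_ (MeasurableEquiv.measurable _)]
  · congr 1
    funext g
    simp only [lin, Function.comp, Prod.map]
    rw [Fin.sum_univ_succ]
    rfl
  · refine Measurable.comp ?_ (measurable_id.prodMap hm)
    fun_prop

theorem ind_fin {ι : Type} [Fintype ι] [Nonempty ι] : ∀ (D : ℕ) (W : Fin D → ι → ℝ),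
    PP ((gam (Fin D)).map (lin W)) := by
  intro D
  induction D with
  | zero =>
    intro W
    rw [ind_zero]
    exact PP_dirac
  | succ D ih =>
    intro W
    rw [ind_succ]
    have : IsProbabilityMeasure ((gam (Fin D)).map (lin (fun i => W i.succ))) :=
      Measure.isProbabilityMeasure_map (ind_measurable_lin _).aemeasurable
    exact PP_addG _ _ (ih _)

theorem PP_gam {ι κ : Type} [Fintype ι] [Nonempty ι] [Fintype κ] (W : κ → ι → ℝ) :
    PP ((gam κ).map (lin W)) := by
  let e := Fintype.equivFin κ
  have h1 : (gam κ).map (fun (g : κ → ℝ) (j : Fin (Fintype.card κ)) => g (e.symm j)) =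
      gam (Fin (Fintype.card κ)) := by
    symm
    refine Measure.pi_eq fun s hs => ?_
    have hmeas : Measurable (fun (g : κ → ℝ) (j : Fin (Fintype.card κ)) => g (e.symm j)) := by
      fun_prop
    rw [Measure.map_apply hmeas (MeasurableSet.univ_pi hs)]
    have h2 : (fun (g : κ → ℝ) (j : Fin (Fintype.card κ)) => g (e.symm j)) ⁻¹'
        (Set.univ.pi s) = Set.univ.pi (fun k => s (e k)) := by
      ext g
      simp only [Set.mem_preimage, Set.mem_pi, Set.mem_univ, true_implies]
      constructor
      · intro h k
        have := h (e k)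
        rwa [e.symm_apply_apply] at this
      · intro h j
        have := h (e.symm j)
        rwa [e.apply_symm_apply] at this
    rw [h2]
    unfold gam
    rw [Measure.pi_pi]
    exact e.prod_comp (fun j => gaussianReal 0 1 (s j))
  have h2 : (gam κ).map (lin W) =
      (gam (Fin (Fintype.card κ))).map (lin (fun j => W (e.symm j))) := by
    rw [← h1, Measure.map_map (ind_measurable_lin _) (by fun_prop)]
    congr 1
    funext g
    simp only [lin, Function.comp]
    exact (e.symm.sum_comp (fun k => g k • W k)).symm
  rw [h2]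
  exact ind_fin _ _

end Pool.H65.PS
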