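import Pool.Agent.Helper65.PS.Lin
import Pool.Agent.Helper65.PS.Ibp

set_option autoImplicit false

open MeasureTheory ProbabilityTheory

namespace Pool.H65.PS

section lidaux

/-- the uniform probability measure on `Fin m` -/
noncomputable def lidU (m : ℕ) : Measure (Fin m) := (m : ENNReal)⁻¹ • Measure.count

theorem lid_prob {m : ℕ} (hm : 0 < m) : IsProbabilityMeasure (lidU m) := by
  constructor
  unfold lidU
  rw [Measure.smul_apply, Measure.count_apply MeasurableSet.univ]
  simp only [Set.encard_univ, ENat.card_eq_coe_fintype_card, Fintype.card_fin, smul_eq_mul]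
  exact ENNReal.inv_mul_cancel (by exact_mod_cast hm.ne') (by simp)

theorem lid_singleton (m : ℕ) (a : Fin m) : lidU m {a} = (m : ENNReal)⁻¹ := by
  unfold lidU
  simp

theorem lid_integral (m : ℕ) (f : Fin m → ℝ) :
    ∫ a, f a ∂(lidU m) = (m : ℝ)⁻¹ * ∑ a, f a := by
  unfold lidU
  rw [integral_smul_measure, integral_count]
  simp

theorem lid_pi_integral {m : ℕ} (hm : 0 < m) (n : ℕ) (g : (Fin n → Fin m) → ℝ) :
    ∫ ω, g ω ∂(Measure.pi fun _ : Fin n => lidU m) = av g := by
  have := lid_prob hm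
  rw [integral_fintype (Integrable.of_finite)]
  unfold av
  rw [Finset.mul_sum]
  refine Finset.sum_congr rfl fun ω _ => ?_
  rw [Measure.real, Measure.pi_singleton]
  simp [lid_singleton]

theorem lid_mean {m : ℕ} (a : Fin m) : ∫ g : Fin m → ℝ, g a ∂(gam (Fin m)) = 0 := by
  have h := gam_ibp (κ := Fin m) a (fun _ => 1) (fun _ => 0) 1 0 continuous_const continuous_const
    (fun g t => hasDerivAt_const _ _) (fun g => by simp) (fun g => by simp)
  simpa using h

theorem lid_cov {m : ℕ} (a b : Fin m) :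
    ∫ g : Fin m → ℝ, g a * g b ∂(gam (Fin m)) = if a = b then 1 else 0 := by
  have h := gam_ibp (κ := Fin m) a (fun g => g b) (fun _ => if a = b then (1 : ℝ) else 0) 1 1
    (continuous_apply b) continuous_const
    (fun g t => by
      by_cases hab : a = b
      · subst hab
        simp only [Function.update_self, if_true]
        exact hasDerivAt_id t
      · have hba : b ≠ a := fun h => hab h.symm
        simp only [Function.update_of_ne hba, if_neg hab]
        exact hasDerivAt_const _ _)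
    (fun g => by
      have := norm_le_pi_norm g b
      rw [Real.norm_eq_abs] at this
      rw [pow_one, one_mul]
      linarith)
    (fun g => by
      have := norm_nonneg g
      rw [pow_one, one_mul]
      split_ifs
      · rw [abs_one]; linarith
      · rw [abs_zero]; linarith)
  simpa using h

theorem lid_int_coord {m : ℕ} (a : Fin m) : Integrable (fun g : Fin m → ℝ => g a) (gam (Fin m)) := by
  refine integrable_gam _ 1 1 (continuous_apply a) fun g => ?_
  have := norm_le_pi_norm g a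
  rw [Real.norm_eq_abs] at this
  rw [pow_one, one_mul]
  linarith

theorem lid_int_coord2 {m : ℕ} (a b : Fin m) :
    Integrable (fun g : Fin m → ℝ => g a * g b) (gam (Fin m)) := by
  refine integrable_gam _ 1 2 ((continuous_apply a).mul (continuous_apply b)) fun g => ?_
  have h1 := norm_le_pi_norm g a
  have h2 := norm_le_pi_norm g b
  rw [Real.norm_eq_abs] at h1 h2
  rw [one_mul, abs_mul, sq]
  exact mul_le_mul (by linarith) (by linarith) (abs_nonneg _) (by linarith [norm_nonneg g])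

theorem lid_int_norm3 (m : ℕ) : Integrable (fun g : Fin m → ℝ => ‖g‖ ^ 3) (gam (Fin m)) := by
  refine integrable_gam _ 1 3 (continuous_norm.pow 3) fun g => ?_
  rw [one_mul, abs_of_nonneg (pow_nonneg (norm_nonneg _) _)]
  exact pow_le_pow_left₀ (norm_nonneg _) (by linarith) 3

variable {ι : Type}

theorem lid_continuous_lin {κ : Type} [Fintype κ] (W : κ → ι → ℝ) : Continuous (lin W) := by
  unfold lin
  fun_prop

theorem lid_lin_apply {m : ℕ} (W : Fin m → ι → ℝ) (g : Fin m → ℝ) (j : ι) :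
    lin W g j = ∑ a, g a * W a j := by
  unfold lin
  simp [Finset.sum_apply]

theorem lid_lin_mean {m : ℕ} (W : Fin m → ι → ℝ) (j : ι) :
    ∫ g, lin W g j ∂(gam (Fin m)) = 0 := by
  simp only [lid_lin_apply]
  rw [integral_finsetSum _ fun a _ => (lid_int_coord a).mul_const _]
  refine Finset.sum_eq_zero fun a _ => ?_
  rw [integral_mul_const, lid_mean, zero_mul]

theorem lid_lin_cov {m : ℕ} (W : Fin m → ι → ℝ) (j k : ι) :
    ∫ g, lin W g j * lin W g k ∂(gam (Fin m)) = ∑ a, W a j * W a k := by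
  have e : ∀ g : Fin m → ℝ, lin W g j * lin W g k
      = ∑ a, ∑ b, (g a * g b) * (W a j * W b k) := by
    intro g
    rw [lid_lin_apply, lid_lin_apply, Finset.sum_mul_sum]
    refine Finset.sum_congr rfl fun a _ => Finset.sum_congr rfl fun b _ => ?_
    ring
  simp only [e]
  rw [integral_finsetSum _ fun a _ => integrable_finsetSum _ fun b _ =>
    (lid_int_coord2 a b).mul_const _]
  refine Finset.sum_congr rfl fun a _ => ?_
  rw [integral_finsetSum _ fun b _ => (lid_int_coord2 a b).mul_const _]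
  rw [Finset.sum_eq_single a]
  · rw [integral_mul_const, lid_cov, if_pos rfl, one_mul]
  · intro b _ hb
    rw [integral_mul_const, lid_cov, if_neg (fun h => hb h.symm), zero_mul]
  · intro h; exact absurd (Finset.mem_univ a) h

variable [Fintype ι]

theorem lid_lin_norm3 {m : ℕ} (hm : 0 < m) (F : Fin m → ι → ℝ) (g : Fin m → ℝ) :
    ‖lin (fun a => (Real.sqrt m)⁻¹ • F a) g‖ ^ 3 ≤ (m : ℝ) ^ 2 * (∑ a, ‖F a‖ ^ 3) * ‖g‖ ^ 3 := by
  have h1 : ‖lin (fun a => (Real.sqrt m)⁻¹ • F a) g‖ ≤ ‖g‖ * ∑ a, ‖F a‖ := by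
    unfold lin
    refine le_trans (norm_sum_le _ _) ?_
    rw [Finset.mul_sum]
    refine Finset.sum_le_sum fun a _ => ?_
    rw [norm_smul, norm_smul]
    have hs : ‖(Real.sqrt m)⁻¹‖ ≤ 1 := by
      rw [Real.norm_eq_abs, abs_of_nonneg (inv_nonneg.2 (Real.sqrt_nonneg _))]
      apply inv_le_one_of_one_le₀
      rw [Real.one_le_sqrt]
      exact_mod_cast hm
    have hg := norm_le_pi_norm g a
    calc ‖g a‖ * (‖(Real.sqrt m)⁻¹‖ * ‖F a‖) ≤ ‖g‖ * (1 * ‖F a‖) := by gcongr
      _ = ‖g‖ * ‖F a‖ := by ring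
  have h2 := pow_sum_div_card_le_sum_pow (s := (Finset.univ : Finset (Fin m)))
    (f := fun a => ‖F a‖) (fun a _ => norm_nonneg _) 2
  have hm' : (0 : ℝ) < (m : ℝ) ^ 2 := by positivity
  simp only [Finset.card_univ, Fintype.card_fin] at h2
  rw [div_le_iff₀ hm'] at h2
  calc ‖lin (fun a => (Real.sqrt m)⁻¹ • F a) g‖ ^ 3 ≤ (‖g‖ * ∑ a, ‖F a‖) ^ 3 :=
        pow_le_pow_left₀ (norm_nonneg _) h1 3
    _ = ‖g‖ ^ 3 * (∑ a, ‖F a‖) ^ (2 + 1) := by ring
    _ ≤ ‖g‖ ^ 3 * ((∑ a, ‖F a‖ ^ (2 + 1)) * (m : ℝ) ^ 2) := by gcongr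
    _ = (m : ℝ) ^ 2 * (∑ a, ‖F a‖ ^ 3) * ‖g‖ ^ 3 := by norm_num; ring

theorem lid_curry (n m : ℕ) :
    (gam (Fin n × Fin m)).map (MeasurableEquiv.curry (Fin n) (Fin m) ℝ)
      = Measure.pi (fun _ : Fin n => gam (Fin m)) := by
  have h := Measure.infinitePi_map_curry (fun (_ : Fin n) (_ : Fin m) => gaussianReal 0 1)
  rw [Measure.infinitePi_eq_pi, Measure.infinitePi_eq_pi] at h
  unfold gam
  rw [h]
  congr 1
  funext i
  rw [Measure.infinitePi_eq_pi]

end lidaux

theorem lindeberg_disc {ι : Type} [Fintype ι] [Nonempty ι] (m : ℕ) (hm : 0 < m) : ∃ K : ℝ, 0 ≤ K ∧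
    ∀ (n : ℕ) (F : Fin n → Fin m → ι → ℝ), (∀ i, ∑ a, F i a = 0) → ∀ c : ι → ℝ,
      |av (fun ω : Fin n → Fin m => lse (c + ∑ i, F i (ω i)))
        - ∫ g, lse (c + lin (fun p : Fin n × Fin m => (Real.sqrt m)⁻¹ • F p.1 p.2) g)
            ∂(gam (Fin n × Fin m))|
        ≤ K * ∑ i, ∑ a, ‖F i a‖ ^ 3 := by
  have hmR : (0 : ℝ) < m := by exact_mod_cast hm
  have hU := lid_prob hm
  refine ⟨2 * (1 + (m : ℝ) ^ 2 * ∫ g, ‖g‖ ^ 3 ∂(gam (Fin m))), ?_, ?_⟩
  · have : 0 ≤ ∫ g, ‖g‖ ^ 3 ∂(gam (Fin m)) :=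
      integral_nonneg fun g => pow_nonneg (norm_nonneg _) _
    positivity
  intro n F hF c
  -- the two families of laws
  have mF : ∀ i, Measurable (F i) := fun i => measurable_of_finite _
  have mG : ∀ i, Measurable (lin (fun a => (Real.sqrt m)⁻¹ • F i a)) := fun i =>
    (lid_continuous_lin _).measurable
  have P1 : ∀ i, IsProbabilityMeasure ((lidU m).map (F i)) := fun i =>
    Measure.isProbabilityMeasure_map (mF i).aemeasurable
  have P2 : ∀ i, IsProbabilityMeasure
      ((gam (Fin m)).map (lin (fun a => (Real.sqrt m)⁻¹ • F i a))) := fun i =>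
    Measure.isProbabilityMeasure_map (mG i).aemeasurable
  have asm3 : ∀ μ : Measure (ι → ℝ), AEStronglyMeasurable (fun x : ι → ℝ => ‖x‖ ^ 3) μ := fun μ =>
    (continuous_norm.pow 3).aestronglyMeasurable
  have I1 : ∀ i, Integrable (fun x : ι → ℝ => ‖x‖ ^ 3) ((lidU m).map (F i)) := fun i => by
    rw [integrable_map_measure (asm3 _) (mF i).aemeasurable]
    exact Integrable.of_finite
  have I2 : ∀ i, Integrable (fun x : ι → ℝ => ‖x‖ ^ 3)
      ((gam (Fin m)).map (lin (fun a => (Real.sqrt m)⁻¹ • F i a))) := fun i => by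
    rw [integrable_map_measure (asm3 _) (mG i).aemeasurable]
    refine Integrable.mono' ((lid_int_norm3 m).const_mul ((m : ℝ) ^ 2 * (∑ a, ‖F i a‖ ^ 3)))
      ((continuous_norm.comp (lid_continuous_lin _)).pow 3).aestronglyMeasurable
      (Filter.Eventually.of_forall fun g => ?_)
    simp only [Function.comp_apply]
    rw [Real.norm_eq_abs, abs_of_nonneg (pow_nonneg (norm_nonneg _) _)]
    exact lid_lin_norm3 hm (F i) g
  have hmean : ∀ i j, ∫ x : ι → ℝ, x j ∂((lidU m).map (F i))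
      = ∫ x : ι → ℝ, x j ∂((gam (Fin m)).map (lin (fun a => (Real.sqrt m)⁻¹ • F i a))) := by
    intro i j
    rw [integral_map (mF i).aemeasurable (continuous_apply j).aestronglyMeasurable,
      integral_map (mG i).aemeasurable (continuous_apply j).aestronglyMeasurable,
      lid_lin_mean, lid_integral]
    have : ∑ a, F i a j = 0 := by
      have := congrFun (hF i) j
      simpa [Finset.sum_apply] using this
    rw [this, mul_zero]
  have hcov : ∀ i j k, ∫ x : ι → ℝ, x j * x k ∂((lidU m).map (F i))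
      = ∫ x : ι → ℝ, x j * x k
        ∂((gam (Fin m)).map (lin (fun a => (Real.sqrt m)⁻¹ • F i a))) := by
    intro i j k
    have cjk : Continuous (fun x : ι → ℝ => x j * x k) :=
      (continuous_apply j).mul (continuous_apply k)
    rw [integral_map (mF i).aemeasurable cjk.aestronglyMeasurable,
      integral_map (mG i).aemeasurable cjk.aestronglyMeasurable,
      lid_lin_cov, lid_integral, Finset.mul_sum]
    refine Finset.sum_congr rfl fun a _ => ?_
    simp only [Pi.smul_apply, smul_eq_mul]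
    have : (Real.sqrt m)⁻¹ * (Real.sqrt m)⁻¹ = (m : ℝ)⁻¹ := by
      rw [← mul_inv, Real.mul_self_sqrt hmR.le]
    calc (m : ℝ)⁻¹ * (F i a j * F i a k)
        = ((Real.sqrt m)⁻¹ * (Real.sqrt m)⁻¹) * (F i a j * F i a k) := by rw [this]
      _ = _ := by ring
  have key := lindeberg n (fun i => (lidU m).map (F i))
    (fun i => (gam (Fin m)).map (lin (fun a => (Real.sqrt m)⁻¹ • F i a))) I1 I2 hmean hcov c
  have clse : Continuous (fun x : Fin n → ι → ℝ => lse (c + ∑ i, x i)) :=
    continuous_lse.comp (by fun_prop)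
  -- identify the first integral
  have E1 : ∫ x : Fin n → ι → ℝ, lse (c + ∑ i, x i) ∂(Measure.pi fun i => (lidU m).map (F i))
      = av (fun ω : Fin n → Fin m => lse (c + ∑ i, F i (ω i))) := by
    rw [← Measure.pi_map_pi (fun i => (mF i).aemeasurable), integral_map _
      clse.aestronglyMeasurable, lid_pi_integral hm]
    exact (measurable_of_finite _).aemeasurable
  have E2 : ∫ x : Fin n → ι → ℝ, lse (c + ∑ i, x i)
        ∂(Measure.pi fun i => (gam (Fin m)).map (lin (fun a => (Real.sqrt m)⁻¹ • F i a)))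
      = ∫ g, lse (c + lin (fun p : Fin n × Fin m => (Real.sqrt m)⁻¹ • F p.1 p.2) g)
            ∂(gam (Fin n × Fin m)) := by
    rw [← Measure.pi_map_pi (fun i => (mG i).aemeasurable), ← lid_curry n m, Measure.map_map,
      integral_map _ clse.aestronglyMeasurable]
    · refine integral_congr_ae (Filter.Eventually.of_forall fun g => ?_)
      simp only [Function.comp_apply]
      congr 2
      unfold lin
      rw [Fintype.sum_prod_type]
      rfl
    · exact (Measurable.comp (measurable_pi_lambda _ fun i => (mG i).comp (measurable_pi_apply i))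
        (MeasurableEquiv.measurable _)).aemeasurable
    · exact measurable_pi_lambda _ fun i => (mG i).comp (measurable_pi_apply i)
    · exact MeasurableEquiv.measurable _
  rw [E1, E2] at key
  refine le_trans key ?_
  rw [mul_assoc 2, Finset.mul_sum (s := Finset.univ) (f := fun i => ∑ a, ‖F i a‖ ^ 3)]
  refine mul_le_mul_of_nonneg_left (Finset.sum_le_sum fun i _ => ?_) (by norm_num)
  have B1 : ∫ x : ι → ℝ, ‖x‖ ^ 3 ∂((lidU m).map (F i)) ≤ ∑ a, ‖F i a‖ ^ 3 := by
    rw [integral_map (mF i).aemeasurable (asm3 _), lid_integral]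
    have h1 : (m : ℝ)⁻¹ ≤ 1 := inv_le_one_of_one_le₀ (by exact_mod_cast hm)
    have h2 : 0 ≤ ∑ a, ‖F i a‖ ^ 3 := Finset.sum_nonneg fun a _ => pow_nonneg (norm_nonneg _) _
    calc (m : ℝ)⁻¹ * ∑ a, ‖F i a‖ ^ 3 ≤ 1 * ∑ a, ‖F i a‖ ^ 3 :=
          mul_le_mul_of_nonneg_right h1 h2
      _ = _ := one_mul _
  have B2 : ∫ x : ι → ℝ, ‖x‖ ^ 3
        ∂((gam (Fin m)).map (lin (fun a => (Real.sqrt m)⁻¹ • F i a)))
      ≤ (m : ℝ) ^ 2 * (∑ a, ‖F i a‖ ^ 3) * ∫ g, ‖g‖ ^ 3 ∂(gam (Fin m)) := by
    rw [integral_map (mG i).aemeasurable (asm3 _), ← integral_const_mul]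
    refine integral_mono ?_ ((lid_int_norm3 m).const_mul _) fun g => lid_lin_norm3 hm (F i) g
    have := I2 i
    rwa [integrable_map_measure (asm3 _) (mG i).aemeasurable] at this
  calc _ ≤ ∑ a, ‖F i a‖ ^ 3 + (m : ℝ) ^ 2 * (∑ a, ‖F i a‖ ^ 3) * ∫ g, ‖g‖ ^ 3 ∂(gam (Fin m)) :=
        add_le_add B1 B2
    _ = _ := by ring

end Pool.H65.PS
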