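import Pool.Agent.Helper65.PS.Base

set_option autoImplicit false

open MeasureTheory ProbabilityTheory

namespace Pool.H65.PS

section linaux

variable {ι : Type} [Fintype ι]

theorem lin_norm_le (x : ι → ℝ) : ‖x‖ ≤ 1 + ‖x‖ ^ 3 := by
  have h0 := norm_nonneg x
  rcases le_total ‖x‖ 1 with h | h
  · have := pow_nonneg h0 3
    linarith
  · nlinarith [mul_nonneg h0 (sub_nonneg.2 h), mul_nonneg (mul_nonneg h0 h0) (sub_nonneg.2 h)]

theorem lin_sq_le (x : ι → ℝ) : ‖x‖ ^ 2 ≤ 1 + ‖x‖ ^ 3 := by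
  have h0 := norm_nonneg x
  rcases le_total ‖x‖ 1 with h | h
  · have := pow_nonneg h0 3
    nlinarith
  · nlinarith [mul_nonneg h0 (sub_nonneg.2 h), mul_nonneg (mul_nonneg h0 h0) (sub_nonneg.2 h)]

theorem lin_int_norm {μ : Measure (ι → ℝ)} [IsProbabilityMeasure μ]
    (h : Integrable (fun x => ‖x‖ ^ 3) μ) : Integrable (fun x => ‖x‖) μ := by
  refine Integrable.mono' ((integrable_const (1 : ℝ)).add h)
    continuous_norm.aestronglyMeasurable (Filter.Eventually.of_forall fun x => ?_)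
  rw [Real.norm_eq_abs, abs_of_nonneg (norm_nonneg _)]
  exact lin_norm_le x

theorem lin_int_coord {μ : Measure (ι → ℝ)} [IsProbabilityMeasure μ]
    (h : Integrable (fun x => ‖x‖ ^ 3) μ) (j : ι) : Integrable (fun x => x j) μ := by
  refine Integrable.mono' (lin_int_norm h)
    (continuous_apply j).aestronglyMeasurable (Filter.Eventually.of_forall fun x => ?_)
  exact norm_le_pi_norm x j

theorem lin_int_coord2 {μ : Measure (ι → ℝ)} [IsProbabilityMeasure μ]
    (h : Integrable (fun x => ‖x‖ ^ 3) μ) (j k : ι) : Integrable (fun x => x j * x k) μ := by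
  refine Integrable.mono' ((integrable_const (1 : ℝ)).add h)
    ((continuous_apply j).mul (continuous_apply k)).aestronglyMeasurable
    (Filter.Eventually.of_forall fun x => ?_)
  rw [norm_mul]
  refine le_trans ?_ (lin_sq_le x)
  rw [sq]
  exact mul_le_mul (norm_le_pi_norm x j) (norm_le_pi_norm x k) (norm_nonneg _) (norm_nonneg _)

theorem lin_k2_expand [Nonempty ι] (y x : ι → ℝ) :
    k2 y x x = ∑ j, sm y j * (x j * x j) - ∑ j, ∑ k, (sm y j * sm y k) * (x j * x k) := by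
  have h1 : k2 y x x = ∑ j, sm y j * (x j * x j) - (mn y x) ^ 2 := by
    unfold k2
    have : ∀ j, sm y j * ((x j - mn y x) * (x j - mn y x))
        = sm y j * (x j * x j) - 2 * mn y x * (sm y j * x j) + (mn y x) ^ 2 * sm y j := by
      intro j; ring
    rw [Finset.sum_congr rfl fun j _ => this j, Finset.sum_add_distrib, Finset.sum_sub_distrib,
      ← Finset.mul_sum, ← Finset.mul_sum, sm_sum]
    have : ∑ j, sm y j * x j = mn y x := rfl
    rw [this]
    ring
  rw [h1]
  congr 1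
  unfold mn
  rw [sq, Finset.sum_mul_sum]
  refine Finset.sum_congr rfl fun j _ => Finset.sum_congr rfl fun k _ => ?_
  ring

theorem lin_int_mn {μ : Measure (ι → ℝ)} [IsProbabilityMeasure μ]
    (h : Integrable (fun x => ‖x‖ ^ 3) μ) (y : ι → ℝ) : Integrable (fun x => mn y x) μ := by
  unfold mn
  exact integrable_finsetSum _ fun j _ => (lin_int_coord h j).const_mul _

theorem lin_int_k2 [Nonempty ι] {μ : Measure (ι → ℝ)} [IsProbabilityMeasure μ]
    (h : Integrable (fun x => ‖x‖ ^ 3) μ) (y : ι → ℝ) : Integrable (fun x => k2 y x x) μ := by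
  have : (fun x => k2 y x x) = fun x => ∑ j, sm y j * (x j * x j)
      - ∑ j, ∑ k, (sm y j * sm y k) * (x j * x k) := by
    funext x; exact lin_k2_expand y x
  rw [this]
  refine Integrable.sub ?_ ?_
  · exact integrable_finsetSum _ fun j _ => (lin_int_coord2 h j j).const_mul _
  · exact integrable_finsetSum _ fun j _ => integrable_finsetSum _ fun k _ =>
      (lin_int_coord2 h j k).const_mul _

theorem lin_integral_mn {μ : Measure (ι → ℝ)} [IsProbabilityMeasure μ]
    (h : Integrable (fun x => ‖x‖ ^ 3) μ) (y : ι → ℝ) :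
    ∫ x, mn y x ∂μ = ∑ j, sm y j * ∫ x, x j ∂μ := by
  unfold mn
  rw [integral_finsetSum _ fun j _ => (lin_int_coord h j).const_mul _]
  exact Finset.sum_congr rfl fun j _ => integral_const_mul _ _

theorem lin_integral_k2 [Nonempty ι] {μ : Measure (ι → ℝ)} [IsProbabilityMeasure μ]
    (h : Integrable (fun x => ‖x‖ ^ 3) μ) (y : ι → ℝ) :
    ∫ x, k2 y x x ∂μ = ∑ j, sm y j * ∫ x, x j * x j ∂μ
      - ∑ j, ∑ k, (sm y j * sm y k) * ∫ x, x j * x k ∂μ := by
  have : (fun x => k2 y x x) = fun x => ∑ j, sm y j * (x j * x j)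
      - ∑ j, ∑ k, (sm y j * sm y k) * (x j * x k) := by
    funext x; exact lin_k2_expand y x
  rw [this]
  rw [integral_sub]
  · rw [integral_finsetSum _ fun j _ => (lin_int_coord2 h j j).const_mul _]
    rw [integral_finsetSum _ fun j _ => integrable_finsetSum _ fun k _ =>
      (lin_int_coord2 h j k).const_mul _]
    congr 1
    · exact Finset.sum_congr rfl fun j _ => integral_const_mul _ _
    · refine Finset.sum_congr rfl fun j _ => ?_
      rw [integral_finsetSum _ fun k _ => (lin_int_coord2 h j k).const_mul _]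
      exact Finset.sum_congr rfl fun k _ => integral_const_mul _ _
  · exact integrable_finsetSum _ fun j _ => (lin_int_coord2 h j j).const_mul _
  · exact integrable_finsetSum _ fun j _ => integrable_finsetSum _ fun k _ =>
      (lin_int_coord2 h j k).const_mul _

theorem lin_int_lse [Nonempty ι] {μ : Measure (ι → ℝ)} [IsProbabilityMeasure μ]
    (h : Integrable (fun x => ‖x‖ ^ 3) μ) (y : ι → ℝ) :
    Integrable (fun x => lse (y + x)) μ := by
  refine Integrable.mono' ((integrable_const |lse y|).add (lin_int_norm h)) ?_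
    (Filter.Eventually.of_forall fun x => ?_)
  · exact (continuous_lse.comp (continuous_const.add continuous_id)).aestronglyMeasurable
  · have h1 := abs_lse_sub_le (y + x) y
    rw [add_sub_cancel_left] at h1
    rw [Real.norm_eq_abs]
    have h2 : |lse (y + x)| ≤ |lse y| + |lse (y + x) - lse y| := by
      have := abs_add_le (lse y) (lse (y + x) - lse y)
      rwa [add_sub_cancel] at this
    simp only [Pi.add_apply]
    linarith

/-- the one-step bound for one measure -/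
theorem lin_taylor_int [Nonempty ι] {μ : Measure (ι → ℝ)} [IsProbabilityMeasure μ]
    (h : Integrable (fun x => ‖x‖ ^ 3) μ) (y : ι → ℝ) :
    |∫ x, lse (y + x) ∂μ - lse y - ∫ x, mn y x ∂μ - (∫ x, k2 y x x ∂μ) / 2|
      ≤ 2 * ∫ x, ‖x‖ ^ 3 ∂μ := by
  have h1 : ∫ x, (lse (y + x) - lse y - mn y x - k2 y x x / 2) ∂μ
      = ∫ x, lse (y + x) ∂μ - lse y - ∫ x, mn y x ∂μ - (∫ x, k2 y x x ∂μ) / 2 := by
    rw [integral_sub, integral_sub, integral_sub, integral_const, integral_div]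
    · simp
    · exact lin_int_lse h y
    · exact integrable_const _
    · exact (lin_int_lse h y).sub (integrable_const _)
    · exact lin_int_mn h y
    · exact ((lin_int_lse h y).sub (integrable_const _)).sub (lin_int_mn h y)
    · exact (lin_int_k2 h y).div_const 2
  rw [← h1, ← integral_const_mul]
  refine le_trans (abs_integral_le_integral_abs) (integral_mono ?_ (h.const_mul 2) ?_)
  · exact ((((lin_int_lse h y).sub (integrable_const _)).sub (lin_int_mn h y)).sub
      ((lin_int_k2 h y).div_const 2)).abs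
  · intro x
    exact lse_taylor y x

theorem lin_swap [Nonempty ι] (μ μ' : Measure (ι → ℝ)) [IsProbabilityMeasure μ]
    [IsProbabilityMeasure μ'] (h : Integrable (fun x => ‖x‖ ^ 3) μ)
    (h' : Integrable (fun x => ‖x‖ ^ 3) μ')
    (hmean : ∀ j, ∫ x, x j ∂μ = ∫ x, x j ∂μ')
    (hcov : ∀ j k, ∫ x, x j * x k ∂μ = ∫ x, x j * x k ∂μ') (y : ι → ℝ) :
    |∫ x, lse (y + x) ∂μ - ∫ x, lse (y + x) ∂μ'|
      ≤ 2 * (∫ x, ‖x‖ ^ 3 ∂μ + ∫ x, ‖x‖ ^ 3 ∂μ') := by
  have h1 := lin_taylor_int h y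
  have h2 := lin_taylor_int h' y
  have e1 : ∫ x, mn y x ∂μ = ∫ x, mn y x ∂μ' := by
    rw [lin_integral_mn h, lin_integral_mn h']
    exact Finset.sum_congr rfl fun j _ => by rw [hmean j]
  have e2 : ∫ x, k2 y x x ∂μ = ∫ x, k2 y x x ∂μ' := by
    rw [lin_integral_k2 h, lin_integral_k2 h']
    congr 1
    · exact Finset.sum_congr rfl fun j _ => by rw [hcov j j]
    · exact Finset.sum_congr rfl fun j _ => Finset.sum_congr rfl fun k _ => by rw [hcov j k]
  rw [e1, e2] at h1
  rw [abs_le] at h1 h2 ⊢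
  constructor <;> linarith [h1.1, h1.2, h2.1, h2.2]

theorem lin_int_sum_norm {n : ℕ} (ν : Fin n → Measure (ι → ℝ)) [∀ i, IsProbabilityMeasure (ν i)]
    (h3 : ∀ i, Integrable (fun x => ‖x‖ ^ 3) (ν i)) :
    Integrable (fun x : Fin n → ι → ℝ => ∑ i, ‖x i‖) (Measure.pi ν) := by
  refine integrable_finsetSum _ fun i _ => ?_
  have := (measurePreserving_eval ν i).integrable_comp_of_integrable (lin_int_norm (h3 i))
  exact this

theorem lin_int_prod [Nonempty ι] {n : ℕ} (μ : Measure (ι → ℝ)) [IsProbabilityMeasure μ]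
    (h : Integrable (fun x => ‖x‖ ^ 3) μ)
    (ν : Fin n → Measure (ι → ℝ)) [∀ i, IsProbabilityMeasure (ν i)]
    (h3 : ∀ i, Integrable (fun x => ‖x‖ ^ 3) (ν i)) (c : ι → ℝ) :
    Integrable (fun p : (ι → ℝ) × (Fin n → ι → ℝ) => lse (c + p.1 + ∑ i, p.2 i))
      (μ.prod (Measure.pi ν)) := by
  have i1 : Integrable (fun p : (ι → ℝ) × (Fin n → ι → ℝ) => ‖p.1‖) (μ.prod (Measure.pi ν)) :=
    (lin_int_norm h).comp_fst _
  have i2 : Integrable (fun p : (ι → ℝ) × (Fin n → ι → ℝ) => ∑ i, ‖p.2 i‖)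
      (μ.prod (Measure.pi ν)) := (lin_int_sum_norm ν h3).comp_snd _
  refine Integrable.mono' (((integrable_const |lse c|).add i1).add i2) ?_
    (Filter.Eventually.of_forall fun p => ?_)
  · have : Continuous (fun p : (ι → ℝ) × (Fin n → ι → ℝ) => c + p.1 + ∑ i, p.2 i) := by
      fun_prop
    exact (continuous_lse.comp this).aestronglyMeasurable
  · have h1 := abs_lse_sub_le (c + p.1 + ∑ i, p.2 i) c
    have h0 : c + p.1 + ∑ i, p.2 i - c = p.1 + ∑ i, p.2 i := by abel
    rw [h0] at h1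
    have h3 : ‖p.1 + ∑ i, p.2 i‖ ≤ ‖p.1‖ + ∑ i, ‖p.2 i‖ :=
      le_trans (norm_add_le _ _) (add_le_add le_rfl (norm_sum_le _ _))
    rw [Real.norm_eq_abs]
    have h2 : |lse (c + p.1 + ∑ i, p.2 i)| ≤ |lse c| + |lse (c + p.1 + ∑ i, p.2 i) - lse c| := by
      have := abs_add_le (lse c) (lse (c + p.1 + ∑ i, p.2 i) - lse c)
      rwa [add_sub_cancel] at this
    simp only [Pi.add_apply]
    linarith

theorem lin_split [Nonempty ι] {n : ℕ} (ν : Fin (n + 1) → Measure (ι → ℝ))
    [∀ i, IsProbabilityMeasure (ν i)] (c : ι → ℝ) :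
    ∫ x, lse (c + ∑ i, x i) ∂(Measure.pi ν)
      = ∫ p, lse (c + p.1 + ∑ i, p.2 i) ∂((ν 0).prod (Measure.pi fun i : Fin n => ν i.succ)) := by
  have h := measurePreserving_piFinSuccAbove (fun i : Fin (n + 1) => ν i) 0
  have e : (fun i : Fin n => ν ((0 : Fin (n + 1)).succAbove i)) = fun i : Fin n => ν i.succ := by
    funext i; rw [Fin.zero_succAbove]
  have hh := h.integral_comp' (g := fun p : (ι → ℝ) × (Fin n → ι → ℝ) =>
    lse (c + p.1 + ∑ i, p.2 i))
  simp only [Fin.zero_succAbove] at hh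
  rw [← hh]
  refine integral_congr_ae (Filter.Eventually.of_forall fun x => ?_)
  simp only [MeasurableEquiv.piFinSuccAbove_apply, Fin.insertNthEquiv_zero,
    Fin.consEquiv_symm_apply]
  rw [Fin.sum_univ_succ, add_assoc]
  rfl

end linaux

theorem lindeberg {ι : Type} [Fintype ι] [Nonempty ι] (n : ℕ) (ν ν' : Fin n → Measure (ι → ℝ))
    [∀ i, IsProbabilityMeasure (ν i)] [∀ i, IsProbabilityMeasure (ν' i)]
    (h3 : ∀ i, Integrable (fun x => ‖x‖ ^ 3) (ν i)) (h3' : ∀ i, Integrable (fun x => ‖x‖ ^ 3) (ν' i))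
    (hmean : ∀ i j, ∫ x, x j ∂(ν i) = ∫ x, x j ∂(ν' i))
    (hcov : ∀ i j k, ∫ x, x j * x k ∂(ν i) = ∫ x, x j * x k ∂(ν' i)) (c : ι → ℝ) :
    |∫ x, lse (c + ∑ i, x i) ∂(Measure.pi ν) - ∫ x, lse (c + ∑ i, x i) ∂(Measure.pi ν')|
      ≤ 2 * ∑ i, (∫ x, ‖x‖ ^ 3 ∂(ν i) + ∫ x, ‖x‖ ^ 3 ∂(ν' i)) := by
  induction n generalizing c with
  | zero => simp
  | succ n ih =>
    rw [lin_split ν c, lin_split ν' c]
    -- the tails
    have I1 := lin_int_prod (ν 0) (h3 0) (fun i : Fin n => ν i.succ) (fun i => h3 i.succ) c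
    have I2 := lin_int_prod (ν 0) (h3 0) (fun i : Fin n => ν' i.succ) (fun i => h3' i.succ) c
    have I3 := lin_int_prod (ν' 0) (h3' 0) (fun i : Fin n => ν' i.succ) (fun i => h3' i.succ) c
    have A : |∫ p, lse (c + p.1 + ∑ i, p.2 i)
          ∂((ν 0).prod (Measure.pi fun i : Fin n => ν i.succ))
        - ∫ p, lse (c + p.1 + ∑ i, p.2 i)
          ∂((ν 0).prod (Measure.pi fun i : Fin n => ν' i.succ))|
        ≤ 2 * ∑ i : Fin n, (∫ x, ‖x‖ ^ 3 ∂(ν i.succ) + ∫ x, ‖x‖ ^ 3 ∂(ν' i.succ)) := by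
      rw [integral_prod _ I1, integral_prod _ I2, ← integral_sub I1.integral_prod_left
        I2.integral_prod_left]
      refine le_trans abs_integral_le_integral_abs ?_
      have : 2 * ∑ i : Fin n, (∫ x, ‖x‖ ^ 3 ∂(ν i.succ) + ∫ x, ‖x‖ ^ 3 ∂(ν' i.succ))
          = ∫ _x0 : ι → ℝ, 2 * ∑ i : Fin n, (∫ x, ‖x‖ ^ 3 ∂(ν i.succ) + ∫ x, ‖x‖ ^ 3 ∂(ν' i.succ))
            ∂(ν 0) := by
        rw [integral_const]; simp
      rw [this]
      refine integral_mono (I1.integral_prod_left.sub I2.integral_prod_left).abs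
        (integrable_const _) ?_
      intro x0
      exact ih (fun i : Fin n => ν i.succ) (fun i : Fin n => ν' i.succ) (fun i => h3 i.succ)
        (fun i => h3' i.succ) (fun i => hmean i.succ) (fun i => hcov i.succ) (c + x0)
    have B : |∫ p, lse (c + p.1 + ∑ i, p.2 i)
          ∂((ν 0).prod (Measure.pi fun i : Fin n => ν' i.succ))
        - ∫ p, lse (c + p.1 + ∑ i, p.2 i)
          ∂((ν' 0).prod (Measure.pi fun i : Fin n => ν' i.succ))|
        ≤ 2 * (∫ x, ‖x‖ ^ 3 ∂(ν 0) + ∫ x, ‖x‖ ^ 3 ∂(ν' 0)) := by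
      rw [integral_prod_symm _ I2, integral_prod_symm _ I3, ← integral_sub I2.integral_prod_right
        I3.integral_prod_right]
      refine le_trans abs_integral_le_integral_abs ?_
      have : 2 * (∫ x, ‖x‖ ^ 3 ∂(ν 0) + ∫ x, ‖x‖ ^ 3 ∂(ν' 0))
          = ∫ _y : Fin n → ι → ℝ, 2 * (∫ x, ‖x‖ ^ 3 ∂(ν 0) + ∫ x, ‖x‖ ^ 3 ∂(ν' 0))
            ∂(Measure.pi fun i : Fin n => ν' i.succ) := by
        rw [integral_const]; simp
      rw [this]
      refine integral_mono (I2.integral_prod_right.sub I3.integral_prod_right).abs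
        (integrable_const _) ?_
      intro y
      have key := lin_swap (ν 0) (ν' 0) (h3 0) (h3' 0) (hmean 0) (hcov 0) (c + ∑ i, y i)
      have e : ∀ x0 : ι → ℝ, c + x0 + ∑ i, y i = c + ∑ i, y i + x0 := fun x0 => by abel
      simp only [e]
      exact key
    rw [Fin.sum_univ_succ]
    have T := abs_sub_le (∫ p, lse (c + p.1 + ∑ i, p.2 i)
          ∂((ν 0).prod (Measure.pi fun i : Fin n => ν i.succ)))
        (∫ p, lse (c + p.1 + ∑ i, p.2 i)
          ∂((ν 0).prod (Measure.pi fun i : Fin n => ν' i.succ)))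
        (∫ p, lse (c + p.1 + ∑ i, p.2 i)
          ∂((ν' 0).prod (Measure.pi fun i : Fin n => ν' i.succ)))
    linarith

end Pool.H65.PS
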