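import Pool.Agent.Helper65.PS.Sgl

set_option autoImplicit false

open MeasureTheory ProbabilityTheory

namespace Pool.H65.PS

section loc

variable {ι κ : Type} [Fintype ι] [Fintype κ]

/-- `∑ (a i * g i) • W i` -/
def locL (W : κ → ι → ℝ) (a g : κ → ℝ) : ι → ℝ := ∑ i, (a i * g i) • W i

omit [Fintype ι] in
theorem locL_add (W : κ → ι → ℝ) (a b g : κ → ℝ) :
    locL W (a + b) g = locL W a g + locL W b g := by
  simp only [locL, Pi.add_apply, add_mul, add_smul, Finset.sum_add_distrib]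

omit [Fintype ι] in
theorem locL_smul (W : κ → ι → ℝ) (r : ℝ) (a g : κ → ℝ) :
    locL W (r • a) g = r • locL W a g := by
  simp only [locL, Pi.smul_apply, smul_eq_mul, Finset.smul_sum, smul_smul, mul_assoc]

omit [Fintype ι] in
theorem locL_eq_lin (W : κ → ι → ℝ) (a g : κ → ℝ) :
    locL W a g = lin (fun i => a i • W i) g := by
  simp only [locL, lin, smul_smul]
  exact Finset.sum_congr rfl fun i _ => by rw [mul_comm]

theorem norm_locL_le (W : κ → ι → ℝ) (a g : κ → ℝ) :
    ‖locL W a g‖ ≤ (∑ i, |a i| * ‖W i‖) * ‖g‖ := by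
  rw [locL, Finset.sum_mul]
  refine (norm_sum_le _ _).trans (Finset.sum_le_sum fun i _ => ?_)
  rw [norm_smul, norm_mul, Real.norm_eq_abs]
  have h1 : ‖g i‖ ≤ ‖g‖ := norm_le_pi_norm g i
  have h2 : 0 ≤ |a i| * ‖W i‖ := by positivity
  nlinarith

omit [Fintype ι] in
theorem continuous_locL (W : κ → ι → ℝ) (a : κ → ℝ) : Continuous fun g => locL W a g := by
  unfold locL
  refine continuous_finsetSum _ fun i _ => ?_
  exact (continuous_const.mul (continuous_apply i)).smul continuous_const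

omit [Fintype ι] in
theorem locL_update [DecidableEq κ] (W : κ → ι → ℝ) (a g : κ → ℝ) (i : κ) (s : ℝ) :
    locL W a (Function.update g i s) =
      locL W a (Function.update g i 0) + s • (a i • W i) := by
  simp only [locL]
  rw [← Finset.add_sum_erase _ _ (Finset.mem_univ i),
    ← Finset.add_sum_erase (a := i) (f := fun j => (a j * Function.update g i 0 j) • W j)
      _ (Finset.mem_univ i)]
  have h1 : ∀ t : ℝ, ∑ j ∈ Finset.univ.erase i, (a j * Function.update g i t j) • W j =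
      ∑ j ∈ Finset.univ.erase i, (a j * g j) • W j := by
    intro t
    refine Finset.sum_congr rfl fun j hj => ?_
    rw [Function.update_of_ne (Finset.ne_of_mem_erase hj)]
  rw [h1, h1]
  simp only [Function.update_self, mul_zero, zero_smul, zero_add, smul_smul]
  rw [add_comm, mul_comm]

/-- expansion of the square root -/
theorem loc_sqrt (s lam : ℝ) (hs : 0 < s ∨ (s = 0 ∧ lam = 0)) : ∃ C : ℝ, 0 ≤ C ∧
    ∀ᶠ h in nhds (0 : ℝ), |√(s + h * lam) - (√s + h * (lam / (2 * √s))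
      - h ^ 2 * (lam ^ 2 / (8 * s * √s)))| ≤ C * |h| ^ 3 := by
  rcases hs with hs | ⟨rfl, rfl⟩
  · set σ := √s with hσ
    have hσ0 : 0 < σ := Real.sqrt_pos.2 hs
    have hσs : σ ^ 2 = s := Real.sq_sqrt hs.le
    set μ := lam / (2 * σ) with hμ
    set ν := lam ^ 2 / (8 * s * σ) with hν
    have hν0 : 0 ≤ ν := by positivity
    refine ⟨(2 * |μ * ν| + ν ^ 2) * (2 / σ), by positivity, ?_⟩
    have e1 : ∀ᶠ h in nhds (0 : ℝ), |h| < 1 :=
      (continuous_abs.tendsto (0 : ℝ)).eventually_lt_const (by simp)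
    have e2 : ∀ᶠ h in nhds (0 : ℝ), 0 < s + h * lam := by
      have hc : Continuous fun h : ℝ => s + h * lam := by fun_prop
      exact (hc.tendsto (0 : ℝ)).eventually_const_lt (by simpa using hs)
    have e3 : ∀ᶠ h in nhds (0 : ℝ), σ / 2 < σ + h * μ - h ^ 2 * ν := by
      have hc : Continuous fun h : ℝ => σ + h * μ - h ^ 2 * ν := by fun_prop
      exact (hc.tendsto (0 : ℝ)).eventually_const_lt (by simp; linarith)
    filter_upwards [e1, e2, e3] with h h1 h2 h3
    set y := σ + h * μ - h ^ 2 * ν with hy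
    set A := s + h * lam with hA
    have hA2 : √A ^ 2 = A := Real.sq_sqrt h2.le
    have hA0 : 0 ≤ √A := Real.sqrt_nonneg _
    have hy2 : A - y ^ 2 = 2 * h ^ 3 * (μ * ν) - h ^ 4 * ν ^ 2 := by
      have k1 : 2 * σ * μ = lam := by rw [hμ]; field_simp
      have k2 : μ ^ 2 = 2 * σ * ν := by
        rw [hμ, hν, ← hσs]
        field_simp
        ring
      rw [hA, hy, ← hσs]
      have : (σ + h * μ - h ^ 2 * ν) ^ 2 = σ ^ 2 + h * (2 * σ * μ) + h ^ 2 * (μ ^ 2 - 2 * σ * ν)
        - 2 * h ^ 3 * (μ * ν) + h ^ 4 * ν ^ 2 := by ring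
      rw [this, k1, k2]
      ring
    have hfac : (√A - y) * (√A + y) = A - y ^ 2 := by
      have : (√A - y) * (√A + y) = √A ^ 2 - y ^ 2 := by ring
      rw [this, hA2]
    have hb : |A - y ^ 2| ≤ (2 * |μ * ν| + ν ^ 2) * |h| ^ 3 := by
      rw [hy2]
      refine (abs_sub _ _).trans ?_
      have t1 : |2 * h ^ 3 * (μ * ν)| = 2 * |h| ^ 3 * |μ * ν| := by
        rw [abs_mul, abs_mul, abs_pow, abs_two]
      have t2 : |h ^ 4 * ν ^ 2| ≤ |h| ^ 3 * ν ^ 2 := by
        rw [abs_mul, abs_pow, abs_of_nonneg (sq_nonneg ν)]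
        refine mul_le_mul_of_nonneg_right ?_ (sq_nonneg _)
        exact pow_le_pow_of_le_one (abs_nonneg _) h1.le (by norm_num)
      rw [t1]
      linarith
    have hpos : σ / 2 ≤ √A + y := by linarith
    have h4 : |√A - y| * (σ / 2) ≤ |A - y ^ 2| := by
      rw [← hfac, abs_mul]
      refine mul_le_mul_of_nonneg_left ?_ (abs_nonneg _)
      exact hpos.trans (le_abs_self _)
    have h5 : |√A - y| ≤ |A - y ^ 2| * (2 / σ) := by
      rw [← div_le_iff₀ (by positivity)]
      refine le_trans (le_of_eq ?_) h4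
      field_simp
    refine h5.trans ?_
    have h6 : 0 ≤ 2 / σ := by positivity
    calc |A - y ^ 2| * (2 / σ) ≤ ((2 * |μ * ν| + ν ^ 2) * |h| ^ 3) * (2 / σ) :=
          mul_le_mul_of_nonneg_right hb h6
      _ = _ := by ring
  · refine ⟨0, le_rfl, Filter.Eventually.of_forall fun h => ?_⟩
    simp

variable [Nonempty ι]

theorem loc_mn_sum (x : ι → ℝ) (f : κ → ι → ℝ) : mn x (∑ i, f i) = ∑ i, mn x (f i) := by
  simp only [mn, Finset.sum_apply, Finset.mul_sum]
  exact Finset.sum_comm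

theorem loc_mn_neg (x v : ι → ℝ) : mn x (-v) = - mn x v := by
  have := mn_smul (-1) x v
  rw [neg_one_smul, neg_one_mul] at this
  exact this

theorem loc_k2_sq (x a b : ι → ℝ) :
    k2 x (a + b) (a + b) = k2 x a a + 2 * k2 x a b + k2 x b b := by
  rw [k2_add_left, k2_comm x a (a + b), k2_comm x b (a + b), k2_add_left, k2_add_left,
    k2_comm x b a]
  ring

/-- pointwise second difference bound -/
theorem loc_pointwise (x u v rp rm : ι → ℝ) (h B : ℝ) (h0 : 0 < h) (h1 : h ≤ 1)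
    (hu : ‖u‖ ≤ B) (hv : ‖v‖ ≤ B) (hp : ‖rp‖ ≤ h ^ 3 * B) (hm : ‖rm‖ ≤ h ^ 3 * B) (hB : 1 ≤ B) :
    lse (x + (h • u + ((-h ^ 2) • v + rp))) + lse (x + ((-h) • u + ((-h ^ 2) • v + rm)))
      - 2 * lse x ≤ h ^ 2 * (k2 x u u - 2 * mn x v) + 142 * h ^ 3 * B ^ 3 := by
  have hB0 : 0 ≤ B := by linarith
  have key : ∀ (ε : ℝ) (r : ι → ℝ), (ε = h ∨ ε = -h) → ‖r‖ ≤ h ^ 3 * B →
      lse (x + (ε • u + ((-h ^ 2) • v + r))) - lse x ≤ ε * mn x u - h ^ 2 * mn x v +
        h ^ 2 * k2 x u u / 2 + 71 * h ^ 3 * B ^ 3 := by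
    intro ε r hε hr
    have hεa : |ε| = h := by
      rcases hε with rfl | rfl
      · exact abs_of_pos h0
      · rw [abs_neg]; exact abs_of_pos h0
    have hε2 : ε ^ 2 = h ^ 2 := by rw [← sq_abs, hεa]
    set e : ι → ℝ := (-h ^ 2) • v + r with he
    have h3le : h ^ 3 ≤ h ^ 2 := pow_le_pow_of_le_one h0.le h1 (by norm_num)
    have h4le : h ^ 4 ≤ h ^ 3 := pow_le_pow_of_le_one h0.le h1 (by norm_num)
    have h2le : h ^ 2 ≤ h := by nlinarith
    have hen : ‖e‖ ≤ 2 * h ^ 2 * B := by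
      refine (norm_add_le _ _).trans ?_
      rw [norm_smul, Real.norm_eq_abs, abs_neg, abs_of_nonneg (sq_nonneg h)]
      have := mul_le_mul_of_nonneg_left hv (sq_nonneg h)
      have := mul_le_mul_of_nonneg_right h3le hB0
      linarith
    have hdn : ‖ε • u + e‖ ≤ 3 * h * B := by
      refine (norm_add_le _ _).trans ?_
      rw [norm_smul, Real.norm_eq_abs, hεa]
      have := mul_le_mul_of_nonneg_left hu h0.le
      have := mul_le_mul_of_nonneg_right h2le hB0
      linarith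
    have ht := (abs_le.1 (lse_taylor x (ε • u + e))).2
    have hmn : mn x (ε • u + e) ≤ ε * mn x u - h ^ 2 * mn x v + h ^ 3 * B := by
      rw [mn_add, mn_smul, he, mn_add, mn_smul]
      have := (abs_le.1 ((abs_mn_le x r).trans hr)).2
      linarith
    have hk : k2 x (ε • u + e) (ε • u + e) ≤ h ^ 2 * k2 x u u + 32 * h ^ 3 * B ^ 2 := by
      have e1 : k2 x (ε • u + e) (ε • u + e) =
          ε ^ 2 * k2 x u u + 2 * (ε * k2 x u e) + k2 x e e := by
        rw [loc_k2_sq, k2_smul_left, k2_smul_left, k2_comm x u (ε • u), k2_smul_left]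
        ring
      rw [e1, hε2]
      have b1 : ε * k2 x u e ≤ h * (4 * B * (2 * h ^ 2 * B)) := by
        refine (le_abs_self _).trans ?_
        rw [abs_mul, hεa]
        refine mul_le_mul_of_nonneg_left ((abs_k2_le x u e).trans ?_) h0.le
        have : 4 * ‖u‖ ≤ 4 * B := by linarith
        exact mul_le_mul this hen (norm_nonneg _) (by positivity)
      have b2 : k2 x e e ≤ 4 * (2 * h ^ 2 * B) * (2 * h ^ 2 * B) := by
        refine (le_abs_self _).trans ((abs_k2_le x e e).trans ?_)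
        have : 4 * ‖e‖ ≤ 4 * (2 * h ^ 2 * B) := by linarith
        exact mul_le_mul this hen (norm_nonneg _) (by positivity)
      have b3 : 16 * h ^ 4 * B ^ 2 ≤ 16 * h ^ 3 * B ^ 2 := by
        have := mul_le_mul_of_nonneg_right h4le (sq_nonneg B)
        linarith
      nlinarith
    have hn3 : ‖ε • u + e‖ ^ 3 ≤ 27 * h ^ 3 * B ^ 3 := by
      refine (pow_le_pow_left₀ (norm_nonneg _) hdn 3).trans (le_of_eq ?_)
      ring
    have hB2 : B ^ 2 ≤ B ^ 3 := pow_le_pow_right₀ hB (by norm_num)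
    have hB1 : B ≤ B ^ 3 := by
      have := pow_le_pow_right₀ hB (show 1 ≤ 3 by norm_num)
      rwa [pow_one] at this
    have hh3 : 0 ≤ h ^ 3 := by positivity
    have c1 := mul_le_mul_of_nonneg_left hB2 hh3
    have c2 := mul_le_mul_of_nonneg_left hB1 hh3
    nlinarith
  have k1 := key h rp (Or.inl rfl) hp
  have k2' := key (-h) rm (Or.inr rfl) hm
  linarith

theorem loc_int_lse (W : κ → ι → ℝ) (a : κ → ℝ) (c : ι → ℝ) :
    Integrable (fun g => lse (c + locL W a g)) (gam κ) := by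
  refine integrable_gam _ (|lse (0 : ι → ℝ)| + ‖c‖ + ∑ i, |a i| * ‖W i‖) 1
    (continuous_lse.comp (continuous_const.add (continuous_locL W a))) fun g => ?_
  have h1 := abs_lse_sub_le (c + locL W a g) 0
  rw [sub_zero] at h1
  have h2 := norm_add_le c (locL W a g)
  have h3 := norm_locL_le W a g
  have h4 : |lse (c + locL W a g)| ≤ |lse (0 : ι → ℝ)| + ‖c + locL W a g‖ := by
    have := abs_sub_abs_le_abs_sub (lse (c + locL W a g)) (lse (0 : ι → ℝ))
    linarith
  have h5 : 0 ≤ ∑ i, |a i| * ‖W i‖ := Finset.sum_nonneg fun _ _ => by positivity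
  have h6 := norm_nonneg g
  have h7 := norm_nonneg c
  have h8 := abs_nonneg (lse (0 : ι → ℝ))
  rw [pow_one]
  nlinarith [mul_nonneg h6 h7, mul_nonneg h6 h8]

theorem loc_cont_mn (W : κ → ι → ℝ) (a : κ → ℝ) (c : ι → ℝ) (f : (κ → ℝ) → ι → ℝ)
    (hf : Continuous f) : Continuous fun g => mn (c + locL W a g) (f g) := by
  have h1 : Continuous fun g => (c + locL W a g, f g) :=
    (continuous_const.add (continuous_locL W a)).prodMk hf
  have h2 := (continuous_mn (ι := ι)).comp h1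
  exact h2

theorem loc_cont_k2 (W : κ → ι → ℝ) (a : κ → ℝ) (c : ι → ℝ) (f f' : (κ → ℝ) → ι → ℝ)
    (hf : Continuous f) (hf' : Continuous f') :
    Continuous fun g => k2 (c + locL W a g) (f g) (f' g) := by
  have h1 : Continuous fun g => (c + locL W a g, f g, f' g) :=
    (continuous_const.add (continuous_locL W a)).prodMk (hf.prodMk hf')
  have h2 := (continuous_k2 (ι := ι)).comp h1
  exact h2

theorem loc_ibp (W : κ → ι → ℝ) (a : κ → ℝ) (c : ι → ℝ) (i : κ) :
    ∫ g, g i * mn (c + locL W a g) (W i) ∂(gam κ) =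
      a i * ∫ g, k2 (c + locL W a g) (W i) (W i) ∂(gam κ) := by
  classical
  have h1 := gam_ibp i (fun g => mn (c + locL W a g) (W i))
    (fun g => k2 (c + locL W a g) (W i) (a i • W i))
    (‖W i‖ + 4 * ‖W i‖ * ‖a i • W i‖) 0
    (loc_cont_mn W a c _ continuous_const) (loc_cont_k2 W a c _ _ continuous_const continuous_const)
    (by
      intro g t
      have h2 := hasDerivAt_mn (c + locL W a (Function.update g i 0)) (a i • W i) (W i) t
      have h3 : ∀ s : ℝ, c + locL W a (Function.update g i s) =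
          c + locL W a (Function.update g i 0) + s • (a i • W i) := by
        intro s
        rw [locL_update W a g i s, add_assoc]
      have h4 : (fun s : ℝ => mn (c + locL W a (Function.update g i s)) (W i)) =
          fun s : ℝ => mn (c + locL W a (Function.update g i 0) + s • (a i • W i)) (W i) :=
        funext fun s => by rw [h3 s]
      show HasDerivAt (fun s : ℝ => mn (c + locL W a (Function.update g i s)) (W i))
        (k2 (c + locL W a (Function.update g i t)) (W i) (a i • W i)) t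
      rw [h4, h3 t]
      exact h2)
    (fun g => by
      have := abs_mn_le (c + locL W a g) (W i)
      rw [pow_zero, mul_one]
      have h5 : 0 ≤ 4 * ‖W i‖ * ‖a i • W i‖ := by positivity
      linarith)
    (fun g => by
      have := abs_k2_le (c + locL W a g) (W i) (a i • W i)
      rw [pow_zero, mul_one]
      have h5 : 0 ≤ ‖W i‖ := norm_nonneg _
      linarith)
  rw [h1, ← integral_const_mul]
  congr 1
  funext g
  rw [k2_comm, k2_smul_left]

end loc

theorem GG_local {ι κ : Type} [Fintype ι] [Nonempty ι] [Fintype κ] (W : κ → ι → ℝ)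
    (s lam : κ → ℝ) (hs : ∀ i, 0 < s i ∨ (s i = 0 ∧ lam i = 0)) (c : ι → ℝ) :
    ∃ (ζ : ι → ℝ) (C h0 : ℝ), 0 < h0 ∧ ∀ h, 0 < h → h < h0 →
      GG W (s + h • lam) (c - h • ζ) + GG W (s - h • lam) (c + h • ζ) - 2 * GG W s c
        ≤ C * h ^ 3 := by
  classical
  set σ : κ → ℝ := fun i => √(s i) with hσ
  set μ : κ → ℝ := fun i => lam i / (2 * √(s i)) with hμ
  set ν : κ → ℝ := fun i => lam i ^ 2 / (8 * s i * √(s i)) with hν
  choose Cs hCs0 hCs using fun i => loc_sqrt (s i) (lam i) (hs i)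
  obtain ⟨ζ0, hζ0⟩ := sglin (fun i => σ i • W i) (fun i => lam i / (2 * s i)) c
  -- the error of the square root
  set ρ : ℝ → κ → ℝ := fun h i => √(s i + h * lam i) - (√(s i) + h * (lam i / (2 * √(s i)))
      - h ^ 2 * (lam i ^ 2 / (8 * s i * √(s i)))) with hρ
  have hev : ∀ᶠ h in nhds (0 : ℝ), ∀ i, |ρ h i| ≤ Cs i * |h| ^ 3 :=
    Filter.eventually_all.2 fun i => hCs i
  obtain ⟨h0, hh0, hball⟩ := Metric.eventually_nhds_iff.1 hev
  set K : ℝ := 1 + ∑ i, |μ i| * ‖W i‖ + ‖ζ0‖ + ∑ i, |ν i| * ‖W i‖ + ∑ i, Cs i * ‖W i‖ with hK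
  have kμ : 0 ≤ ∑ i, |μ i| * ‖W i‖ := Finset.sum_nonneg fun _ _ => by positivity
  have kν : 0 ≤ ∑ i, |ν i| * ‖W i‖ := Finset.sum_nonneg fun _ _ => by positivity
  have kC : 0 ≤ ∑ i, Cs i * ‖W i‖ := Finset.sum_nonneg fun i _ =>
    mul_nonneg (hCs0 i) (norm_nonneg _)
  have kζ : 0 ≤ ‖ζ0‖ := norm_nonneg _
  have hK1 : 1 ≤ K := by rw [hK]; linarith
  refine ⟨-ζ0, 142 * K ^ 3 * ∫ g, (1 + ‖g‖) ^ 3 ∂(gam κ), min h0 1,
    lt_min hh0 one_pos, ?_⟩
  intro h hpos hlt
  have hlt0 : h < h0 := hlt.trans_le (min_le_left _ _)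
  have hle1 : h ≤ 1 := (hlt.trans_le (min_le_right _ _)).le
  have hρp : ∀ i, |ρ h i| ≤ Cs i * h ^ 3 := by
    intro i
    have := hball (y := h) (by rw [Real.dist_eq, sub_zero, abs_of_pos hpos]; exact hlt0) i
    rwa [abs_of_pos hpos] at this
  have hρm : ∀ i, |ρ (-h) i| ≤ Cs i * h ^ 3 := by
    intro i
    have := hball (y := -h)
      (by rw [Real.dist_eq, sub_zero, abs_neg, abs_of_pos hpos]; exact hlt0) i
    rwa [abs_neg, abs_of_pos hpos] at this
  -- the coefficients
  have cp : (fun i => √((s + h • lam) i)) = σ + (h • μ + ((-h ^ 2) • ν + ρ h)) := by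
    funext i
    simp only [hσ, hμ, hν, hρ, Pi.add_apply, Pi.smul_apply, smul_eq_mul]
    ring
  have cm : (fun i => √((s - h • lam) i)) = σ + ((-h) • μ + ((-h ^ 2) • ν + ρ (-h))) := by
    funext i
    simp only [hσ, hμ, hν, hρ, Pi.add_apply, Pi.sub_apply, Pi.smul_apply, smul_eq_mul]
    rw [show s i - h * lam i = s i + -h * lam i by ring]
    ring
  set u : (κ → ℝ) → ι → ℝ := fun g => locL W μ g + ζ0 with hu
  have xp : ∀ g, (c - h • (-ζ0)) + ∑ i, (√((s + h • lam) i) * g i) • W i =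
      (c + locL W σ g) + (h • u g + ((-h ^ 2) • locL W ν g + locL W (ρ h) g)) := by
    intro g
    have e1 : ∑ i, (√((s + h • lam) i) * g i) • W i =
        locL W (fun i => √((s + h • lam) i)) g := rfl
    rw [e1, cp, locL_add, locL_add, locL_add, locL_smul, locL_smul, hu]
    simp only [smul_add, smul_neg, sub_neg_eq_add]
    abel
  have xm : ∀ g, (c + h • (-ζ0)) + ∑ i, (√((s - h • lam) i) * g i) • W i =
      (c + locL W σ g) + ((-h) • u g + ((-h ^ 2) • locL W ν g + locL W (ρ (-h)) g)) := by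
    intro g
    have e1 : ∑ i, (√((s - h • lam) i) * g i) • W i =
        locL W (fun i => √((s - h • lam) i)) g := rfl
    rw [e1, cm, locL_add, locL_add, locL_add, locL_smul, locL_smul, hu]
    simp only [smul_add, smul_neg, neg_smul]
    abel
  -- pointwise bound
  have hpt : ∀ g, lse ((c - h • (-ζ0)) + ∑ i, (√((s + h • lam) i) * g i) • W i) +
      lse ((c + h • (-ζ0)) + ∑ i, (√((s - h • lam) i) * g i) • W i)
      - 2 * lse (c + ∑ i, (√(s i) * g i) • W i) ≤
      h ^ 2 * (k2 (c + locL W σ g) (u g) (u g) - 2 * mn (c + locL W σ g) (locL W ν g))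
        + 142 * K ^ 3 * h ^ 3 * (1 + ‖g‖) ^ 3 := by
    intro g
    rw [xp, xm]
    have hg := norm_nonneg g
    have bu : ‖u g‖ ≤ K * (1 + ‖g‖) := by
      refine (norm_add_le _ _).trans ?_
      have := norm_locL_le W μ g
      rw [hK]
      nlinarith [mul_nonneg hg kζ, mul_nonneg hg kν, mul_nonneg hg kC]
    have bv : ‖locL W ν g‖ ≤ K * (1 + ‖g‖) := by
      have := norm_locL_le W ν g
      rw [hK]
      nlinarith [mul_nonneg hg kζ, mul_nonneg hg kμ, mul_nonneg hg kC]
    have br : ∀ r : κ → ℝ, (∀ i, |r i| ≤ Cs i * h ^ 3) →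
        ‖locL W r g‖ ≤ h ^ 3 * (K * (1 + ‖g‖)) := by
      intro r hr
      have h1 := norm_locL_le W r g
      have h2 : ∑ i, |r i| * ‖W i‖ ≤ h ^ 3 * ∑ i, Cs i * ‖W i‖ := by
        rw [Finset.mul_sum]
        refine Finset.sum_le_sum fun i _ => ?_
        have := mul_le_mul_of_nonneg_right (hr i) (norm_nonneg (W i))
        linarith
      have h3 : 0 ≤ h ^ 3 := by positivity
      calc ‖locL W r g‖ ≤ (∑ i, |r i| * ‖W i‖) * ‖g‖ := h1
        _ ≤ (h ^ 3 * ∑ i, Cs i * ‖W i‖) * ‖g‖ := mul_le_mul_of_nonneg_right h2 hg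
        _ = h ^ 3 * ((∑ i, Cs i * ‖W i‖) * ‖g‖) := by ring
        _ ≤ h ^ 3 * (K * (1 + ‖g‖)) := by
          refine mul_le_mul_of_nonneg_left ?_ h3
          rw [hK]
          nlinarith [mul_nonneg hg kζ, mul_nonneg hg kμ, mul_nonneg hg kν]
    have hB : 1 ≤ K * (1 + ‖g‖) := by nlinarith
    have := loc_pointwise (c + locL W σ g) (u g) (locL W ν g) (locL W (ρ h) g)
      (locL W (ρ (-h)) g) h (K * (1 + ‖g‖)) hpos hle1 bu bv (br _ hρp) (br _ hρm) hB
    refine this.trans (le_of_eq ?_)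
    rw [mul_pow]
    ring
  -- integrability
  have uc : Continuous u := (continuous_locL W μ).add continuous_const
  have i1 : Integrable (fun g => lse ((c - h • (-ζ0)) + ∑ i, (√((s + h • lam) i) * g i) • W i))
      (gam κ) := loc_int_lse W (fun i => √((s + h • lam) i)) _
  have i2 : Integrable (fun g => lse ((c + h • (-ζ0)) + ∑ i, (√((s - h • lam) i) * g i) • W i))
      (gam κ) := loc_int_lse W (fun i => √((s - h • lam) i)) _
  have i3 : Integrable (fun g => lse (c + ∑ i, (√(s i) * g i) • W i)) (gam κ) :=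
    loc_int_lse W σ _
  have i4 : Integrable (fun g => k2 (c + locL W σ g) (u g) (u g)) (gam κ) := by
    refine integrable_gam _ (4 * (∑ i, |μ i| * ‖W i‖ + ‖ζ0‖) ^ 2) 2
      (loc_cont_k2 W σ c u u uc uc) fun g => ?_
    have h1 : ‖u g‖ ≤ (∑ i, |μ i| * ‖W i‖ + ‖ζ0‖) * (1 + ‖g‖) := by
      refine (norm_add_le _ _).trans ?_
      have := norm_locL_le W μ g
      nlinarith [mul_nonneg (norm_nonneg g) kζ]
    have h2 := abs_k2_le (c + locL W σ g) (u g) (u g)
    have h3 := pow_le_pow_left₀ (norm_nonneg _) h1 2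
    rw [mul_pow] at h3
    nlinarith
  have i5 : Integrable (fun g => mn (c + locL W σ g) (locL W ν g)) (gam κ) := by
    refine integrable_gam _ (∑ i, |ν i| * ‖W i‖) 1
      (loc_cont_mn W σ c _ (continuous_locL W ν)) fun g => ?_
    have h1 := abs_mn_le (c + locL W σ g) (locL W ν g)
    have h2 := norm_locL_le W ν g
    rw [pow_one]
    nlinarith
  have i6 : Integrable (fun g : κ → ℝ => (1 + ‖g‖) ^ 3) (gam κ) := by
    refine integrable_gam _ 1 3 (by fun_prop) fun g => ?_
    rw [one_mul, abs_of_nonneg (by positivity)]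
  -- the first-order term
  have hmn : ∫ g, mn (c + locL W σ g) (locL W ν g) ∂(gam κ) =
      ∑ i, lam i ^ 2 / (8 * s i) * ∫ g, k2 (c + locL W σ g) (W i) (W i) ∂(gam κ) := by
    have e1 : ∀ g, mn (c + locL W σ g) (locL W ν g) =
        ∑ i, ν i * (g i * mn (c + locL W σ g) (W i)) := by
      intro g
      rw [show locL W ν g = ∑ i, (ν i * g i) • W i from rfl, loc_mn_sum]
      exact Finset.sum_congr rfl fun i _ => by rw [mn_smul, mul_assoc]
    simp_rw [e1]
    have hi : ∀ i, Integrable (fun g : κ → ℝ => ν i * (g i * mn (c + locL W σ g) (W i)))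
        (gam κ) := by
      intro i
      have hc : Continuous fun g : κ → ℝ => g i * mn (c + locL W σ g) (W i) :=
        (continuous_apply i).mul (loc_cont_mn W σ c _ continuous_const)
      refine (integrable_gam _ ‖W i‖ 1 hc fun g => ?_).const_mul _
      rw [abs_mul, pow_one]
      have h1 := abs_mn_le (c + locL W σ g) (W i)
      have h2 : |g i| ≤ ‖g‖ := norm_le_pi_norm g i
      have h3 := norm_nonneg (W i)
      have h4 := mul_le_mul h2 h1 (abs_nonneg _) (norm_nonneg _)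
      nlinarith
    rw [integral_finsetSum _ fun i _ => hi i]
    refine Finset.sum_congr rfl fun i _ => ?_
    rw [integral_const_mul, loc_ibp, ← mul_assoc]
    congr 1
    simp only [hν, hσ]
    rcases hs i with h1 | ⟨h1, h2⟩
    · have h3 : 0 < √(s i) := Real.sqrt_pos.2 h1
      field_simp
    · simp [h1, h2]
  -- the linear-quadratic inequality
  have hsg : ∫ g, k2 (c + locL W σ g) (u g) (u g) ∂(gam κ) + (∑ j, ζ0 j) ^ 2 ≤
      2 * ∫ g, mn (c + locL W σ g) (locL W ν g) ∂(gam κ) := by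
    have e1 : ∀ g, ∑ i, (lam i / (2 * s i) * g i) • (σ i • W i) + ζ0 = u g := by
      intro g
      simp only [hu, locL]
      congr 1
      refine Finset.sum_congr rfl fun i _ => ?_
      rw [smul_smul]
      congr 1
      simp only [hμ, hσ]
      rcases hs i with h1 | ⟨h1, h2⟩
      · have h3 : 0 < √(s i) := Real.sqrt_pos.2 h1
        have h4 : √(s i) ^ 2 = s i := Real.sq_sqrt h1.le
        field_simp
        rw [h4]
        ring
      · simp [h1, h2]
    have e2 : ∀ g, lin (fun i => σ i • W i) g = locL W σ g := fun g => (locL_eq_lin W σ g).symm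
    simp only [e1, e2] at hζ0
    refine hζ0.trans (le_of_eq ?_)
    rw [hmn, Finset.mul_sum]
    refine Finset.sum_congr rfl fun i _ => ?_
    have e3 : ∀ g, k2 (c + locL W σ g) (σ i • W i) (σ i • W i) =
        s i * k2 (c + locL W σ g) (W i) (W i) := by
      intro g
      rw [k2_smul_left, k2_comm, k2_smul_left, ← mul_assoc]
      congr 1
      simp only [hσ]
      rcases hs i with h1 | ⟨h1, h2⟩
      · exact Real.mul_self_sqrt h1.le
      · simp [h1]
    simp_rw [e3]
    rw [integral_const_mul, ← mul_assoc, ← mul_assoc]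
    congr 1
    rcases hs i with h1 | ⟨h1, h2⟩
    · field_simp
      ring
    · simp [h1, h2]
  -- integrate
  have hint : ∫ g, lse ((c - h • (-ζ0)) + ∑ i, (√((s + h • lam) i) * g i) • W i) ∂(gam κ) +
      ∫ g, lse ((c + h • (-ζ0)) + ∑ i, (√((s - h • lam) i) * g i) • W i) ∂(gam κ)
      - 2 * ∫ g, lse (c + ∑ i, (√(s i) * g i) • W i) ∂(gam κ) ≤
      h ^ 2 * (∫ g, k2 (c + locL W σ g) (u g) (u g) ∂(gam κ)
        - 2 * ∫ g, mn (c + locL W σ g) (locL W ν g) ∂(gam κ))
        + 142 * K ^ 3 * h ^ 3 * ∫ g : κ → ℝ, (1 + ‖g‖) ^ 3 ∂(gam κ) := by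
    have j1 : Integrable (fun g => lse ((c - h • (-ζ0)) + ∑ i, (√((s + h • lam) i) * g i) • W i) +
        lse ((c + h • (-ζ0)) + ∑ i, (√((s - h • lam) i) * g i) • W i)) (gam κ) := i1.add i2
    have j2 : Integrable (fun g => 2 * lse (c + ∑ i, (√(s i) * g i) • W i)) (gam κ) :=
      i3.const_mul 2
    have j3 : Integrable (fun g => 2 * mn (c + locL W σ g) (locL W ν g)) (gam κ) :=
      i5.const_mul 2
    have j4 : Integrable (fun g => k2 (c + locL W σ g) (u g) (u g) -
        2 * mn (c + locL W σ g) (locL W ν g)) (gam κ) := i4.sub j3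
    have j5 : Integrable (fun g => h ^ 2 * (k2 (c + locL W σ g) (u g) (u g) -
        2 * mn (c + locL W σ g) (locL W ν g))) (gam κ) := j4.const_mul _
    have j6 : Integrable (fun g : κ → ℝ => 142 * K ^ 3 * h ^ 3 * (1 + ‖g‖) ^ 3) (gam κ) :=
      i6.const_mul _
    have := integral_mono (j1.sub j2) (j5.add j6) hpt
    have l1 : ∫ g, (lse ((c - h • (-ζ0)) + ∑ i, (√((s + h • lam) i) * g i) • W i) +
        lse ((c + h • (-ζ0)) + ∑ i, (√((s - h • lam) i) * g i) • W i)
        - 2 * lse (c + ∑ i, (√(s i) * g i) • W i)) ∂(gam κ) =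
        ∫ g, lse ((c - h • (-ζ0)) + ∑ i, (√((s + h • lam) i) * g i) • W i) ∂(gam κ) +
        ∫ g, lse ((c + h • (-ζ0)) + ∑ i, (√((s - h • lam) i) * g i) • W i) ∂(gam κ)
        - 2 * ∫ g, lse (c + ∑ i, (√(s i) * g i) • W i) ∂(gam κ) := by
      rw [integral_sub j1 j2, integral_add i1 i2, integral_const_mul]
    have l2 : ∫ g, (h ^ 2 * (k2 (c + locL W σ g) (u g) (u g) -
        2 * mn (c + locL W σ g) (locL W ν g)) +
        142 * K ^ 3 * h ^ 3 * (1 + ‖g‖) ^ 3) ∂(gam κ) =
        h ^ 2 * (∫ g, k2 (c + locL W σ g) (u g) (u g) ∂(gam κ)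
        - 2 * ∫ g, mn (c + locL W σ g) (locL W ν g) ∂(gam κ))
        + 142 * K ^ 3 * h ^ 3 * ∫ g : κ → ℝ, (1 + ‖g‖) ^ 3 ∂(gam κ) := by
      rw [integral_add j5 j6, integral_const_mul, integral_const_mul, integral_sub i4 j3,
        integral_const_mul]
    rw [← l1, ← l2]
    exact this
  -- conclusion
  have hsum1 : ∑ j, (c - h • (-ζ0)) j = ∑ j, c j + h * ∑ j, ζ0 j := by
    simp only [Pi.sub_apply, Pi.smul_apply, Pi.neg_apply, smul_eq_mul, Finset.mul_sum,
      ← Finset.sum_add_distrib]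
    exact Finset.sum_congr rfl fun j _ => by ring
  have hsum2 : ∑ j, (c + h • (-ζ0)) j = ∑ j, c j - h * ∑ j, ζ0 j := by
    simp only [Pi.add_apply, Pi.smul_apply, Pi.neg_apply, smul_eq_mul, Finset.mul_sum,
      ← Finset.sum_sub_distrib]
    exact Finset.sum_congr rfl fun j _ => by ring
  unfold GG
  rw [hsum1, hsum2]
  have hh2 : 0 ≤ h ^ 2 := sq_nonneg h
  have hfin := mul_le_mul_of_nonneg_left hsg hh2
  set I1 := ∫ g, lse ((c - h • (-ζ0)) + ∑ i, (√((s + h • lam) i) * g i) • W i) ∂(gam κ) with hI1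
  set I2 := ∫ g, lse ((c + h • (-ζ0)) + ∑ i, (√((s - h • lam) i) * g i) • W i) ∂(gam κ) with hI2
  set I3 := ∫ g, lse (c + ∑ i, (√(s i) * g i) • W i) ∂(gam κ) with hI3
  set P := ∑ j, c j
  set Z := ∑ j, ζ0 j
  have e : I1 - (P + h * Z) / (Fintype.card ι : ℝ) + (P + h * Z) ^ 2 / 2 +
      (I2 - (P - h * Z) / (Fintype.card ι : ℝ) + (P - h * Z) ^ 2 / 2) -
      2 * (I3 - P / (Fintype.card ι : ℝ) + P ^ 2 / 2) = I1 + I2 - 2 * I3 + h ^ 2 * Z ^ 2 := by
    ring
  rw [e]
  nlinarith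

end Pool.H65.PS
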