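import Pool.Agent.Helper65.PS.Defs

set_option autoImplicit false

open MeasureTheory ProbabilityTheory Set Filter Topology

set_option linter.unusedSectionVars false

namespace Pool.H65.PS

namespace OneDimAux

section aux

variable {E : Type} [NormedAddCommGroup E] [InnerProductSpace ℝ E]

noncomputable def ph (t : ℝ) : ℝ := Real.exp (-(t ^ 2 / 2))

lemma ph_pos (t : ℝ) : 0 < ph t := Real.exp_pos _

lemma continuous_ph : Continuous ph := by unfold ph; fun_prop

lemma hasDerivAt_ph (t : ℝ) : HasDerivAt ph (-t * ph t) t := by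
  have h := (((hasDerivAt_id t).pow 2).div_const 2).neg.exp
  refine h.congr_deriv ?_
  simp [ph]
  ring

lemma integrable_ph : Integrable ph := by
  have := integrable_exp_neg_mul_sq (b := 1 / 2) (by norm_num)
  refine this.congr (ae_of_all _ (fun t => ?_))
  have e : -(1 / 2) * t ^ 2 = -(t ^ 2 / 2) := by ring
  simp only [ph, e]

lemma integrable_ph_smul {F : Type} [NormedAddCommGroup F] [NormedSpace ℝ F] [SecondCountableTopology F]
    (f : ℝ → F) (hf : Continuous f) (C : ℝ) (hC : ∀ t, ‖f t‖ ≤ C) :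
    Integrable (fun t => ph t • f t) := by
  have hC0 : 0 ≤ C := (norm_nonneg _).trans (hC 0)
  refine (integrable_ph.mul_const C).mono' (continuous_ph.smul hf).aestronglyMeasurable
    (ae_of_all _ (fun t => ?_))
  rw [norm_smul, Real.norm_of_nonneg (ph_pos t).le]
  exact mul_le_mul_of_nonneg_left (hC t) (ph_pos t).le

lemma integral_gauss {F : Type} [NormedAddCommGroup F] [NormedSpace ℝ F] (f : ℝ → F) :
    ∫ t, f t ∂(gaussianReal 0 1) = (Real.sqrt (2 * Real.pi))⁻¹ • ∫ t, ph t • f t := by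
  rw [integral_gaussianReal_eq_integral_smul (by norm_num), ← integral_smul]
  congr 1
  funext t
  rw [smul_smul]
  congr 1
  unfold gaussianPDFReal ph
  congr 1
  · simp
  · congr 1
    simp
    ring

/-- Cauchy-Schwarz for a positive semidefinite symmetric operator. -/
lemma cs (S : E →L[ℝ] E) (hs : ∀ x y, inner ℝ (S x) y = inner ℝ x (S y))
    (hp : ∀ x, 0 ≤ inner ℝ (S x) x) (x y : E) :
    (inner ℝ (S x) y) ^ 2 ≤ inner ℝ (S x) x * inner ℝ (S y) y := by
  have h : ∀ l : ℝ, 0 ≤ (inner ℝ (S y) y) * (l * l) + (2 * inner ℝ (S x) y) * l + inner ℝ (S x) x := by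
    intro l
    have h1 := hp (x + l • y)
    have h2 : inner ℝ (S y) x = inner ℝ (S x) y := by
      rw [hs y x, real_inner_comm]
    simp only [map_add, map_smul, inner_add_left, inner_add_right, inner_smul_left,
      inner_smul_right] at h1
    rw [h2] at h1
    simp at h1
    linarith
  have := discrim_le_zero h
  unfold discrim at this
  nlinarith

/-- Harnack. -/
lemma harnack (f f' : ℝ → ℝ) (C : ℝ) (hf : ∀ t, HasDerivAt f (f' t) t)
    (hC : ∀ t, |f' t| ≤ C * f t) (s t : ℝ) : f s ≤ Real.exp (C * |s - t|) * f t := by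
  have anti : Antitone (fun u => Real.exp (-C * u) * f u) := by
    apply antitone_of_hasDerivAt_nonpos (f' := fun u => Real.exp (-C * u) * (f' u - C * f u))
    · intro u
      have h1 : HasDerivAt (fun u => Real.exp (-C * u)) (Real.exp (-C * u) * (-C)) u := by
        have := ((hasDerivAt_id u).const_mul (-C)).exp
        simpa using this
      refine (h1.mul (hf u)).congr_deriv ?_
      ring
    · intro u
      have := (abs_le.1 (hC u)).2
      have h2 := Real.exp_pos (-C * u)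
      simp only [Pi.zero_apply]
      nlinarith
  have mono : Monotone (fun u => Real.exp (C * u) * f u) := by
    apply monotone_of_hasDerivAt_nonneg (f' := fun u => Real.exp (C * u) * (f' u + C * f u))
    · intro u
      have h1 : HasDerivAt (fun u => Real.exp (C * u)) (Real.exp (C * u) * C) u := by
        have := ((hasDerivAt_id u).const_mul C).exp
        simpa using this
      refine (h1.mul (hf u)).congr_deriv ?_
      ring
    · intro u
      have := (abs_le.1 (hC u)).1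
      have h2 := Real.exp_pos (C * u)
      simp only [Pi.zero_apply]
      nlinarith
  rcases le_total s t with h | h
  · have h1 := mono h
    simp only at h1
    rw [abs_of_nonpos (by linarith)]
    have e : Real.exp (C * -(s - t)) = Real.exp (C * t) * Real.exp (-(C * s)) := by
      rw [← Real.exp_add]; congr 1; ring
    rw [e]
    have h3 : Real.exp (-(C * s)) * Real.exp (C * s) = 1 := by
      rw [← Real.exp_add]; simp
    have h4 := Real.exp_pos (-(C * s))
    calc f s = Real.exp (-(C * s)) * (Real.exp (C * s) * f s) := by rw [← mul_assoc, h3, one_mul]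
      _ ≤ Real.exp (-(C * s)) * (Real.exp (C * t) * f t) := mul_le_mul_of_nonneg_left h1 h4.le
      _ = _ := by ring
  · have h1 := anti h
    simp only at h1
    rw [abs_of_nonneg (by linarith)]
    have e : Real.exp (C * (s - t)) = Real.exp (-C * t) * Real.exp (C * s) := by
      rw [← Real.exp_add]; congr 1; ring
    rw [e]
    have h3 : Real.exp (C * s) * Real.exp (-C * s) = 1 := by
      rw [← Real.exp_add]; simp
    have h4 := Real.exp_pos (C * s)
    calc f s = Real.exp (C * s) * (Real.exp (-C * s) * f s) := by rw [← mul_assoc, h3, one_mul]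
      _ ≤ Real.exp (C * s) * (Real.exp (-C * t) * f t) := mul_le_mul_of_nonneg_left h1 h4.le
      _ = _ := by ring

/-- the comparison kernel -/
noncomputable def kk (C u : ℝ) : ℝ := Real.exp (-(u ^ 2 / 2) + C * |u|)

lemma integrable_kk (C : ℝ) : Integrable (kk C) := by
  have h1 : Integrable (fun u : ℝ => Real.exp (-(1 / 4) * u ^ 2)) :=
    integrable_exp_neg_mul_sq (b := 1 / 4) (by norm_num)
  refine (h1.const_mul (Real.exp (C ^ 2))).mono'
    (by unfold kk; exact (by fun_prop : Continuous _).aestronglyMeasurable)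
    (ae_of_all _ (fun u => ?_))
  unfold kk
  rw [Real.norm_of_nonneg (Real.exp_pos _).le, ← Real.exp_add]
  apply Real.exp_le_exp.2
  have h2 := sq_nonneg (|u| / 2 - C)
  have h3 : |u| ^ 2 = u ^ 2 := sq_abs u
  nlinarith

lemma ph_mul_exp_le (C s t : ℝ) (h : 0 ≤ (s - t) * t) :
    ph s * Real.exp (C * |s - t|) ≤ ph t * kk C (s - t) := by
  unfold ph kk
  rw [← Real.exp_add, ← Real.exp_add]
  apply Real.exp_le_exp.2
  nlinarith

/-- the integral over a tail `T` beyond `t`. -/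
lemma tail_bound (C t : ℝ) (T : Set ℝ) (hT : MeasurableSet T) (h : ∀ s ∈ T, 0 ≤ (s - t) * t)
    (g : ℝ → ℝ) (M : ℝ) (hM : 0 ≤ M)
    (hg : ∀ s, |g s| ≤ M * Real.exp (C * |s - t|)) :
    |∫ s in T, ph s * g s| ≤ M * (∫ u, kk C u) * ph t := by
  have hk : Integrable (fun s => kk C (s - t)) := (integrable_kk C).comp_sub_right t
  have hk2 : Integrable (fun s => M * ph t * kk C (s - t)) := hk.const_mul _
  calc |∫ s in T, ph s * g s| = ‖∫ s in T, ph s * g s‖ := rfl
    _ ≤ ∫ s in T, M * ph t * kk C (s - t) := by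
        apply norm_integral_le_of_norm_le hk2.integrableOn
        filter_upwards [ae_restrict_mem hT] with s hs
        rw [norm_mul, Real.norm_of_nonneg (ph_pos s).le, Real.norm_eq_abs]
        calc ph s * |g s| ≤ ph s * (M * Real.exp (C * |s - t|)) :=
              mul_le_mul_of_nonneg_left (hg s) (ph_pos s).le
          _ = M * (ph s * Real.exp (C * |s - t|)) := by ring
          _ ≤ M * (ph t * kk C (s - t)) :=
              mul_le_mul_of_nonneg_left (ph_mul_exp_le C s t (h s hs)) hM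
          _ = _ := by ring
    _ ≤ ∫ s, M * ph t * kk C (s - t) := by
        apply setIntegral_le_integral hk2
        exact ae_of_all _ (fun s => by
          have := ph_pos t
          have h2 : 0 < kk C (s - t) := Real.exp_pos _
          simp only [Pi.zero_apply]
          positivity)
    _ = M * (∫ u, kk C u) * ph t := by
        rw [integral_const_mul, integral_sub_right_eq_self (fun u => kk C u) t]
        ring

end aux

section main

variable {E : Type} [NormedAddCommGroup E] [InnerProductSpace ℝ E] [FiniteDimensional ℝ E]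

/-- `‖S x‖ ≤ C ‖x‖` from the quadratic form bound. -/
lemma norm_le_of_form (S : E →L[ℝ] E) (hs : ∀ x y, inner ℝ (S x) y = inner ℝ x (S y))
    (hp : ∀ x, 0 ≤ inner ℝ (S x) x) (C : ℝ) (hC : 0 ≤ C)
    (hub : ∀ x, inner ℝ (S x) x ≤ C * ‖x‖ ^ 2) (x : E) : ‖S x‖ ≤ C * ‖x‖ := by
  have h1 := cs S hs hp x (S x)
  rw [real_inner_self_eq_norm_sq] at h1
  have h2 := hub x
  have h3 := hub (S x)
  by_cases h0 : ‖S x‖ = 0
  · rw [h0]; positivity
  have h0' : 0 < ‖S x‖ := lt_of_le_of_ne (norm_nonneg _) (Ne.symm h0)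
  have h4 : (‖S x‖ ^ 2) ^ 2 ≤ (C * ‖x‖ ^ 2) * (C * ‖S x‖ ^ 2) :=
    h1.trans (mul_le_mul h2 h3 (hp _) (by positivity))
  have h5 : ‖S x‖ ^ 2 ≤ (C * ‖x‖) ^ 2 := by
    have : ‖S x‖ ^ 2 * ‖S x‖ ^ 2 ≤ (C * ‖x‖) ^ 2 * ‖S x‖ ^ 2 := by nlinarith
    exact le_of_mul_le_mul_right this (by positivity)
  exact abs_le_of_sq_le_sq' h5 (by positivity) |>.2

lemma norm_le_of_sq (S : E →L[ℝ] E) (C : ℝ) (hC : 0 ≤ C) (q : E)
    (hub : ∀ x, inner ℝ (S x) x ≤ C * ‖x‖ ^ 2)
    (hq : ∀ x, (inner ℝ q x) ^ 2 ≤ C * inner ℝ (S x) x) : ‖q‖ ≤ C := by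
  have h1 := hq q
  rw [real_inner_self_eq_norm_sq] at h1
  have h2 := hub q
  by_cases h0 : ‖q‖ = 0
  · rw [h0]; exact hC
  have h0' : 0 < ‖q‖ := lt_of_le_of_ne (norm_nonneg _) (Ne.symm h0)
  have h3 : (‖q‖ ^ 2) ^ 2 ≤ C * (C * ‖q‖ ^ 2) := h1.trans (mul_le_mul_of_nonneg_left h2 hC)
  have h4 : ‖q‖ ^ 2 ≤ C ^ 2 := by
    have : ‖q‖ ^ 2 * ‖q‖ ^ 2 ≤ C ^ 2 * ‖q‖ ^ 2 := by nlinarith
    exact le_of_mul_le_mul_right this (by positivity)
  exact abs_le_of_sq_le_sq' h4 hC |>.2


structure OD (E : Type) [NormedAddCommGroup E] [InnerProductSpace ℝ E] where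
  a : ℝ → ℝ
  q : ℝ → E
  q1 : ℝ → E
  N : ℝ → E →L[ℝ] E
  N1 : ℝ → E →L[ℝ] E
  N2 : ℝ → E →L[ℝ] E
  C : ℝ
  ha : Continuous a
  haC : ∀ t, |a t| ≤ C
  hq : ∀ t, HasDerivAt q (q1 t) t
  hN : ∀ t, HasDerivAt N (N1 t) t
  hN1 : ∀ t, HasDerivAt N1 (N2 t) t
  hsym : ∀ t x y, inner ℝ (N t x) y = inner ℝ x (N t y)
  hpos : ∀ t x, x ≠ 0 → 0 < inner ℝ (N t x) x
  hub : ∀ t x, inner ℝ (N t x) x ≤ C * ‖x‖ ^ 2
  hN1b : ∀ t x, |inner ℝ (N1 t x) x| ≤ C * inner ℝ (N t x) x
  hqb : ∀ t x, (inner ℝ (q t) x) ^ 2 ≤ C * inner ℝ (N t x) x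
  H : ∀ t z, ∃ ζ, a t + 2 * inner ℝ (q1 t) z + inner ℝ (N2 t z) z
      - 2 * inner ℝ (q t + N1 t z) ζ + inner ℝ (N t ζ) ζ ≤ 0

namespace OD

variable (D : OD E)

lemma C0 : 0 ≤ D.C := (abs_nonneg _).trans (D.haC 0)

lemma nonneg (t : ℝ) (x : E) : 0 ≤ inner ℝ (D.N t x) x := by
  by_cases h : x = 0
  · subst h; simp
  · exact (D.hpos t x h).le

lemma contN : Continuous D.N :=
  continuous_iff_continuousAt.2 (fun t => (D.hN t).continuousAt)

lemma contNx (x : E) : Continuous (fun t => D.N t x) := D.contN.clm_apply continuous_const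

lemma contq : Continuous D.q :=
  continuous_iff_continuousAt.2 (fun t => (D.hq t).continuousAt)

lemma normN (t : ℝ) (x : E) : ‖D.N t x‖ ≤ D.C * ‖x‖ :=
  norm_le_of_form (D.N t) (D.hsym t) (D.nonneg t) D.C D.C0 (D.hub t) x

lemma normq (t : ℝ) : ‖D.q t‖ ≤ D.C := norm_le_of_sq (D.N t) D.C D.C0 (D.q t) (D.hub t) (D.hqb t)

lemma intNx (x : E) : Integrable (fun t => ph t • D.N t x) :=
  integrable_ph_smul _ (D.contNx x) (D.C * ‖x‖) (fun t => D.normN t x)

lemma intq : Integrable (fun t => ph t • D.q t) :=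
  integrable_ph_smul _ D.contq D.C D.normq

lemma exists_b : ∃ b : E, ∫ t, ph t • (D.N t b - D.q t) = 0 := by
  let A : E →ₗ[ℝ] E :=
    { toFun := fun x => ∫ t, ph t • D.N t x
      map_add' := by
        intro x y
        rw [← integral_add (D.intNx x) (D.intNx y)]
        congr 1; funext t; rw [map_add, smul_add]
      map_smul' := by
        intro r x
        simp only [RingHom.id_apply]
        rw [← integral_smul]
        congr 1; funext t; rw [map_smul, smul_comm] }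
  have hinj : Function.Injective A := by
    rw [← LinearMap.ker_eq_bot, LinearMap.ker_eq_bot']
    intro x hx
    by_contra hne
    have h1 : inner ℝ (A x) x = ∫ t, ph t * inner ℝ (D.N t x) x := by
      change inner ℝ (∫ t, ph t • D.N t x) x = _
      rw [real_inner_comm, ← integral_inner (D.intNx x)]
      congr 1; funext t
      rw [inner_smul_right, real_inner_comm]
    have hc : Continuous (fun t => ph t * inner ℝ (D.N t x) x) :=
      continuous_ph.mul ((D.contNx x).inner continuous_const)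
    have hi : Integrable (fun t => ph t * inner ℝ (D.N t x) x) := by
      refine integrable_ph_smul (fun t => (inner ℝ (D.N t x) x : ℝ))
        ((D.contNx x).inner continuous_const) (D.C * ‖x‖ ^ 2) (fun t => ?_)
      rw [Real.norm_of_nonneg (D.nonneg t x)]
      exact D.hub t x
    have h2 : 0 < ∫ t, ph t * inner ℝ (D.N t x) x := by
      rw [integral_pos_iff_support_of_nonneg _ hi]
      · have : Function.support (fun t => ph t * inner ℝ (D.N t x) x) = Set.univ := by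
          ext t
          simp only [Function.mem_support, Set.mem_univ, iff_true]
          exact (mul_pos (ph_pos t) (D.hpos t x hne)).ne'
        rw [this]
        simp
      · intro t
        exact mul_nonneg (ph_pos t).le (D.nonneg t x)
    rw [← h1, hx] at h2
    simp at h2
  have hsurj : Function.Surjective A := LinearMap.injective_iff_surjective.1 hinj
  obtain ⟨b, hb⟩ := hsurj (∫ t, ph t • D.q t)
  refine ⟨b, ?_⟩
  have : (∫ t, ph t • (D.N t b - D.q t)) = (∫ t, ph t • D.N t b) - ∫ t, ph t • D.q t := by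
    rw [← integral_sub (D.intNx b) D.intq]
    congr 1; funext t; rw [smul_sub]
  rw [this]
  exact sub_eq_zero.2 hb

/-- `r t = N t b - q t`. -/
noncomputable def r (b : E) (t : ℝ) : E := D.N t b - D.q t

lemma contr (b : E) : Continuous (D.r b) := (D.contNx b).sub D.contq

lemma intr (b : E) : Integrable (fun t => ph t • D.r b t) := by
  refine integrable_ph_smul _ (D.contr b) (D.C * ‖b‖ + D.C) (fun t => ?_)
  exact (norm_sub_le _ _).trans (add_le_add (D.normN t b) (D.normq t))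

noncomputable def y (b : E) (t : ℝ) : E := ∫ s in Iic t, ph s • D.r b s

lemma hasDerivAt_y (b : E) (t : ℝ) : HasDerivAt (D.y b) (ph t • D.r b t) t := by
  have hc : Continuous (fun s => ph s • D.r b s) := continuous_ph.smul (D.contr b)
  have h1 : HasDerivAt (fun u => ∫ s in (0 : ℝ)..u, ph s • D.r b s) (ph t • D.r b t) t :=
    intervalIntegral.integral_hasDerivAt_right (hc.intervalIntegrable _ _)
      (hc.stronglyMeasurableAtFilter _ _) hc.continuousAt
  have h2 := h1.const_add (∫ s in Iic (0 : ℝ), ph s • D.r b s)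
  refine h2.congr_of_eventuallyEq (Eventually.of_forall (fun u => ?_))
  have := intervalIntegral.integral_Iic_sub_Iic (a := 0) (b := u) (f := fun s => ph s • D.r b s)
    (μ := volume) (D.intr b).integrableOn (D.intr b).integrableOn
  unfold y
  simp only
  rw [← this]
  abel

lemma y_eq (b : E) (hb : ∫ t, ph t • (D.N t b - D.q t) = 0) (t : ℝ) :
    D.y b t = - ∫ s in Ioi t, ph s • D.r b s := by
  have h1 := integral_add_compl (measurableSet_Iic (a := t)) (D.intr b)
  rw [compl_Iic] at h1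
  have h2 : (∫ x, ph x • D.r b x) = 0 := hb
  rw [h2] at h1
  exact eq_neg_of_add_eq_zero_left h1

noncomputable def L (b : E) : ℝ := Real.sqrt (D.C * ‖b‖ ^ 2) + Real.sqrt D.C

lemma L_nonneg (b : E) : 0 ≤ D.L b := add_nonneg (Real.sqrt_nonneg _) (Real.sqrt_nonneg _)

lemma inner_q_le (t : ℝ) (x : E) :
    |inner ℝ (D.q t) x| ≤ Real.sqrt D.C * Real.sqrt (inner ℝ (D.N t x) x) := by
  rw [← Real.sqrt_mul D.C0]
  exact Real.abs_le_sqrt (D.hqb t x)

lemma inner_N_le (t : ℝ) (x y : E) :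
    |inner ℝ (D.N t x) y| ≤ Real.sqrt (inner ℝ (D.N t x) x) * Real.sqrt (inner ℝ (D.N t y) y) := by
  rw [← Real.sqrt_mul (D.nonneg t x)]
  exact Real.abs_le_sqrt (cs (D.N t) (D.hsym t) (D.nonneg t) x y)

lemma inner_r_le (b : E) (t : ℝ) (x : E) :
    |inner ℝ (D.r b t) x| ≤ D.L b * Real.sqrt (inner ℝ (D.N t x) x) := by
  unfold r L
  rw [inner_sub_left]
  have h1 := D.inner_N_le t b x
  have h2 := D.inner_q_le t x
  have h3 := abs_sub (inner ℝ (D.N t b) x) (inner ℝ (D.q t) x)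
  have h4 : Real.sqrt (inner ℝ (D.N t b) b) ≤ Real.sqrt (D.C * ‖b‖ ^ 2) :=
    Real.sqrt_le_sqrt (D.hub t b)
  have h5 := Real.sqrt_nonneg (inner ℝ (D.N t x) x)
  nlinarith

lemma hasDerivAt_form (x : E) (t : ℝ) :
    HasDerivAt (fun s => inner ℝ (D.N s x) x) (inner ℝ (D.N1 t x) x : ℝ) t := by
  have h1 : HasDerivAt (fun s => D.N s x) (D.N1 t x) t := by
    have := (D.hN t).clm_apply (hasDerivAt_const t x)
    simpa using this
  have := h1.inner ℝ (hasDerivAt_const t x)
  simpa using this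

lemma sqrt_form_le (x : E) (s t : ℝ) :
    Real.sqrt (inner ℝ (D.N s x) x)
      ≤ Real.exp (D.C / 2 * |s - t|) * Real.sqrt (inner ℝ (D.N t x) x) := by
  have h1 := harnack (fun s => (inner ℝ (D.N s x) x : ℝ)) (fun s => (inner ℝ (D.N1 s x) x : ℝ)) D.C
    (D.hasDerivAt_form x) (fun t => D.hN1b t x) s t
  have h2 : Real.exp (D.C * |s - t|) = Real.exp (D.C / 2 * |s - t|) ^ 2 := by
    rw [← Real.exp_nat_mul]; congr 1; push_cast; ring
  rw [h2] at h1
  calc Real.sqrt (inner ℝ (D.N s x) x) ≤ Real.sqrt (Real.exp (D.C / 2 * |s - t|) ^ 2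
        * inner ℝ (D.N t x) x) := Real.sqrt_le_sqrt h1
    _ = _ := by
      rw [Real.sqrt_mul (by positivity), Real.sqrt_sq (Real.exp_pos _).le]

noncomputable def K (b : E) : ℝ := D.L b * ∫ u, kk (D.C / 2) u

lemma K_nonneg (b : E) : 0 ≤ D.K b :=
  mul_nonneg (D.L_nonneg b) (integral_nonneg (fun _ => (Real.exp_pos _).le))

lemma inner_y_le (b : E) (hb : ∫ t, ph t • (D.N t b - D.q t) = 0) (t : ℝ) (x : E) :
    |inner ℝ (D.y b t) x| ≤ D.K b * Real.sqrt (inner ℝ (D.N t x) x) * ph t := by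
  set M := D.L b * Real.sqrt (inner ℝ (D.N t x) x) with hM
  have hM0 : 0 ≤ M := mul_nonneg (D.L_nonneg b) (Real.sqrt_nonneg _)
  have hg : ∀ s, |inner ℝ (D.r b s) x| ≤ M * Real.exp (D.C / 2 * |s - t|) := by
    intro s
    refine (D.inner_r_le b s x).trans ?_
    calc D.L b * Real.sqrt (inner ℝ (D.N s x) x)
        ≤ D.L b * (Real.exp (D.C / 2 * |s - t|) * Real.sqrt (inner ℝ (D.N t x) x)) :=
          mul_le_mul_of_nonneg_left (D.sqrt_form_le x s t) (D.L_nonneg b)
      _ = _ := by rw [hM]; ring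
  have hint : ∀ T : Set ℝ, inner ℝ (∫ s in T, ph s • D.r b s) x
      = ∫ s in T, ph s * inner ℝ (D.r b s) x := by
    intro T
    rw [real_inner_comm, ← integral_inner (D.intr b).integrableOn]
    congr 1; funext s
    rw [inner_smul_right, real_inner_comm]
  have hfin : ∀ T : Set ℝ, MeasurableSet T → (∀ s ∈ T, 0 ≤ (s - t) * t) →
      |inner ℝ (∫ s in T, ph s • D.r b s) x| ≤ D.K b * Real.sqrt (inner ℝ (D.N t x) x) * ph t := by
    intro T hT h
    rw [hint]
    refine (tail_bound (D.C / 2) t T hT h (fun s => (inner ℝ (D.r b s) x : ℝ)) M hM0 hg).trans ?_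
    apply le_of_eq
    unfold K
    rw [hM]
    ring
  rcases le_total t 0 with ht | ht
  · unfold y
    apply hfin _ measurableSet_Iic
    intro s hs
    have : s ≤ t := hs
    nlinarith
  · rw [D.y_eq b hb t, inner_neg_left, abs_neg]
    apply hfin _ measurableSet_Ioi
    intro s hs
    have : t < s := hs
    nlinarith

noncomputable def w (b : E) (t : ℝ) : E := (ph t)⁻¹ • D.y b t

lemma hasDerivAt_w (b : E) (t : ℝ) : HasDerivAt (D.w b) (t • D.w b t + D.r b t) t := by
  have h1 := (hasDerivAt_ph t).inv (ph_pos t).ne'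
  have h2 := h1.smul (D.hasDerivAt_y b t)
  refine h2.congr_deriv ?_
  unfold w
  have := (ph_pos t).ne'
  rw [Pi.inv_apply, smul_smul, inv_mul_cancel₀ this, one_smul, smul_smul, add_comm]
  congr 2
  field_simp

lemma inner_w_le (b : E) (hb : ∫ t, ph t • (D.N t b - D.q t) = 0) (t : ℝ) (x : E) :
    |inner ℝ (D.w b t) x| ≤ D.K b * Real.sqrt (inner ℝ (D.N t x) x) := by
  unfold w
  rw [inner_smul_left, abs_mul]
  have h1 := D.inner_y_le b hb t x
  have h2 := ph_pos t
  simp only [conj_trivial]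
  rw [abs_of_pos (inv_pos.2 h2), inv_mul_le_iff₀ h2]
  linarith

lemma isUnitN (t : ℝ) : IsUnit (D.N t) := by
  rw [ContinuousLinearMap.isUnit_iff_bijective]
  have hinj : Function.Injective (D.N t : E →ₗ[ℝ] E) := by
    rw [← LinearMap.ker_eq_bot, LinearMap.ker_eq_bot']
    intro x hx
    by_contra hne
    have := D.hpos t x hne
    have hx' : D.N t x = 0 := hx
    rw [hx'] at this
    simp at this
  exact ⟨hinj, LinearMap.injective_iff_surjective.1 hinj⟩

noncomputable def Ni (t : ℝ) : E →L[ℝ] E := Ring.inverse (D.N t)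

lemma Ni_N (t : ℝ) (x : E) : D.Ni t (D.N t x) = x := by
  have := Ring.inverse_mul_cancel _ (D.isUnitN t)
  have h2 := congrArg (fun S : E →L[ℝ] E => S x) this
  exact h2

lemma N_Ni (t : ℝ) (x : E) : D.N t (D.Ni t x) = x := by
  have := Ring.mul_inverse_cancel _ (D.isUnitN t)
  have h2 := congrArg (fun S : E →L[ℝ] E => S x) this
  exact h2

lemma hasDerivAt_Ni (t : ℝ) : HasDerivAt D.Ni (-(D.Ni t * D.N1 t * D.Ni t)) t := by
  obtain ⟨u, hu⟩ := D.isUnitN t
  have h1 : HasFDerivAt (𝕜 := ℝ) (Ring.inverse : (E →L[ℝ] E) → (E →L[ℝ] E))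
      (-ContinuousLinearMap.mulLeftRight ℝ (E →L[ℝ] E) ((u⁻¹ : (E →L[ℝ] E)ˣ) : E →L[ℝ] E)
        ((u⁻¹ : (E →L[ℝ] E)ˣ) : E →L[ℝ] E)) (D.N t) := by
    rw [← hu]; exact hasFDerivAt_ringInverse (𝕜 := ℝ) u
  have h2 := h1.comp_hasDerivAt t (D.hN t)
  refine h2.congr_deriv ?_
  have h3 : D.Ni t = ((u⁻¹ : (E →L[ℝ] E)ˣ) : E →L[ℝ] E) := by
    unfold Ni; rw [← hu, Ring.inverse_unit]
  rw [h3]
  simp

noncomputable def z (b : E) (t : ℝ) : E := D.Ni t (D.w b t)

noncomputable def ζ (b : E) (t : ℝ) : E := D.Ni t (D.q t + D.N1 t (D.z b t))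

lemma N_z (b : E) (t : ℝ) : D.N t (D.z b t) = D.w b t := D.N_Ni t _

lemma N_ζ (b : E) (t : ℝ) : D.N t (D.ζ b t) = D.q t + D.N1 t (D.z b t) := D.N_Ni t _

lemma hasDerivAt_z (b : E) (t : ℝ) :
    HasDerivAt (D.z b) (b + t • D.z b t - D.ζ b t) t := by
  have h1 := (D.hasDerivAt_Ni t).clm_apply (D.hasDerivAt_w b t)
  refine h1.congr_deriv ?_
  have h2 : (-(D.Ni t * D.N1 t * D.Ni t)) (D.w b t) = - D.Ni t (D.N1 t (D.z b t)) := rfl
  rw [h2]
  unfold ζ r
  have h3 : D.Ni t (D.N t b - D.q t) = b - D.Ni t (D.q t) := by rw [map_sub, D.Ni_N]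
  rw [map_add, map_add, map_smul, h3]
  have h4 : D.Ni t (D.w b t) = D.z b t := rfl
  rw [h4]
  abel

lemma form_z_le (b : E) (hb : ∫ t, ph t • (D.N t b - D.q t) = 0) (t : ℝ) :
    Real.sqrt (inner ℝ (D.N t (D.z b t)) (D.z b t)) ≤ D.K b := by
  have h1 := D.inner_w_le b hb t (D.z b t)
  rw [← D.N_z b t] at h1
  have h0 := D.nonneg t (D.z b t)
  rw [abs_of_nonneg h0] at h1
  set S := Real.sqrt (inner ℝ (D.N t (D.z b t)) (D.z b t)) with hS
  have h2 : inner ℝ (D.N t (D.z b t)) (D.z b t) = S ^ 2 := (Real.sq_sqrt h0).symm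
  rw [h2] at h1
  have hS0 : 0 ≤ S := Real.sqrt_nonneg _
  by_cases h3 : S = 0
  · rw [h3]; exact D.K_nonneg b
  · have h4 : 0 < S := lt_of_le_of_ne hS0 (Ne.symm h3)
    have h5 : S * S ≤ D.K b * S := by nlinarith
    exact le_of_mul_le_mul_right h5 h4

noncomputable def Ψ (b : E) (t : ℝ) : ℝ :=
  ph t * (2 * inner ℝ (D.q t) (D.z b t) + inner ℝ (D.N1 t (D.z b t)) (D.z b t)
    - t * inner ℝ (D.N t (D.z b t)) (D.z b t) - 2 * inner ℝ (D.N t (D.z b t)) b)

lemma abs_Ψ_le (b : E) (hb : ∫ t, ph t • (D.N t b - D.q t) = 0) (t : ℝ) :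
    |D.Ψ b t| ≤ (2 * (Real.sqrt D.C * D.K b) + D.C * D.K b ^ 2 + 2 * (D.K b * Real.sqrt (D.C * ‖b‖ ^ 2))
      + D.K b ^ 2) * ((1 + |t|) * ph t) := by
  have hz := D.form_z_le b hb t
  have h0 := D.nonneg t (D.z b t)
  set S := Real.sqrt (inner ℝ (D.N t (D.z b t)) (D.z b t)) with hS
  have hS0 : 0 ≤ S := Real.sqrt_nonneg _
  have h2 : inner ℝ (D.N t (D.z b t)) (D.z b t) = S ^ 2 := (Real.sq_sqrt h0).symm
  have e1 : |inner ℝ (D.q t) (D.z b t)| ≤ Real.sqrt D.C * D.K b :=
    (D.inner_q_le t _).trans (mul_le_mul_of_nonneg_left hz (Real.sqrt_nonneg _))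
  have e2 : |inner ℝ (D.N1 t (D.z b t)) (D.z b t)| ≤ D.C * D.K b ^ 2 := by
    refine (D.hN1b t _).trans (mul_le_mul_of_nonneg_left ?_ D.C0)
    rw [h2]
    exact pow_le_pow_left₀ hS0 hz 2
  have e3 : |inner ℝ (D.N t (D.z b t)) b| ≤ D.K b * Real.sqrt (D.C * ‖b‖ ^ 2) := by
    refine (D.inner_N_le t _ _).trans ?_
    exact mul_le_mul hz (Real.sqrt_le_sqrt (D.hub t b)) (Real.sqrt_nonneg _) (D.K_nonneg b)
  have e4 : |inner ℝ (D.N t (D.z b t)) (D.z b t)| ≤ D.K b ^ 2 := by
    rw [h2, abs_of_nonneg (sq_nonneg _)]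
    exact pow_le_pow_left₀ hS0 hz 2
  have e5 : |t * inner ℝ (D.N t (D.z b t)) (D.z b t)| ≤ |t| * D.K b ^ 2 := by
    rw [abs_mul]; exact mul_le_mul_of_nonneg_left e4 (abs_nonneg _)
  unfold Ψ
  rw [abs_mul, abs_of_pos (ph_pos t)]
  have hp := ph_pos t
  have ht := abs_nonneg t
  have hA : 0 ≤ Real.sqrt D.C * D.K b := mul_nonneg (Real.sqrt_nonneg _) (D.K_nonneg b)
  have hB : 0 ≤ D.C * D.K b ^ 2 := mul_nonneg D.C0 (sq_nonneg _)
  have hC : 0 ≤ D.K b * Real.sqrt (D.C * ‖b‖ ^ 2) := mul_nonneg (D.K_nonneg b) (Real.sqrt_nonneg _)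
  have hD : 0 ≤ D.K b ^ 2 := sq_nonneg _
  have key : |2 * inner ℝ (D.q t) (D.z b t) + inner ℝ (D.N1 t (D.z b t)) (D.z b t)
      - t * inner ℝ (D.N t (D.z b t)) (D.z b t) - 2 * inner ℝ (D.N t (D.z b t)) b|
      ≤ (2 * (Real.sqrt D.C * D.K b) + D.C * D.K b ^ 2 + 2 * (D.K b * Real.sqrt (D.C * ‖b‖ ^ 2))
      + D.K b ^ 2) * (1 + |t|) := by
    have f1 : |2 * inner ℝ (D.q t) (D.z b t) + inner ℝ (D.N1 t (D.z b t)) (D.z b t)
      - t * inner ℝ (D.N t (D.z b t)) (D.z b t) - 2 * inner ℝ (D.N t (D.z b t)) b|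
      ≤ 2 * (Real.sqrt D.C * D.K b) + D.C * D.K b ^ 2 + 2 * (D.K b * Real.sqrt (D.C * ‖b‖ ^ 2))
        + |t| * D.K b ^ 2 := by
      rw [abs_le] at e1 e2 e3 e5 ⊢
      constructor <;> linarith [e1.1, e1.2, e2.1, e2.2, e3.1, e3.2, e5.1, e5.2]
    nlinarith [mul_nonneg hA ht, mul_nonneg hB ht, mul_nonneg hC ht, mul_nonneg hD ht]
  calc ph t * _ ≤ ph t * ((2 * (Real.sqrt D.C * D.K b) + D.C * D.K b ^ 2
        + 2 * (D.K b * Real.sqrt (D.C * ‖b‖ ^ 2)) + D.K b ^ 2) * (1 + |t|)) :=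
        mul_le_mul_of_nonneg_left key hp.le
    _ = _ := by ring

lemma symN1 (t : ℝ) (x y : E) : inner ℝ (D.N1 t x) y = inner ℝ x (D.N1 t y) := by
  have h1 : HasDerivAt (fun s => inner ℝ (D.N s x) y) (inner ℝ (D.N1 t x) y : ℝ) t := by
    have h : HasDerivAt (fun s => D.N s x) (D.N1 t x) t := by
      have := (D.hN t).clm_apply (hasDerivAt_const t x)
      simpa using this
    have := h.inner ℝ (hasDerivAt_const t y)
    simpa using this
  have h2 : HasDerivAt (fun s => inner ℝ x (D.N s y)) (inner ℝ x (D.N1 t y) : ℝ) t := by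
    have h : HasDerivAt (fun s => D.N s y) (D.N1 t y) t := by
      have := (D.hN t).clm_apply (hasDerivAt_const t y)
      simpa using this
    have := (hasDerivAt_const t x).inner ℝ h
    simpa using this
  have h3 : (fun s => inner ℝ (D.N s x) y) = (fun s => (inner ℝ x (D.N s y) : ℝ)) := by
    funext s; exact D.hsym s x y
  rw [h3] at h1
  exact h1.unique h2

/-- the value of the form at the best `ζ` -/
lemma best (t : ℝ) (b : E) :
    D.a t + 2 * inner ℝ (D.q1 t) (D.z b t) + inner ℝ (D.N2 t (D.z b t)) (D.z b t)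
      - inner ℝ (D.N t (D.ζ b t)) (D.ζ b t) ≤ 0 := by
  obtain ⟨e, he⟩ := D.H t (D.z b t)
  rw [← D.N_ζ b t] at he
  have h1 := D.nonneg t (e - D.ζ b t)
  rw [map_sub, inner_sub_left, inner_sub_right, inner_sub_right] at h1
  have h2 : inner ℝ (D.N t e) (D.ζ b t) = inner ℝ (D.N t (D.ζ b t)) e := by
    rw [D.hsym, real_inner_comm]
  rw [h2] at h1
  linarith

lemma hasDerivAt_Ψ (b : E) (t : ℝ) :
    HasDerivAt (D.Ψ b)
      (ph t * (D.a t + 2 * inner ℝ (D.q1 t) (D.z b t) + inner ℝ (D.N2 t (D.z b t)) (D.z b t)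
          - inner ℝ (D.N t (D.ζ b t)) (D.ζ b t))
        - ph t * (D.a t - 2 * inner ℝ (D.q t) b + inner ℝ (D.N t b) b)
        - ph t * (inner ℝ (D.N t (D.z b t)) (D.z b t)
          + inner ℝ (D.N t (b + t • D.z b t - D.ζ b t)) (b + t • D.z b t - D.ζ b t))) t := by
  set Z := D.z b t with hZ
  set Z' := b + t • D.z b t - D.ζ b t with hZ'
  have dz := D.hasDerivAt_z b t
  have dq := D.hq t
  have dN := (D.hN t).clm_apply dz
  have dN1 := (D.hN1 t).clm_apply dz
  have d1 := (dq.inner ℝ dz).const_mul 2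
  have d2 := dN1.inner ℝ dz
  have d3 := (hasDerivAt_id t).mul (dN.inner ℝ dz)
  have d4 := (dN.inner ℝ (hasDerivAt_const t b)).const_mul 2
  have d5 := (hasDerivAt_ph t).mul (((d1.add d2).sub d3).sub d4)
  have d6 : HasDerivAt (D.Ψ b) _ t := d5
  refine d6.congr_deriv ?_
  have hζ := D.N_ζ b t
  have e1 : D.ζ b t = b + t • Z - Z' := by rw [hZ', hZ]; abel
  have s1 : ∀ x y : E, inner ℝ (D.N t x) y = inner ℝ (D.N t y) x := by
    intro x y; rw [D.hsym, real_inner_comm]
  have s2 : ∀ x y : E, inner ℝ (D.N1 t x) y = inner ℝ (D.N1 t y) x := by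
    intro x y; rw [D.symN1, real_inner_comm]
  rw [← hZ] at hζ
  have hq' : D.q t = D.N t (D.ζ b t) - D.N1 t Z := by rw [hζ]; abel
  simp only [← hZ, Pi.add_apply, Pi.mul_apply, Pi.sub_apply, id_eq]
  rw [hq', e1]
  simp only [map_add, map_sub, map_smul, inner_add_left, inner_add_right, inner_sub_left,
    inner_sub_right, inner_smul_left, inner_smul_right, conj_trivial, inner_zero_right]
  rw [s1 Z' Z, s1 b Z, s1 Z' b, s2 Z' Z, s2 Z b, real_inner_comm Z (D.q1 t)]
  ring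

lemma tendsto_lin_ph_top : Tendsto (fun t : ℝ => (1 + |t|) * ph t) atTop (𝓝 0) := by
  have h1 : Tendsto (fun t : ℝ => 2 * t * ph t + 0) atTop (𝓝 (0 + 0)) := by
    refine Tendsto.add ?_ tendsto_const_nhds
    have h2 := Real.tendsto_pow_mul_exp_neg_atTop_nhds_zero 1
    have h3 : Tendsto (fun t : ℝ => 2 * (t ^ 1 * Real.exp (-t))) atTop (𝓝 (2 * 0)) := h2.const_mul 2
    rw [mul_zero] at h3
    refine tendsto_of_tendsto_of_tendsto_of_le_of_le' tendsto_const_nhds h3 ?_ ?_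
    · filter_upwards [eventually_ge_atTop (0 : ℝ)] with t ht
      have := ph_pos t
      positivity
    · filter_upwards [eventually_ge_atTop (2 : ℝ)] with t ht
      have h4 : ph t ≤ Real.exp (-t) := by
        unfold ph
        apply Real.exp_le_exp.2
        nlinarith
      have : 0 ≤ t := by linarith
      rw [pow_one, mul_assoc]
      exact mul_le_mul_of_nonneg_left (mul_le_mul_of_nonneg_left h4 this) (by norm_num)
  rw [add_zero] at h1
  refine tendsto_of_tendsto_of_tendsto_of_le_of_le' tendsto_const_nhds h1 ?_ ?_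
  · filter_upwards with t
    have := ph_pos t
    positivity
  · filter_upwards [eventually_ge_atTop (1 : ℝ)] with t ht
    have := ph_pos t
    rw [abs_of_nonneg (by linarith)]
    nlinarith

lemma tendsto_lin_ph_bot : Tendsto (fun t : ℝ => (1 + |t|) * ph t) atBot (𝓝 0) := by
  have h1 := tendsto_lin_ph_top.comp tendsto_neg_atBot_atTop
  refine h1.congr (fun t => ?_)
  simp only [Function.comp, abs_neg]
  unfold ph
  rw [neg_sq]

theorem final (D : OD E) :
    ∃ b : E, ∫ t, (D.a t - 2 * inner ℝ (D.q t) b + inner ℝ (D.N t b) b) ∂(gaussianReal 0 1) ≤ 0 := by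
  obtain ⟨b, hb⟩ := D.exists_b
  refine ⟨b, ?_⟩
  rw [integral_gauss]
  simp only [smul_eq_mul]
  set f : ℝ → ℝ := fun t => D.a t - 2 * inner ℝ (D.q t) b + inner ℝ (D.N t b) b with hf
  have hfc : Continuous f :=
    (D.ha.sub ((D.contq.inner continuous_const).const_mul 2)).add
      ((D.contNx b).inner continuous_const)
  have hfi : Integrable (fun t => ph t * f t) := by
    refine integrable_ph_smul f hfc (D.C + 2 * (D.C * ‖b‖) + D.C * ‖b‖ * ‖b‖) (fun t => ?_)
    rw [Real.norm_eq_abs]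
    have h1 := D.haC t
    have h2 : |inner ℝ (D.q t) b| ≤ D.C * ‖b‖ :=
      (abs_real_inner_le_norm _ _).trans (mul_le_mul_of_nonneg_right (D.normq t) (norm_nonneg _))
    have h3 : |inner ℝ (D.N t b) b| ≤ D.C * ‖b‖ * ‖b‖ :=
      (abs_real_inner_le_norm _ _).trans (mul_le_mul_of_nonneg_right (D.normN t b) (norm_nonneg _))
    rw [hf]
    rw [abs_le] at h1 h2 h3 ⊢
    constructor <;> linarith [h1.1, h1.2, h2.1, h2.2, h3.1, h3.2]
  have hc : Continuous (fun t => ph t * f t) := continuous_ph.mul hfc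
  set G : ℝ → ℝ := fun t => D.Ψ b t + ∫ s in (0 : ℝ)..t, ph s * f s with hG
  have hGd : ∀ t, HasDerivAt G
      (ph t * (D.a t + 2 * inner ℝ (D.q1 t) (D.z b t) + inner ℝ (D.N2 t (D.z b t)) (D.z b t)
          - inner ℝ (D.N t (D.ζ b t)) (D.ζ b t))
        - ph t * (inner ℝ (D.N t (D.z b t)) (D.z b t)
          + inner ℝ (D.N t (b + t • D.z b t - D.ζ b t)) (b + t • D.z b t - D.ζ b t))) t := by
    intro t
    have h1 : HasDerivAt (fun u => ∫ s in (0 : ℝ)..u, ph s * f s) (ph t * f t) t :=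
      intervalIntegral.integral_hasDerivAt_right (hc.intervalIntegrable _ _)
        (hc.stronglyMeasurableAtFilter _ _) hc.continuousAt
    refine ((D.hasDerivAt_Ψ b t).add h1).congr_deriv ?_
    rw [hf]
    ring
  have hanti : Antitone G := by
    refine antitone_of_hasDerivAt_nonpos hGd (fun t => ?_)
    have h1 := D.best t b
    have h2 := D.nonneg t (D.z b t)
    have h3 := D.nonneg t (b + t • D.z b t - D.ζ b t)
    have h4 := ph_pos t
    simp only [Pi.zero_apply]
    nlinarith [mul_nonneg h4.le h2, mul_nonneg h4.le h3, mul_nonneg h4.le (neg_nonneg.2 h1)]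
  have hle : ∀ T : ℝ, 0 ≤ T → (∫ s in (-T)..T, ph s * f s) ≤ D.Ψ b (-T) - D.Ψ b T := by
    intro T hT
    have h1 := hanti (show -T ≤ T by linarith)
    simp only [hG] at h1
    have h2 := intervalIntegral.integral_add_adjacent_intervals (hc.intervalIntegrable (-T) 0)
      (hc.intervalIntegrable 0 T) (μ := volume)
    have h3 : (∫ s in (0 : ℝ)..(-T), ph s * f s) = - ∫ s in (-T)..0, ph s * f s :=
      intervalIntegral.integral_symm _ _
    rw [h3] at h1
    linarith
  have hΨ : ∀ l : Filter ℝ, Tendsto (fun t : ℝ => (1 + |t|) * ph t) l (𝓝 0) →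
      Tendsto (D.Ψ b) l (𝓝 0) := by
    intro l hl
    rw [tendsto_zero_iff_abs_tendsto_zero]
    have h1 := hl.const_mul (2 * (Real.sqrt D.C * D.K b) + D.C * D.K b ^ 2
      + 2 * (D.K b * Real.sqrt (D.C * ‖b‖ ^ 2)) + D.K b ^ 2)
    rw [mul_zero] at h1
    exact squeeze_zero (fun t => abs_nonneg _) (fun t => D.abs_Ψ_le b hb t) h1
  have hT := hΨ atTop tendsto_lin_ph_top
  have hB := (hΨ atBot tendsto_lin_ph_bot).comp tendsto_neg_atTop_atBot
  have hI : Tendsto (fun T : ℝ => ∫ s in (-T)..T, ph s * f s) atTop (𝓝 (∫ s, ph s * f s)) :=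
    intervalIntegral_tendsto_integral hfi tendsto_neg_atTop_atBot tendsto_id
  have hlim := le_of_tendsto_of_tendsto hI (hB.sub hT)
    ((eventually_ge_atTop 0).mono (fun T hT => hle T hT))
  rw [sub_zero] at hlim
  exact mul_nonpos_of_nonneg_of_nonpos (by positivity) hlim

end OD

end main

end OneDimAux

section onedim

variable {E : Type} [NormedAddCommGroup E] [InnerProductSpace ℝ E] [FiniteDimensional ℝ E]

theorem oneDim (a : ℝ → ℝ) (q q1 : ℝ → E) (N N1 N2 : ℝ → E →L[ℝ] E) (C : ℝ)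
    (ha : Continuous a) (haC : ∀ t, |a t| ≤ C)
    (hq : ∀ t, HasDerivAt q (q1 t) t)
    (hN : ∀ t, HasDerivAt N (N1 t) t) (hN1 : ∀ t, HasDerivAt N1 (N2 t) t)
    (hsym : ∀ t x y, inner ℝ (N t x) y = inner ℝ x (N t y))
    (hpos : ∀ t x, x ≠ 0 → 0 < inner ℝ (N t x) x)
    (hub : ∀ t x, inner ℝ (N t x) x ≤ C * ‖x‖ ^ 2)
    (hN1b : ∀ t x, |inner ℝ (N1 t x) x| ≤ C * inner ℝ (N t x) x)
    (hqb : ∀ t x, (inner ℝ (q t) x) ^ 2 ≤ C * inner ℝ (N t x) x)
    (H : ∀ t z, ∃ ζ, a t + 2 * inner ℝ (q1 t) z + inner ℝ (N2 t z) z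
      - 2 * inner ℝ (q t + N1 t z) ζ + inner ℝ (N t ζ) ζ ≤ 0) :
    ∃ b : E, ∫ t, (a t - 2 * inner ℝ (q t) b + inner ℝ (N t b) b) ∂(gaussianReal 0 1) ≤ 0 :=
  OneDimAux.OD.final ⟨a, q, q1, N, N1, N2, C, ha, haC, hq, hN, hN1, hsym, hpos, hub, hN1b, hqb, H⟩

end onedim

end Pool.H65.PS
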