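import Pool.Agent.Helper65.PS.OneDim

set_option autoImplicit false

open MeasureTheory ProbabilityTheory

namespace Pool.H65.PS

namespace OneDimMat

/-- the vector with coordinates `v`. -/
noncomputable def vec {ι : Type} [Fintype ι] [DecidableEq ι] (v : ι → ℝ) : EuclideanSpace ℝ ι :=
  ∑ i, v i • EuclideanSpace.single i (1 : ℝ)

/-- the operator with matrix `M`. -/
noncomputable def op {ι : Type} [Fintype ι] [DecidableEq ι] (M : ι → ι → ℝ) :
    EuclideanSpace ℝ ι →L[ℝ] EuclideanSpace ℝ ι :=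
  ∑ i, ∑ j, M i j • (ContinuousLinearMap.smulRight
    (EuclideanSpace.proj j : EuclideanSpace ℝ ι →L[ℝ] ℝ) (EuclideanSpace.single i (1 : ℝ)))

section
variable {ι : Type} [Fintype ι] [DecidableEq ι]

theorem inner_vec (v : ι → ℝ) (y : EuclideanSpace ℝ ι) :
    inner ℝ (vec v) y = ∑ i, v i * y i := by
  unfold vec
  rw [sum_inner]
  refine Finset.sum_congr rfl fun i _ => ?_
  rw [real_inner_smul_left, EuclideanSpace.inner_single_left]
  simp

theorem op_apply (M : ι → ι → ℝ) (x : EuclideanSpace ℝ ι) :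
    op M x = ∑ i, (∑ j, M i j * x j) • EuclideanSpace.single i (1 : ℝ) := by
  unfold op
  rw [sum_apply]
  refine Finset.sum_congr rfl fun i _ => ?_
  rw [sum_apply, Finset.sum_smul]
  refine Finset.sum_congr rfl fun j _ => ?_
  rw [smul_apply, ContinuousLinearMap.smulRight_apply, smul_smul]
  rfl

theorem inner_op (M : ι → ι → ℝ) (x y : EuclideanSpace ℝ ι) :
    inner ℝ (op M x) y = ∑ i, ∑ j, M i j * x j * y i := by
  rw [op_apply, show (∑ i, (∑ j, M i j * x j) • EuclideanSpace.single i (1 : ℝ))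
    = vec (fun i => ∑ j, M i j * x j) from rfl, inner_vec]
  refine Finset.sum_congr rfl fun i _ => ?_
  rw [Finset.sum_mul]

theorem inner_op' (M : ι → ι → ℝ) (x y : EuclideanSpace ℝ ι) :
    inner ℝ (op M x) y = ∑ i, ∑ j, M j i * x i * y j := by
  rw [inner_op, Finset.sum_comm]

theorem hasDerivAt_vec {q : ℝ → ι → ℝ} {q1 : ι → ℝ} {t : ℝ}
    (h : ∀ i, HasDerivAt (fun s => q s i) (q1 i) t) :
    HasDerivAt (fun s => vec (q s)) (vec q1) t := by
  unfold vec
  refine HasDerivAt.fun_sum fun i _ => ?_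
  exact HasDerivAt.smul_const (h i) (EuclideanSpace.single i (1 : ℝ))

theorem hasDerivAt_op {N : ℝ → ι → ι → ℝ} {N1 : ι → ι → ℝ} {t : ℝ}
    (h : ∀ i j, HasDerivAt (fun s => N s i j) (N1 i j) t) :
    HasDerivAt (fun s => op (N s)) (op N1) t := by
  unfold op
  refine HasDerivAt.fun_sum fun i _ => ?_
  refine HasDerivAt.fun_sum fun j _ => ?_
  exact HasDerivAt.smul_const (h i j) (ContinuousLinearMap.smulRight
    (EuclideanSpace.proj j : EuclideanSpace ℝ ι →L[ℝ] ℝ) (EuclideanSpace.single i (1 : ℝ)))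

end

end OneDimMat

open OneDimMat

/-- Coordinate form of the one-dimensional lemma. -/
theorem oneDimMat {ι : Type} [Fintype ι] (a : ℝ → ℝ) (q q1 : ℝ → ι → ℝ)
    (N N1 N2 : ℝ → ι → ι → ℝ) (C : ℝ)
    (ha : Continuous a) (haC : ∀ t, |a t| ≤ C)
    (hq : ∀ i t, HasDerivAt (fun s => q s i) (q1 t i) t)
    (hN : ∀ i j t, HasDerivAt (fun s => N s i j) (N1 t i j) t)
    (hN1 : ∀ i j t, HasDerivAt (fun s => N1 s i j) (N2 t i j) t)
    (hsym : ∀ t i j, N t i j = N t j i)
    (hpos : ∀ t (x : ι → ℝ), x ≠ 0 → 0 < ∑ i, ∑ j, N t i j * x i * x j)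
    (hub : ∀ t (x : ι → ℝ), ∑ i, ∑ j, N t i j * x i * x j ≤ C * ∑ i, x i ^ 2)
    (hN1b : ∀ t (x : ι → ℝ), |∑ i, ∑ j, N1 t i j * x i * x j| ≤ C * ∑ i, ∑ j, N t i j * x i * x j)
    (hqb : ∀ t (x : ι → ℝ), (∑ i, q t i * x i) ^ 2 ≤ C * ∑ i, ∑ j, N t i j * x i * x j)
    (H : ∀ t (z : ι → ℝ), ∃ ζ : ι → ℝ, a t + 2 * ∑ i, q1 t i * z i + ∑ i, ∑ j, N2 t i j * z i * z j
      - 2 * (∑ i, q t i * ζ i + ∑ i, ∑ j, N1 t i j * z i * ζ j)
      + ∑ i, ∑ j, N t i j * ζ i * ζ j ≤ 0) :
    ∃ b : ι → ℝ, ∫ t, (a t - 2 * ∑ i, q t i * b i + ∑ i, ∑ j, N t i j * b i * b j)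
      ∂(gaussianReal 0 1) ≤ 0 := by
  classical
  -- symmetry of the derivative
  have hsym1 : ∀ t i j, N1 t i j = N1 t j i := by
    intro t i j
    have h1 := hN i j t
    have h2 := hN j i t
    have e : (fun s => N s i j) = fun s => N s j i := by
      funext s; exact hsym s i j
    rw [e] at h1
    exact h1.unique h2
  have quad : ∀ (M : ι → ι → ℝ) (x : EuclideanSpace ℝ ι),
      inner ℝ (op M x) x = ∑ i, ∑ j, M i j * x i * x j := by
    intro M x
    rw [inner_op]
    refine Finset.sum_congr rfl fun i _ => Finset.sum_congr rfl fun j _ => ?_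
    ring
  obtain ⟨b, hb⟩ := oneDim a (fun t => vec (q t)) (fun t => vec (q1 t)) (fun t => op (N t))
    (fun t => op (N1 t)) (fun t => op (N2 t)) C ha haC
    (fun t => hasDerivAt_vec fun i => hq i t)
    (fun t => hasDerivAt_op fun i j => hN i j t)
    (fun t => hasDerivAt_op fun i j => hN1 i j t)
    (by
      intro t x y
      rw [real_inner_comm (op (N t) y) x, inner_op, inner_op', ]
      refine Finset.sum_congr rfl fun i _ => Finset.sum_congr rfl fun j _ => ?_
      rw [hsym t j i]; ring)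
    (by
      intro t x hx
      rw [quad]
      refine hpos t (fun i => x i) ?_
      intro h
      apply hx
      ext i
      exact congrFun h i)
    (by
      intro t x
      rw [quad, EuclideanSpace.real_norm_sq_eq]
      exact hub t (fun i => x i))
    (by
      intro t x
      rw [quad, quad]
      exact hN1b t (fun i => x i))
    (by
      intro t x
      rw [inner_vec, quad]
      exact hqb t (fun i => x i))
    (by
      intro t z
      obtain ⟨ζ, hζ⟩ := H t (fun i => z i)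
      refine ⟨WithLp.toLp 2 ζ, ?_⟩
      rw [inner_vec, quad, quad, inner_add_left, inner_vec, inner_op]
      have e : ∑ i, ∑ j, N1 t i j * z j * (WithLp.toLp 2 ζ : EuclideanSpace ℝ ι) i
          = ∑ i, ∑ j, N1 t i j * z i * ζ j := by
        rw [Finset.sum_comm]
        refine Finset.sum_congr rfl fun i _ => Finset.sum_congr rfl fun j _ => ?_
        rw [hsym1 t j i]
      rw [e]
      exact hζ)
  refine ⟨fun i => b i, ?_⟩
  have e : ∀ t, a t - 2 * inner ℝ (vec (q t)) b + inner ℝ (op (N t) b) b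
      = a t - 2 * ∑ i, q t i * b i + ∑ i, ∑ j, N t i j * b i * b j := by
    intro t
    rw [inner_vec, quad]
  simp only [e] at hb
  exact hb

end Pool.H65.PS
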