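import Pool.Agent.Helper65.PS.Ind
import Pool.Agent.Helper65.PS.Ibp

set_option autoImplicit false

open MeasureTheory ProbabilityTheory

namespace Pool.H65.PS

section sgl

variable {ι κ : Type} [Fintype ι] [Nonempty ι] [Fintype κ]

theorem sgl_continuous_lin (W : κ → ι → ℝ) : Continuous (lin W) := by
  unfold lin
  fun_prop

theorem sgl_lin_update [DecidableEq κ] (W : κ → ι → ℝ) (g : κ → ℝ) (i : κ) (s : ℝ) :
    lin W (Function.update g i s) = lin W (Function.update g i 0) + s • W i := by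
  unfold lin
  rw [← Finset.add_sum_erase Finset.univ (fun k => Function.update g i s k • W k)
      (Finset.mem_univ i),
    ← Finset.add_sum_erase Finset.univ (fun k => Function.update g i 0 k • W k)
      (Finset.mem_univ i)]
  have h : ∀ t : ℝ, ∑ k ∈ Finset.univ.erase i, Function.update g i t k • W k
      = ∑ k ∈ Finset.univ.erase i, g k • W k := by
    intro t
    apply Finset.sum_congr rfl
    intro k hk
    rw [Function.update_of_ne (Finset.ne_of_mem_erase hk)]
  rw [h, h]
  simp only [Function.update_self, zero_smul, zero_add]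
  rw [add_comm]

theorem sgl_cont_k2 (W : κ → ι → ℝ) (c v w : ι → ℝ) :
    Continuous (fun g : κ → ℝ => k2 (c + lin W g) v w) := by
  have h := continuous_k2 (ι := ι)
  exact h.comp ((continuous_const.add (sgl_continuous_lin W)).prodMk
    (continuous_const.prodMk continuous_const) : Continuous
      (fun g : κ → ℝ => ((c + lin W g, v, w) : (ι → ℝ) × (ι → ℝ) × (ι → ℝ))))

theorem sgl_cont_k3 (W : κ → ι → ℝ) (c u v w : ι → ℝ) :
    Continuous (fun g : κ → ℝ => k3 (c + lin W g) u v w) := by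
  have h := continuous_k3 (ι := ι)
  exact h.comp ((continuous_const.add (sgl_continuous_lin W)).prodMk
    (continuous_const.prodMk (continuous_const.prodMk continuous_const)) : Continuous
      (fun g : κ → ℝ => ((c + lin W g, u, v, w) :
        (ι → ℝ) × (ι → ℝ) × (ι → ℝ) × (ι → ℝ))))

theorem sgl_cont_k4 (W : κ → ι → ℝ) (c a u v w : ι → ℝ) :
    Continuous (fun g : κ → ℝ => k4 (c + lin W g) a u v w) := by
  have h := continuous_k4 (ι := ι)
  exact h.comp ((continuous_const.add (sgl_continuous_lin W)).prodMk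
    (continuous_const.prodMk (continuous_const.prodMk
      (continuous_const.prodMk continuous_const))) : Continuous
      (fun g : κ → ℝ => ((c + lin W g, a, u, v, w) :
        (ι → ℝ) × (ι → ℝ) × (ι → ℝ) × (ι → ℝ) × (ι → ℝ))))

theorem sgl_ibp_k2 [DecidableEq κ] (W : κ → ι → ℝ) (c v w : ι → ℝ) (i : κ) :
    ∫ g, g i * k2 (c + lin W g) v w ∂(gam κ) = ∫ g, k3 (c + lin W g) v w (W i) ∂(gam κ) := by
  apply gam_ibp i _ _ (4 * ‖v‖ * ‖w‖ + 8 * ‖v‖ * ‖w‖ * ‖W i‖) 0 (sgl_cont_k2 W c v w)
    (sgl_cont_k3 W c v w (W i))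
  · intro g t
    have h := hasDerivAt_k2 (c + lin W (Function.update g i 0)) (W i) v w t
    have e : ∀ s : ℝ, c + lin W (Function.update g i s)
        = c + lin W (Function.update g i 0) + s • W i := by
      intro s; rw [sgl_lin_update, add_assoc]
    have hf : (fun s : ℝ => k2 (c + lin W (Function.update g i s)) v w)
        = fun s : ℝ => k2 (c + lin W (Function.update g i 0) + s • W i) v w := by
      funext s; rw [e s]
    rw [hf, e t]
    exact h
  · intro g
    have h := abs_k2_le (c + lin W g) v w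
    have : 0 ≤ 8 * ‖v‖ * ‖w‖ * ‖W i‖ := by positivity
    simp only [pow_zero, mul_one]
    linarith
  · intro g
    have h := abs_k3_le (c + lin W g) v w (W i)
    have : 0 ≤ 4 * ‖v‖ * ‖w‖ := by positivity
    simp only [pow_zero, mul_one]
    linarith

theorem sgl_ibp_k3 [DecidableEq κ] (W : κ → ι → ℝ) (c u v w : ι → ℝ) (i : κ) :
    ∫ g, g i * k3 (c + lin W g) u v w ∂(gam κ)
      = ∫ g, k4 (c + lin W g) u v w (W i) ∂(gam κ) := by
  apply gam_ibp i _ _ (8 * ‖u‖ * ‖v‖ * ‖w‖ + 64 * ‖u‖ * ‖v‖ * ‖w‖ * ‖W i‖) 0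
    (sgl_cont_k3 W c u v w) (sgl_cont_k4 W c u v w (W i))
  · intro g t
    have h := hasDerivAt_k3 (c + lin W (Function.update g i 0)) (W i) u v w t
    have e : ∀ s : ℝ, c + lin W (Function.update g i s)
        = c + lin W (Function.update g i 0) + s • W i := by
      intro s; rw [sgl_lin_update, add_assoc]
    have hf : (fun s : ℝ => k3 (c + lin W (Function.update g i s)) u v w)
        = fun s : ℝ => k3 (c + lin W (Function.update g i 0) + s • W i) u v w := by
      funext s; rw [e s]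
    rw [hf, e t]
    exact h
  · intro g
    have h := abs_k3_le (c + lin W g) u v w
    have : 0 ≤ 64 * ‖u‖ * ‖v‖ * ‖w‖ * ‖W i‖ := by positivity
    simp only [pow_zero, mul_one]
    linarith
  · intro g
    have h := abs_k4_le (c + lin W g) u v w (W i)
    have : 0 ≤ 8 * ‖u‖ * ‖v‖ * ‖w‖ := by positivity
    simp only [pow_zero, mul_one]
    linarith

theorem sgl_coord_le (g : κ → ℝ) (i : κ) : |g i| ≤ 1 + ‖g‖ := by
  have h := norm_le_pi_norm g i
  rw [Real.norm_eq_abs] at h
  linarith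

theorem sgl_ibp_two [DecidableEq κ] (W : κ → ι → ℝ) (c v w : ι → ℝ) (i j : κ) :
    ∫ g, g i * (g j * k2 (c + lin W g) v w) ∂(gam κ)
      = ∫ g, ((if i = j then k2 (c + lin W g) v w else 0)
          + g j * k3 (c + lin W g) v w (W i)) ∂(gam κ) := by
  apply gam_ibp i _ _ (4 * ‖v‖ * ‖w‖ + 8 * ‖v‖ * ‖w‖ * ‖W i‖) 1
  · exact (continuous_apply j).mul (sgl_cont_k2 W c v w)
  · apply Continuous.add
    · by_cases h : i = j
      · simp only [h, if_true]; exact sgl_cont_k2 W c v w
      · simp only [h, if_false]; exact continuous_const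
    · exact (continuous_apply j).mul (sgl_cont_k3 W c v w (W i))
  · intro g t
    have h := hasDerivAt_k2 (c + lin W (Function.update g i 0)) (W i) v w t
    have e : ∀ s : ℝ, c + lin W (Function.update g i s)
        = c + lin W (Function.update g i 0) + s • W i := by
      intro s; rw [sgl_lin_update, add_assoc]
    have hf : (fun s : ℝ => k2 (c + lin W (Function.update g i s)) v w)
        = fun s : ℝ => k2 (c + lin W (Function.update g i 0) + s • W i) v w := by
      funext s; rw [e s]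
    have h' : HasDerivAt (fun s : ℝ => k2 (c + lin W (Function.update g i s)) v w)
        (k3 (c + lin W (Function.update g i t)) v w (W i)) t := by
      rw [hf, e t]; exact h
    by_cases hij : i = j
    · subst hij
      simp only [Function.update_self, if_true]
      have h2 := (hasDerivAt_id' t).mul h'
      rw [one_mul] at h2
      exact h2
    · have hji : j ≠ i := fun h'' => hij h''.symm
      simp only [Function.update_of_ne hji, hij, if_false, zero_add]
      exact h'.const_mul (g j)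
  · intro g
    have h := abs_k2_le (c + lin W g) v w
    have h0 : 0 ≤ 8 * ‖v‖ * ‖w‖ * ‖W i‖ := by positivity
    have h1 := sgl_coord_le g j
    have h2 : 0 ≤ ‖g‖ := norm_nonneg g
    rw [abs_mul, pow_one, mul_comm]
    exact mul_le_mul (by linarith) h1 (abs_nonneg _) (by positivity)
  · intro g
    have ha := abs_k2_le (c + lin W g) v w
    have hb := abs_k3_le (c + lin W g) v w (W i)
    have h1 := norm_le_pi_norm g j
    rw [Real.norm_eq_abs] at h1
    have h2 : 0 ≤ ‖g‖ := norm_nonneg g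
    have h3 : |if i = j then k2 (c + lin W g) v w else 0| ≤ 4 * ‖v‖ * ‖w‖ := by
      by_cases h : i = j
      · rw [if_pos h]; exact ha
      · rw [if_neg h, abs_zero]; positivity
    have h4 : |g j * k3 (c + lin W g) v w (W i)| ≤ ‖g‖ * (8 * ‖v‖ * ‖w‖ * ‖W i‖) := by
      rw [abs_mul]
      exact mul_le_mul h1 hb (abs_nonneg _) h2
    refine (abs_add_le _ _).trans ?_
    rw [pow_one]
    have h5 : 0 ≤ 8 * ‖v‖ * ‖w‖ * ‖W i‖ := by positivity
    have h6 : 0 ≤ 4 * ‖v‖ * ‖w‖ := by positivity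
    nlinarith

theorem sgl_int_k2 (W : κ → ι → ℝ) (c v w : ι → ℝ) :
    Integrable (fun g : κ → ℝ => k2 (c + lin W g) v w) (gam κ) := by
  apply integrable_gam _ (4 * ‖v‖ * ‖w‖) 0 (sgl_cont_k2 W c v w)
  intro g
  simpa using abs_k2_le (c + lin W g) v w

theorem sgl_int_gk2 (W : κ → ι → ℝ) (c v w : ι → ℝ) (i : κ) :
    Integrable (fun g : κ → ℝ => g i * k2 (c + lin W g) v w) (gam κ) := by
  apply integrable_gam (fun g : κ → ℝ => g i * k2 (c + lin W g) v w) (4 * ‖v‖ * ‖w‖) 1
    ((continuous_apply i).mul (sgl_cont_k2 W c v w))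
  intro g
  have h := abs_k2_le (c + lin W g) v w
  have h1 := sgl_coord_le g i
  rw [abs_mul, pow_one, mul_comm]
  exact mul_le_mul h h1 (abs_nonneg _) (by positivity)

theorem sgl_int_ggk2 (W : κ → ι → ℝ) (c v w : ι → ℝ) (i j : κ) :
    Integrable (fun g : κ → ℝ => g i * (g j * k2 (c + lin W g) v w)) (gam κ) := by
  apply integrable_gam (fun g : κ → ℝ => g i * (g j * k2 (c + lin W g) v w)) (4 * ‖v‖ * ‖w‖) 2
    ((continuous_apply i).mul ((continuous_apply j).mul (sgl_cont_k2 W c v w)))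
  intro g
  have h := abs_k2_le (c + lin W g) v w
  have h1 := sgl_coord_le g i
  have h2 := sgl_coord_le g j
  have h0 : 0 ≤ ‖g‖ := norm_nonneg g
  rw [abs_mul, abs_mul]
  have h3 : |g j| * |k2 (c + lin W g) v w| ≤ (1 + ‖g‖) * (4 * ‖v‖ * ‖w‖) :=
    mul_le_mul h2 h (abs_nonneg _) (by positivity)
  have h4 := mul_le_mul h1 h3 (by positivity) (by positivity : (0 : ℝ) ≤ 1 + ‖g‖)
  refine h4.trans (le_of_eq ?_)
  ring

theorem sgl_int_gk3 (W : κ → ι → ℝ) (c u v w : ι → ℝ) (i : κ) :
    Integrable (fun g : κ → ℝ => g i * k3 (c + lin W g) u v w) (gam κ) := by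
  apply integrable_gam (fun g : κ → ℝ => g i * k3 (c + lin W g) u v w) (8 * ‖u‖ * ‖v‖ * ‖w‖) 1
    ((continuous_apply i).mul (sgl_cont_k3 W c u v w))
  intro g
  have h := abs_k3_le (c + lin W g) u v w
  have h1 := sgl_coord_le g i
  rw [abs_mul, pow_one, mul_comm]
  exact mul_le_mul h h1 (abs_nonneg _) (by positivity)

/-- second moments -/
theorem sgl_moment_two [DecidableEq κ] (W : κ → ι → ℝ) (c : ι → ℝ) (i j : κ) :
    ∫ g, g i * (g j * k2 (c + lin W g) (W i) (W j)) ∂(gam κ)
      = (if i = j then ∫ g, k2 (c + lin W g) (W i) (W i) ∂(gam κ) else 0)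
        + ∫ g, k4 (c + lin W g) (W i) (W i) (W j) (W j) ∂(gam κ) := by
  rw [sgl_ibp_two]
  have e4 : ∀ g : κ → ℝ, k4 (c + lin W g) (W i) (W j) (W i) (W j)
      = k4 (c + lin W g) (W i) (W i) (W j) (W j) := by
    intro g; rw [k4_comm23]
  by_cases h : i = j
  · subst h
    simp only [if_true]
    rw [integral_add (sgl_int_k2 W c _ _) (sgl_int_gk3 W c _ _ _ _), sgl_ibp_k3]
  · simp only [h, if_false, zero_add]
    rw [sgl_ibp_k3]
    simp only [e4]

theorem sgl_sum_k2_left (x : ι → ℝ) (s : Finset κ) (f : κ → ι → ℝ) (w : ι → ℝ) :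
    k2 x (∑ i ∈ s, f i) w = ∑ i ∈ s, k2 x (f i) w := by
  classical
  induction s using Finset.induction_on with
  | empty =>
    have h := k2_smul_left 0 x (0 : ι → ℝ) w
    simpa using h
  | insert i s hi ih =>
    rw [Finset.sum_insert hi, Finset.sum_insert hi, k2_add_left, ih]

theorem sgl_expand (W : κ → ι → ℝ) (lam : κ → ℝ) (x ζ : ι → ℝ) (g : κ → ℝ) :
    k2 x (∑ i, (lam i * g i) • W i + ζ) (∑ i, (lam i * g i) • W i + ζ)
      = (∑ i, ∑ j, (lam i * lam j) * (g i * (g j * k2 x (W i) (W j))))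
        + 2 * (∑ i, lam i * (g i * k2 x (W i) ζ)) + k2 x ζ ζ := by
  have hr : ∀ u v w : ι → ℝ, k2 x u (v + w) = k2 x u v + k2 x u w := by
    intro u v w; rw [k2_comm, k2_add_left, k2_comm x v, k2_comm x w]
  have h1 : k2 x (∑ i, (lam i * g i) • W i) ζ = ∑ i, lam i * (g i * k2 x (W i) ζ) := by
    rw [sgl_sum_k2_left]
    apply Finset.sum_congr rfl
    intro i _
    rw [k2_smul_left]; ring
  have h2 : k2 x (∑ i, (lam i * g i) • W i) (∑ i, (lam i * g i) • W i)
      = ∑ i, ∑ j, (lam i * lam j) * (g i * (g j * k2 x (W i) (W j))) := by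
    rw [sgl_sum_k2_left]
    apply Finset.sum_congr rfl
    intro i _
    rw [k2_smul_left, k2_comm, sgl_sum_k2_left, Finset.mul_sum]
    apply Finset.sum_congr rfl
    intro j _
    rw [k2_smul_left, k2_comm]; ring
  rw [k2_add_left, hr, hr, h1, h2, k2_comm x ζ, h1]
  ring

end sgl

theorem sglin {ι κ : Type} [Fintype ι] [Nonempty ι] [Fintype κ] (W : κ → ι → ℝ) (lam : κ → ℝ)
    (c : ι → ℝ) : ∃ ζ : ι → ℝ,
    ∫ g, k2 (c + lin W g) (∑ i, (lam i * g i) • W i + ζ) (∑ i, (lam i * g i) • W i + ζ) ∂(gam κ)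
      + (∑ j, ζ j) ^ 2
      ≤ ∑ i, lam i ^ 2 * ∫ g, k2 (c + lin W g) (W i) (W i) ∂(gam κ) := by
  classical
  obtain ⟨ζ, hζ⟩ := PP_gam W c (Fintype.card κ)
    (fun r => lam ((Fintype.equivFin κ).symm r) • W ((Fintype.equivFin κ).symm r))
    (fun r => W ((Fintype.equivFin κ).symm r))
  have hmeas : AEMeasurable (lin W) (gam κ) := (sgl_continuous_lin W).measurable.aemeasurable
  have hk4c : ∀ a b u v : ι → ℝ, Continuous (fun x : ι → ℝ => k4 (c + x) a b u v) := by
    intro a b u v
    have h := continuous_k4 (ι := ι)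
    exact h.comp ((continuous_const.add continuous_id).prodMk
      (continuous_const.prodMk (continuous_const.prodMk
        (continuous_const.prodMk continuous_const))) : Continuous
        (fun x : ι → ℝ => ((c + x, a, b, u, v) :
          (ι → ℝ) × (ι → ℝ) × (ι → ℝ) × (ι → ℝ) × (ι → ℝ))))
  have hk3c : ∀ a b u : ι → ℝ, Continuous (fun x : ι → ℝ => k3 (c + x) a b u) := by
    intro a b u
    have h := continuous_k3 (ι := ι)
    exact h.comp ((continuous_const.add continuous_id).prodMk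
      (continuous_const.prodMk (continuous_const.prodMk continuous_const)) : Continuous
        (fun x : ι → ℝ => ((c + x, a, b, u) :
          (ι → ℝ) × (ι → ℝ) × (ι → ℝ) × (ι → ℝ))))
  have hk2c : ∀ a b : ι → ℝ, Continuous (fun x : ι → ℝ => k2 (c + x) a b) := by
    intro a b
    have h := continuous_k2 (ι := ι)
    exact h.comp ((continuous_const.add continuous_id).prodMk
      (continuous_const.prodMk continuous_const) : Continuous
        (fun x : ι → ℝ => ((c + x, a, b) : (ι → ℝ) × (ι → ℝ) × (ι → ℝ))))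
  have m4 : ∀ a b u v : ι → ℝ, ∫ x, k4 (c + x) a b u v ∂((gam κ).map (lin W))
      = ∫ g, k4 (c + lin W g) a b u v ∂(gam κ) := fun a b u v =>
    integral_map hmeas (hk4c a b u v).aestronglyMeasurable
  have m3 : ∀ a b u : ι → ℝ, ∫ x, k3 (c + x) a b u ∂((gam κ).map (lin W))
      = ∫ g, k3 (c + lin W g) a b u ∂(gam κ) := fun a b u =>
    integral_map hmeas (hk3c a b u).aestronglyMeasurable
  have m2 : ∀ a b : ι → ℝ, ∫ x, k2 (c + x) a b ∂((gam κ).map (lin W))
      = ∫ g, k2 (c + lin W g) a b ∂(gam κ) := fun a b =>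
    integral_map hmeas (hk2c a b).aestronglyMeasurable
  simp only [m4, m3, m2] at hζ
  -- rewrite the sums over `Fin` as sums over `κ`
  have s4 : ∑ r : Fin (Fintype.card κ), ∑ s : Fin (Fintype.card κ),
      ∫ g, k4 (c + lin W g) (lam ((Fintype.equivFin κ).symm r) • W ((Fintype.equivFin κ).symm r))
        (W ((Fintype.equivFin κ).symm r))
        (lam ((Fintype.equivFin κ).symm s) • W ((Fintype.equivFin κ).symm s))
        (W ((Fintype.equivFin κ).symm s)) ∂(gam κ)
      = ∑ i, ∑ j, (lam i * lam j) * ∫ g, k4 (c + lin W g) (W i) (W i) (W j) (W j) ∂(gam κ) := by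
    have h1 : ∀ i j : κ, ∫ g, k4 (c + lin W g) (lam i • W i) (W i) (lam j • W j) (W j) ∂(gam κ)
        = (lam i * lam j) * ∫ g, k4 (c + lin W g) (W i) (W i) (W j) (W j) ∂(gam κ) := by
      intro i j
      rw [← integral_const_mul]
      apply integral_congr_ae
      filter_upwards with g
      have e1 : ∀ x a b u v : ι → ℝ, ∀ r : ℝ, k4 x a b (r • u) v = r * k4 x a b u v := by
        intro x a b u v r
        rw [k4_comm23, k4_comm12, k4_smul_left, k4_comm12, k4_comm23]
      rw [k4_smul_left, e1]; ring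
    simp only [h1]
    rw [Equiv.sum_comp (Fintype.equivFin κ).symm (fun i => ∑ s : Fin (Fintype.card κ),
      (lam i * lam ((Fintype.equivFin κ).symm s)) *
        ∫ g, k4 (c + lin W g) (W i) (W i) (W ((Fintype.equivFin κ).symm s))
          (W ((Fintype.equivFin κ).symm s)) ∂(gam κ))]
    apply Finset.sum_congr rfl
    intro i _
    exact Equiv.sum_comp (Fintype.equivFin κ).symm (fun j => (lam i * lam j) *
        ∫ g, k4 (c + lin W g) (W i) (W i) (W j) (W j) ∂(gam κ))
  have s3 : ∑ r : Fin (Fintype.card κ),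
      ∫ g, k3 (c + lin W g) (lam ((Fintype.equivFin κ).symm r) • W ((Fintype.equivFin κ).symm r))
        (W ((Fintype.equivFin κ).symm r)) ζ ∂(gam κ)
      = ∑ i, lam i * ∫ g, k3 (c + lin W g) (W i) (W i) ζ ∂(gam κ) := by
    have h1 : ∀ i : κ, ∫ g, k3 (c + lin W g) (lam i • W i) (W i) ζ ∂(gam κ)
        = lam i * ∫ g, k3 (c + lin W g) (W i) (W i) ζ ∂(gam κ) := by
      intro i
      rw [← integral_const_mul]
      apply integral_congr_ae
      filter_upwards with g
      rw [k3_smul_left]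
    simp only [h1]
    exact Equiv.sum_comp (Fintype.equivFin κ).symm (fun i =>
      lam i * ∫ g, k3 (c + lin W g) (W i) (W i) ζ ∂(gam κ))
  rw [s4, s3] at hζ
  refine ⟨-ζ, ?_⟩
  -- expand
  have hexp : ∀ g : κ → ℝ,
      k2 (c + lin W g) (∑ i, (lam i * g i) • W i + -ζ) (∑ i, (lam i * g i) • W i + -ζ)
        = (∑ i, ∑ j, (lam i * lam j) * (g i * (g j * k2 (c + lin W g) (W i) (W j))))
        + 2 * (∑ i, lam i * (g i * k2 (c + lin W g) (W i) (-ζ)))
        + k2 (c + lin W g) (-ζ) (-ζ) := fun g => sgl_expand W lam _ _ g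
  have I1 : Integrable (fun g : κ → ℝ =>
      ∑ i, ∑ j, (lam i * lam j) * (g i * (g j * k2 (c + lin W g) (W i) (W j)))) (gam κ) :=
    integrable_finsetSum _ fun i _ => integrable_finsetSum _ fun j _ =>
      (sgl_int_ggk2 W c (W i) (W j) i j).const_mul _
  have I2 : Integrable (fun g : κ → ℝ =>
      2 * (∑ i, lam i * (g i * k2 (c + lin W g) (W i) (-ζ)))) (gam κ) :=
    (integrable_finsetSum _ fun i _ => (sgl_int_gk2 W c (W i) (-ζ) i).const_mul _).const_mul _
  have I3 : Integrable (fun g : κ → ℝ => k2 (c + lin W g) (-ζ) (-ζ)) (gam κ) :=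
    sgl_int_k2 W c _ _
  have J1 : ∫ g, (∑ i, ∑ j, (lam i * lam j) * (g i * (g j * k2 (c + lin W g) (W i) (W j))))
        ∂(gam κ)
      = (∑ i, lam i ^ 2 * ∫ g, k2 (c + lin W g) (W i) (W i) ∂(gam κ))
        + ∑ i, ∑ j, (lam i * lam j) *
            ∫ g, k4 (c + lin W g) (W i) (W i) (W j) (W j) ∂(gam κ) := by
    rw [integral_finsetSum _ (fun i _ => integrable_finsetSum _ fun j _ =>
      (sgl_int_ggk2 W c (W i) (W j) i j).const_mul _), ← Finset.sum_add_distrib]
    apply Finset.sum_congr rfl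
    intro i _
    rw [integral_finsetSum _ (fun j _ => (sgl_int_ggk2 W c (W i) (W j) i j).const_mul _)]
    have h1 : ∀ j, ∫ g, (lam i * lam j) * (g i * (g j * k2 (c + lin W g) (W i) (W j))) ∂(gam κ)
        = (if i = j then lam i ^ 2 * ∫ g, k2 (c + lin W g) (W i) (W i) ∂(gam κ) else 0)
          + (lam i * lam j) * ∫ g, k4 (c + lin W g) (W i) (W i) (W j) (W j) ∂(gam κ) := by
      intro j
      rw [integral_const_mul, sgl_moment_two, mul_add]
      congr 1
      by_cases h : i = j
      · subst h; simp only [if_true]; ring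
      · simp [h]
    simp only [h1]
    rw [Finset.sum_add_distrib, Finset.sum_ite_eq, if_pos (Finset.mem_univ i)]
  have hneg3 : ∀ x u v w : ι → ℝ, k3 x u (-v) w = - k3 x u v w := by
    intro x u v w
    have h := k3_smul_left (-1) x v u w
    rw [neg_one_smul, k3_comm12] at h
    rw [h, k3_comm12]; ring
  have J2 : ∫ g, (2 * (∑ i, lam i * (g i * k2 (c + lin W g) (W i) (-ζ)))) ∂(gam κ)
      = - (2 * ∑ i, lam i * ∫ g, k3 (c + lin W g) (W i) (W i) ζ ∂(gam κ)) := by
    rw [integral_const_mul, integral_finsetSum _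
      (fun i _ => (sgl_int_gk2 W c (W i) (-ζ) i).const_mul _), ← mul_neg, ← Finset.sum_neg_distrib]
    congr 1
    apply Finset.sum_congr rfl
    intro i _
    rw [integral_const_mul, sgl_ibp_k2, ← mul_neg, ← integral_neg]
    congr 1
    apply integral_congr_ae
    filter_upwards with g
    rw [hneg3, k3_comm23]
  have J3 : ∀ g : κ → ℝ, k2 (c + lin W g) (-ζ) (-ζ) = k2 (c + lin W g) ζ ζ := by
    intro g
    have h1 := k2_smul_left (-1) (c + lin W g) ζ (-ζ)
    have h2 := k2_smul_left (-1) (c + lin W g) ζ ζ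
    rw [neg_one_smul] at h1 h2
    rw [h1, k2_comm, h2]; ring
  have J4 : (∑ j, (-ζ) j) ^ 2 = (∑ j, ζ j) ^ 2 := by
    simp [Finset.sum_neg_distrib]
  simp only [hexp]
  have I12 : Integrable (fun g : κ → ℝ =>
      (∑ i, ∑ j, (lam i * lam j) * (g i * (g j * k2 (c + lin W g) (W i) (W j))))
      + 2 * (∑ i, lam i * (g i * k2 (c + lin W g) (W i) (-ζ)))) (gam κ) := I1.add I2
  rw [integral_add I12 I3, integral_add I1 I2, J1, J2, J4]
  simp only [J3]
  linarith

end Pool.H65.PS
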