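import Pool.Agent.Helper65.PS.Avc
import Pool.Agent.Helper65.PS.OneDimMat

set_option autoImplicit false

open MeasureTheory ProbabilityTheory

namespace Pool.H65.PS

section step

variable {ι : Type} [Fintype ι]

theorem step_lin [DecidableEq ι] (F : (ι → ℝ) → ℝ) (hadd : ∀ x y, F (x + y) = F x + F y)
    (hsmul : ∀ (r : ℝ) x, F (r • x) = r * F x) (x : ι → ℝ) :
    ∑ i, F (Pi.single i 1) * x i = F x := by
  have h := map_sum (IsLinearMap.mk' F ⟨hadd, hsmul⟩) (fun i => x i • (Pi.single i (1 : ℝ) : ι → ℝ))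
    Finset.univ
  rw [← pi_eq_sum_univ'] at h
  have h2 : F x = ∑ i, F (x i • (Pi.single i (1 : ℝ) : ι → ℝ)) := h
  rw [h2]
  refine Finset.sum_congr rfl fun i _ => ?_
  rw [hsmul, mul_comm]

theorem step_bilin [DecidableEq ι] (B : (ι → ℝ) → (ι → ℝ) → ℝ)
    (h1 : ∀ x y w, B (x + y) w = B x w + B y w) (h2 : ∀ (r : ℝ) x w, B (r • x) w = r * B x w)
    (h3 : ∀ w x y, B w (x + y) = B w x + B w y) (h4 : ∀ (r : ℝ) w x, B w (r • x) = r * B w x)
    (x y : ι → ℝ) :
    ∑ i, ∑ j, B (Pi.single i 1) (Pi.single j 1) * x i * y j = B x y := by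
  have e1 : ∀ i, ∑ j, B (Pi.single i 1) (Pi.single j 1) * x i * y j =
      B (Pi.single i 1) y * x i := by
    intro i
    rw [← step_lin (B (Pi.single i 1)) (h3 _) (fun r x => h4 r _ x) y, Finset.sum_mul]
    refine Finset.sum_congr rfl fun j _ => ?_
    ring
  simp only [e1]
  exact step_lin (fun u => B u y) (fun u w => h1 u w y) (fun r u => h2 r u y) x

variable [Nonempty ι] (μ : Measure (ι → ℝ)) [IsProbabilityMeasure μ]

theorem step_k2_add (c u u' w : ι → ℝ) : ∫ x, k2 (c + x) (u + u') w ∂μ =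
    ∫ x, k2 (c + x) u w ∂μ + ∫ x, k2 (c + x) u' w ∂μ := by
  simp_rw [k2_add_left]
  exact integral_add (integrable_k2 μ c u w) (integrable_k2 μ c u' w)

theorem step_k2_smul (r : ℝ) (c u w : ι → ℝ) : ∫ x, k2 (c + x) (r • u) w ∂μ =
    r * ∫ x, k2 (c + x) u w ∂μ := by
  simp_rw [k2_smul_left]
  exact integral_const_mul _ _

theorem step_k3_add (c u u' w z : ι → ℝ) : ∫ x, k3 (c + x) (u + u') w z ∂μ =
    ∫ x, k3 (c + x) u w z ∂μ + ∫ x, k3 (c + x) u' w z ∂μ := by
  simp_rw [k3_add_left]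
  exact integral_add (integrable_k3 μ c u w z) (integrable_k3 μ c u' w z)

theorem step_k3_smul (r : ℝ) (c u w z : ι → ℝ) : ∫ x, k3 (c + x) (r • u) w z ∂μ =
    r * ∫ x, k3 (c + x) u w z ∂μ := by
  simp_rw [k3_smul_left]
  exact integral_const_mul _ _

theorem step_k4_add (c u u' w z y : ι → ℝ) : ∫ x, k4 (c + x) (u + u') w z y ∂μ =
    ∫ x, k4 (c + x) u w z y ∂μ + ∫ x, k4 (c + x) u' w z y ∂μ := by
  simp_rw [k4_add_left]
  exact integral_add (integrable_k4 μ c u w z y) (integrable_k4 μ c u' w z y)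

theorem step_k4_smul (r : ℝ) (c u w z y : ι → ℝ) : ∫ x, k4 (c + x) (r • u) w z y ∂μ =
    r * ∫ x, k4 (c + x) u w z y ∂μ := by
  simp_rw [k4_smul_left]
  exact integral_const_mul _ _

theorem step_sum_k2 [DecidableEq ι] (c x y : ι → ℝ) :
    ∑ i, ∑ j, (∫ z, k2 (c + z) (Pi.single i 1) (Pi.single j 1) ∂μ) * x i * y j =
      ∫ z, k2 (c + z) x y ∂μ := by
  refine step_bilin (fun x y => ∫ z, k2 (c + z) x y ∂μ) (fun x y w => step_k2_add μ c x y w)
    (fun r x w => step_k2_smul μ r c x w) ?_ ?_ x y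
  · intro w x y
    simp_rw [k2_comm _ w]
    exact step_k2_add μ c x y w
  · intro r w x
    simp_rw [k2_comm _ w]
    exact step_k2_smul μ r c x w

theorem step_sum_k3 [DecidableEq ι] (c v x y : ι → ℝ) :
    ∑ i, ∑ j, (∫ z, k3 (c + z) (Pi.single i 1) (Pi.single j 1) v ∂μ) * x i * y j =
      ∫ z, k3 (c + z) x y v ∂μ := by
  refine step_bilin (fun x y => ∫ z, k3 (c + z) x y v ∂μ) (fun x y w => step_k3_add μ c x y w v)
    (fun r x w => step_k3_smul μ r c x w v) ?_ ?_ x y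
  · intro w x y
    simp_rw [k3_comm12 _ w]
    exact step_k3_add μ c x y w v
  · intro r w x
    simp_rw [k3_comm12 _ w]
    exact step_k3_smul μ r c x w v

theorem step_sum_k4 [DecidableEq ι] (c v v' x y : ι → ℝ) :
    ∑ i, ∑ j, (∫ z, k4 (c + z) (Pi.single i 1) (Pi.single j 1) v v' ∂μ) * x i * y j =
      ∫ z, k4 (c + z) x y v v' ∂μ := by
  refine step_bilin (fun x y => ∫ z, k4 (c + z) x y v v' ∂μ)
    (fun x y w => step_k4_add μ c x y w v v')
    (fun r x w => step_k4_smul μ r c x w v v') ?_ ?_ x y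
  · intro w x y
    simp_rw [k4_comm12 _ w]
    exact step_k4_add μ c x y w v v'
  · intro r w x
    simp_rw [k4_comm12 _ w]
    exact step_k4_smul μ r c x w v v'


theorem step_k3_rot (x u v w : ι → ℝ) : k3 x u v w = k3 x w u v := by
  rw [k3_comm23, k3_comm12]

theorem step_k4_rot (x a b u v : ι → ℝ) : k4 x a b u v = k4 x u a b v := by
  rw [k4_comm23, k4_comm12]

theorem step_sum_k3' [DecidableEq ι] (c a b x : ι → ℝ) :
    ∑ i, (∫ z, k3 (c + z) a b (Pi.single i 1) ∂μ) * x i = ∫ z, k3 (c + z) a b x ∂μ := by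
  simp_rw [step_k3_rot _ a b]
  exact step_lin (fun u => ∫ z, k3 (c + z) u a b ∂μ) (fun u w => step_k3_add μ c u w a b)
    (fun r u => step_k3_smul μ r c u a b) x

theorem step_sum_k4' [DecidableEq ι] (c a b v x : ι → ℝ) :
    ∑ i, (∫ z, k4 (c + z) a b (Pi.single i 1) v ∂μ) * x i = ∫ z, k4 (c + z) a b x v ∂μ := by
  simp_rw [step_k4_rot _ a b]
  exact step_lin (fun u => ∫ z, k4 (c + z) u a b v ∂μ) (fun u w => step_k4_add μ c u w a b v)
    (fun r u => step_k4_smul μ r c u a b v) x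

theorem step_sum_sum (x y : ι → ℝ) : ∑ i, ∑ j, (1 : ℝ) * x i * y j = (∑ i, x i) * ∑ j, y j := by
  rw [Finset.sum_mul_sum]
  simp only [one_mul]

theorem step_k2_pos (c x : ι → ℝ) (hx : ∃ i j, x i ≠ x j) : 0 < k2 c x x := by
  obtain ⟨i, j, hij⟩ := hx
  have h1 : ∃ l, x l - mn c x ≠ 0 := by
    by_contra h
    push Not at h
    exact hij (by linarith [h i, h j])
  obtain ⟨l, hl⟩ := h1
  refine Finset.sum_pos' (fun k _ => mul_nonneg (sm_pos c k).le (mul_self_nonneg _))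
    ⟨l, Finset.mem_univ l, mul_pos (sm_pos c l) ?_⟩
  exact mul_self_pos.2 hl

theorem step_sq_integral_le (f : (ι → ℝ) → ℝ) (hf : Integrable f μ)
    (hf2 : Integrable (fun x => f x ^ 2) μ) : (∫ x, f x ∂μ) ^ 2 ≤ ∫ x, f x ^ 2 ∂μ := by
  set m := ∫ x, f x ∂μ with hm
  have h1 : 0 ≤ ∫ x, (f x - m) ^ 2 ∂μ := integral_nonneg fun x => sq_nonneg _
  have h2 : ∫ x, (f x - m) ^ 2 ∂μ = ∫ x, f x ^ 2 ∂μ - 2 * m * m + m ^ 2 := by
    have e : ∀ x, (f x - m) ^ 2 = f x ^ 2 - 2 * m * f x + m ^ 2 := fun x => by ring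
    have i1 : Integrable (fun x => 2 * m * f x) μ := hf.const_mul _
    have i2 : Integrable (fun x => f x ^ 2 - 2 * m * f x) μ := hf2.sub i1
    simp_rw [e]
    rw [integral_add i2 (integrable_const _), integral_sub hf2 i1, integral_const_mul,
      integral_const, ← hm]
    simp
  rw [h2] at h1
  linarith

omit [Nonempty ι] in
theorem step_abs_int_le (f : (ι → ℝ) → ℝ) (B : ℝ) (h : ∀ z, |f z| ≤ B) : |∫ z, f z ∂μ| ≤ B := by
  have h1 := norm_integral_le_of_norm_le_const (μ := μ) (f := f) (C := B)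
    (Filter.Eventually.of_forall fun z => by rw [Real.norm_eq_abs]; exact h z)
  simpa using h1

theorem step_cont_k4 (c a b u w : ι → ℝ) : Continuous fun x => k4 (c + x) a b u w := by
  have ccx : Continuous fun x : ι → ℝ => c + x := continuous_const.add continuous_id
  have h1 : Continuous fun x : ι → ℝ => (c + x, a, b, u, w) := ccx.prodMk continuous_const
  have h2 := (continuous_k4 (ι := ι)).comp h1
  exact h2

theorem step_cont_k3 (c a b u : ι → ℝ) : Continuous fun x => k3 (c + x) a b u := by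
  have ccx : Continuous fun x : ι → ℝ => c + x := continuous_const.add continuous_id
  have h1 : Continuous fun x : ι → ℝ => (c + x, a, b, u) := ccx.prodMk continuous_const
  have h2 := (continuous_k3 (ι := ι)).comp h1
  exact h2

theorem step_cont_k2 (c a b : ι → ℝ) : Continuous fun x => k2 (c + x) a b := by
  have ccx : Continuous fun x : ι → ℝ => c + x := continuous_const.add continuous_id
  have h1 : Continuous fun x : ι → ℝ => (c + x, a, b) := ccx.prodMk continuous_const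
  have h2 := (continuous_k2 (ι := ι)).comp h1
  exact h2

theorem step_pos [DecidableEq ι] (c x : ι → ℝ) (hx : x ≠ 0) :
    0 < ∫ z, k2 (c + z) x x ∂μ + (∑ i, x i) * ∑ i, x i := by
  have h0 : 0 ≤ ∫ z, k2 (c + z) x x ∂μ := integral_nonneg fun z => k2_nonneg _ _
  by_cases hs : ∑ i, x i = 0
  · rw [hs, mul_zero, add_zero]
    have hne : ∃ i j, x i ≠ x j := by
      by_contra h
      push Not at h
      apply hx
      funext i
      have h1 : ∑ j, x j = Fintype.card ι * x i := by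
        rw [Finset.sum_congr rfl fun j _ => h j i]
        simp
      rw [hs] at h1
      have h2 : (Fintype.card ι : ℝ) ≠ 0 := Nat.cast_ne_zero.2 Fintype.card_ne_zero
      have h3 := (mul_eq_zero.1 h1.symm).resolve_left h2
      exact h3
    rw [integral_pos_iff_support_of_nonneg (fun z => k2_nonneg _ _) (integrable_k2 μ c x x)]
    have h5 : Function.support (fun z => k2 (c + z) x x) = Set.univ :=
      Set.eq_univ_of_forall fun z => (step_k2_pos (c + z) x hne).ne'
    rw [h5, measure_univ]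
    exact one_pos
  · have := mul_self_pos.2 hs
    linarith

theorem step_norm_sq_le (x : ι → ℝ) : ‖x‖ ^ 2 ≤ ∑ i, x i ^ 2 := by
  obtain ⟨i, hi⟩ : ∃ i, ‖x‖ = ‖x i‖ := by
    obtain ⟨i, -, hi⟩ := Finset.exists_mem_eq_sup' (Finset.univ_nonempty (α := ι))
      (fun i => ‖x i‖₊)
    refine ⟨i, ?_⟩
    have h1 : ‖x‖₊ = Finset.univ.sup' Finset.univ_nonempty (fun i => ‖x i‖₊) := by
      rw [Pi.nnnorm_def, Finset.sup'_eq_sup]
    rw [hi] at h1
    exact congrArg NNReal.toReal h1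
  rw [hi, Real.norm_eq_abs, sq_abs]
  exact Finset.single_le_sum (f := fun i => x i ^ 2) (fun _ _ => sq_nonneg _) (Finset.mem_univ i)

end step

theorem PP_addG {ι : Type} [Fintype ι] [Nonempty ι] (μ : Measure (ι → ℝ)) [IsProbabilityMeasure μ]
    (v : ι → ℝ) (h : PP μ) : PP (addG v μ) := by
  classical
  intro c n a b
  set S : ℝ := ∑ r, ∑ s, 64 * ‖a r‖ * ‖b r‖ * ‖a s‖ * ‖b s‖ with hS
  set T : ℝ := n * ∑ r, 16 * ‖a r‖ ^ 2 * ‖b r‖ ^ 2 with hT
  have hS0 : 0 ≤ S := Finset.sum_nonneg fun _ _ => Finset.sum_nonneg fun _ _ => by positivity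
  have hT0 : 0 ≤ T := mul_nonneg (Nat.cast_nonneg _) (Finset.sum_nonneg fun _ _ => by positivity)
  set C : ℝ := S + (4 + Fintype.card ι) + 2 * ‖v‖ + T with hC
  have hcard : (0 : ℝ) ≤ Fintype.card ι := Nat.cast_nonneg _
  have hv0 : 0 ≤ ‖v‖ := norm_nonneg v
  -- the quadratic form
  have hN : ∀ (t : ℝ) (x y : ι → ℝ),
      ∑ i, ∑ j, (∫ z, k2 (c + t • v + z) (Pi.single i 1) (Pi.single j 1) ∂μ + 1) * x i * y j =
        ∫ z, k2 (c + t • v + z) x y ∂μ + (∑ i, x i) * ∑ j, y j := by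
    intro t x y
    rw [← step_sum_k2 μ (c + t • v) x y, ← step_sum_sum, ← Finset.sum_add_distrib]
    refine Finset.sum_congr rfl fun i _ => ?_
    rw [← Finset.sum_add_distrib]
    refine Finset.sum_congr rfl fun j _ => ?_
    ring
  have hq : ∀ (t : ℝ) (x : ι → ℝ),
      ∑ i, (∑ r, ∫ z, k3 (c + t • v + z) (a r) (b r) (Pi.single i 1) ∂μ) * x i =
        ∑ r, ∫ z, k3 (c + t • v + z) (a r) (b r) x ∂μ := by
    intro t x
    simp only [Finset.sum_mul]
    rw [Finset.sum_comm]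
    exact Finset.sum_congr rfl fun r _ => step_sum_k3' μ _ _ _ x
  have hq1 : ∀ (t : ℝ) (x : ι → ℝ),
      ∑ i, (∑ r, ∫ z, k4 (c + t • v + z) (a r) (b r) (Pi.single i 1) v ∂μ) * x i =
        ∑ r, ∫ z, k4 (c + t • v + z) (a r) (b r) x v ∂μ := by
    intro t x
    simp only [Finset.sum_mul]
    rw [Finset.sum_comm]
    exact Finset.sum_congr rfl fun r _ => step_sum_k4' μ _ _ _ _ x
  have hA : ∀ t : ℝ, |∑ r, ∑ s, ∫ z, k4 (c + t • v + z) (a r) (b r) (a s) (b s) ∂μ| ≤ S := by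
    intro t
    refine (Finset.abs_sum_le_sum_abs _ _).trans (Finset.sum_le_sum fun r _ => ?_)
    refine (Finset.abs_sum_le_sum_abs _ _).trans (Finset.sum_le_sum fun s _ => ?_)
    exact step_abs_int_le μ _ _ fun z => abs_k4_le (c + t • v + z) (a r) (b r) (a s) (b s)
  have hAc : Continuous fun t : ℝ =>
      ∑ r, ∑ s, ∫ z, k4 (c + t • v + z) (a r) (b r) (a s) (b s) ∂μ :=
    continuous_finsetSum _ fun r _ => continuous_finsetSum _ fun s _ =>
      continuous_int_k4 μ c v _ _ _ _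
  obtain ⟨β, hβ⟩ := oneDimMat
    (fun t => ∑ r, ∑ s, ∫ z, k4 (c + t • v + z) (a r) (b r) (a s) (b s) ∂μ)
    (fun t i => ∑ r, ∫ z, k3 (c + t • v + z) (a r) (b r) (Pi.single i 1) ∂μ)
    (fun t i => ∑ r, ∫ z, k4 (c + t • v + z) (a r) (b r) (Pi.single i 1) v ∂μ)
    (fun t i j => ∫ z, k2 (c + t • v + z) (Pi.single i 1) (Pi.single j 1) ∂μ + 1)
    (fun t i j => ∫ z, k3 (c + t • v + z) (Pi.single i 1) (Pi.single j 1) v ∂μ)
    (fun t i j => ∫ z, k4 (c + t • v + z) (Pi.single i 1) (Pi.single j 1) v v ∂μ) C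
    hAc (fun t => (hA t).trans (by rw [hC]; linarith))
    (fun i t => by
      have h1 := HasDerivAt.fun_sum (u := Finset.univ) fun r _ =>
        hasDerivAt_int_k3 μ c v (a r) (b r) (Pi.single i 1) t
      exact h1)
    (fun i j t => (hasDerivAt_int_k2 μ c v _ _ t).add_const 1)
    (fun i j t => hasDerivAt_int_k3 μ c v _ _ v t)
    (fun t i j => by simp only [k2_comm _ (Pi.single i 1)])
    (fun t x hx => by rw [hN]; exact step_pos μ _ x hx)
    (fun t x => by
      rw [hN]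
      have h1 : ∫ z, k2 (c + t • v + z) x x ∂μ ≤ 4 * ‖x‖ * ‖x‖ := by
        have h2 := integral_mono (integrable_k2 μ (c + t • v) x x)
          (integrable_const (4 * ‖x‖ * ‖x‖)) fun z => (le_abs_self _).trans
            (abs_k2_le (c + t • v + z) x x)
        simpa using h2
      have h3 := step_norm_sq_le x
      have h4 : (∑ i, x i) ^ 2 ≤ Fintype.card ι * ∑ i, x i ^ 2 := by
        have := sq_sum_le_card_mul_sum_sq (s := (Finset.univ : Finset ι)) (f := x)
        simpa using this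
      have h5 : 0 ≤ ∑ i, x i ^ 2 := Finset.sum_nonneg fun _ _ => sq_nonneg _
      have h6 : 0 ≤ (S + 2 * ‖v‖ + T) * ∑ i, x i ^ 2 := by positivity
      rw [hC]
      nlinarith)
    (fun t x => by
      rw [hN, step_sum_k3]
      have h1 : |∫ z, k3 (c + t • v + z) x x v ∂μ| ≤
          2 * ‖v‖ * ∫ z, k2 (c + t • v + z) x x ∂μ := by
        rw [← integral_const_mul]
        refine (abs_integral_le_integral_abs).trans ?_
        exact integral_mono (integrable_k3 μ _ x x v).abs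
          ((integrable_k2 μ _ x x).const_mul _) fun z => abs_k3_self_le _ _ _
      have h2 : 0 ≤ ∫ z, k2 (c + t • v + z) x x ∂μ := integral_nonneg fun z => k2_nonneg _ _
      have h3 : 0 ≤ (∑ i, x i) * ∑ i, x i := mul_self_nonneg _
      refine h1.trans ?_
      have h4 : 2 * ‖v‖ ≤ C := by rw [hC]; linarith
      have h5 : 0 ≤ C := by rw [hC]; positivity
      calc 2 * ‖v‖ * ∫ z, k2 (c + t • v + z) x x ∂μ
          ≤ C * ∫ z, k2 (c + t • v + z) x x ∂μ := mul_le_mul_of_nonneg_right h4 h2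
        _ ≤ C * (∫ z, k2 (c + t • v + z) x x ∂μ + (∑ i, x i) * ∑ i, x i) :=
          mul_le_mul_of_nonneg_left (by linarith) h5)
    (fun t x => by
      rw [hN, hq]
      have h2 : 0 ≤ ∫ z, k2 (c + t • v + z) x x ∂μ := integral_nonneg fun z => k2_nonneg _ _
      have h3 : 0 ≤ (∑ i, x i) * ∑ i, x i := mul_self_nonneg _
      have h1 : ∀ r, (∫ z, k3 (c + t • v + z) (a r) (b r) x ∂μ) ^ 2 ≤
          16 * ‖a r‖ ^ 2 * ‖b r‖ ^ 2 * ∫ z, k2 (c + t • v + z) x x ∂μ := by
        intro r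
        have hi := integrable_k3 μ (c + t • v) (a r) (b r) x
        have hle : ∀ z, k3 (c + t • v + z) (a r) (b r) x ^ 2 ≤
            16 * ‖a r‖ ^ 2 * ‖b r‖ ^ 2 * k2 (c + t • v + z) x x := fun z => k3_sq_le _ _ _ _
        have hi2 : Integrable (fun z => k3 (c + t • v + z) (a r) (b r) x ^ 2) μ := by
          refine Integrable.mono' ((integrable_k2 μ (c + t • v) x x).const_mul
            (16 * ‖a r‖ ^ 2 * ‖b r‖ ^ 2)) (hi.aestronglyMeasurable.pow 2) ?_
          refine Filter.Eventually.of_forall fun z => ?_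
          rw [Real.norm_eq_abs, abs_of_nonneg (sq_nonneg _)]
          exact hle z
        refine (step_sq_integral_le μ _ hi hi2).trans ?_
        rw [← integral_const_mul]
        exact integral_mono hi2 ((integrable_k2 μ (c + t • v) x x).const_mul _) hle
      have h4 : (∑ r, ∫ z, k3 (c + t • v + z) (a r) (b r) x ∂μ) ^ 2 ≤
          T * ∫ z, k2 (c + t • v + z) x x ∂μ := by
        have h5 := sq_sum_le_card_mul_sum_sq (s := (Finset.univ : Finset (Fin n)))
          (f := fun r => ∫ z, k3 (c + t • v + z) (a r) (b r) x ∂μ)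
        refine h5.trans ?_
        rw [hT, mul_assoc, Finset.sum_mul, Finset.card_univ, Fintype.card_fin]
        exact mul_le_mul_of_nonneg_left (Finset.sum_le_sum fun r _ => h1 r) (Nat.cast_nonneg _)
      refine h4.trans ?_
      have h6 : T ≤ C := by rw [hC]; linarith
      have h7 : 0 ≤ C := by rw [hC]; positivity
      calc T * ∫ z, k2 (c + t • v + z) x x ∂μ
          ≤ C * ∫ z, k2 (c + t • v + z) x x ∂μ := mul_le_mul_of_nonneg_right h6 h2
        _ ≤ C * (∫ z, k2 (c + t • v + z) x x ∂μ + (∑ i, x i) * ∑ i, x i) :=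
          mul_le_mul_of_nonneg_left (by linarith) h7)
    (fun t z => by
      obtain ⟨ζ, hζ⟩ := h (c + t • v) (n + 1) (Fin.cons v a) (Fin.cons z b)
      refine ⟨ζ, ?_⟩
      rw [hN, hq, hq1, step_sum_k4, step_sum_k3]
      simp only [Fin.sum_univ_succ, Fin.cons_zero, Fin.cons_succ] at hζ
      have e1 : ∀ r, ∫ y, k4 (c + t • v + y) v z (a r) (b r) ∂μ =
          ∫ y, k4 (c + t • v + y) (a r) (b r) z v ∂μ := by
        intro r
        congr 1
        funext y
        rw [k4_comm23, k4_comm12, k4_comm34, k4_comm23, k4_comm34]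
      have e2 : ∀ r, ∫ y, k4 (c + t • v + y) (a r) (b r) v z ∂μ =
          ∫ y, k4 (c + t • v + y) (a r) (b r) z v ∂μ := by
        intro r
        congr 1
        funext y
        rw [k4_comm34]
      have e3 : ∫ y, k4 (c + t • v + y) v z v z ∂μ = ∫ y, k4 (c + t • v + y) z z v v ∂μ := by
        congr 1
        funext y
        rw [k4_comm12, k4_comm34, k4_comm23]
      have e4 : ∫ y, k3 (c + t • v + y) v z ζ ∂μ = ∫ y, k3 (c + t • v + y) z ζ v ∂μ := by
        congr 1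
        funext y
        rw [k3_comm12, k3_comm23]
      simp only [e1, e2, e3, e4, Finset.sum_add_distrib] at hζ
      refine le_trans (le_of_eq ?_) hζ
      ring)
  refine ⟨β, ?_⟩
  refine le_trans (le_of_eq ?_) hβ
  -- rewrite everything as an integral over the Gaussian
  have hci : ∀ {f : ℝ → ℝ} {B : ℝ}, Continuous f → (∀ t, |f t| ≤ B) →
      Integrable f (gaussianReal 0 1) := by
    intro f B hf hB
    exact Integrable.of_bound hf.aestronglyMeasurable B (Filter.Eventually.of_forall hB)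
  have hb4 : ∀ (r s : Fin n) (t : ℝ), |∫ z, k4 (c + t • v + z) (a r) (b r) (a s) (b s) ∂μ| ≤
      64 * ‖a r‖ * ‖b r‖ * ‖a s‖ * ‖b s‖ := by
    intro r s t
    exact step_abs_int_le μ _ _ fun z => abs_k4_le (c + t • v + z) (a r) (b r) (a s) (b s)
  have hb3 : ∀ (r : Fin n) (t : ℝ), |∫ z, k3 (c + t • v + z) (a r) (b r) β ∂μ| ≤
      8 * ‖a r‖ * ‖b r‖ * ‖β‖ := by
    intro r t
    exact step_abs_int_le μ _ _ fun z => abs_k3_le (c + t • v + z) (a r) (b r) β
  have hb2 : ∀ (t : ℝ), |∫ z, k2 (c + t • v + z) β β ∂μ| ≤ 4 * ‖β‖ * ‖β‖ := by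
    intro t
    exact step_abs_int_le μ _ _ fun z => abs_k2_le (c + t • v + z) β β
  have hi4 : ∀ r s : Fin n, Integrable (fun t : ℝ =>
      ∫ z, k4 (c + t • v + z) (a r) (b r) (a s) (b s) ∂μ) (gaussianReal 0 1) :=
    fun r s => hci (continuous_int_k4 μ c v _ _ _ _) (hb4 r s)
  have hi3 : ∀ r : Fin n, Integrable (fun t : ℝ =>
      ∫ z, k3 (c + t • v + z) (a r) (b r) β ∂μ) (gaussianReal 0 1) :=
    fun r => hci (continuous_iff_continuousAt.2 fun t =>
      (hasDerivAt_int_k3 μ c v (a r) (b r) β t).continuousAt) (hb3 r)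
  have hi2 : Integrable (fun t : ℝ => ∫ z, k2 (c + t • v + z) β β ∂μ) (gaussianReal 0 1) :=
    hci (continuous_iff_continuousAt.2 fun t =>
      (hasDerivAt_int_k2 μ c v β β t).continuousAt) hb2
  have g4 : ∀ r s : Fin n, ∫ x, k4 (c + x) (a r) (b r) (a s) (b s) ∂(addG v μ) =
      ∫ t, ∫ z, k4 (c + t • v + z) (a r) (b r) (a s) (b s) ∂μ ∂(gaussianReal 0 1) := by
    intro r s
    rw [integral_addG μ v (fun x => k4 (c + x) (a r) (b r) (a s) (b s))
      (step_cont_k4 c _ _ _ _) _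
      (fun x => abs_k4_le _ _ _ _ _)]
    simp only [add_assoc]
  have g3 : ∀ r : Fin n, ∫ x, k3 (c + x) (a r) (b r) β ∂(addG v μ) =
      ∫ t, ∫ z, k3 (c + t • v + z) (a r) (b r) β ∂μ ∂(gaussianReal 0 1) := by
    intro r
    rw [integral_addG μ v (fun x => k3 (c + x) (a r) (b r) β)
      (step_cont_k3 c _ _ _) _
      (fun x => abs_k3_le _ _ _ _)]
    simp only [add_assoc]
  have g2 : ∫ x, k2 (c + x) β β ∂(addG v μ) =
      ∫ t, ∫ z, k2 (c + t • v + z) β β ∂μ ∂(gaussianReal 0 1) := by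
    rw [integral_addG μ v (fun x => k2 (c + x) β β)
      (step_cont_k2 c _ _) _
      (fun x => abs_k2_le _ _ _)]
    simp only [add_assoc]
  have g : ∀ t : ℝ, (∑ r, ∑ s, ∫ z, k4 (c + t • v + z) (a r) (b r) (a s) (b s) ∂μ)
      - 2 * ∑ i, (∑ r, ∫ z, k3 (c + t • v + z) (a r) (b r) (Pi.single i 1) ∂μ) * β i
      + ∑ i, ∑ j, (∫ z, k2 (c + t • v + z) (Pi.single i 1) (Pi.single j 1) ∂μ + 1) * β i * β j
      = (∑ r, ∑ s, ∫ z, k4 (c + t • v + z) (a r) (b r) (a s) (b s) ∂μ)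
      - 2 * ∑ r, ∫ z, k3 (c + t • v + z) (a r) (b r) β ∂μ
      + (∫ z, k2 (c + t • v + z) β β ∂μ + (∑ i, β i) * ∑ i, β i) := by
    intro t
    rw [hN, hq]
  simp only [g]
  have i4 : Integrable (fun t : ℝ => ∑ r, ∑ s,
      ∫ z, k4 (c + t • v + z) (a r) (b r) (a s) (b s) ∂μ) (gaussianReal 0 1) :=
    integrable_finsetSum _ fun r _ => integrable_finsetSum _ fun s _ => hi4 r s
  have i3 : Integrable (fun t : ℝ => 2 * ∑ r,
      ∫ z, k3 (c + t • v + z) (a r) (b r) β ∂μ) (gaussianReal 0 1) :=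
    (integrable_finsetSum _ fun r _ => hi3 r).const_mul 2
  have i43 : Integrable (fun t : ℝ => (∑ r, ∑ s,
      ∫ z, k4 (c + t • v + z) (a r) (b r) (a s) (b s) ∂μ) - 2 * ∑ r,
      ∫ z, k3 (c + t • v + z) (a r) (b r) β ∂μ) (gaussianReal 0 1) := i4.sub i3
  have i2c : Integrable (fun t : ℝ => ∫ z, k2 (c + t • v + z) β β ∂μ +
      (∑ i, β i) * ∑ i, β i) (gaussianReal 0 1) := hi2.add (integrable_const _)
  rw [integral_add i43 i2c, integral_sub i4 i3,
    integral_add hi2 (integrable_const _), integral_const_mul,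
    integral_finsetSum _ (fun r _ => integrable_finsetSum _ fun s _ => hi4 r s),
    integral_finsetSum _ (fun r _ => hi3 r)]
  simp only [g4, g3, g2, integral_const, probReal_univ, smul_eq_mul, one_mul]
  have e5 : ∀ r : Fin n, ∫ t : ℝ, ∑ s,
      ∫ z, k4 (c + t • v + z) (a r) (b r) (a s) (b s) ∂μ ∂(gaussianReal 0 1) =
      ∑ s, ∫ t : ℝ, ∫ z, k4 (c + t • v + z) (a r) (b r) (a s) (b s) ∂μ ∂(gaussianReal 0 1) :=
    fun r => integral_finsetSum _ fun s _ => hi4 r s
  simp only [e5]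
  ring

end Pool.H65.PS
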