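import Pool.Agent.Helper65.PS.Fcc
import Pool.Agent.Helper65.PS.Exl

set_option autoImplicit false

open MeasureTheory ProbabilityTheory

namespace Pool.H65.PS

theorem sym_lse_comp {ι : Type} [Fintype ι] (x : ι → ℝ) (σ : Equiv.Perm ι) :
    lse (fun j => x (σ j)) = lse x := by
  unfold lse
  congr 1
  exact Equiv.sum_comp σ fun j => Real.exp (x j)

theorem sym_continuous_lin {ι κ : Type} [Fintype κ] (W : κ → ι → ℝ) :
    Continuous (lin W) := by
  unfold lin
  exact continuous_finsetSum _ fun i _ => (continuous_apply i).smul continuous_const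

theorem sym_integral_lse {ι κ κ' : Type} [Fintype ι] [Nonempty ι] [Fintype κ] [Fintype κ']
    (W : κ → ι → ℝ) (W' : κ' → ι → ℝ) (h : ∀ j k, ∑ i, W i j * W i k = ∑ i, W' i j * W' i k)
    (c : ι → ℝ) : ∫ g, lse (c + lin W g) ∂(gam κ) = ∫ g, lse (c + lin W' g) ∂(gam κ') := by
  have hm : AEStronglyMeasurable (fun y : ι → ℝ => lse (c + y)) ((gam κ).map (lin W)) :=
    (continuous_lse.comp (continuous_const.add continuous_id)).aestronglyMeasurable
  have hm' : AEStronglyMeasurable (fun y : ι → ℝ => lse (c + y)) ((gam κ').map (lin W')) :=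
    (continuous_lse.comp (continuous_const.add continuous_id)).aestronglyMeasurable
  have h1 := integral_map (sym_continuous_lin W).measurable.aemeasurable hm
  have h2 := integral_map (sym_continuous_lin W').measurable.aemeasurable hm'
  rw [← h1, ← h2, map_lin_eq W W' h]

/-- the indicator of `{σ} × κ` -/
noncomputable def symS {ι κ : Type} [Fintype ι] [DecidableEq ι] (σ : Equiv.Perm ι) : Equiv.Perm ι × κ → ℝ :=
  fun p => if p.1 = σ then 1 else 0

/-- the functional for the original family -/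
noncomputable def symG {ι κ : Type} [Fintype ι] [Fintype κ] (w : κ → ι → ℝ) (c : ι → ℝ) : ℝ :=
  ∫ g, lse (c + lin w g) ∂(gam κ) - (∑ j, c j) / (Fintype.card ι : ℝ) + (∑ j, c j) ^ 2 / 2

theorem sym_GG {ι κ : Type} [Fintype ι] [DecidableEq ι] [Nonempty ι] [Fintype κ]
    (w : κ → ι → ℝ) (σ : Equiv.Perm ι) (c : ι → ℝ) :
    GG (symW w) (symS (κ := κ) σ) (fun j => c (σ j)) = symG w c := by
  have e1 : ∀ g : Equiv.Perm ι × κ → ℝ,
      ∑ p, (√(symS (κ := κ) σ p) * g p) • symW w p =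
        lin (fun p => √(symS (κ := κ) σ p) • symW w p) g := by
    intro g
    simp only [lin, smul_smul]
    exact Finset.sum_congr rfl fun p _ => by rw [mul_comm]
  have hcov : ∀ j k, ∑ p : Equiv.Perm ι × κ, (√(symS (κ := κ) σ p) • symW w p) j *
      (√(symS (κ := κ) σ p) • symW w p) k =
      ∑ i : κ, (fun j => w i (σ j)) j * (fun j => w i (σ j)) k := by
    intro j k
    rw [Fintype.sum_prod_type, Finset.sum_eq_single σ]
    · refine Finset.sum_congr rfl fun i _ => ?_
      simp [symS, symW]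
    · intro τ _ hτ
      refine Finset.sum_eq_zero fun i _ => ?_
      simp [symS, hτ]
    · intro h
      exact absurd (Finset.mem_univ _) h
  unfold GG symG
  simp_rw [e1]
  rw [sym_integral_lse _ _ hcov, Equiv.sum_comp σ c]
  congr 3
  funext g
  rw [← sym_lse_comp (c + lin w g) σ]
  congr 1
  funext j
  simp only [lin, Pi.add_apply, Finset.sum_apply, Pi.smul_apply]

theorem sym_FF {ι κ : Type} [Fintype ι] [DecidableEq ι] [Nonempty ι] [Fintype κ]
    (w : κ → ι → ℝ) (σ : Equiv.Perm ι) :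
    FF (symW w) (symS (κ := κ) σ) = ⨅ c : ι → ℝ, symG w c := by
  unfold FF
  have hs : Function.Surjective fun (c : ι → ℝ) (j : ι) => c (σ j) := by
    intro c
    refine ⟨fun j => c (σ.symm j), ?_⟩
    funext j
    simp
  rw [← hs.iInf_comp]
  congr 1
  funext c
  exact sym_GG w σ c

theorem symmetrize {ι κ : Type} [Fintype ι] [DecidableEq ι] [Nonempty ι] [Fintype κ]
    (w : κ → ι → ℝ) : ∃ c : ι → ℝ,
    ∫ g, lse (c + lin w g) ∂(gam κ) - (∑ j, c j) / (Fintype.card ι : ℝ)
      ≤ ∫ g, lse ((Real.sqrt ((Fintype.card (Equiv.Perm ι) : ℝ)⁻¹)) • lin (symW w) g)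
          ∂(gam (Equiv.Perm ι × κ)) := by
  obtain ⟨c, hc, -⟩ := exists_minimizer (symW w) (symS (κ := κ) (1 : Equiv.Perm ι))
  have h1 : symG w c = ⨅ c : ι → ℝ, symG w c := by
    rw [← sym_FF w (1 : Equiv.Perm ι), ← hc, ← sym_GG w (1 : Equiv.Perm ι) c]
    rfl
  set N : ℝ := (Fintype.card (Equiv.Perm ι) : ℝ) with hN
  have hN0 : 0 < N := Nat.cast_pos.2 Fintype.card_pos
  have hcon := FF_concave (symW w)
  have h2 := hcon.le_map_sum (t := (Finset.univ : Finset (Equiv.Perm ι))) (w := fun _ => N⁻¹)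
    (p := fun σ => symS (κ := κ) σ) (fun _ _ => by positivity)
    (by
      rw [Finset.sum_const, Finset.card_univ, nsmul_eq_mul]
      exact mul_inv_cancel₀ hN0.ne')
    (fun σ _ p => by
      show 0 ≤ symS (κ := κ) σ p
      unfold symS
      split_ifs
      · exact zero_le_one
      · exact le_rfl)
  have h3 : ∑ σ : Equiv.Perm ι, N⁻¹ • symS (κ := κ) σ = fun _ => N⁻¹ := by
    funext p
    simp [symS, Finset.sum_apply]
  have h4 : ∑ σ : Equiv.Perm ι, N⁻¹ • FF (symW w) (symS (κ := κ) σ) =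
      ⨅ c : ι → ℝ, symG w c := by
    simp only [sym_FF, Finset.sum_const, Finset.card_univ, nsmul_eq_mul, smul_eq_mul]
    rw [← mul_assoc, ← hN, mul_inv_cancel₀ hN0.ne', one_mul]
  rw [h3, h4] at h2
  obtain ⟨c', hc', hmin⟩ := exists_minimizer (symW w) (fun _ => N⁻¹)
  have h5 := hmin 0
  rw [hc'] at h5
  have h6 : GG (symW w) (fun _ => N⁻¹) 0 =
      ∫ g, lse (√N⁻¹ • lin (symW w) g) ∂(gam (Equiv.Perm ι × κ)) := by
    unfold GG
    simp only [Pi.zero_apply, Finset.sum_const_zero, zero_div, sub_zero, zero_add]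
    have e : ∀ g : Equiv.Perm ι × κ → ℝ, ∑ p, (√N⁻¹ * g p) • symW w p =
        √N⁻¹ • lin (symW w) g := by
      intro g
      simp only [lin, Finset.smul_sum, smul_smul]
    simp_rw [e]
    ring
  refine ⟨c, ?_⟩
  rw [← h6]
  have h7 : 0 ≤ (∑ j, c j) ^ 2 / 2 := by positivity
  have h8 : symG w c = ∫ g, lse (c + lin w g) ∂(gam κ) - (∑ j, c j) / (Fintype.card ι : ℝ)
    + (∑ j, c j) ^ 2 / 2 := rfl
  linarith

end Pool.H65.PS
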