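import Pool.Agent.Helper65.PS.Gth
import Pool.Agent.Helper65.PS.Lid
import Pool.Agent.Helper65.PS.Dsc

set_option autoImplicit false

open MeasureTheory ProbabilityTheory

namespace Pool.H65.PS

section upp

variable {m n : ℕ}

theorem upp_av_add (f g : (Fin n → Fin m) → ℝ) : av (fun ω => f ω + g ω) = av f + av g := by
  unfold av; rw [Finset.sum_add_distrib, mul_add]

theorem upp_av_smul (c : ℝ) (f : (Fin n → Fin m) → ℝ) : av (fun ω => c * f ω) = c * av f := by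
  unfold av; rw [← Finset.mul_sum]; ring

theorem upp_av_sum {α : Type} (s : Finset α) (f : α → (Fin n → Fin m) → ℝ) :
    av (fun ω => ∑ a ∈ s, f a ω) = ∑ a ∈ s, av (f a) := by
  unfold av; rw [Finset.sum_comm, Finset.mul_sum]

theorem upp_av_const (hm : 0 < m) (c : ℝ) : av (fun _ : Fin n → Fin m => c) = c := by
  unfold av
  rw [Finset.sum_const, Finset.card_univ, nsmul_eq_mul, Fintype.card_fun, Fintype.card_fin,
    Fintype.card_fin]
  have : (m : ℝ) ^ n ≠ 0 := by positivity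
  push_cast
  field_simp

theorem upp_av_mono (f g : (Fin n → Fin m) → ℝ) (h : ∀ ω, f ω ≤ g ω) : av f ≤ av g := by
  unfold av
  exact mul_le_mul_of_nonneg_left (Finset.sum_le_sum fun ω _ => h ω) (by positivity)

theorem upp_sum_lev (f : (Fin n → Fin m) → Fin m → ℝ)
    (hf : ∀ ω, f ω ∈ stdSimplex ℝ (Fin m)) (i : Fin n) (a : Fin m) :
    ∑ j, lev (fun ω => f ω j) i a = 0 := by
  unfold lev
  rw [Finset.sum_sub_distrib, ← upp_av_sum, ← upp_av_sum]
  have h1 : ∀ ω : Fin n → Fin m, ∑ j, f ω j = 1 := fun ω => (hf ω).2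
  simp_rw [h1]
  rw [sub_self]

theorem upp_W_nonneg (f : (Fin n → Fin m) → Fin m → ℝ) : 0 ≤ ∑ j, W1 (fun ω => f ω j) := by
  refine Finset.sum_nonneg fun j _ => ?_
  unfold W1
  exact Finset.sum_nonneg fun i _ => mul_nonneg (by positivity)
    (Finset.sum_nonneg fun a _ => sq_nonneg _)

theorem upp_W_le (hm : 0 < m) (f : (Fin n → Fin m) → Fin m → ℝ)
    (hf : ∀ ω, f ω ∈ stdSimplex ℝ (Fin m)) : ∑ j, W1 (fun ω => f ω j) ≤ 1 := by
  have h1 : ∀ j, W1 (fun ω => f ω j) ≤ av (fun ω => f ω j) := by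
    intro j
    refine (W1_le hm _).trans ?_
    have h2 : av (fun ω => f ω j ^ 2) ≤ av (fun ω => f ω j) := by
      refine upp_av_mono _ _ fun ω => ?_
      have h3 := (hf ω).1 j
      have h4 : f ω j ≤ 1 := by
        rw [← (hf ω).2]
        exact Finset.single_le_sum (f := fun j => f ω j) (fun k _ => (hf ω).1 k)
          (Finset.mem_univ j)
      nlinarith
    have h5 := sq_nonneg (av (fun ω => f ω j))
    linarith
  refine (Finset.sum_le_sum fun j _ => h1 j).trans ?_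
  rw [← upp_av_sum]
  have h1 : ∀ ω : Fin n → Fin m, ∑ j, f ω j = 1 := fun ω => (hf ω).2
  simp_rw [h1]
  rw [upp_av_const hm]

/-- the sum of the squares of all coefficients -/
theorem upp_sq (hm : 0 < m) (f : (Fin n → Fin m) → Fin m → ℝ) :
    ∑ i : Fin n, ∑ a, ∑ j, lev (fun ω => f ω j) i a ^ 2 = m * ∑ j, W1 (fun ω => f ω j) := by
  have h1 : ∀ j, (m : ℝ) * W1 (fun ω => f ω j) =
      ∑ i : Fin n, ∑ a, lev (fun ω => f ω j) i a ^ 2 := by
    intro j
    unfold W1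
    rw [Finset.mul_sum]
    refine Finset.sum_congr rfl fun i _ => ?_
    have : (m : ℝ) ≠ 0 := by positivity
    rw [← mul_assoc, mul_inv_cancel₀ this, one_mul]
  rw [Finset.mul_sum, Finset.sum_congr rfl fun j _ => h1 j]
  have h2 : ∀ i : Fin n, ∑ a, ∑ j, lev (fun ω => f ω j) i a ^ 2 =
      ∑ j, ∑ a, lev (fun ω => f ω j) i a ^ 2 := fun i => Finset.sum_comm
  rw [Finset.sum_congr rfl fun i _ => h2 i]
  exact Finset.sum_comm

/-- the third moments -/
theorem upp_cube (hm : 0 < m) (f : (Fin n → Fin m) → Fin m → ℝ) (τ : ℝ)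
    (hτ : ∀ i j, infl (fun ω => f ω j) i ≤ τ) :
    ∑ i : Fin n, ∑ a, ‖(fun j => lev (fun ω => f ω j) i a)‖ ^ 3 ≤
      Real.sqrt (m * τ) * (m * ∑ j, W1 (fun ω => f ω j)) := by
  rw [← upp_sq hm, Finset.mul_sum]
  refine Finset.sum_le_sum fun i _ => ?_
  rw [Finset.mul_sum]
  refine Finset.sum_le_sum fun a _ => ?_
  have h1 : ‖(fun j => lev (fun ω => f ω j) i a)‖ ≤ Real.sqrt (m * τ) := by
    rw [pi_norm_le_iff_of_nonneg (Real.sqrt_nonneg _)]
    intro j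
    rw [Real.norm_eq_abs]
    refine Real.abs_le_sqrt ?_
    refine (lev_sq_le hm _ i a).trans ?_
    exact mul_le_mul_of_nonneg_left (hτ i j) (Nat.cast_nonneg _)
  have h2 : ‖(fun j => lev (fun ω => f ω j) i a)‖ ^ 2 ≤ ∑ j, lev (fun ω => f ω j) i a ^ 2 := by
    have h3 : ‖(fun j => lev (fun ω => f ω j) i a)‖ ≤
        Real.sqrt (∑ j, lev (fun ω => f ω j) i a ^ 2) := by
      rw [pi_norm_le_iff_of_nonneg (Real.sqrt_nonneg _)]
      intro j
      rw [Real.norm_eq_abs]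
      refine Real.abs_le_sqrt ?_
      exact Finset.single_le_sum (f := fun j => lev (fun ω => f ω j) i a ^ 2)
        (fun k _ => sq_nonneg _) (Finset.mem_univ j)
    calc _ ≤ Real.sqrt (∑ j, lev (fun ω => f ω j) i a ^ 2) ^ 2 :=
          pow_le_pow_left₀ (norm_nonneg _) h3 2
      _ = _ := Real.sq_sqrt (Finset.sum_nonneg fun j _ => sq_nonneg _)
  calc ‖(fun j => lev (fun ω => f ω j) i a)‖ ^ 3
      = ‖(fun j => lev (fun ω => f ω j) i a)‖ * ‖(fun j => lev (fun ω => f ω j) i a)‖ ^ 2 := by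
        ring
    _ ≤ _ := mul_le_mul h1 h2 (by positivity) (Real.sqrt_nonneg _)

end upp

theorem upper_W1 (m : ℕ) (hm : 2 ≤ m) (ε : ℝ) (hε : 0 < ε) : ∃ τ : ℝ, 0 < τ ∧
    ∀ (n : ℕ) (f : (Fin n → Fin m) → Fin m → ℝ), (∀ ω, f ω ∈ stdSimplex ℝ (Fin m)) →
      (∀ j, av (fun ω => f ω j) = 1 / (m : ℝ)) →
      (∀ i j, infl (fun ω => f ω j) i ≤ τ) →
      ∑ j, W1 (fun ω => f ω j) ≤ MM (Fin m) ^ 2 / ((m : ℝ) - 1) + ε := by
  have hm0 : 0 < m := by omega
  have : NeZero m := ⟨hm0.ne'⟩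
  have : Nonempty (Fin m) := ⟨⟨0, hm0⟩⟩
  have : Nontrivial (Fin m) := Fin.nontrivial_iff_two_le.2 hm
  obtain ⟨K, hK, hL⟩ := lindeberg_disc (ι := Fin m) m hm0
  have hm1 : (2 : ℝ) ≤ m := by exact_mod_cast hm
  -- the choice of `β`
  set δ := ε / 2 with hδ
  have hδ0 : 0 < δ := by positivity
  obtain ⟨β, hβ0, hβ⟩ : ∃ β : ℝ, 0 < β ∧ Real.log m / β ≤ δ / 2 := by
    refine ⟨max 1 (2 * Real.log m / δ), by positivity, ?_⟩
    rw [div_le_iff₀ (by positivity)]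
    have h1 : 2 * Real.log m / δ ≤ max 1 (2 * Real.log m / δ) := le_max_right _ _
    rw [div_le_iff₀ hδ0] at h1
    linarith
  obtain ⟨τ, hτ0, hτ⟩ : ∃ τ : ℝ, 0 < τ ∧ K * β ^ 2 * (Real.sqrt (m * τ) * m) ≤ δ / 2 := by
    obtain ⟨x, hx⟩ : ∃ x : ℝ, x = δ / (2 * (K * β ^ 2 * m + 1)) := ⟨_, rfl⟩
    have hx0 : 0 < x := by rw [hx]; positivity
    refine ⟨x ^ 2 / m, by positivity, ?_⟩
    have h1 : (m : ℝ) * (x ^ 2 / m) = x ^ 2 := by field_simp
    rw [h1, Real.sqrt_sq hx0.le]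
    have h2 : x * (2 * (K * β ^ 2 * m + 1)) = δ := by
      rw [hx]; field_simp
    nlinarith
  refine ⟨τ, hτ0, fun n f hf hav hinf => ?_⟩
  set W := ∑ j, W1 (fun ω => f ω j) with hW
  have hW0 : 0 ≤ W := upp_W_nonneg f
  have hW1 : W ≤ 1 := upp_W_le hm0 f hf
  set F : Fin n → Fin m → Fin m → ℝ := fun i a j => β * lev (fun ω => f ω j) i a with hF
  have hF0 : ∀ i, ∑ a, F i a = 0 := by
    intro i
    funext j
    rw [Finset.sum_apply]
    simp only [hF, Pi.zero_apply]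
    rw [← Finset.mul_sum, sum_lev hm0, mul_zero]
  obtain ⟨c, hc⟩ := gaussian_bound (fun p : Fin n × Fin m => (Real.sqrt m)⁻¹ • F p.1 p.2) (by
    intro p
    simp only [Pi.smul_apply, smul_eq_mul, hF]
    rw [← Finset.mul_sum, ← Finset.mul_sum, upp_sum_lev f hf, mul_zero, mul_zero])
  have h1 := hL n F hF0 c
  rw [abs_le] at h1
  -- the lower bound for `av lse`
  have h2 : β * W + (∑ j, c j) / m ≤ av (fun ω : Fin n → Fin m => lse (c + ∑ i, F i (ω i))) := by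
    have h3 : β * W + (∑ j, c j) / m =
        av (fun ω => ∑ j, f ω j * (c + ∑ i, F i (ω i)) j) := by
      rw [upp_av_sum]
      have h4 : ∀ j, av (fun ω => f ω j * (c + ∑ i, F i (ω i)) j) =
          c j * (1 / m) + β * W1 (fun ω => f ω j) := by
        intro j
        have h5 : ∀ ω : Fin n → Fin m, f ω j * (c + ∑ i, F i (ω i)) j =
            c j * f ω j + β * (f ω j * ∑ i, lev (fun ω => f ω j) i (ω i)) := by
          intro ω
          rw [Pi.add_apply, Finset.sum_apply]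
          simp only [hF]
          rw [← Finset.mul_sum]
          ring
        simp_rw [h5]
        rw [upp_av_add, upp_av_smul, upp_av_smul, hav j, av_mul_lev hm0 (fun ω => f ω j)]
      rw [Finset.sum_congr rfl fun j _ => h4 j, Finset.sum_add_distrib, ← Finset.sum_mul,
        ← Finset.mul_sum, hW]
      ring
    rw [h3]
    refine upp_av_mono _ _ fun ω => ?_
    calc ∑ j, f ω j * (c + ∑ i, F i (ω i)) j
        ≤ ∑ j, f ω j * lse (c + ∑ i, F i (ω i)) :=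
          Finset.sum_le_sum fun j _ => mul_le_mul_of_nonneg_left (le_lse _ j) ((hf ω).1 j)
      _ = lse (c + ∑ i, F i (ω i)) := by rw [← Finset.sum_mul, (hf ω).2, one_mul]
  -- the third moments
  have h3 : ∑ i, ∑ a, ‖F i a‖ ^ 3 ≤ β ^ 3 * (Real.sqrt (m * τ) * (m * W)) := by
    have h4 : ∀ i a, ‖F i a‖ ^ 3 = β ^ 3 * ‖(fun j => lev (fun ω => f ω j) i a)‖ ^ 3 := by
      intro i a
      have h5 : F i a = β • (fun j => lev (fun ω => f ω j) i a) := rfl
      rw [h5, norm_smul, Real.norm_eq_abs, abs_of_pos hβ0, mul_pow]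
    simp_rw [h4]
    simp_rw [← Finset.mul_sum]
    exact mul_le_mul_of_nonneg_left (upp_cube hm0 f τ hinf) (by positivity)
  -- the variances
  have h4 : ∑ p : Fin n × Fin m, ∑ j, ((Real.sqrt m)⁻¹ • F p.1 p.2) j ^ 2 = β ^ 2 * W := by
    have h5 : ∀ p : Fin n × Fin m, ∑ j, ((Real.sqrt m)⁻¹ • F p.1 p.2) j ^ 2 =
        β ^ 2 * ((m : ℝ)⁻¹ * ∑ j, lev (fun ω => f ω j) p.1 p.2 ^ 2) := by
      intro p
      rw [Finset.mul_sum, Finset.mul_sum]
      refine Finset.sum_congr rfl fun j _ => ?_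
      rw [Pi.smul_apply, smul_eq_mul, mul_pow, inv_pow, Real.sq_sqrt (Nat.cast_nonneg _)]
      simp only [hF]
      ring
    rw [Finset.sum_congr rfl fun p _ => h5 p, ← Finset.mul_sum, ← Finset.mul_sum,
      Fintype.sum_prod_type, upp_sq hm0 f, ← mul_assoc (m : ℝ)⁻¹,
      inv_mul_cancel₀ (by positivity), one_mul]
  rw [h4, Fintype.card_fin] at hc
  have h5 : Real.sqrt (β ^ 2 * W / ((m : ℝ) - 1)) = β * Real.sqrt (W / ((m : ℝ) - 1)) := by
    rw [mul_div_assoc, Real.sqrt_mul (by positivity), Real.sqrt_sq hβ0.le]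
  rw [h5] at hc
  have h6 : K * ∑ i, ∑ a, ‖F i a‖ ^ 3 ≤ K * (β ^ 3 * (Real.sqrt (m * τ) * (m * 1))) := by
    refine mul_le_mul_of_nonneg_left (h3.trans ?_) hK
    gcongr
  have h7 : β * W ≤ Real.log m + β * Real.sqrt (W / ((m : ℝ) - 1)) * MM (Fin m) +
      K * (β ^ 3 * (Real.sqrt (m * τ) * (m * 1))) := by
    linarith [h1.2]
  have h8 : W ≤ Real.log m / β + Real.sqrt (W / ((m : ℝ) - 1)) * MM (Fin m) +
      K * β ^ 2 * (Real.sqrt (m * τ) * m) := by
    have h9 : β * W ≤ β * (Real.log m / β + Real.sqrt (W / ((m : ℝ) - 1)) * MM (Fin m) +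
      K * β ^ 2 * (Real.sqrt (m * τ) * m)) := by
      have h10 : β * (Real.log m / β) = Real.log m := by field_simp
      nlinarith
    exact le_of_mul_le_mul_left h9 hβ0
  have h9 : Real.sqrt (W / ((m : ℝ) - 1)) ^ 2 = W / ((m : ℝ) - 1) :=
    Real.sq_sqrt (div_nonneg hW0 (by linarith))
  -- conclusion: `W ≤ x b + δ` with `x ^ 2 = W`
  have h10 : W ≤ δ + Real.sqrt (W / ((m : ℝ) - 1)) * MM (Fin m) := by linarith
  have hm2 : (0 : ℝ) < (m : ℝ) - 1 := by linarith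
  have h11 : Real.sqrt (W / ((m : ℝ) - 1)) * MM (Fin m) ≤
      (W + MM (Fin m) ^ 2 / ((m : ℝ) - 1)) / 2 := by
    set x := Real.sqrt (W / ((m : ℝ) - 1)) with hx
    have h12 : W = x ^ 2 * ((m : ℝ) - 1) := by rw [h9]; field_simp
    have h13 : MM (Fin m) ^ 2 / ((m : ℝ) - 1) * ((m : ℝ) - 1) = MM (Fin m) ^ 2 := by field_simp
    have h14 : x * MM (Fin m) * ((m : ℝ) - 1) ≤
        (W + MM (Fin m) ^ 2 / ((m : ℝ) - 1)) / 2 * ((m : ℝ) - 1) := by
      have h15 : (W + MM (Fin m) ^ 2 / ((m : ℝ) - 1)) / 2 * ((m : ℝ) - 1) =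
          (W * ((m : ℝ) - 1) + MM (Fin m) ^ 2) / 2 := by
        have h16 : (W + MM (Fin m) ^ 2 / ((m : ℝ) - 1)) / 2 * ((m : ℝ) - 1) =
          (W * ((m : ℝ) - 1) + MM (Fin m) ^ 2 / ((m : ℝ) - 1) * ((m : ℝ) - 1)) / 2 := by ring
        rw [h16, h13]
      rw [h15, h12]
      nlinarith [sq_nonneg (x * ((m : ℝ) - 1) - MM (Fin m))]
    exact le_of_mul_le_mul_right h14 hm2
  linarith

end Pool.H65.PS
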